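import Pool.Agent.H283R2.BK.Defs

/-!
# Positivity of the comparison form on an arc without closed solutions
-/

set_option autoImplicit false

open Real Complex Set MeasureTheory Filter Topology

namespace Pool.Agent.H283R2.BK

theorem AP_conj {f : ℝ → ℂ} {f' : ℂ} {t : ℝ} (h : HasDerivAt f f' t) :
    HasDerivAt (fun x => (starRingEnd ℂ) (f x)) ((starRingEnd ℂ) f') t := h.star

theorem AP_re {f : ℝ → ℂ} {f' : ℂ} {t : ℝ} (h : HasDerivAt f f' t) :
    HasDerivAt (fun x => (f x).re) f'.re t :=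
  Complex.reCLM.hasFDerivAt.comp_hasDerivAt t h

theorem AP_im {f : ℝ → ℂ} {f' : ℂ} {t : ℝ} (h : HasDerivAt f f' t) :
    HasDerivAt (fun x => (f x).im) f'.im t :=
  Complex.imCLM.hasFDerivAt.comp_hasDerivAt t h

theorem AP_ip {f g : ℝ → ℂ} {f' g' : ℂ} {t : ℝ} (hf : HasDerivAt f f' t)
    (hg : HasDerivAt g g' t) :
    HasDerivAt (fun x => ip (f x) (g x)) (ip f' (g t) + ip (f t) g') t := by
  have h : HasDerivAt (fun x => (f x).re * (g x).re + (f x).im * (g x).im)
      (f'.re * (g t).re + (f t).re * g'.re + (f'.im * (g t).im + (f t).im * g'.im)) t :=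
    ((AP_re hf).mul (AP_re hg)).add ((AP_im hf).mul (AP_im hg))
  exact h.congr_deriv (by unfold ip; ring)

theorem AP_ip_le (z w : ℂ) : |ip z w| ≤ ‖z‖ * ‖w‖ := by
  have h : ip z w = (z * (starRingEnd ℂ) w).re := by
    unfold ip
    simp
  rw [h]
  calc |(z * (starRingEnd ℂ) w).re| ≤ ‖z * (starRingEnd ℂ) w‖ := Complex.abs_re_le_norm _
    _ = _ := by rw [norm_mul, Complex.norm_conj]

/-- the algebraic identity of the calibration -/
theorem AP_alg (m y m' y' q : ℂ) (h : cr m' m = cr y' y) :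
    2 * ip (-q + I * (m' - y')) (-m) - ip m q - cr (I * (m - y)) (-q + I * (m' - y')) =
      -(ip (-q + I * (m' - y')) y + ip (I * (m - y)) y') := by
  unfold cr at h
  simp only [ip, cr, Complex.add_re, Complex.add_im, Complex.neg_re, Complex.neg_im,
    Complex.mul_re, Complex.mul_im, Complex.sub_re, Complex.sub_im, Complex.I_re, Complex.I_im]
  linear_combination (-1) * h

/-- Cauchy-Schwarz for the comparison form -/
theorem AP_cs (c c' w b : ℂ) (hc : normSq c < 1) (hp : ‖cb c c'‖ < ca c c') :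
    2 * ip w b - ip b (PP c c' b) ≤ Qp c c' w := by
  have hn : 0 < 1 - normSq c := by linarith
  have ha : 0 < ca c c' := lt_of_le_of_lt (norm_nonneg _) hp
  have hd : 0 < (ca c c') ^ 2 - normSq (cb c c') := by
    rw [Complex.normSq_eq_norm_sq]
    nlinarith [norm_nonneg (cb c c')]
  unfold Qp PP
  generalize ca c c' = a at hp ha hd ⊢
  generalize cb c c' = β at hp hd ⊢
  generalize 1 - normSq c = n at hn ⊢
  have hq : ∀ z : ℂ, 0 ≤ a * normSq z + ((starRingEnd ℂ) β * z ^ 2).re := by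
    intro z
    have h1 := Complex.abs_re_le_norm ((starRingEnd ℂ) β * z ^ 2)
    rw [norm_mul, Complex.norm_conj, norm_pow] at h1
    have h2 := neg_abs_le ((starRingEnd ℂ) β * z ^ 2).re
    have h3 : ‖β‖ * ‖z‖ ^ 2 ≤ a * ‖z‖ ^ 2 := mul_le_mul_of_nonneg_right hp.le (sq_nonneg _)
    rw [Complex.normSq_eq_norm_sq]
    linarith
  have key := hq (w - ((a : ℂ) * b - β * (starRingEnd ℂ) b) / (n : ℂ))
  have hid : n * (a * normSq w + ((starRingEnd ℂ) β * w ^ 2).re) / (a ^ 2 - normSq β) -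
      (2 * ip w b - ip b (((a : ℂ) * b - β * (starRingEnd ℂ) b) / (n : ℂ))) =
      n / (a ^ 2 - normSq β) * (a * normSq (w - ((a : ℂ) * b - β * (starRingEnd ℂ) b) / (n : ℂ)) +
        ((starRingEnd ℂ) β * (w - ((a : ℂ) * b - β * (starRingEnd ℂ) b) / (n : ℂ)) ^ 2).re) := by
    have e : ((a : ℂ) * b - β * (starRingEnd ℂ) b) / (n : ℂ) =
        (⟨(a * b.re - (β.re * b.re + β.im * b.im)) / n,
          (a * b.im - (β.im * b.re - β.re * b.im)) / n⟩ : ℂ) := by
      apply Complex.ext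
      · rw [Complex.div_ofReal_re]
        simp
      · rw [Complex.div_ofReal_im]
        simp
        ring
    rw [e]
    have hd' : a ^ 2 - normSq β ≠ 0 := hd.ne'
    have hE : a ^ 2 - normSq β = a * a - (β.re * β.re + β.im * β.im) := by
      rw [Complex.normSq_apply β]
      ring
    generalize a ^ 2 - normSq β = E at hd' hE ⊢
    simp only [ip, Complex.normSq_apply, pow_two, Complex.mul_re, Complex.mul_im, Complex.sub_re,
      Complex.sub_im, Complex.conj_re, Complex.conj_im]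
    field_simp
    rw [hE]
    ring
  have h4 : 0 ≤ n / (a ^ 2 - normSq β) * (a * normSq (w - ((a : ℂ) * b - β * (starRingEnd ℂ) b) /
      (n : ℂ)) + ((starRingEnd ℂ) β * (w - ((a : ℂ) * b - β * (starRingEnd ℂ) b) /
      (n : ℂ)) ^ 2).re) := mul_nonneg (by positivity) key
  linarith

noncomputable section

/-- coefficients of the solution operator -/
def APa (c : ℝ → ℂ) (s r : ℝ) : ℂ :=
  (en (2 * (r - s)) - c r * (starRingEnd ℂ) (c s) * en (-(2 * (r - s)))) /
    ((rh (c r) * rh (c s) : ℝ) : ℂ)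

def APb (c : ℝ → ℂ) (s r : ℝ) : ℂ :=
  (c r * en (-(2 * (r - s))) - en (2 * (r - s)) * c s) / ((rh (c r) * rh (c s) : ℝ) : ℂ)

theorem AP_lin (c : ℝ → ℂ) (s r : ℝ) (V : ℂ) :
    Mt c s r V = APa c s r * V + APb c s r * (starRingEnd ℂ) V := by
  unfold Mt APa APb
  ring

/-- coefficients of `I P'` -/
def APk (c c' : ℂ) : ℂ := I * (ca c c' : ℂ) / ((1 - normSq c : ℝ) : ℂ)
def APl (c c' : ℂ) : ℂ := -(I * cb c c') / ((1 - normSq c : ℝ) : ℂ)

theorem AP_IP (c c' z : ℂ) : I * PP c c' z = APk c c' * z + APl c c' * (starRingEnd ℂ) z := by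
  unfold PP APk APl
  ring

/-- the determinant -/
def APd (c : ℝ → ℂ) (s r : ℝ) : ℂ :=
  (APa c s r - 1) * (starRingEnd ℂ) (APa c s r - 1) - APb c s r * (starRingEnd ℂ) (APb c s r)

/-- the calibrating solution -/
def APy (c : ℝ → ℂ) (s : ℝ) (Y : ℝ → ℂ) (r : ℝ) : ℂ :=
  ((starRingEnd ℂ) (APa c s r - 1) * (-(I * Y r)) -
    APb c s r * (starRingEnd ℂ) (-(I * Y r))) / APd c s r

theorem APd_conj (c : ℝ → ℂ) (s r : ℝ) : (starRingEnd ℂ) (APd c s r) = APd c s r := by
  unfold APd
  simp only [map_sub, map_mul, Complex.conj_conj, map_one]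
  ring

theorem APy_eq (c : ℝ → ℂ) (s : ℝ) (Y : ℝ → ℂ) (r : ℝ) (h : APd c s r ≠ 0) :
    (APa c s r - 1) * APy c s Y r + APb c s r * (starRingEnd ℂ) (APy c s Y r) = -(I * Y r) := by
  unfold APy
  rw [map_div₀, APd_conj, mul_div_assoc', mul_div_assoc', ← add_div, div_eq_iff h]
  unfold APd
  simp only [map_sub, map_mul, map_neg, map_one, Complex.conj_conj, Complex.conj_I]
  ring

theorem APd_ne {c c' : ℝ → ℂ} (hG : Good c c') (hMT : S_MT) {s r : ℝ} (h : Dt c s r ≠ 0) :
    APd c s r ≠ 0 := by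
  intro hd
  have hinj := (hMT c c' hG).2.2.2.2.2 s r h
  have key : ∀ v : ℂ, (starRingEnd ℂ) (APa c s r - 1) * v - APb c s r * (starRingEnd ℂ) v = 0 := by
    intro v
    apply hinj
    rw [AP_lin]
    have h1 : APa c s r * ((starRingEnd ℂ) (APa c s r - 1) * v -
        APb c s r * (starRingEnd ℂ) v) + APb c s r * (starRingEnd ℂ)
          ((starRingEnd ℂ) (APa c s r - 1) * v - APb c s r * (starRingEnd ℂ) v) =
        ((starRingEnd ℂ) (APa c s r - 1) * v - APb c s r * (starRingEnd ℂ) v) +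
          APd c s r * v := by
      unfold APd
      simp only [map_sub, map_mul, map_one, Complex.conj_conj]
      ring
    rw [h1, hd, zero_mul, add_zero]
  have k1 := key 1
  have k2 := key I
  rw [map_one, mul_one, mul_one] at k1
  rw [Complex.conj_I] at k2
  have k3 : (starRingEnd ℂ) (APa c s r - 1) + APb c s r = 0 := by
    have : ((starRingEnd ℂ) (APa c s r - 1) + APb c s r) * I = 0 := by
      rw [← k2]
      ring
    exact (mul_eq_zero.1 this).resolve_right Complex.I_ne_zero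
  have k4 : APb c s r = 0 := by
    have : (2 : ℂ) * APb c s r = 0 := by linear_combination k3 - k1
    exact (mul_eq_zero.1 this).resolve_left two_ne_zero
  have k5 : APa c s r - 1 = 0 := by
    rw [k4, sub_zero] at k1
    exact (map_eq_zero _).1 k1
  have k6 : Mt c s r 1 = 1 := by
    rw [AP_lin, k4, sub_eq_zero.1 k5]
    simp
  exact one_ne_zero (hinj 1 k6)

theorem APa_deriv {c c' : ℝ → ℂ} (hG : Good c c') (hMT : S_MT) (s r : ℝ) :
    HasDerivAt (APa c s) (APk (c r) (c' r) * APa c s r +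
      APl (c r) (c' r) * (starRingEnd ℂ) (APb c s r)) r ∧
    HasDerivAt (APb c s) (APk (c r) (c' r) * APb c s r +
      APl (c r) (c' r) * (starRingEnd ℂ) (APa c s r)) r := by
  have hM := (hMT c c' hG).1
  have h1 := hM s r 1
  have h2 := hM s r I
  have e1 : (fun t => Mt c s t 1) = fun t => APa c s t + APb c s t := by
    funext t
    rw [AP_lin]
    simp
  have e2 : (fun t => Mt c s t I) = fun t => (APa c s t - APb c s t) * I := by
    funext t
    rw [AP_lin, Complex.conj_I]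
    ring
  rw [e1, AP_IP, AP_lin] at h1
  rw [e2, AP_IP, AP_lin] at h2
  simp only [map_add, map_mul, map_neg, map_one, mul_one, Complex.conj_I, neg_neg] at h1 h2
  have hI := Complex.I_mul_I
  constructor
  · have e3 : (fun t => ((APa c s t + APb c s t) + -I * ((APa c s t - APb c s t) * I)) / 2) =
        APa c s := by
      funext t
      linear_combination (-(1 / 2) * (APa c s t - APb c s t)) * hI
    have h3 := (h1.add (h2.const_mul (-I))).div_const 2
    replace h3 : HasDerivAt (fun t => ((APa c s t + APb c s t) +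
      -I * ((APa c s t - APb c s t) * I)) / 2) _ r := h3
    rw [e3] at h3
    refine h3.congr_deriv ?_
    linear_combination (-(1 / 2) * (APk (c r) (c' r) * (APa c s r - APb c s r) +
        APl (c r) (c' r) * ((starRingEnd ℂ) (APb c s r) - (starRingEnd ℂ) (APa c s r)))) * hI
  · have e3 : (fun t => ((APa c s t + APb c s t) + I * ((APa c s t - APb c s t) * I)) / 2) =
        APb c s := by
      funext t
      linear_combination ((1 / 2) * (APa c s t - APb c s t)) * hI
    have h3 := (h1.add (h2.const_mul I)).div_const 2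
    replace h3 : HasDerivAt (fun t => ((APa c s t + APb c s t) +
      I * ((APa c s t - APb c s t) * I)) / 2) _ r := h3
    rw [e3] at h3
    refine h3.congr_deriv ?_
    linear_combination ((1 / 2) * (APk (c r) (c' r) * (APa c s r - APb c s r) +
        APl (c r) (c' r) * ((starRingEnd ℂ) (APb c s r) - (starRingEnd ℂ) (APa c s r)))) * hI

theorem AP_init {c c' : ℝ → ℂ} (hG : Good c c') (hMT : S_MT) (s : ℝ) :
    APa c s s = 1 ∧ APb c s s = 0 := by
  have hM := (hMT c c' hG).2.1 s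
  have h1 := hM 1
  have h2 := hM I
  rw [AP_lin, map_one, mul_one, mul_one] at h1
  rw [AP_lin, Complex.conj_I] at h2
  have h3 : APa c s s - APb c s s = 1 := by
    have : (APa c s s - APb c s s - 1) * I = 0 := by linear_combination h2
    have := (mul_eq_zero.1 this).resolve_right Complex.I_ne_zero
    linear_combination this
  constructor
  · linear_combination (1 / 2 : ℂ) * h1 + (1 / 2 : ℂ) * h3
  · linear_combination (1 / 2 : ℂ) * h1 - (1 / 2 : ℂ) * h3

theorem AP_cont {Z : Type} [TopologicalSpace Z] {c c' : ℝ → ℂ} (hG : Good c c') {τ : Z → ℝ}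
    {w : Z → ℂ} (hτ : Continuous τ) (hw : Continuous w) :
    Continuous fun z => Qp (c (τ z)) (c' (τ z)) (w z) := by
  have hc : Continuous c := continuous_iff_continuousAt.2 fun t => (hG.d t).continuousAt
  have h1 : Continuous fun z => c (τ z) := hc.comp hτ
  have h2 : Continuous fun z => c' (τ z) := hG.cc.comp hτ
  have hns : Continuous fun z => normSq (c (τ z)) := Complex.continuous_normSq.comp h1
  have hcb : Continuous fun z => cb (c (τ z)) (c' (τ z)) := by
    unfold cb
    exact (continuous_const.mul h1).add (continuous_const.mul h2)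
  have hca : Continuous fun z => ca (c (τ z)) (c' (τ z)) := by
    unfold ca
    have h3 : Continuous fun z => (c (τ z) * (starRingEnd ℂ) (c' (τ z))).im :=
      Complex.continuous_im.comp (h1.mul (Complex.continuous_conj.comp h2))
    exact (continuous_const.mul (continuous_const.add hns)).add h3
  have hnb : Continuous fun z => normSq (cb (c (τ z)) (c' (τ z))) :=
    Complex.continuous_normSq.comp hcb
  unfold Qp
  refine Continuous.div ?_ ((hca.pow 2).sub hnb) fun z => ?_
  · refine (continuous_const.sub hns).mul ((hca.mul (Complex.continuous_normSq.comp hw)).add ?_)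
    exact Complex.continuous_re.comp ((Complex.continuous_conj.comp hcb).mul (hw.pow 2))
  · have hp := hG.pos (τ z)
    rw [Complex.normSq_eq_norm_sq]
    have := norm_nonneg (cb (c (τ z)) (c' (τ z)))
    nlinarith

theorem AP_cr_cont {Z : Type} [TopologicalSpace Z] {f g : Z → ℂ} (hf : Continuous f)
    (hg : Continuous g) : Continuous fun z => cr (f z) (g z) := by
  unfold cr
  exact ((Complex.continuous_re.comp hf).mul (Complex.continuous_im.comp hg)).sub
    ((Complex.continuous_im.comp hf).mul (Complex.continuous_re.comp hg))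

theorem AP_PPneg (c c' m : ℂ) : PP c c' (-m) = -PP c c' m := by
  unfold PP
  rw [map_neg]
  ring

/-- the derivative of the calibration -/
theorem AP_deriv {c c' : ℝ → ℂ} (hG : Good c c') (hMT : S_MT) {s r : ℝ} (hD : Dt c s r ≠ 0)
    {Y Y' : ℝ → ℂ} (hY : ∀ t, HasDerivAt Y (Y' t) t) :
    ∃ d : ℝ, HasDerivAt (fun t => ip (Y t) (APy c s Y t)) d r ∧
      0 ≤ Qp (c r) (c' r) (Y' r) - cr (Y r) (Y' r) + d := by
  obtain ⟨ha, hb⟩ := APa_deriv hG hMT s r
  have hd0 := APd_ne hG hMT hD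
  have hv : HasDerivAt (fun t => -(I * Y t)) (-(I * Y' r)) r := ((hY r).const_mul I).neg
  have ha1 := ha.sub_const 1
  have hd := (ha1.mul (AP_conj ha1)).sub (hb.mul (AP_conj hb))
  have hyd : DifferentiableAt ℝ (APy c s Y) r :=
    ((((AP_conj ha1).mul hv).sub (hb.mul (AP_conj hv))).div hd hd0).differentiableAt
  obtain ⟨y', hy'⟩ : ∃ y', HasDerivAt (APy c s Y) y' r := ⟨_, hyd.hasDerivAt⟩
  have hdc : ContinuousAt (APd c s) r := hd.continuousAt
  have hev : ∀ᶠ t in 𝓝 r, I * (APa c s t * APy c s Y t +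
      APb c s t * (starRingEnd ℂ) (APy c s Y t) - APy c s Y t) = Y t := by
    filter_upwards [hdc.eventually_ne hd0] with t ht
    have h1 := APy_eq c s Y t ht
    have hI := Complex.I_mul_I
    linear_combination I * h1 - Y t * hI
  have hrel : HasDerivAt (fun t => I * (APa c s t * APy c s Y t +
      APb c s t * (starRingEnd ℂ) (APy c s Y t) - APy c s Y t)) _ r :=
    (((ha.mul hy').add (hb.mul (AP_conj hy'))).sub hy').const_mul I
  have hYr : Y' r = _ := (hY r).unique (hrel.congr_of_eventuallyEq (hev.mono fun t ht => ht.symm))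
  have hYr0 := hev.self_of_nhds
  have hcr := (hMT c c' hG).2.2.2.2.1 s r y' (APy c s Y r)
  have hIP := AP_IP (c r) (c' r) (Mt c s r (APy c s Y r))
  have halg := AP_alg (Mt c s r (APy c s Y r)) (APy c s Y r) (Mt c s r y') y'
    (PP (c r) (c' r) (Mt c s r (APy c s Y r))) hcr
  have hY1 : Y' r = -PP (c r) (c' r) (Mt c s r (APy c s Y r)) + I * (Mt c s r y' - y') := by
    have hI := Complex.I_mul_I
    have h5 : -PP (c r) (c' r) (Mt c s r (APy c s Y r)) =
        I * (I * PP (c r) (c' r) (Mt c s r (APy c s Y r))) := by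
      linear_combination (-PP (c r) (c' r) (Mt c s r (APy c s Y r))) * hI
    rw [h5, hIP, hYr, AP_lin, AP_lin]
    simp only [map_add, map_mul, Complex.conj_conj]
    ring
  have hY0 : Y r = I * (Mt c s r (APy c s Y r) - APy c s Y r) := by
    rw [← hYr0, AP_lin]
  refine ⟨_, AP_ip (hY r) hy', ?_⟩
  have hcs := AP_cs (c r) (c' r) (Y' r) (-Mt c s r (APy c s Y r)) (hG.lt r) (hG.pos r)
  rw [AP_PPneg] at hcs
  have hneg : ip (-Mt c s r (APy c s Y r)) (-PP (c r) (c' r) (Mt c s r (APy c s Y r))) =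
      ip (Mt c s r (APy c s Y r)) (PP (c r) (c' r) (Mt c s r (APy c s Y r))) := by
    unfold ip
    simp
  rw [hneg] at hcs
  rw [← hY1, ← hY0] at halg
  linarith

/-- the boundary term at the left end -/
theorem AP_lim {c c' : ℝ → ℂ} (hG : Good c c') (hMT : S_MT) {s u : ℝ} (hsu : s < u)
    (hD : ∀ r ∈ Ioc s u, Dt c s r ≠ 0) {Y Y' : ℝ → ℂ} (hY : ∀ t, HasDerivAt Y (Y' t) t)
    (Ys : Y s = 0) : Tendsto (fun t => ip (Y t) (APy c s Y t)) (𝓝[>] s) (𝓝 0) := by
  obtain ⟨ha, hb⟩ := APa_deriv hG hMT s s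
  obtain ⟨ia, ib⟩ := AP_init hG hMT s
  rw [ia, ib, mul_one, map_zero, mul_zero, add_zero] at ha
  rw [ia, ib, mul_zero, map_one, mul_one, zero_add] at hb
  have hmono : 𝓝[>] s ≤ 𝓝[≠] s := nhdsWithin_mono _ fun x hx => ne_of_gt hx
  have ta := ((hasDerivAt_iff_tendsto_slope.1 ha).mono_left hmono).norm
  have tb := ((hasDerivAt_iff_tendsto_slope.1 hb).mono_left hmono).norm
  have tY := ((hasDerivAt_iff_tendsto_slope.1 (hY s)).mono_left hmono).norm
  have hpos : 0 < ‖APk (c s) (c' s)‖ - ‖APl (c s) (c' s)‖ := by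
    have hn : 0 < 1 - normSq (c s) := by have := hG.lt s; linarith
    have hp := hG.pos s
    have hca : 0 < ca (c s) (c' s) := lt_of_le_of_lt (norm_nonneg _) hp
    unfold APk APl
    rw [norm_div, norm_div, norm_neg, norm_mul, norm_mul, Complex.norm_I, one_mul, one_mul,
      Complex.norm_real, Complex.norm_real, Real.norm_of_nonneg hn.le,
      Real.norm_of_nonneg hca.le, ← sub_div]
    exact div_pos (by linarith) hn
  have tab := ta.sub tb
  have tq := tY.div tab hpos.ne'
  have hYc : Tendsto (fun t => ‖Y t‖) (𝓝[>] s) (𝓝 0) := by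
    have h1 := ((hY s).continuousAt.tendsto.mono_left nhdsWithin_le_nhds :
      Tendsto Y (𝓝[>] s) (𝓝 (Y s))).norm
    rwa [Ys, norm_zero] at h1
  have tg := hYc.mul tq
  rw [zero_mul] at tg
  refine squeeze_zero_norm' ?_ tg
  have hev1 : ∀ᶠ t in 𝓝[>] s, 0 < ‖slope (APa c s) s t‖ - ‖slope (APb c s) s t‖ :=
    tab.eventually_const_lt hpos
  filter_upwards [hev1, Ioc_mem_nhdsGT hsu] with t ht htu
  have hts : 0 < t - s := sub_pos.2 htu.1
  have h1 := APy_eq c s Y t (APd_ne hG hMT (hD t htu))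
  have hsa : ‖APa c s t - 1‖ = (t - s) * ‖slope (APa c s) s t‖ := by
    rw [slope_def_module, ia, norm_smul, norm_inv, Real.norm_of_nonneg hts.le]
    field_simp
  have hsb : ‖APb c s t‖ = (t - s) * ‖slope (APb c s) s t‖ := by
    rw [slope_def_module, ib, sub_zero, norm_smul, norm_inv, Real.norm_of_nonneg hts.le]
    field_simp
  have hsY : ‖Y t‖ = (t - s) * ‖slope Y s t‖ := by
    rw [slope_def_module, Ys, sub_zero, norm_smul, norm_inv, Real.norm_of_nonneg hts.le]
    field_simp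
  have h2 : ‖Y t‖ = ‖(APa c s t - 1) * APy c s Y t +
      APb c s t * (starRingEnd ℂ) (APy c s Y t)‖ := by
    rw [h1, norm_neg, norm_mul, Complex.norm_I, one_mul]
  have h3 : ‖APa c s t - 1‖ * ‖APy c s Y t‖ - ‖APb c s t‖ * ‖APy c s Y t‖ ≤ ‖Y t‖ := by
    rw [h2]
    have h4 := norm_sub_le ((APa c s t - 1) * APy c s Y t +
      APb c s t * (starRingEnd ℂ) (APy c s Y t)) (APb c s t * (starRingEnd ℂ) (APy c s Y t))
    rw [add_sub_cancel_right, norm_mul, norm_mul, Complex.norm_conj] at h4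
    linarith
  rw [hsa, hsb, hsY] at h3
  have h5 : (‖slope (APa c s) s t‖ - ‖slope (APb c s) s t‖) * ‖APy c s Y t‖ ≤
      ‖slope Y s t‖ := by
    have h6 : (t - s) * ((‖slope (APa c s) s t‖ - ‖slope (APb c s) s t‖) * ‖APy c s Y t‖) ≤
        (t - s) * ‖slope Y s t‖ := by linarith
    exact le_of_mul_le_mul_left h6 hts
  have h7 : ‖APy c s Y t‖ ≤ ‖slope Y s t‖ /
      (‖slope (APa c s) s t‖ - ‖slope (APb c s) s t‖) := by
    rw [le_div_iff₀ ht, mul_comm]
    exact h5
  rw [Real.norm_eq_abs]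
  exact (AP_ip_le _ _).trans (mul_le_mul_of_nonneg_left h7 (norm_nonneg _))

/-- Step 1. -/
theorem AP_step {c c' : ℝ → ℂ} (hG : Good c c') (hMT : S_MT) {s u : ℝ} (hsu : s < u)
    (hD : ∀ r ∈ Ioc s u, Dt c s r ≠ 0) {Y Y' : ℝ → ℂ} (hY : ∀ t, HasDerivAt Y (Y' t) t)
    (hY' : Continuous Y') (Ys : Y s = 0) (Yu : Y u = 0) : 0 ≤ Fc c c' Y Y' s u := by
  have hYc : Continuous Y := continuous_iff_continuousAt.2 fun t => (hY t).continuousAt
  have hfc : Continuous fun t => Qp (c t) (c' t) (Y' t) - cr (Y t) (Y' t) :=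
    (AP_cont hG continuous_id hY').sub (AP_cr_cont hYc hY')
  have hH : ∀ r ∈ Ioc s u, ∃ d : ℝ, 0 ≤ d ∧ HasDerivAt (fun t =>
      (∫ x in s..t, (Qp (c x) (c' x) (Y' x) - cr (Y x) (Y' x))) + ip (Y t) (APy c s Y t)) d r := by
    intro r hr
    obtain ⟨d, h1, h2⟩ := AP_deriv hG hMT (hD r hr) hY
    exact ⟨_, h2, (hfc.integral_hasStrictDerivAt s r).hasDerivAt.add h1⟩
  have hmono : MonotoneOn (fun t =>
      (∫ x in s..t, (Qp (c x) (c' x) (Y' x) - cr (Y x) (Y' x))) + ip (Y t) (APy c s Y t))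
      (Ioc s u) := by
    refine monotoneOn_of_deriv_nonneg (convex_Ioc s u) (fun r hr => ?_) (fun r hr => ?_)
      (fun r hr => ?_)
    · obtain ⟨d, -, h⟩ := hH r hr
      exact h.continuousAt.continuousWithinAt
    · obtain ⟨d, -, h⟩ := hH r (interior_subset hr)
      exact h.differentiableAt.differentiableWithinAt
    · obtain ⟨d, h0, h⟩ := hH r (interior_subset hr)
      rw [h.deriv]
      exact h0
  have h1 : Tendsto (fun t => ∫ x in s..t, (Qp (c x) (c' x) (Y' x) - cr (Y x) (Y' x)))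
      (𝓝[>] s) (𝓝 0) := by
    have h2 := ((hfc.integral_hasStrictDerivAt s s).hasDerivAt.continuousAt.tendsto.mono_left
      nhdsWithin_le_nhds : Tendsto _ (𝓝[>] s) _)
    rwa [intervalIntegral.integral_same] at h2
  have h3 := h1.add (AP_lim hG hMT hsu hD hY Ys)
  rw [add_zero] at h3
  have h4 : (0 : ℝ) ≤ (∫ x in s..u, (Qp (c x) (c' x) (Y' x) - cr (Y x) (Y' x))) +
      ip (Y u) (APy c s Y u) := by
    refine le_of_tendsto h3 ?_
    filter_upwards [Ioc_mem_nhdsGT hsu] with t ht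
    exact hmono ht ⟨hsu, le_rfl⟩ ht.2
  have h5 : ip (Y u) (APy c s Y u) = 0 := by
    rw [Yu]
    unfold ip
    simp
  rw [h5, add_zero] at h4
  exact h4

theorem t_AP (hMT : S_MT) : S_AP := by
  intro c c' hG s u hsu hD Y Y' hY hY' Ys Yu
  have hYc : Continuous Y := continuous_iff_continuousAt.2 fun t => (hY t).continuousAt
  have hg : Continuous (Function.uncurry fun (p : ℝ × ℂ) (t : ℝ) =>
      Qp (c t) (c' t) (Y' t - p.2) - cr (Y t - ((t - s : ℝ) : ℂ) * p.2) (Y' t - p.2)) := by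
    have e1 : Continuous fun z : (ℝ × ℂ) × ℝ => Y' z.2 - z.1.2 :=
      (hY'.comp continuous_snd).sub (continuous_snd.comp continuous_fst)
    have e2 : Continuous fun z : (ℝ × ℂ) × ℝ => Y z.2 - ((z.2 - s : ℝ) : ℂ) * z.1.2 :=
      (hYc.comp continuous_snd).sub ((Complex.continuous_ofReal.comp
        (continuous_snd.sub continuous_const)).mul (continuous_snd.comp continuous_fst))
    exact (AP_cont hG continuous_snd e1).sub (AP_cr_cont e2 e1)
  have hΦ := intervalIntegral.continuous_parametric_intervalIntegral_of_continuous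
    (μ := volume) (a₀ := s) hg (continuous_fst : Continuous fun p : ℝ × ℂ => p.1)
  have hlim : Tendsto (fun r => ((r, Y r / ((r - s : ℝ) : ℂ)) : ℝ × ℂ)) (𝓝[<] u)
      (𝓝 (u, 0)) := by
    refine Tendsto.prodMk_nhds nhdsWithin_le_nhds ?_
    have h1 : Tendsto (fun r => Y r / ((r - s : ℝ) : ℂ)) (𝓝 u)
        (𝓝 (Y u / ((u - s : ℝ) : ℂ))) := by
      refine (hYc.tendsto u).div ?_ ?_
      · exact (Complex.continuous_ofReal.comp (continuous_id.sub continuous_const)).tendsto u
      · rw [Complex.ofReal_ne_zero]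
        exact (sub_pos.2 hsu).ne'
    rw [Yu, zero_div] at h1
    exact h1.mono_left nhdsWithin_le_nhds
  have h1 := (hΦ.tendsto (u, 0)).comp hlim
  have h2 : (∫ t in s..u, (Qp (c t) (c' t) (Y' t - 0) -
      cr (Y t - ((t - s : ℝ) : ℂ) * 0) (Y' t - 0))) = Fc c c' Y Y' s u := by
    simp only [sub_zero, mul_zero]
    rfl
  rw [← h2]
  refine ge_of_tendsto h1 ?_
  filter_upwards [Ioo_mem_nhdsLT hsu] with r hr
  have hrs : ((r - s : ℝ) : ℂ) ≠ 0 := by
    rw [Complex.ofReal_ne_zero]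
    exact (sub_pos.2 hr.1).ne'
  refine AP_step hG hMT hr.1 (fun t ht => hD t ⟨ht.1, lt_of_le_of_lt ht.2 hr.2⟩)
    (Y := fun t => Y t - ((t - s : ℝ) : ℂ) * (Y r / ((r - s : ℝ) : ℂ)))
    (Y' := fun t => Y' t - Y r / ((r - s : ℝ) : ℂ)) (fun t => ?_)
    (hY'.sub continuous_const) ?_ ?_
  · have h3 : HasDerivAt (fun t : ℝ => ((t - s : ℝ) : ℂ)) ((1 : ℝ) : ℂ) t :=
      ((hasDerivAt_id t).sub_const s).ofReal_comp
    have h4 := (hY t).sub (h3.mul_const (Y r / ((r - s : ℝ) : ℂ)))
    rw [Complex.ofReal_one, one_mul] at h4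
    exact h4
  · simp [Ys]
  · show Y r - ((r - s : ℝ) : ℂ) * (Y r / ((r - s : ℝ) : ℂ)) = 0
    rw [mul_div_cancel₀ _ hrs, sub_self]

end

end Pool.Agent.H283R2.BK
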