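import Pool.Agent.H283R2.BK.Defs

/-!
# Birkhoff's conjecture up to rotation number 1/3: general smooth strictly convex tables
-/

open Real Complex Set MeasureTheory

namespace Pool.Agent.H283R2.BK

noncomputable section

/-- A strictly convex table with `C²` boundary, parametrised counterclockwise by arclength: every
other boundary point lies strictly to the left of the tangent line.  The curvature may vanish. -/
structure Table (γ : ℝ → ℂ) (L : ℝ) : Prop where
  pos : 0 < L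
  smooth : ContDiff ℝ 2 γ
  unit : ∀ s, ‖deriv γ s‖ = 1
  per : ∀ s, γ (s + L) = γ s
  conv : ∀ s t, s < t → t < s + L → 0 < ((starRingEnd ℂ) (deriv γ s) * (γ t - γ s)).im

/-- cosine of the angle between the chord from `γ a` to `γ b` and the tangent at its end `γ b` -/
def Cin (γ : ℝ → ℂ) (a b : ℝ) : ℝ :=
  ((starRingEnd ℂ) (deriv γ b) * (γ b - γ a)).re / ‖γ b - γ a‖
/-- cosine of the angle between the chord from `γ a` to `γ b` and the tangent at its start `γ a` -/
def Cout (γ : ℝ → ℂ) (a b : ℝ) : ℝ :=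
  ((starRingEnd ℂ) (deriv γ a) * (γ b - γ a)).re / ‖γ b - γ a‖

/-- `z` is a billiard trajectory (lifted arclength parameters of the reflection points) -/
def IsOrbit (γ : ℝ → ℂ) (L : ℝ) (z : ℕ → ℝ) : Prop :=
  ∀ n, z n < z (n + 1) ∧ z (n + 1) < z n + L ∧ Cin γ (z n) (z (n + 1)) = Cout γ (z (n + 1)) (z (n + 2))

/-- A closed curve in the phase annulus (oriented chords from `γ (x t)` to `γ (y t)`), winding once
around it, simple, and all of whose points are periodic with rotation number `p/q`: the trajectory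
closes up after `q` reflections, during which the reflection points travel `p` times around. -/
structure RotCircle (γ : ℝ → ℂ) (L : ℝ) (p q : ℕ) (x y : ℝ → ℝ) : Prop where
  cx : Continuous x
  cy : Continuous y
  px : ∀ t, x (t + 1) = x t + L
  py : ∀ t, y (t + 1) = y t + L
  lo : ∀ t, x t < y t
  hi : ∀ t, y t < x t + L
  inj : ∀ t t', x t = x t' → y t = y t' → t = t'
  orb : ∀ t, ∃ z : ℕ → ℝ, IsOrbit γ L z ∧ z 0 = x t ∧ z 1 = y t ∧ ∀ n, z (n + q) = z n + p * L

/-- an invariant circle of `(p,q)`-periodic points in graph form -/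
structure Graph (γ : ℝ → ℂ) (L : ℝ) (p q : ℕ) (f : ℝ → ℝ) : Prop where
  cont : Continuous f
  mono : StrictMono f
  per : ∀ s, f (s + L) = f s + L
  lo : ∀ s, s < f s
  hi : ∀ s, f s < s + L
  refl : ∀ s, Cin γ s (f s) = Cout γ (f s) (f (f s))
  rot : ∀ s, f^[q] s = s + p * L

/-- the twist property -/
def S_TW : Prop := ∀ (γ : ℝ → ℂ) (L : ℝ), Table γ L → ∀ b : ℝ,
  StrictMonoOn (fun a => Cin γ a b) (Ioo (b - L) b) ∧
  StrictAntiOn (fun c => Cout γ b c) (Ioo b (b + L)) ∧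
  (∀ a ∈ Ioo (b - L) b, -1 < Cin γ a b ∧ Cin γ a b < 1) ∧
  (∀ c ∈ Ioo b (b + L), -1 < Cout γ b c ∧ Cout γ b c < 1)

/-- a simple closed curve of `(p,q)`-periodic points is an invariant graph -/
def S_BR1 : Prop := ∀ (γ : ℝ → ℂ) (L : ℝ) (p q : ℕ) (x y : ℝ → ℝ), Table γ L → 0 < q →
  RotCircle γ L p q x y → ∃ f, Graph γ L p q f

/-- Mather: an invariant circle forces positive curvature -/
def S_BR2 : Prop := ∀ (γ : ℝ → ℂ) (L : ℝ) (p q : ℕ) (f : ℝ → ℝ), Table γ L → 0 < q →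
  Graph γ L p q f → ∀ s, 0 < ((starRingEnd ℂ) (deriv γ s) * deriv (deriv γ) s).im

/-- parametrisation by the normal angle -/
def S_BR3 : Prop := ∀ (γ : ℝ → ℂ) (L : ℝ), Table γ L →
  (∀ s, 0 < ((starRingEnd ℂ) (deriv γ s) * deriv (deriv γ) s).im) →
  ∃ (φ : ℝ → ℝ) (δ : ℝ → ℂ) (ρ : ℝ → ℝ), IsOval δ ρ ∧ Continuous φ ∧ StrictMono φ ∧
    (∀ s, φ (s + L) = φ s + 2 * Real.pi) ∧ (∀ s, γ s = δ (φ s)) ∧
    (∀ s, deriv γ s = I * cexp (φ s * I)) ∧ Set.range γ = Set.range δ

/-- the invariant circles in line coordinates -/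
def S_BR4 : Prop := ∀ (γ : ℝ → ℂ) (L : ℝ) (p q : ℕ) (f φ : ℝ → ℝ) (δ : ℝ → ℂ) (ρ : ℝ → ℝ),
  Table γ L → 0 < q → Graph γ L p q f → IsOval δ ρ → Continuous φ → StrictMono φ →
  (∀ s, φ (s + L) = φ s + 2 * Real.pi) → (∀ s, γ s = δ (φ s)) →
  (∀ s, deriv γ s = I * cexp (φ s * I)) →
  ∃ g, InvCircle δ g ∧ ∀ x, g^[q] x = x + 2 * Real.pi * p

end

end Pool.Agent.H283R2.BK
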