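-- hyps: S_TW (theorem t_BR1 (hTW : S_TW) : S_BR1)
import Pool.Agent.H283R2.BK.Defs2

set_option autoImplicit false

/-! Task BR1 (helper87): a simple closed curve of periodic points is an invariant graph -/

open Real Complex Set MeasureTheory Filter Topology

namespace Pool.Agent.H283R2.BK

theorem BR1_ne {γ : ℝ → ℂ} {L : ℝ} (hT : Table γ L) {s t : ℝ} (h1 : s < t) (h2 : t < s + L) :
    γ t - γ s ≠ 0 := by
  intro h
  have := hT.conv s t h1 h2
  rw [h] at this
  simp at this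

theorem BR1_dper {γ : ℝ → ℂ} {L : ℝ} (hT : Table γ L) (s : ℝ) :
    deriv γ (s + L) = deriv γ s := by
  have h : (fun s => γ (s + L)) = γ := funext hT.per
  have h2 : deriv (fun s => γ (s + L)) s = deriv γ (s + L) := deriv_comp_add_const ..
  rw [← h2, h]

theorem BR1_det {γ : ℝ → ℂ} {L : ℝ} (hTW : S_TW) (hT : Table γ L) {v w : ℕ → ℝ}
    (hv : IsOrbit γ L v) (hw : IsOrbit γ L w) (n : ℕ) (h0 : v n = w n)
    (h1 : v (n + 1) = w (n + 1)) : v (n + 2) = w (n + 2) := by
  obtain ⟨-, ha, -, -⟩ := hTW γ L hT (v (n + 1))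
  have e : Cout γ (v (n + 1)) (v (n + 2)) = Cout γ (v (n + 1)) (w (n + 2)) := by
    rw [← (hv n).2.2, h0, h1]
    exact (hw n).2.2
  exact ha.injOn ⟨(hv (n + 1)).1, (hv (n + 1)).2.1⟩
    ⟨by rw [h1]; exact (hw (n + 1)).1, by rw [h1]; exact (hw (n + 1)).2.1⟩ e

theorem BR1_step {γ : ℝ → ℂ} {L : ℝ} (hTW : S_TW) (hT : Table γ L) {v w : ℕ → ℝ}
    (hv : IsOrbit γ L v) (hw : IsOrbit γ L w) (hle : ∀ n, w n ≤ v n) (n : ℕ)
    (h : v (n + 1) = w (n + 1)) : v (n + 2) = w (n + 2) := by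
  obtain ⟨hm, ha, -, -⟩ := hTW γ L hT (w (n + 1))
  have m1 : v n ∈ Ioo (w (n + 1) - L) (w (n + 1)) := by
    have a1 := (hv n).1
    have a2 := (hv n).2.1
    rw [h] at a1 a2
    exact ⟨by linarith, a1⟩
  have m2 : w n ∈ Ioo (w (n + 1) - L) (w (n + 1)) := by
    have a1 := (hw n).1
    have a2 := (hw n).2.1
    exact ⟨by linarith, a1⟩
  have m3 : v (n + 2) ∈ Ioo (w (n + 1)) (w (n + 1) + L) := by
    have a1 := (hv (n + 1)).1
    have a2 := (hv (n + 1)).2.1
    rw [h] at a1 a2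
    exact ⟨a1, a2⟩
  have m4 : w (n + 2) ∈ Ioo (w (n + 1)) (w (n + 1) + L) :=
    ⟨(hw (n + 1)).1, (hw (n + 1)).2.1⟩
  have c1 : Cin γ (w n) (w (n + 1)) ≤ Cin γ (v n) (w (n + 1)) := hm.monotoneOn m2 m1 (hle n)
  have c2 : Cout γ (w (n + 1)) (v (n + 2)) ≤ Cout γ (w (n + 1)) (w (n + 2)) :=
    ha.antitoneOn m4 m3 (hle (n + 2))
  have e1 : Cin γ (v n) (w (n + 1)) = Cout γ (w (n + 1)) (v (n + 2)) := by
    have := (hv n).2.2
    rwa [h] at this
  have e2 : Cin γ (w n) (w (n + 1)) = Cout γ (w (n + 1)) (w (n + 2)) := (hw n).2.2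
  have e4 : Cout γ (w (n + 1)) (v (n + 2)) = Cout γ (w (n + 1)) (w (n + 2)) := by
    apply le_antisymm c2
    rw [← e1, ← e2]
    exact c1
  exact ha.injOn m3 m4 e4

theorem BR1_iter {q : ℕ} {c : ℝ} {v : ℕ → ℝ} (hv : ∀ n, v (n + q) = v n + c) (K n : ℕ) :
    v (n + K * q) = v n + K * c := by
  induction K with
  | zero => simp
  | succ K ih =>
    have : n + (K + 1) * q = (n + K * q) + q := by ring
    rw [this, hv, ih]
    push_cast
    ring

theorem BR1_eq {γ : ℝ → ℂ} {L : ℝ} (hTW : S_TW) (hT : Table γ L) {q : ℕ} {c : ℝ} (hq : 0 < q)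
    {v w : ℕ → ℝ} (hv : IsOrbit γ L v) (hw : IsOrbit γ L w)
    (hvp : ∀ n, v (n + q) = v n + c) (hwp : ∀ n, w (n + q) = w n + c)
    (hle : ∀ n, w n ≤ v n) (m : ℕ) (h : v m = w m) (n : ℕ) : v n = w n := by
  obtain ⟨j, hj⟩ : ∃ j, m + q = j + 1 := ⟨m + q - 1, by omega⟩
  have h0 : v (j + 1) = w (j + 1) := by
    rw [← hj, hvp, hwp, h]
  have hf : ∀ k, v (j + 1 + k) = w (j + 1 + k) := by
    intro k
    induction k with
    | zero => exact h0
    | succ k ih =>
      have e1 : j + 1 + (k + 1) = (j + k) + 2 := by ring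
      have e2 : j + 1 + k = (j + k) + 1 := by ring
      rw [e1]
      rw [e2] at ih
      exact BR1_step hTW hT hv hw hle _ ih
  have hle2 : j + 1 ≤ n + (j + 1) * q := by
    have : (j + 1) * 1 ≤ (j + 1) * q := Nat.mul_le_mul_left _ hq
    omega
  obtain ⟨k, hk⟩ := Nat.exists_eq_add_of_le hle2
  have e := hf k
  rw [← hk, BR1_iter hvp, BR1_iter hwp] at e
  linarith

theorem BR1_cstep {γ : ℝ → ℂ} {L : ℝ} (hTW : S_TW) (hT : Table γ L) (a b c : ℝ → ℝ)
    (ca : Continuous a) (cb : Continuous b) (h1 : ∀ t, a t < b t) (h2 : ∀ t, b t < a t + L)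
    (h3 : ∀ t, b t < c t) (h4 : ∀ t, c t < b t + L)
    (h5 : ∀ t, Cin γ (a t) (b t) = Cout γ (b t) (c t)) : Continuous c := by
  have hγ : Continuous γ := hT.smooth.continuous
  have hγ' : Continuous (deriv γ) := hT.smooth.continuous_deriv (by norm_num)
  rw [continuous_iff_continuousAt]
  intro t0
  have hcin : ContinuousAt (fun t => Cin γ (a t) (b t)) t0 := by
    unfold Cin
    refine ContinuousAt.div ?_ ?_ ?_
    · exact (Complex.continuous_re.comp ((Complex.continuous_conj.comp (hγ'.comp cb)).mul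
        ((hγ.comp cb).sub (hγ.comp ca)))).continuousAt
    · exact (((hγ.comp cb).sub (hγ.comp ca)).norm).continuousAt
    · exact norm_ne_zero_iff.2 (BR1_ne hT (h1 t0) (h2 t0))
  have hcout : ∀ d, b t0 < d → d < b t0 + L → ContinuousAt (fun t => Cout γ (b t) d) t0 := by
    intro d hd1 hd2
    unfold Cout
    refine ContinuousAt.div ?_ ?_ ?_
    · exact (Complex.continuous_re.comp ((Complex.continuous_conj.comp (hγ'.comp cb)).mul
        (continuous_const.sub (hγ.comp cb)))).continuousAt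
    · exact ((continuous_const.sub (hγ.comp cb)).norm).continuousAt
    · exact norm_ne_zero_iff.2 (BR1_ne hT hd1 hd2)
  refine tendsto_order.2 ⟨fun d hd => ?_, fun d hd => ?_⟩
  · obtain ⟨d', hd1, hd2, hd3⟩ : ∃ d', d ≤ d' ∧ b t0 < d' ∧ d' < c t0 :=
      ⟨max d ((b t0 + c t0) / 2), le_max_left _ _,
        lt_of_lt_of_le (by linarith [h3 t0]) (le_max_right _ _), max_lt hd (by linarith [h3 t0])⟩
    have hlt : Cin γ (a t0) (b t0) < Cout γ (b t0) d' := by
      rw [h5 t0]
      exact (hTW γ L hT (b t0)).2.1 ⟨hd2, lt_trans hd3 (h4 t0)⟩ ⟨h3 t0, h4 t0⟩ hd3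
    have ev1 : ∀ᶠ t in 𝓝 t0, Cin γ (a t) (b t) < Cout γ (b t) d' :=
      Filter.Tendsto.eventually_lt hcin (hcout d' hd2 (lt_trans hd3 (h4 t0))) hlt
    have ev2 : ∀ᶠ t in 𝓝 t0, b t < d' := (cb.tendsto t0).eventually_lt_const hd2
    have ev3 : ∀ᶠ t in 𝓝 t0, d' < b t + L :=
      ((cb.add continuous_const).tendsto t0).eventually_const_lt (lt_trans hd3 (h4 t0))
    filter_upwards [ev1, ev2, ev3] with t e1 e2 e3
    refine lt_of_le_of_lt hd1 ?_
    by_contra hcon
    have hcon' : c t ≤ d' := not_lt.1 hcon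
    have h6 : Cout γ (b t) d' ≤ Cout γ (b t) (c t) :=
      (hTW γ L hT (b t)).2.1.antitoneOn ⟨h3 t, h4 t⟩ ⟨e2, e3⟩ hcon'
    rw [← h5 t] at h6
    exact absurd (lt_of_lt_of_le e1 h6) (lt_irrefl _)
  · obtain ⟨d', hd1, hd2, hd3⟩ : ∃ d', d' ≤ d ∧ c t0 < d' ∧ d' < b t0 + L :=
      ⟨min d ((c t0 + (b t0 + L)) / 2), min_le_left _ _,
        lt_min hd (by linarith [h4 t0]),
        lt_of_le_of_lt (min_le_right _ _) (by linarith [h4 t0])⟩
    have hlt : Cout γ (b t0) d' < Cin γ (a t0) (b t0) := by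
      rw [h5 t0]
      exact (hTW γ L hT (b t0)).2.1 ⟨h3 t0, h4 t0⟩ ⟨lt_trans (h3 t0) hd2, hd3⟩ hd2
    have ev1 : ∀ᶠ t in 𝓝 t0, Cout γ (b t) d' < Cin γ (a t) (b t) :=
      Filter.Tendsto.eventually_lt (hcout d' (lt_trans (h3 t0) hd2) hd3) hcin hlt
    have ev2 : ∀ᶠ t in 𝓝 t0, b t < d' :=
      (cb.tendsto t0).eventually_lt_const (lt_trans (h3 t0) hd2)
    have ev3 : ∀ᶠ t in 𝓝 t0, d' < b t + L :=
      ((cb.add continuous_const).tendsto t0).eventually_const_lt hd3
    filter_upwards [ev1, ev2, ev3] with t e1 e2 e3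
    refine lt_of_lt_of_le ?_ hd1
    by_contra hcon
    have hcon' : d' ≤ c t := not_lt.1 hcon
    have h6 : Cout γ (b t) (c t) ≤ Cout γ (b t) d' :=
      (hTW γ L hT (b t)).2.1.antitoneOn ⟨e2, e3⟩ ⟨h3 t, h4 t⟩ hcon'
    rw [← h5 t] at h6
    exact absurd (lt_of_lt_of_le e1 h6) (lt_irrefl _)

theorem BR1_cont {γ : ℝ → ℂ} {L : ℝ} (hTW : S_TW) (hT : Table γ L) (z : ℝ → ℕ → ℝ)
    (hz : ∀ t, IsOrbit γ L (z t)) (c0 : Continuous fun t => z t 0)
    (c1 : Continuous fun t => z t 1) (n : ℕ) : Continuous fun t => z t n := by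
  have key : ∀ n, (Continuous fun t => z t n) ∧ Continuous fun t => z t (n + 1) := by
    intro n
    induction n with
    | zero => exact ⟨c0, c1⟩
    | succ n ih =>
      refine ⟨ih.2, ?_⟩
      exact BR1_cstep hTW hT (fun t => z t n) (fun t => z t (n + 1)) (fun t => z t (n + 2))
        ih.1 ih.2 (fun t => (hz t n).1) (fun t => (hz t n).2.1) (fun t => (hz t (n + 1)).1)
        (fun t => (hz t (n + 1)).2.1) (fun t => (hz t n).2.2)
  exact (key n).1

theorem BR1_shift {γ : ℝ → ℂ} {L : ℝ} (hT : Table γ L) {v : ℕ → ℝ} (hv : IsOrbit γ L v) :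
    IsOrbit γ L (fun n => v n + L) := by
  intro n
  obtain ⟨h1, h2, h3⟩ := hv n
  refine ⟨by simpa using h1, by simpa using h2, ?_⟩
  simp only [Cin, Cout, hT.per, BR1_dper hT] at h3 ⊢
  exact h3

theorem BR1_per {γ : ℝ → ℂ} {L : ℝ} (hTW : S_TW) (hT : Table γ L) {v w : ℕ → ℝ}
    (hv : IsOrbit γ L v) (hw : IsOrbit γ L w) (h0 : v 0 = w 0) (h1 : v 1 = w 1) (n : ℕ) :
    v n = w n := by
  have key : ∀ n, v n = w n ∧ v (n + 1) = w (n + 1) := by
    intro n
    induction n with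
    | zero => exact ⟨h0, h1⟩
    | succ n ih => exact ⟨ih.2, BR1_det hTW hT hv hw n ih.1 ih.2⟩
  exact (key n).1

theorem BR1_hit {γ : ℝ → ℂ} {L : ℝ} (hTW : S_TW) (hT : Table γ L) {q : ℕ} {c : ℝ} (hq : 0 < q)
    (z : ℝ → ℕ → ℝ) (hz : ∀ t, IsOrbit γ L (z t)) (hc : ∀ n, Continuous fun t => z t n)
    (hzp : ∀ t n, z t (n + q) = z t n + c) (hz1 : ∀ t n, z (t + 1) n = z t n + L)
    (w : ℕ → ℝ) (hw : IsOrbit γ L w) (hwp : ∀ n, w (n + q) = w n + c) (t1 : ℝ)
    (h1 : ∃ n, n < q ∧ z t1 n ≤ w n) : ∃ t2, t1 ≤ t2 ∧ ∀ n, z t2 n = w n := by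
  have hL := hT.pos
  have hne : (Finset.range q).Nonempty := ⟨0, Finset.mem_range.2 hq⟩
  obtain ⟨m, hm⟩ : ∃ m : ℝ → ℝ, m = fun t => (Finset.range q).inf' hne (fun n => z t n - w n) :=
    ⟨_, rfl⟩
  have hmc : Continuous m := by
    rw [hm]
    exact Continuous.finset_inf'_apply hne (fun n _ => (hc n).sub continuous_const)
  have hzk : ∀ (k : ℕ) (t : ℝ) (n : ℕ), z (t + k) n = z t n + k * L := by
    intro k
    induction k with
    | zero => intro t n; simp
    | succ k ih =>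
      intro t n
      have e : t + ((k + 1 : ℕ) : ℝ) = (t + k) + 1 := by push_cast; ring
      rw [e, hz1, ih]
      push_cast
      ring
  have m1 : m t1 ≤ 0 := by
    obtain ⟨n, hn, hn2⟩ := h1
    rw [hm]
    exact (Finset.inf'_le _ (Finset.mem_range.2 hn)).trans (by linarith)
  obtain ⟨k, hk⟩ : ∃ k : ℕ, (∑ n ∈ Finset.range q, |w n - z t1 n|) / L < k := exists_nat_gt _
  have m2 : 0 ≤ m (t1 + k) := by
    rw [hm]
    refine Finset.le_inf' hne _ (fun n hn => ?_)
    rw [hzk]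
    have a1 : |w n - z t1 n| ≤ ∑ n ∈ Finset.range q, |w n - z t1 n| :=
      Finset.single_le_sum (f := fun n => |w n - z t1 n|) (fun i _ => abs_nonneg _) hn
    have a2 := le_abs_self (w n - z t1 n)
    have a3 : (∑ n ∈ Finset.range q, |w n - z t1 n|) < k * L := by
      rwa [div_lt_iff₀ hL] at hk
    linarith
  have hle : t1 ≤ t1 + k := by
    have : (0 : ℝ) ≤ k := Nat.cast_nonneg k
    linarith
  obtain ⟨t2, ht2, ht3⟩ := intermediate_value_Icc hle hmc.continuousOn ⟨m1, m2⟩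
  refine ⟨t2, ht2.1, ?_⟩
  have hall : ∀ n < q, w n ≤ z t2 n := by
    intro n hn
    have : m t2 ≤ z t2 n - w n := by
      rw [hm]
      exact Finset.inf'_le _ (Finset.mem_range.2 hn)
    linarith
  obtain ⟨n0, hn0, hn1⟩ : ∃ n0 ∈ Finset.range q, m t2 = z t2 n0 - w n0 := by
    rw [hm]
    exact Finset.exists_mem_eq_inf' hne _
  have hge : ∀ n, w n ≤ z t2 n := by
    intro n
    have e : n = n % q + (n / q) * q := by
      have := Nat.mod_add_div n q
      rw [mul_comm] at this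
      exact this.symm
    rw [e, BR1_iter hwp, BR1_iter (hzp t2)]
    have := hall (n % q) (Nat.mod_lt _ hq)
    linarith
  exact BR1_eq hTW hT hq (hz t2) hw (hzp t2) hwp hge n0 (by linarith)

theorem t_BR1 (hTW : S_TW) : S_BR1 := by
  intro γ L p q x y hT hq hR
  have hL := hT.pos
  choose z hz using hR.orb
  have hzo : ∀ t, IsOrbit γ L (z t) := fun t => (hz t).1
  have hz0 : ∀ t, z t 0 = x t := fun t => (hz t).2.1
  have hz1 : ∀ t, z t 1 = y t := fun t => (hz t).2.2.1
  have hzp : ∀ t n, z t (n + q) = z t n + p * L := fun t => (hz t).2.2.2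
  have hc : ∀ n, Continuous fun t => z t n :=
    BR1_cont hTW hT z hzo (by simpa only [hz0] using hR.cx) (by simpa only [hz1] using hR.cy)
  have hzt : ∀ t n, z (t + 1) n = z t n + L := by
    intro t n
    refine BR1_per hTW hT (hzo (t + 1)) (BR1_shift hT (hzo t)) ?_ ?_ n
    · simp only [hz0, hR.px]
    · simp only [hz1, hR.py]
  have hmono : ∀ t' t n, t' < t → z t' n < z t n := by
    intro t' t n htt
    by_contra hcon
    have hcon' : z t n ≤ z t' n := not_lt.1 hcon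
    have e : n = n % q + (n / q) * q := by
      have := Nat.mod_add_div n q
      rw [mul_comm] at this
      exact this.symm
    rw [e, BR1_iter (hzp t), BR1_iter (hzp t')] at hcon'
    obtain ⟨t2, ht2, h2⟩ := BR1_hit hTW hT hq z hzo hc hzp hzt (z t') (hzo t') (hzp t') t
      ⟨n % q, Nat.mod_lt _ hq, by linarith⟩
    have := hR.inj t2 t' (by rw [← hz0, ← hz0, h2]) (by rw [← hz1, ← hz1, h2])
    linarith
  have hshift : ∀ t j, ∃ s, ∀ n, z s n = z t (n + j) := by
    intro t j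
    have o1 : IsOrbit γ L (fun n => z t (n + j)) := by
      intro n
      have := hzo t (n + j)
      have e1 : n + 1 + j = n + j + 1 := by ring
      have e2 : n + 2 + j = n + j + 2 := by ring
      simp only [e1, e2]
      exact this
    have o2 : ∀ n, (fun n => z t (n + j)) (n + q) = (fun n => z t (n + j)) n + p * L := by
      intro n
      have e1 : n + q + j = n + j + q := by ring
      simp only [e1]
      exact hzp t (n + j)
    -- a starting point
    obtain ⟨k, hk⟩ : ∃ k : ℕ, (z 0 0 - z t j) / L < k := exists_nat_gt _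
    have hk2 : z 0 0 - z t j < k * L := by rwa [div_lt_iff₀ hL] at hk
    have hzk : ∀ (k : ℕ) (t : ℝ) (n : ℕ), z (t + k) n = z t n + k * L := by
      intro k
      induction k with
      | zero => intro t n; simp
      | succ k ih =>
        intro t n
        have e : t + ((k + 1 : ℕ) : ℝ) = (t + k) + 1 := by push_cast; ring
        rw [e, hzt, ih]
        push_cast
        ring
    have h5 := hzk k (-(k : ℝ)) 0
    rw [neg_add_cancel] at h5
    obtain ⟨s, -, hs⟩ := BR1_hit hTW hT hq z hzo hc hzp hzt _ o1 o2 (-(k : ℝ))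
      ⟨0, hq, by simp only [zero_add]; linarith⟩
    exact ⟨s, hs⟩
  -- the inverse of x
  have xm : StrictMono x := by
    intro a b hab
    have := hmono a b 0 hab
    rwa [hz0, hz0] at this
  have ym : StrictMono y := by
    intro a b hab
    have := hmono a b 1 hab
    rwa [hz1, hz1] at this
  have hzk0 : ∀ (k : ℕ) (t : ℝ), x (t + k) = x t + k * L := by
    intro k
    induction k with
    | zero => intro t; simp
    | succ k ih =>
      intro t
      have e : t + ((k + 1 : ℕ) : ℝ) = (t + k) + 1 := by push_cast; ring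
      rw [e, hR.px, ih]
      push_cast
      ring
  have xs : Function.Surjective x := by
    intro s
    obtain ⟨k, hk⟩ : ∃ k : ℕ, |s - x 0| / L < k := exists_nat_gt _
    have hk2 : |s - x 0| < k * L := by rwa [div_lt_iff₀ hL] at hk
    have a1 := hzk0 k 0
    have a2 := hzk0 k (-(k : ℝ))
    rw [neg_add_cancel] at a2
    rw [zero_add] at a1
    have b1 := neg_abs_le (s - x 0)
    have b2 := le_abs_self (s - x 0)
    have hle : -(k : ℝ) ≤ k := by
      have : (0 : ℝ) ≤ k := Nat.cast_nonneg k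
      linarith
    obtain ⟨t, -, ht⟩ := intermediate_value_Icc hle hR.cx.continuousOn
      (show s ∈ Icc (x (-(k : ℝ))) (x k) from ⟨by linarith, by linarith⟩)
    exact ⟨t, ht⟩
  let e : ℝ ≃o ℝ := xm.orderIsoOfSurjective x xs
  have he : ∀ t, e t = x t := fun t => rfl
  have hxe : ∀ s, x (e.symm s) = s := fun s => by rw [← he, e.apply_symm_apply]
  have hex : ∀ t, e.symm (x t) = t := fun t => by rw [← he, e.symm_apply_apply]
  have hf : ∀ t n, y (e.symm (z t n)) = z t (n + 1) := by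
    intro t n
    obtain ⟨s, hs⟩ := hshift t n
    have h6 := hs 0
    have h7 := hs 1
    rw [zero_add, hz0] at h6
    rw [hz1, add_comm] at h7
    rw [← h6, hex, h7]
  refine ⟨fun s => y (e.symm s), ?_, ?_, ?_, ?_, ?_, ?_, ?_⟩
  · exact hR.cy.comp e.symm.continuous
  · exact ym.comp e.symm.strictMono
  · intro s
    have : e.symm (s + L) = e.symm s + 1 := by
      apply e.injective
      rw [e.apply_symm_apply, he, hR.px, hxe]
    simp only [this, hR.py]
  · intro s
    have := hR.lo (e.symm s)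
    rwa [hxe] at this
  · intro s
    have := hR.hi (e.symm s)
    rwa [hxe] at this
  · intro s
    obtain ⟨t, ht⟩ := xs s
    have h8 := (hzo t 0).2.2
    have h9 := hf t 0
    have h10 := hf t 1
    rw [zero_add] at h9
    simp only [zero_add] at h8
    rw [← ht, ← hz0, h9, h10]
    exact h8
  · intro s
    obtain ⟨t, ht⟩ := xs s
    have hit : ∀ n, (fun s => y (e.symm s))^[n] (z t 0) = z t n := by
      intro n
      induction n with
      | zero => rfl
      | succ n ih => rw [Function.iterate_succ_apply', ih, hf]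
    rw [← ht, ← hz0, hit]
    have := hzp t 0
    rwa [zero_add] at this

end Pool.Agent.H283R2.BK
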