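-- hypotheses used: (hT : S_TW). Landing in progress (helper942). Full text:
import Pool.Agent.H283R2.BK.Defs2

/-!
Task BR2: an invariant circle forces positive curvature (Mather).
-/

open Real Complex Set MeasureTheory

namespace Pool.Agent.H283R2.BK

theorem BR2_surj (f : ℝ → ℝ) (L : ℝ) (hc : Continuous f) (hL : 0 < L) (lo : ∀ s, s < f s)
    (hi : ∀ s, f s < s + L) (s : ℝ) : ∃ a, f a = s ∧ s - L < a ∧ a < s := by
  have h1 : f (s - L) < s := by
    have := hi (s - L)
    linarith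
  have h2 : s < f s := lo s
  obtain ⟨a, ha, hfa⟩ := intermediate_value_Ioo (by linarith : s - L ≤ s)
    (hc.continuousOn) (⟨h1, h2⟩ : s ∈ Ioo (f (s - L)) (f s))
  exact ⟨a, hfa, ha.1, ha.2⟩

/-- derivative of `P / R` for a moving end point -/
theorem BR2_quot {P R : ℝ → ℝ} {P' s : ℝ} {e : ℝ} (hP : HasDerivAt P P' s)
    (hR : HasDerivAt R (e * P s / R s) s) (hR0 : 0 < R s) :
    HasDerivAt (fun b => P b / R b) (P' / R s - e * P s ^ 2 / R s ^ 3) s := by
  have h := hP.div hR hR0.ne'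
  have e1 : (P' * R s - P s * (e * P s / R s)) / R s ^ 2 = P' / R s - e * P s ^ 2 / R s ^ 3 := by
    field_simp
  rw [e1] at h
  exact h

/-- derivative of the distance -/
theorem BR2_dist {γ : ℝ → ℂ} {s : ℝ} (hγ : HasDerivAt γ (deriv γ s) s) (z : ℂ)
    (hz : γ s ≠ z) :
    HasDerivAt (fun b => ‖γ b - z‖)
      (((starRingEnd ℂ) (deriv γ s) * (γ s - z)).re / ‖γ s - z‖) s := by
  have h1 : HasDerivAt (fun b => (γ b - z).re) (deriv γ s).re s := by
    have := Complex.reCLM.hasFDerivAt.comp_hasDerivAt s (hγ.sub_const z)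
    exact this
  have h2 : HasDerivAt (fun b => (γ b - z).im) (deriv γ s).im s := by
    have := Complex.imCLM.hasFDerivAt.comp_hasDerivAt s (hγ.sub_const z)
    exact this
  have h3 : HasDerivAt (fun b => (γ b - z).re ^ 2 + (γ b - z).im ^ 2)
      (2 * (γ s - z).re * (deriv γ s).re + 2 * (γ s - z).im * (deriv γ s).im) s := by
    have := (h1.pow 2).add (h2.pow 2)
    refine this.congr_deriv ?_
    simp
  have hpos : 0 < ‖γ s - z‖ := norm_pos_iff.2 (sub_ne_zero.2 hz)
  have hsq : ∀ w : ℂ, w.re ^ 2 + w.im ^ 2 = ‖w‖ ^ 2 := by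
    intro w
    rw [← Complex.normSq_eq_norm_sq, Complex.normSq_apply]
    ring
  have h4 := h3.sqrt (by rw [hsq]; positivity)
  have e1 : (fun b => Real.sqrt ((γ b - z).re ^ 2 + (γ b - z).im ^ 2)) =
      fun b => ‖γ b - z‖ := by
    funext b
    rw [hsq, Real.sqrt_sq (norm_nonneg _)]
  rw [e1, hsq, Real.sqrt_sq (norm_nonneg _)] at h4
  refine h4.congr_deriv ?_
  rw [Complex.mul_re, Complex.conj_re, Complex.conj_im]
  field_simp
  ring

/-- derivative of `Re (conj γ' (γ - z))` -/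
theorem BR2_proj {γ : ℝ → ℂ} {s : ℝ} (hγ : HasDerivAt γ (deriv γ s) s)
    (hγ' : HasDerivAt (deriv γ) (deriv (deriv γ) s) s) (z : ℂ) :
    HasDerivAt (fun b => ((starRingEnd ℂ) (deriv γ b) * (γ b - z)).re)
      (((starRingEnd ℂ) (deriv (deriv γ) s) * (γ s - z)).re + ‖deriv γ s‖ ^ 2) s := by
  have h1 : HasDerivAt (fun b => (γ b - z).re) (deriv γ s).re s := by
    have := Complex.reCLM.hasFDerivAt.comp_hasDerivAt s (hγ.sub_const z)
    exact this
  have h2 : HasDerivAt (fun b => (γ b - z).im) (deriv γ s).im s := by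
    have := Complex.imCLM.hasFDerivAt.comp_hasDerivAt s (hγ.sub_const z)
    exact this
  have h3 : HasDerivAt (fun b => (deriv γ b).re) (deriv (deriv γ) s).re s := by
    have := Complex.reCLM.hasFDerivAt.comp_hasDerivAt s hγ'
    exact this
  have h4 : HasDerivAt (fun b => (deriv γ b).im) (deriv (deriv γ) s).im s := by
    have := Complex.imCLM.hasFDerivAt.comp_hasDerivAt s hγ'
    exact this
  have h5 := (h3.mul h1).add (h4.mul h2)
  have e1 : (fun b => ((starRingEnd ℂ) (deriv γ b) * (γ b - z)).re) =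
      fun b => (deriv γ b).re * (γ b - z).re + (deriv γ b).im * (γ b - z).im := by
    funext b
    rw [Complex.mul_re, Complex.conj_re, Complex.conj_im]
    ring
  rw [e1]
  refine h5.congr_deriv ?_
  rw [Complex.mul_re, Complex.conj_re, Complex.conj_im, ← Complex.normSq_eq_norm_sq,
    Complex.normSq_apply]
  ring

theorem t_BR2 (hT : S_TW) : S_BR2 := by
  intro γ L p q f ht _ hG s
  have hL := ht.pos
  obtain ⟨a, hfa, ha1, ha2⟩ := BR2_surj f L hG.cont hL hG.lo hG.hi s
  set c := f s with hc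
  have hsc : s < c := hG.lo s
  have hcL : c < s + L := hG.hi s
  -- differentiability
  have hd : Differentiable ℝ γ := ht.smooth.differentiable (by norm_num)
  have hγ : HasDerivAt γ (deriv γ s) s := (hd s).hasDerivAt
  have hd' : Differentiable ℝ (deriv γ) := by
    have h1 : ContDiff ℝ 1 (deriv γ) := by
      have h2 := ht.smooth
      rw [← one_add_one_eq_two] at h2
      exact (contDiff_succ_iff_deriv.1 h2).2.2
    exact h1.differentiable (by norm_num)
  have hγ' : HasDerivAt (deriv γ) (deriv (deriv γ) s) s := (hd' s).hasDerivAt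
  -- geometry
  set T := deriv γ s with hTdef
  set W := deriv (deriv γ) s with hWdef
  have hT1 : T.re ^ 2 + T.im ^ 2 = 1 := by
    have h1 := ht.unit s
    have h2 : ‖T‖ ^ 2 = 1 := by rw [h1]; norm_num
    rw [← Complex.normSq_eq_norm_sq, Complex.normSq_apply] at h2
    linarith
  have hTW : T.re * W.re + T.im * W.im = 0 := by
    have h3 : HasDerivAt (fun b => (deriv γ b).re) W.re s :=
      Complex.reCLM.hasFDerivAt.comp_hasDerivAt s hγ'
    have h4 : HasDerivAt (fun b => (deriv γ b).im) W.im s :=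
      Complex.imCLM.hasFDerivAt.comp_hasDerivAt s hγ'
    have h5 := (h3.mul h3).add (h4.mul h4)
    have h6 : (fun b => (deriv γ b).re * (deriv γ b).re + (deriv γ b).im * (deriv γ b).im) =
        fun _ => (1 : ℝ) := by
      funext b
      have h1 := ht.unit b
      have h2 : ‖deriv γ b‖ ^ 2 = 1 := by rw [h1]; norm_num
      rw [← Complex.normSq_eq_norm_sq, Complex.normSq_apply] at h2
      exact h2
    have h7 : HasDerivAt (fun _ : ℝ => (1 : ℝ)) (W.re * T.re + T.re * W.re +
        (W.im * T.im + T.im * W.im)) s := by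
      rw [← h6]
      exact h5
    have h8 := h7.unique (hasDerivAt_const s (1 : ℝ))
    linarith
  set κ := ((starRingEnd ℂ) T * W).im with hκ
  have hκ' : κ = T.re * W.im - T.im * W.re := by
    rw [hκ, Complex.mul_im, Complex.conj_re, Complex.conj_im]
    ring
  have hWre : W.re = -κ * T.im := by
    rw [hκ']
    linear_combination (-W.re) * hT1 + T.re * hTW
  have hWim : W.im = κ * T.re := by
    rw [hκ']
    linear_combination (-W.im) * hT1 + T.im * hTW
  -- the incoming chord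
  have hYin : ((starRingEnd ℂ) T * (γ s - γ a)).im < 0 := by
    have h1 := ht.conv s (a + L) (by linarith) (by linarith)
    rw [ht.per] at h1
    have h2 : (starRingEnd ℂ) T * (γ s - γ a) = -((starRingEnd ℂ) (deriv γ s) * (γ a - γ s)) := by
      rw [← hTdef]
      ring
    rw [h2, Complex.neg_im]
    linarith
  have hYout : 0 < ((starRingEnd ℂ) T * (γ c - γ s)).im := ht.conv s c hsc hcL
  have hne1 : γ s ≠ γ a := by
    intro h
    rw [h, sub_self, mul_zero] at hYin
    simp at hYin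
  have hne2 : γ s ≠ γ c := by
    intro h
    rw [h, sub_self, mul_zero] at hYout
    simp at hYout
  have hR1 : 0 < ‖γ s - γ a‖ := norm_pos_iff.2 (sub_ne_zero.2 hne1)
  have hR2 : 0 < ‖γ s - γ c‖ := norm_pos_iff.2 (sub_ne_zero.2 hne2)
  -- derivative of the two cosines
  have hunit : ‖T‖ ^ 2 = 1 := by rw [hTdef, ht.unit s]; norm_num
  have hin : HasDerivAt (fun b => Cin γ a b)
      ((((starRingEnd ℂ) W * (γ s - γ a)).re + 1) / ‖γ s - γ a‖ -
        1 * ((starRingEnd ℂ) T * (γ s - γ a)).re ^ 2 / ‖γ s - γ a‖ ^ 3) s := by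
    have h1 := BR2_proj hγ hγ' (γ a)
    have h2 := BR2_dist hγ (γ a) hne1
    rw [← hTdef, ← hWdef, hunit] at h1
    rw [← hTdef] at h2
    have h3 : HasDerivAt (fun b => ‖γ b - γ a‖)
        (1 * ((starRingEnd ℂ) (deriv γ s) * (γ s - γ a)).re / ‖γ s - γ a‖) s := by
      rw [one_mul]
      exact h2
    exact BR2_quot (P := fun b => ((starRingEnd ℂ) (deriv γ b) * (γ b - γ a)).re)
      (R := fun b => ‖γ b - γ a‖) h1 h3 hR1
  have hout : HasDerivAt (fun b => Cout γ b c)
      (-((((starRingEnd ℂ) W * (γ s - γ c)).re + 1) / ‖γ s - γ c‖ -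
        1 * ((starRingEnd ℂ) T * (γ s - γ c)).re ^ 2 / ‖γ s - γ c‖ ^ 3)) s := by
    have h1 := BR2_proj hγ hγ' (γ c)
    have h2 := BR2_dist hγ (γ c) hne2
    rw [← hTdef, ← hWdef, hunit] at h1
    rw [← hTdef] at h2
    have h3 : HasDerivAt (fun b => ‖γ b - γ c‖)
        (1 * ((starRingEnd ℂ) (deriv γ s) * (γ s - γ c)).re / ‖γ s - γ c‖) s := by
      rw [one_mul]
      exact h2
    have h4 := (BR2_quot (P := fun b => ((starRingEnd ℂ) (deriv γ b) * (γ b - γ c)).re)
      (R := fun b => ‖γ b - γ c‖) h1 h3 hR2).neg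
    have e1 : (fun b => Cout γ b c) = fun b =>
        -(((starRingEnd ℂ) (deriv γ b) * (γ b - γ c)).re / ‖γ b - γ c‖) := by
      funext b
      unfold Cout
      rw [norm_sub_rev (γ c) (γ b), ← neg_div, ← Complex.neg_re]
      congr 2
      ring
    rw [e1]
    exact h4
  have hD := hin.sub hout
  -- sign of the difference
  have hneg : ∀ b, s < b → b < a + L → b < c → Cin γ a b - Cout γ b c ≤ 0 := by
    intro b hb1 hb2 hb3
    obtain ⟨a', hfa', ha1', ha2'⟩ := BR2_surj f L hG.cont hL hG.lo hG.hi b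
    have haa : a < a' := by
      apply hG.mono.lt_iff_lt.1
      rw [hfa, hfa']
      exact hb1
    have h1 : Cin γ a b < Cin γ a' b := (hT γ L ht b).1 ⟨by linarith, by linarith⟩
      ⟨by linarith, ha2'⟩ haa
    have h2 : Cin γ a' b = Cout γ b (f b) := by
      have := hG.refl a'
      rw [hfa'] at this
      exact this
    have hcb : c < f b := hG.mono hb1
    have h3 : Cout γ b (f b) < Cout γ b c := (hT γ L ht b).2.1 ⟨hb3, by linarith [hG.hi b]⟩
      ⟨hG.lo b, hG.hi b⟩ hcb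
    linarith
  have hzero : Cin γ a s - Cout γ s c = 0 := by
    have := hG.refl a
    rw [hfa] at this
    rw [this, hc, sub_self]
  -- so the derivative is nonpositive
  have hle : ((((starRingEnd ℂ) W * (γ s - γ a)).re + 1) / ‖γ s - γ a‖ -
        1 * ((starRingEnd ℂ) T * (γ s - γ a)).re ^ 2 / ‖γ s - γ a‖ ^ 3) -
      (-((((starRingEnd ℂ) W * (γ s - γ c)).re + 1) / ‖γ s - γ c‖ -
        1 * ((starRingEnd ℂ) T * (γ s - γ c)).re ^ 2 / ‖γ s - γ c‖ ^ 3)) ≤ 0 := by
    have h1 := (hasDerivAt_iff_tendsto_slope.1 hD).mono_left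
      (nhdsWithin_mono s (fun x (hx : x ∈ Ioi s) => ne_of_gt hx))
    refine le_of_tendsto h1 ?_
    have h2 : Ioo s (min (a + L) c) ∈ nhdsWithin s (Ioi s) :=
      Ioo_mem_nhdsGT (lt_min (by linarith) hsc)
    filter_upwards [h2] with b hb
    have hb1 := hb.1
    have hb2 := lt_of_lt_of_le hb.2 (min_le_left _ _)
    have hb3 := lt_of_lt_of_le hb.2 (min_le_right _ _)
    have h3 := hneg b hb1 hb2 hb3
    rw [slope_def_field]
    apply div_nonpos_of_nonpos_of_nonneg _ (by linarith)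
    have e1 : ((fun b => Cin γ a b) - fun b => Cout γ b c) b = Cin γ a b - Cout γ b c := rfl
    have e2 : ((fun b => Cin γ a b) - fun b => Cout γ b c) s = Cin γ a s - Cout γ s c := rfl
    rw [e1, e2, hzero, sub_zero]
    exact h3
  -- conclusion
  have hYY : ∀ N : ℂ, ((starRingEnd ℂ) W * N).re = κ * ((starRingEnd ℂ) T * N).im := by
    intro N
    rw [Complex.mul_re, Complex.mul_im, Complex.conj_re, Complex.conj_im, Complex.conj_re,
      Complex.conj_im, hWre, hWim]
    ring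
  have hPY : ∀ N : ℂ, ((starRingEnd ℂ) T * N).re ^ 2 + ((starRingEnd ℂ) T * N).im ^ 2 =
      ‖N‖ ^ 2 := by
    intro N
    rw [← Complex.normSq_eq_norm_sq, Complex.normSq_apply, Complex.mul_re, Complex.mul_im,
      Complex.conj_re, Complex.conj_im]
    linear_combination (N.re ^ 2 + N.im ^ 2) * hT1
  have hYout' : ((starRingEnd ℂ) T * (γ s - γ c)).im < 0 := by
    have h2 : (starRingEnd ℂ) T * (γ s - γ c) = -((starRingEnd ℂ) T * (γ c - γ s)) := by ring
    rw [h2, Complex.neg_im]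
    linarith
  rw [hYY, hYY] at hle
  have k1 := hPY (γ s - γ a)
  have k2 := hPY (γ s - γ c)
  generalize ((starRingEnd ℂ) T * (γ s - γ a)).im = Y1 at *
  generalize ((starRingEnd ℂ) T * (γ s - γ c)).im = Y2 at *
  generalize ((starRingEnd ℂ) T * (γ s - γ a)).re = P1 at *
  generalize ((starRingEnd ℂ) T * (γ s - γ c)).re = P2 at *
  generalize ‖γ s - γ a‖ = R1 at *
  generalize ‖γ s - γ c‖ = R2 at *
  have m1 : (κ * Y1 + 1) / R1 - 1 * P1 ^ 2 / R1 ^ 3 = κ * (Y1 / R1) + Y1 ^ 2 / R1 ^ 3 := by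
    have : P1 ^ 2 = R1 ^ 2 - Y1 ^ 2 := by linarith
    rw [this]
    field_simp
    ring
  have m2 : (κ * Y2 + 1) / R2 - 1 * P2 ^ 2 / R2 ^ 3 = κ * (Y2 / R2) + Y2 ^ 2 / R2 ^ 3 := by
    have : P2 ^ 2 = R2 ^ 2 - Y2 ^ 2 := by linarith
    rw [this]
    field_simp
    ring
  rw [m1, m2] at hle
  have n1 : Y1 / R1 < 0 := div_neg_of_neg_of_pos hYin hR1
  have n2 : Y2 / R2 < 0 := div_neg_of_neg_of_pos hYout' hR2
  have n3 : 0 < Y1 ^ 2 / R1 ^ 3 := by
    have : Y1 ≠ 0 := hYin.ne
    positivity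
  have n4 : 0 < Y2 ^ 2 / R2 ^ 3 := by
    have : Y2 ≠ 0 := hYout'.ne
    positivity
  by_contra hcon
  have hκ0 : κ ≤ 0 := not_lt.1 hcon
  have n5 : 0 ≤ κ * (Y1 / R1) := mul_nonneg_of_nonpos_of_nonpos hκ0 n1.le
  have n6 : 0 ≤ κ * (Y2 / R2) := mul_nonneg_of_nonpos_of_nonpos hκ0 n2.le
  linarith

end Pool.Agent.H283R2.BK
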