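import Pool.Agent.H283R2.BK.Defs2

/-!
BR3: parametrisation of a table with positive curvature by the normal angle.
-/

set_option autoImplicit false

open Real Complex Set MeasureTheory

namespace Pool.Agent.H283R2.BK

noncomputable section

/-- inverse of an increasing function with `φ (s + L) = φ s + 2 π` and positive derivative -/
lemma BR3_inv (φ κ : ℝ → ℝ) (L : ℝ) (hL : 0 < L) (hφ : ∀ s, HasDerivAt φ (κ s) s)
    (hκ : ∀ s, 0 < κ s) (hp : ∀ s, φ (s + L) = φ s + 2 * π) :
    StrictMono φ ∧ ∃ ψ : ℝ → ℝ, Continuous ψ ∧ (∀ x, φ (ψ x) = x) ∧ (∀ s, ψ (φ s) = s) ∧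
      (∀ x, HasDerivAt ψ (κ (ψ x))⁻¹ x) ∧ ∀ x, ψ (x + 2 * π) = ψ x + L := by
  have hφc : Continuous φ := continuous_iff_continuousAt.2 fun s => (hφ s).continuousAt
  have hmono : StrictMono φ := strictMono_of_deriv_pos fun s => by rw [(hφ s).deriv]; exact hκ s
  refine ⟨hmono, ?_⟩
  have hadd : ∀ n : ℕ, ∀ s, φ (s + n * L) = φ s + n * (2 * π) := by
    intro n
    induction n with
    | zero => intro s; simp
    | succ n ih =>
      intro s
      have := hp (s + n * L)
      rw [ih s] at this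
      have e : s + ((n + 1 : ℕ) : ℝ) * L = s + n * L + L := by push_cast; ring
      rw [e, this]
      push_cast
      ring
  have hsub : ∀ n : ℕ, ∀ s, φ (s - n * L) = φ s - n * (2 * π) := by
    intro n s
    have := hadd n (s - n * L)
    rw [sub_add_cancel] at this
    linarith
  have hsurj : Function.Surjective φ := by
    intro x
    obtain ⟨n, hn⟩ := exists_nat_gt (|x - φ 0|)
    have hpi : 1 ≤ 2 * π := by linarith [Real.pi_gt_three]
    have hn0 : (0 : ℝ) ≤ n := Nat.cast_nonneg n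
    have h1 : φ (0 - n * L) ≤ x := by
      rw [hsub]
      have := neg_abs_le (x - φ 0)
      nlinarith
    have h2 : x ≤ φ (0 + n * L) := by
      rw [hadd]
      have := le_abs_self (x - φ 0)
      nlinarith
    have hle : (0 - n * L : ℝ) ≤ 0 + n * L := by
      have : 0 ≤ (n : ℝ) * L := by positivity
      linarith
    obtain ⟨s, _, hs⟩ := intermediate_value_Icc hle hφc.continuousOn ⟨h1, h2⟩
    exact ⟨s, hs⟩
  set e := hmono.orderIsoOfSurjective φ hsurj with he
  have e1 : ∀ x, φ (e.symm x) = x := fun x => e.apply_symm_apply x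
  have e2 : ∀ s, e.symm (φ s) = s := fun s => e.symm_apply_apply s
  have hec : Continuous e.symm := e.symm.toHomeomorph.continuous
  refine ⟨fun x => e.symm x, hec, e1, e2, ?_, ?_⟩
  · intro x
    exact HasDerivAt.of_local_left_inverse hec.continuousAt (hφ (e.symm x))
      (hκ _).ne' (Filter.Eventually.of_forall e1)
  · intro x
    apply hmono.injective
    show φ (e.symm (x + 2 * π)) = φ (e.symm x + L)
    rw [hp, e1, e1]

lemma BR3_unit (γ : ℝ → ℂ) (hu : ∀ s, ‖deriv γ s‖ = 1)
    (hdd : ∀ s, HasDerivAt (deriv γ) (deriv (deriv γ) s) s) (s : ℝ) :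
    deriv (deriv γ) s =
      I * (((starRingEnd ℂ) (deriv γ s) * deriv (deriv γ) s).im : ℂ) * deriv γ s := by
  have h1 : HasDerivAt (fun r => (deriv γ r).re) (deriv (deriv γ) s).re s :=
    Complex.reCLM.hasFDerivAt.comp_hasDerivAt s (hdd s)
  have h2 : HasDerivAt (fun r => (deriv γ r).im) (deriv (deriv γ) s).im s :=
    Complex.imCLM.hasFDerivAt.comp_hasDerivAt s (hdd s)
  have hn : ∀ r, (deriv γ r).re * (deriv γ r).re + (deriv γ r).im * (deriv γ r).im = 1 := by
    intro r
    rw [← normSq_apply, ← Complex.sq_norm, hu r]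
    norm_num
  have h3 : HasDerivAt (fun r => (deriv γ r).re * (deriv γ r).re +
      (deriv γ r).im * (deriv γ r).im)
      ((deriv (deriv γ) s).re * (deriv γ s).re + (deriv γ s).re * (deriv (deriv γ) s).re +
      ((deriv (deriv γ) s).im * (deriv γ s).im + (deriv γ s).im * (deriv (deriv γ) s).im)) s :=
    (h1.mul h1).add (h2.mul h2)
  have h4 : (fun r => (deriv γ r).re * (deriv γ r).re +
      (deriv γ r).im * (deriv γ r).im) = fun _ => (1 : ℝ) := funext hn
  rw [h4] at h3
  have h5 := h3.unique (hasDerivAt_const s (1 : ℝ))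
  have hre : ((starRingEnd ℂ) (deriv γ s) * deriv (deriv γ) s).re = 0 := by
    rw [mul_re, conj_re, conj_im]
    linarith
  have h6 : (starRingEnd ℂ) (deriv γ s) * deriv (deriv γ) s =
      I * (((starRingEnd ℂ) (deriv γ s) * deriv (deriv γ) s).im : ℂ) := by
    apply Complex.ext
    · rw [hre]
      simp
    · simp
  have h7 : (starRingEnd ℂ) (deriv γ s) * deriv γ s = 1 := by
    rw [mul_comm, Complex.mul_conj, normSq_apply, hn s]
    norm_num
  calc deriv (deriv γ) s = ((starRingEnd ℂ) (deriv γ s) * deriv γ s) * deriv (deriv γ) s := by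
        rw [h7, one_mul]
    _ = ((starRingEnd ℂ) (deriv γ s) * deriv (deriv γ) s) * deriv γ s := by ring
    _ = _ := by rw [h6]; simp

theorem t_BR3 : S_BR3 := by
  intro γ L hT hκ
  have hC1 : ContDiff ℝ 1 (deriv γ) := by
    have := hT.smooth
    rw [show (2 : WithTop ℕ∞) = 1 + 1 by norm_num, contDiff_succ_iff_deriv] at this
    exact this.2.2
  have hd : ∀ s, HasDerivAt γ (deriv γ s) s := fun s =>
    (hT.smooth.differentiable (by norm_num) s).hasDerivAt
  have hdd : ∀ s, HasDerivAt (deriv γ) (deriv (deriv γ) s) s := fun s =>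
    (hC1.differentiable (by norm_num) s).hasDerivAt
  have hcd : Continuous (deriv γ) := hC1.continuous
  have hcdd : Continuous (deriv (deriv γ)) := hC1.continuous_deriv (by norm_num)
  obtain ⟨κ, hκdef⟩ : ∃ κ : ℝ → ℝ, ∀ s, κ s =
    ((starRingEnd ℂ) (deriv γ s) * deriv (deriv γ) s).im := ⟨_, fun _ => rfl⟩
  have hκc : Continuous κ := by
    have : κ = fun s => ((starRingEnd ℂ) (deriv γ s) * deriv (deriv γ) s).im := funext hκdef
    rw [this]
    exact continuous_im.comp ((continuous_conj.comp hcd).mul hcdd)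
  have hκpos : ∀ s, 0 < κ s := fun s => by rw [hκdef]; exact hκ s
  have hγ2 : ∀ s, deriv (deriv γ) s = I * (κ s : ℂ) * deriv γ s := fun s => by
    rw [hκdef]
    exact BR3_unit γ hT.unit hdd s
  -- periodicity
  have hdper : ∀ s, deriv γ (s + L) = deriv γ s := by
    intro s
    have h1 : HasDerivAt (fun r => γ (r + L)) (deriv γ (s + L)) s :=
      (hd (s + L)).comp_add_const s L
    have h2 : (fun r => γ (r + L)) = γ := funext hT.per
    rw [h2] at h1
    exact h1.unique (hd s)
  have hddper : ∀ s, deriv (deriv γ) (s + L) = deriv (deriv γ) s := by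
    intro s
    have h1 : HasDerivAt (fun r => deriv γ (r + L)) (deriv (deriv γ) (s + L)) s :=
      (hdd (s + L)).comp_add_const s L
    have h2 : (fun r => deriv γ (r + L)) = deriv γ := funext hdper
    rw [h2] at h1
    exact h1.unique (hdd s)
  have hκper : ∀ s, κ (s + L) = κ s := fun s => by
    rw [hκdef, hκdef, hdper, hddper]
  -- the angle
  set φ0 : ℝ := arg (-I * deriv γ 0) with hφ0
  obtain ⟨φ, hφdef⟩ : ∃ φ : ℝ → ℝ, ∀ s, φ s = φ0 + ∫ r in (0 : ℝ)..s, κ r := ⟨_, fun _ => rfl⟩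
  have hφ : ∀ s, HasDerivAt φ (κ s) s := by
    intro s
    have h1 : φ = fun s => φ0 + ∫ r in (0 : ℝ)..s, κ r := funext hφdef
    rw [h1]
    exact (hκc.integral_hasStrictDerivAt 0 s).hasDerivAt.const_add φ0
  have hφ00 : φ 0 = φ0 := by rw [hφdef]; simp
  have hγ1 : ∀ s, deriv γ s = I * cexp (φ s * I) := by
    have hW : ∀ s, HasDerivAt (fun r => deriv γ r * cexp (-((φ r : ℂ) * I))) 0 s := by
      intro s
      have h1 : HasDerivAt (fun r => -((φ r : ℂ) * I)) (-((κ s : ℂ) * I)) s :=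
        (((hφ s).ofReal_comp).mul_const I).neg
      have h2 := (hdd s).mul h1.cexp
      have h3 : deriv (deriv γ) s * cexp (-((φ s : ℂ) * I)) +
          deriv γ s * (cexp (-((φ s : ℂ) * I)) * -((κ s : ℂ) * I)) = 0 := by
        rw [hγ2]
        ring
      rw [h3] at h2
      exact h2
    have hconst : ∀ s, deriv γ s * cexp (-((φ s : ℂ) * I)) =
        deriv γ 0 * cexp (-((φ 0 : ℂ) * I)) := fun s =>
      is_const_of_deriv_eq_zero (fun s => (hW s).differentiableAt) (fun s => (hW s).deriv) s 0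
    have h0 : deriv γ 0 = I * cexp (φ 0 * I) := by
      have h1 : ‖-I * deriv γ 0‖ = 1 := by
        rw [norm_mul, hT.unit 0, norm_neg, norm_I, one_mul]
      have h2 := Complex.norm_mul_exp_arg_mul_I (-I * deriv γ 0)
      rw [h1, ofReal_one, one_mul] at h2
      rw [hφ00, hφ0, h2]
      have := I_mul_I
      linear_combination (deriv γ 0) * this
    intro s
    have h1 := hconst s
    have h2 : deriv γ 0 * cexp (-((φ 0 : ℂ) * I)) = I := by
      rw [h0, mul_assoc, ← Complex.exp_add, add_neg_cancel, Complex.exp_zero, mul_one]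
    rw [h2] at h1
    calc deriv γ s = (deriv γ s * cexp (-((φ s : ℂ) * I))) * cexp ((φ s : ℂ) * I) := by
          rw [mul_assoc, ← Complex.exp_add, neg_add_cancel, Complex.exp_zero, mul_one]
      _ = I * cexp (φ s * I) := by rw [h1]
  have hφmono : StrictMono φ := strictMono_of_deriv_pos fun s => by
    rw [(hφ s).deriv]; exact hκpos s
  have hφc : Continuous φ := continuous_iff_continuousAt.2 fun s => (hφ s).continuousAt
  -- total turning
  have hturn : ∀ s, φ (s + L) - φ s = φ (0 + L) - φ 0 := by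
    intro s
    have h1 : ∀ s, HasDerivAt (fun r => φ (r + L) - φ r) 0 s := by
      intro s
      have h2 := ((hφ (s + L)).comp_add_const s L).sub (hφ s)
      rw [hκper s, sub_self] at h2
      exact h2
    exact is_const_of_deriv_eq_zero (fun s => (h1 s).differentiableAt)
      (fun s => (h1 s).deriv) s 0
  have hk : ∃ k : ℤ, φ (0 + L) = φ 0 + k * (2 * π) := by
    have h1 := hdper 0
    rw [hγ1, hγ1] at h1
    have h2 : cexp ((φ (0 + L) : ℂ) * I) = cexp ((φ 0 : ℂ) * I) :=
      mul_left_cancel₀ I_ne_zero h1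
    obtain ⟨k, hk⟩ := Complex.exp_eq_exp_iff_exists_int.1 h2
    refine ⟨k, ?_⟩
    have h3 : ((φ (0 + L) : ℝ) : ℂ) * I = ((φ 0 + k * (2 * π) : ℝ) : ℂ) * I := by
      rw [hk]
      push_cast
      ring
    exact_mod_cast mul_right_cancel₀ I_ne_zero h3
  obtain ⟨k, hk⟩ := hk
  have hkpos : 0 < k := by
    have h1 : φ 0 < φ (0 + L) := hφmono (by linarith [hT.pos])
    rw [hk] at h1
    have h2 : (0 : ℝ) < k := by
      by_contra hcon
      have : (k : ℝ) * (2 * π) ≤ 0 :=
        mul_nonpos_of_nonpos_of_nonneg (not_lt.1 hcon) (by positivity)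
      linarith
    exact_mod_cast h2
  have hk1 : k = 1 := by
    by_contra hne
    have hk2 : (2 : ℝ) ≤ k := by exact_mod_cast (by omega : (2 : ℤ) ≤ k)
    have hlt : φ 0 + 2 * π < φ (0 + L) := by
      rw [hk]
      nlinarith [Real.pi_pos]
    obtain ⟨t, ht, htφ⟩ := intermediate_value_Ioo (by linarith [hT.pos] : (0 : ℝ) ≤ 0 + L)
      hφc.continuousOn (⟨by linarith [Real.pi_pos], hlt⟩ : φ 0 + 2 * π ∈ Ioo (φ 0) (φ (0 + L)))
    have hdt : deriv γ t = deriv γ 0 := by
      rw [hγ1, hγ1, htφ]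
      congr 1
      push_cast
      rw [add_mul, Complex.exp_add, Complex.exp_two_pi_mul_I, mul_one]
    have c1 := hT.conv 0 t ht.1 ht.2
    have c2 := hT.conv t (0 + L) ht.2 (by linarith [ht.1])
    rw [hdt, hT.per 0] at c2
    have c3 : ((starRingEnd ℂ) (deriv γ 0) * (γ t - γ 0)).im +
        ((starRingEnd ℂ) (deriv γ 0) * (γ 0 - γ t)).im = 0 := by
      rw [← add_im, ← mul_add]
      simp
    linarith
  have hφper : ∀ s, φ (s + L) = φ s + 2 * π := by
    intro s
    have h1 := hturn s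
    rw [hk, hk1] at h1
    push_cast at h1
    linarith
  obtain ⟨_, ψ, hψc, hφψ, hψφ, hψd, hψper⟩ := BR3_inv φ κ L hT.pos hφ hκpos hφper
  refine ⟨φ, fun x => γ (ψ x), fun x => (κ (ψ x))⁻¹, ⟨?_, ?_, ?_, ?_⟩, hφc, hφmono, hφper, ?_,
    hγ1, ?_⟩
  · intro x
    show γ (ψ (x + 2 * π)) = γ (ψ x)
    rw [hψper, hT.per]
  · exact (hκc.comp hψc).inv₀ fun x => (hκpos _).ne'
  · intro x
    exact inv_pos.2 (hκpos _)
  · intro x
    have h1 := HasDerivAt.scomp x (hd (ψ x)) (hψd x)
    have h2 : (κ (ψ x))⁻¹ • deriv γ (ψ x) = (((κ (ψ x))⁻¹ : ℝ) : ℂ) * I * cexp (x * I) := by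
      rw [hγ1, hφψ, Complex.real_smul]
      ring
    rw [h2] at h1
    exact h1
  · intro s
    show γ s = γ (ψ (φ s))
    rw [hψφ]
  · ext z
    constructor
    · rintro ⟨s, rfl⟩
      exact ⟨φ s, by show γ (ψ (φ s)) = γ s; rw [hψφ]⟩
    · rintro ⟨x, rfl⟩
      exact ⟨ψ x, rfl⟩

end

end Pool.Agent.H283R2.BK
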