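import Pool.Agent.H283R2.BK.Defs2

open Real Complex Set MeasureTheory

namespace Pool.Agent.H283R2.BK

noncomputable section

lemma BR4_mul (v N : ℂ) (hv : ‖v‖ = 1) : v * ((starRingEnd ℂ) v * N) = N := by
  rw [← mul_assoc, Complex.mul_conj, Complex.normSq_eq_norm_sq, hv]
  simp

lemma BR4_norm (v N : ℂ) (hv : ‖v‖ = 1) : ‖(starRingEnd ℂ) v * N‖ = ‖N‖ := by
  rw [norm_mul, RCLike.norm_conj, hv, one_mul]

lemma BR4_out {γ : ℝ → ℂ} {L : ℝ} (T : Table γ L) {φ : ℝ → ℝ}
    (hφ : ∀ s, deriv γ s = I * cexp (φ s * I)) {a b : ℝ} (hab : a < b) (hb : b < a + L) :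
    γ b - γ a = ‖γ b - γ a‖ * (I * cexp (((φ a + Real.arccos (Cout γ a b) : ℝ) : ℂ) * I)) := by
  have him := T.conv a b hab hb
  have h1 := Complex.norm_mul_exp_arg_mul_I ((starRingEnd ℂ) (deriv γ a) * (γ b - γ a))
  rw [Complex.arg_of_im_pos him, BR4_norm _ _ (T.unit a)] at h1
  have h2 := BR4_mul (deriv γ a) (γ b - γ a) (T.unit a)
  rw [← h1, hφ a] at h2
  have h3 : Cout γ a b = ((starRingEnd ℂ) (deriv γ a) * (γ b - γ a)).re / ‖γ b - γ a‖ := rfl
  rw [h3, hφ a, Complex.ofReal_add, add_mul, Complex.exp_add]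
  rw [hφ a] at h1
  calc γ b - γ a = _ := h2.symm
    _ = _ := by ring

lemma BR4_im_neg {γ : ℝ → ℂ} {L : ℝ} (T : Table γ L) {a b : ℝ} (hab : a < b) (hb : b < a + L) :
    ((starRingEnd ℂ) (deriv γ b) * (γ b - γ a)).im < 0 := by
  have h := T.conv b (a + L) hb (by linarith)
  rw [T.per a] at h
  have : (starRingEnd ℂ) (deriv γ b) * (γ b - γ a) =
      -((starRingEnd ℂ) (deriv γ b) * (γ a - γ b)) := by ring
  rw [this, Complex.neg_im]
  linarith

lemma BR4_in {γ : ℝ → ℂ} {L : ℝ} (T : Table γ L) {φ : ℝ → ℝ}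
    (hφ : ∀ s, deriv γ s = I * cexp (φ s * I)) {a b : ℝ} (hab : a < b) (hb : b < a + L) :
    γ b - γ a = ‖γ b - γ a‖ * (I * cexp (((φ b - Real.arccos (Cin γ a b) : ℝ) : ℂ) * I)) := by
  have him := BR4_im_neg T hab hb
  have h1 := Complex.norm_mul_exp_arg_mul_I ((starRingEnd ℂ) (deriv γ b) * (γ b - γ a))
  rw [Complex.arg_of_im_neg him, BR4_norm _ _ (T.unit b)] at h1
  have h2 := BR4_mul (deriv γ b) (γ b - γ a) (T.unit b)
  rw [← h1, hφ b] at h2
  have h3 : Cin γ a b = ((starRingEnd ℂ) (deriv γ b) * (γ b - γ a)).re / ‖γ b - γ a‖ := rfl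
  have hsplit : ((φ b - Real.arccos (Cin γ a b) : ℝ) : ℂ) * I =
      (φ b : ℂ) * I + ((-Real.arccos (Cin γ a b) : ℝ) : ℂ) * I := by
    push_cast; ring
  rw [hsplit, Complex.exp_add, h3, hφ b]
  calc γ b - γ a = _ := h2.symm
    _ = _ := by ring

/-- the two expressions for the normal angle of the chord -/
lemma BR4_ang {γ : ℝ → ℂ} {L : ℝ} (hTW : S_TW) (T : Table γ L) {φ : ℝ → ℝ} (hm : StrictMono φ)
    (hp : ∀ s, φ (s + L) = φ s + 2 * Real.pi)
    (hφ : ∀ s, deriv γ s = I * cexp (φ s * I)) {a b : ℝ} (hab : a < b) (hb : b < a + L) :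
    φ a + Real.arccos (Cout γ a b) = φ b - Real.arccos (Cin γ a b) := by
  have h1 := BR4_out T hφ hab hb
  have h2 := BR4_in T hφ hab hb
  have hne : (‖γ b - γ a‖ : ℂ) ≠ 0 := by
    have him := T.conv a b hab hb
    intro h0
    have : γ b - γ a = 0 := by
      rw [← norm_eq_zero]; exact_mod_cast h0
    rw [this] at him
    simp at him
  have h3 := h1.symm.trans h2
  have h4 := mul_left_cancel₀ hne h3
  have h5 := mul_left_cancel₀ Complex.I_ne_zero h4
  rw [Complex.exp_eq_exp_iff_exists_int] at h5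
  obtain ⟨n, hn⟩ := h5
  have h6 : ((φ a + Real.arccos (Cout γ a b) : ℝ) : ℂ) =
      ((φ b - Real.arccos (Cin γ a b) + n * (2 * Real.pi) : ℝ) : ℂ) := by
    have : ((φ a + Real.arccos (Cout γ a b) : ℝ) : ℂ) * I =
        ((φ b - Real.arccos (Cin γ a b) + n * (2 * Real.pi) : ℝ) : ℂ) * I := by
      rw [hn]; push_cast; ring
    exact mul_right_cancel₀ Complex.I_ne_zero this
  have h7 : φ a + Real.arccos (Cout γ a b) =
      φ b - Real.arccos (Cin γ a b) + n * (2 * Real.pi) := by exact_mod_cast h6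
  have hab' := hm hab
  have hb' := hm hb
  rw [hp] at hb'
  obtain ⟨-, -, t3, -⟩ := hTW γ L T b
  obtain ⟨-, -, -, t4⟩ := hTW γ L T a
  have c1 := t3 a ⟨by linarith, hab⟩
  have c2 := t4 b ⟨hab, hb⟩
  have a1 : 0 < Real.arccos (Cin γ a b) := Real.arccos_pos.mpr c1.2
  have a2 : Real.arccos (Cin γ a b) < Real.pi := by
    have h := Real.strictAntiOn_arccos (show (-1 : ℝ) ∈ Icc (-1) 1 by constructor <;> norm_num)
      (show Cin γ a b ∈ Icc (-1) 1 from ⟨c1.1.le, c1.2.le⟩) c1.1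
    rwa [Real.arccos_neg_one] at h
  have a3 : 0 < Real.arccos (Cout γ a b) := Real.arccos_pos.mpr c2.2
  have a4 : Real.arccos (Cout γ a b) < Real.pi := by
    have h := Real.strictAntiOn_arccos (show (-1 : ℝ) ∈ Icc (-1) 1 by constructor <;> norm_num)
      (show Cout γ a b ∈ Icc (-1) 1 from ⟨c2.1.le, c2.2.le⟩) c2.1
    rwa [Real.arccos_neg_one] at h
  have hpi := Real.pi_pos
  have n1 : (n : ℝ) < 1 := by
    by_contra hc
    push Not at hc
    nlinarith
  have n2 : (-1 : ℝ) < n := by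
    by_contra hc
    push Not at hc
    nlinarith
  have n3 : n = 0 := by
    have e1 : n < 1 := by exact_mod_cast n1
    have e2 : -1 < n := by exact_mod_cast n2
    omega
  rw [n3] at h7
  simpa using h7

theorem t_BR4 (hTW : S_TW) : S_BR4 := by
  intro γ L p q f φ δ ρ T hq G O hφc hm hp hδ hφ
  have hL := T.pos
  have hγc : Continuous γ := T.smooth.continuous
  have hγ'c : Continuous (deriv γ) := T.smooth.continuous_deriv (by norm_num)
  have hγ'p : ∀ s, deriv γ (s + L) = deriv γ s := by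
    intro s
    rw [hφ, hφ, hp]
    congr 1
    rw [Complex.exp_eq_exp_iff_exists_int]
    exact ⟨1, by push_cast; ring⟩
  -- the normal angle of the chord from `s` to `f s`
  set X : ℝ → ℝ := fun s => φ s + Real.arccos (Cout γ s (f s)) with hX
  have hXin : ∀ s, X s = φ (f s) - Real.arccos (Cin γ s (f s)) := fun s =>
    BR4_ang hTW T hm hp hφ (G.lo s) (G.hi s)
  have hne : ∀ s, ‖γ (f s) - γ s‖ ≠ 0 := by
    intro s h0
    have him := T.conv s (f s) (G.lo s) (G.hi s)
    rw [norm_eq_zero] at h0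
    rw [h0] at him
    simp at him
  have hXc : Continuous X := by
    refine hφc.add (Real.continuous_arccos.comp ?_)
    unfold Cout
    refine Continuous.div ?_ ?_ hne
    · exact Complex.continuous_re.comp (((Complex.continuous_conj.comp hγ'c)).mul
        ((hγc.comp G.cont).sub hγc))
    · exact ((hγc.comp G.cont).sub hγc).norm
  have hXp : ∀ s, X (s + L) = X s + 2 * Real.pi := by
    intro s
    have : Cout γ (s + L) (f (s + L)) = Cout γ s (f s) := by
      unfold Cout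
      rw [G.per, hγ'p, T.per, T.per]
    simp only [hX]
    rw [this, hp]
    ring
  have hXmono : StrictMono X := by
    intro s s' hs
    have hf := G.mono hs
    rcases lt_or_ge s' (f s) with h1 | h1
    · -- X(s, f s) < X(s', f s) < X(s', f s')
      have e1 : φ s' + Real.arccos (Cout γ s' (f s)) = φ (f s) - Real.arccos (Cin γ s' (f s)) :=
        BR4_ang hTW T hm hp hφ h1 (by linarith [G.hi s])
      obtain ⟨t1, -, t3, -⟩ := hTW γ L T (f s)
      obtain ⟨-, t2, -, t4⟩ := hTW γ L T s'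
      have m1 : s ∈ Ioo (f s - L) (f s) := ⟨by linarith [G.hi s], G.lo s⟩
      have m2 : s' ∈ Ioo (f s - L) (f s) := ⟨by linarith [G.hi s], h1⟩
      have m3 : f s ∈ Ioo s' (s' + L) := ⟨h1, by linarith [G.hi s]⟩
      have m4 : f s' ∈ Ioo s' (s' + L) := ⟨G.lo s', G.hi s'⟩
      have i1 : Cin γ s (f s) < Cin γ s' (f s) := t1 m1 m2 hs
      have i2 : Cout γ s' (f s') < Cout γ s' (f s) := t2 m3 m4 hf
      have j1 : Real.arccos (Cin γ s' (f s)) < Real.arccos (Cin γ s (f s)) :=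
        Real.strictAntiOn_arccos ⟨(t3 s m1).1.le, (t3 s m1).2.le⟩
          ⟨(t3 s' m2).1.le, (t3 s' m2).2.le⟩ i1
      have j2 : Real.arccos (Cout γ s' (f s)) < Real.arccos (Cout γ s' (f s')) :=
        Real.strictAntiOn_arccos ⟨(t4 _ m4).1.le, (t4 _ m4).2.le⟩
          ⟨(t4 _ m3).1.le, (t4 _ m3).2.le⟩ i2
      have k1 := hXin s
      have k2 : X s' = φ s' + Real.arccos (Cout γ s' (f s')) := rfl
      linarith
    · have k1 := hXin s
      have k2 : X s' = φ s' + Real.arccos (Cout γ s' (f s')) := rfl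
      have a0 : 0 ≤ Real.arccos (Cin γ s (f s)) := Real.arccos_nonneg _
      obtain ⟨-, -, -, t4⟩ := hTW γ L T s'
      have m4 : f s' ∈ Ioo s' (s' + L) := ⟨G.lo s', G.hi s'⟩
      have a1 : 0 < Real.arccos (Cout γ s' (f s')) := Real.arccos_pos.mpr (t4 _ m4).2
      have := hm.monotone h1
      linarith
  have hXpn : ∀ (n : ℕ) (s : ℝ), X (s + n * L) = X s + 2 * Real.pi * n := by
    intro n
    induction n with
    | zero => intro s; simp
    | succ n ih =>
      intro s
      have : s + ((n + 1 : ℕ) : ℝ) * L = (s + n * L) + L := by push_cast; ring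
      rw [this, hXp, ih]
      push_cast
      ring
  have hXpn' : ∀ (n : ℕ) (s : ℝ), X (s - n * L) = X s - 2 * Real.pi * n := by
    intro n s
    have := hXpn n (s - n * L)
    rw [sub_add_cancel] at this
    linarith
  have hsurj : Function.Surjective X := by
    intro y
    have hpi := Real.pi_pos
    obtain ⟨n, hn⟩ := exists_nat_gt ((y - X 0) / (2 * Real.pi))
    obtain ⟨m, hm'⟩ := exists_nat_gt ((X 0 - y) / (2 * Real.pi))
    rw [div_lt_iff₀ (by positivity)] at hn hm'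
    have h1 : X (0 - m * L) ≤ y := by rw [hXpn']; linarith
    have h2 : y ≤ X (0 + n * L) := by rw [hXpn]; linarith
    have hle : (0 : ℝ) - m * L ≤ 0 + n * L := by
      have e1 : 0 ≤ (m : ℝ) * L := by positivity
      have e2 : 0 ≤ (n : ℝ) * L := by positivity
      linarith
    obtain ⟨s, -, hs⟩ := intermediate_value_Icc hle hXc.continuousOn ⟨h1, h2⟩
    exact ⟨s, hs⟩
  let E : ℝ ≃o ℝ := StrictMono.orderIsoOfSurjective X hXmono hsurj
  have hE : ∀ s, E s = X s := fun s => rfl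
  have hEs : ∀ s, E.symm (X s) = s := fun s => by rw [← hE]; exact E.symm_apply_apply s
  let g : ℝ → ℝ := fun x => X (f (E.symm x))
  have hg : ∀ s, g (X s) = X (f s) := fun s => by
    show X (f (E.symm (X s))) = _
    rw [hEs]
  have hXchord : ∀ s, γ (f s) - γ s = ‖γ (f s) - γ s‖ * (I * cexp ((X s : ℂ) * I)) := fun s =>
    BR4_out T hφ (G.lo s) (G.hi s)
  have hmid : ∀ s, (X s + X (f s)) / 2 = φ (f s) := by
    intro s
    have k1 := hXin s
    have k2 : X (f s) = φ (f s) + Real.arccos (Cout γ (f s) (f (f s))) := rfl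
    rw [← G.refl s] at k2
    rw [k1, k2]
    ring
  refine ⟨g, ⟨?_, ?_, ?_, ?_, ?_⟩, ?_⟩
  · exact hXc.comp (G.cont.comp E.symm.continuous)
  · exact hXmono.comp (G.mono.comp E.symm.strictMono)
  · intro x
    obtain ⟨s, rfl⟩ := hsurj x
    rw [← hXp, hg, hg, G.per, hXp]
  · intro x
    obtain ⟨s, rfl⟩ := hsurj x
    rw [hg, ← hXp]
    exact ⟨hXmono (G.lo s), hXmono (G.hi s)⟩
  · intro x
    obtain ⟨s, rfl⟩ := hsurj x
    rw [hg, hg, hmid, hmid, ← hδ, ← hδ]
    unfold support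
    have h1 := hXchord (f s)
    have h2 : γ (f (f s)) = γ (f s) + ‖γ (f (f s)) - γ (f s)‖ * (I * cexp ((X (f s) : ℂ) * I)) := by
      rw [← h1]; ring
    rw [h2]
    have h3 : cexp ((X (f s) : ℂ) * I) * cexp (-((X (f s) : ℂ) * I)) = 1 := by
      rw [← Complex.exp_add]; simp
    have h4 : (γ (f s) + ‖γ (f (f s)) - γ (f s)‖ * (I * cexp ((X (f s) : ℂ) * I))) *
        cexp (-((X (f s) : ℂ) * I)) = γ (f s) * cexp (-((X (f s) : ℂ) * I)) +
        ‖γ (f (f s)) - γ (f s)‖ * I * (cexp ((X (f s) : ℂ) * I) * cexp (-((X (f s) : ℂ) * I))) := by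
      ring
    rw [h4, h3, mul_one, Complex.add_re]
    simp
  · intro x
    obtain ⟨s, rfl⟩ := hsurj x
    have : ∀ n : ℕ, g^[n] (X s) = X (f^[n] s) := by
      intro n
      induction n with
      | zero => rfl
      | succ n ih => rw [Function.iterate_succ_apply', Function.iterate_succ_apply', ih, hg]
    rw [this, G.rot, hXpn]

end

end Pool.Agent.H283R2.BK
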