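import Pool.Agent.H283R2.BK.Defs3

/-!
# Covers by invariant circles: from arclength to line coordinates
-/

open Real Complex Set MeasureTheory

namespace Pool.Agent.H283R2.BK

noncomputable section

/-- a continuous function with `u (s + L) = u s + T` is surjective -/
theorem BR5_surj {u : ℝ → ℝ} {L T : ℝ} (hu : Continuous u) (hT : 0 < T)
    (hp : ∀ s, u (s + L) = u s + T) : Function.Surjective u := by
  have h1 : ∀ n : ℕ, u (n * L) = u 0 + n * T := by
    intro n
    induction n with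
    | zero => simp
    | succ n ih =>
      have e : ((n + 1 : ℕ) : ℝ) * L = n * L + L := by push_cast; ring
      rw [e, hp, ih]
      push_cast
      ring
  have h2 : ∀ n : ℕ, u (-(n * L)) = u 0 - n * T := by
    intro n
    induction n with
    | zero => simp
    | succ n ih =>
      have e : -(n * L) = -(((n + 1 : ℕ) : ℝ) * L) + L := by push_cast; ring
      rw [e, hp] at ih
      push_cast at ih ⊢
      linarith
  intro y
  obtain ⟨n, hn⟩ := exists_nat_gt (|y - u 0| / T)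
  rw [div_lt_iff₀ hT] at hn
  have h3 := abs_lt.1 hn
  exact mem_range_of_exists_le_of_exists_ge hu ⟨-(n * L), by rw [h2]; linarith⟩
    ⟨n * L, by rw [h1]; linarith⟩

/-- the normal angle of the chord -/
def BR5_X (γ : ℝ → ℂ) (φ : ℝ → ℝ) (a b : ℝ) : ℝ := φ a + Real.arccos (Cout γ a b)

/-- the data -/
structure BR5_Dat (γ : ℝ → ℂ) (L : ℝ) (φ : ℝ → ℝ) : Prop where
  T : Table γ L
  tw : ∀ b : ℝ,
    StrictMonoOn (fun a => Cin γ a b) (Ioo (b - L) b) ∧
    StrictAntiOn (fun c => Cout γ b c) (Ioo b (b + L)) ∧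
    (∀ a ∈ Ioo (b - L) b, -1 < Cin γ a b ∧ Cin γ a b < 1) ∧
    (∀ c ∈ Ioo b (b + L), -1 < Cout γ b c ∧ Cout γ b c < 1)
  c : Continuous φ
  m : StrictMono φ
  p : ∀ s, φ (s + L) = φ s + 2 * Real.pi
  d : ∀ s, deriv γ s = I * cexp (φ s * I)

section

variable {γ : ℝ → ℂ} {L : ℝ} {φ : ℝ → ℝ}

theorem BR5_ne (h : BR5_Dat γ L φ) {a b : ℝ} (h1 : a < b) (h2 : b < a + L) : γ b - γ a ≠ 0 := by
  intro h3
  have := h.T.conv a b h1 h2
  rw [h3, mul_zero] at this
  simp at this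

theorem BR5_unit (h : BR5_Dat γ L φ) (a : ℝ) : deriv γ a * (starRingEnd ℂ) (deriv γ a) = 1 := by
  rw [Complex.mul_conj, Complex.normSq_eq_norm_sq, h.T.unit a]
  norm_num

theorem BR5_out (h : BR5_Dat γ L φ) {a b : ℝ} (h1 : a < b) (h2 : b < a + L) :
    γ b - γ a = ‖γ b - γ a‖ * I * cexp ((BR5_X γ φ a b : ℝ) * I) := by
  set N := γ b - γ a with hN
  set w := (starRingEnd ℂ) (deriv γ a) * N with hw
  have hN0 : N ≠ 0 := BR5_ne h h1 h2
  have hwim : 0 < w.im := h.T.conv a b h1 h2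
  have hw0 : w ≠ 0 := by
    intro h3
    rw [h3] at hwim
    simp at hwim
  have hnorm : ‖w‖ = ‖N‖ := by
    rw [hw, norm_mul, RCLike.norm_conj, h.T.unit a, one_mul]
  have harg : Complex.arg w = Real.arccos (Cout γ a b) := by
    rw [Complex.arg_of_im_nonneg_of_ne_zero hwim.le hw0, hnorm]
    rfl
  have h3 := Complex.norm_mul_exp_arg_mul_I w
  rw [harg, hnorm] at h3
  have h4 : N = deriv γ a * w := by
    rw [hw, ← mul_assoc, BR5_unit h a, one_mul]
  conv_lhs => rw [h4, ← h3, h.d a]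
  unfold BR5_X
  push_cast
  rw [add_mul, Complex.exp_add]
  ring

theorem BR5_in (h : BR5_Dat γ L φ) {a b : ℝ} (h1 : a < b) (h2 : b < a + L) :
    γ b - γ a = ‖γ b - γ a‖ * I * cexp ((φ b - Real.arccos (Cin γ a b) : ℝ) * I) := by
  set N := γ b - γ a with hN
  set w := (starRingEnd ℂ) (deriv γ b) * N with hw
  have hN0 : N ≠ 0 := BR5_ne h h1 h2
  have hwim : w.im < 0 := by
    have h3 := h.T.conv b (a + L) h2 (by linarith)
    rw [h.T.per a] at h3
    have h4 : w = -((starRingEnd ℂ) (deriv γ b) * (γ a - γ b)) := by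
      rw [hw, hN]
      ring
    rw [h4, Complex.neg_im]
    linarith
  have hnorm : ‖w‖ = ‖N‖ := by
    rw [hw, norm_mul, RCLike.norm_conj, h.T.unit b, one_mul]
  have harg : Complex.arg w = -Real.arccos (Cin γ a b) := by
    rw [Complex.arg_of_im_neg hwim, hnorm]
    rfl
  have h3 := Complex.norm_mul_exp_arg_mul_I w
  rw [harg, hnorm] at h3
  have h4 : N = deriv γ b * w := by
    rw [hw, ← mul_assoc, BR5_unit h b, one_mul]
  conv_lhs => rw [h4, ← h3, h.d b]
  push_cast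
  rw [sub_mul, sub_eq_add_neg, Complex.exp_add, neg_mul]
  ring

theorem BR5_tout (h : BR5_Dat γ L φ) {a b : ℝ} (h1 : a < b) (h2 : b < a + L) :
    0 < Real.arccos (Cout γ a b) ∧ Real.arccos (Cout γ a b) < Real.pi := by
  obtain ⟨h3, h4⟩ := (h.tw a).2.2.2 b ⟨h1, h2⟩
  exact ⟨Real.arccos_pos.2 h4, Real.arccos_lt_pi.2 h3⟩

theorem BR5_tin (h : BR5_Dat γ L φ) {a b : ℝ} (h1 : a < b) (h2 : b < a + L) :
    0 < Real.arccos (Cin γ a b) ∧ Real.arccos (Cin γ a b) < Real.pi := by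
  obtain ⟨h3, h4⟩ := (h.tw b).2.2.1 a ⟨by linarith, h1⟩
  exact ⟨Real.arccos_pos.2 h4, Real.arccos_lt_pi.2 h3⟩

theorem BR5_eq (h : BR5_Dat γ L φ) {a b : ℝ} (h1 : a < b) (h2 : b < a + L) :
    BR5_X γ φ a b = φ b - Real.arccos (Cin γ a b) := by
  have hN0 : γ b - γ a ≠ 0 := BR5_ne h h1 h2
  have h3 := BR5_out h h1 h2
  have h4 := BR5_in h h1 h2
  rw [h3] at h4
  have h5 : (‖γ b - γ a‖ : ℂ) * I ≠ 0 :=
    mul_ne_zero (by exact_mod_cast norm_ne_zero_iff.2 hN0) Complex.I_ne_zero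
  have h6 : cexp ((BR5_X γ φ a b : ℝ) * I) =
      cexp ((φ b - Real.arccos (Cin γ a b) : ℝ) * I) := by
    rw [← h3] at h4
    have h7 := BR5_out h h1 h2
    rw [h4] at h7
    have h8 := BR5_in h h1 h2
    have h9 : (‖γ b - γ a‖ : ℂ) * I * cexp ((BR5_X γ φ a b : ℝ) * I) =
        (‖γ b - γ a‖ : ℂ) * I * cexp ((φ b - Real.arccos (Cin γ a b) : ℝ) * I) := by
      rw [← h8]
      exact (BR5_out h h1 h2).symm
    exact mul_left_cancel₀ h5 h9
  obtain ⟨n, hn⟩ := Complex.exp_eq_exp_iff_exists_int.1 h6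
  have h7 : BR5_X γ φ a b = (φ b - Real.arccos (Cin γ a b)) + n * (2 * Real.pi) := by
    have h8 : ((BR5_X γ φ a b : ℝ) : ℂ) * I =
        (((φ b - Real.arccos (Cin γ a b)) + n * (2 * Real.pi) : ℝ) : ℂ) * I := by
      rw [hn]
      push_cast
      ring
    exact_mod_cast mul_right_cancel₀ Complex.I_ne_zero h8
  obtain ⟨t1, t2⟩ := BR5_tout h h1 h2
  obtain ⟨t3, t4⟩ := BR5_tin h h1 h2
  have h8 : φ a < φ b := h.m h1
  have h9 : φ b < φ a + 2 * Real.pi := by
    rw [← h.p]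
    exact h.m h2
  have hpi := Real.pi_pos
  unfold BR5_X at h7
  have h10 : (n : ℝ) < 1 := by
    by_contra hc
    push Not at hc
    nlinarith
  have h11 : (-1 : ℝ) < n := by
    by_contra hc
    push Not at hc
    nlinarith
  have h12 : n = 0 := by
    have a1 : n < 1 := by exact_mod_cast h10
    have a2 : -1 < n := by exact_mod_cast h11
    omega
  unfold BR5_X
  rw [h7, h12]
  push_cast
  ring

theorem BR5_lo (h : BR5_Dat γ L φ) {a b : ℝ} (h1 : a < b) (h2 : b < a + L) :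
    φ a < BR5_X γ φ a b := by
  have := (BR5_tout h h1 h2).1
  unfold BR5_X
  linarith

theorem BR5_hi (h : BR5_Dat γ L φ) {a b : ℝ} (h1 : a < b) (h2 : b < a + L) :
    BR5_X γ φ a b < φ b := by
  rw [BR5_eq h h1 h2]
  have := (BR5_tin h h1 h2).1
  linarith

theorem BR5_mono_right (h : BR5_Dat γ L φ) {a b b' : ℝ} (h1 : a < b) (h2 : b < b')
    (h3 : b' < a + L) : BR5_X γ φ a b < BR5_X γ φ a b' := by
  unfold BR5_X
  have h4 := (h.tw a).2.1 (show b ∈ Ioo a (a + L) from ⟨h1, h2.trans h3⟩)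
    (show b' ∈ Ioo a (a + L) from ⟨h1.trans h2, h3⟩) h2
  obtain ⟨a1, a2⟩ := (h.tw a).2.2.2 b ⟨h1, h2.trans h3⟩
  obtain ⟨a3, a4⟩ := (h.tw a).2.2.2 b' ⟨h1.trans h2, h3⟩
  have h5 := Real.strictAntiOn_arccos (show Cout γ a b' ∈ Icc (-1) 1 from ⟨a3.le, a4.le⟩)
    (show Cout γ a b ∈ Icc (-1) 1 from ⟨a1.le, a2.le⟩) h4
  linarith

theorem BR5_mono_left (h : BR5_Dat γ L φ) {a a' b : ℝ} (h1 : b - L < a) (h2 : a < a')
    (h3 : a' < b) : BR5_X γ φ a b < BR5_X γ φ a' b := by
  rw [BR5_eq h (h2.trans h3) (by linarith), BR5_eq h h3 (by linarith)]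
  have h4 := (h.tw b).1 (show a ∈ Ioo (b - L) b from ⟨h1, h2.trans h3⟩)
    (show a' ∈ Ioo (b - L) b from ⟨h1.trans h2, h3⟩) h2
  obtain ⟨a1, a2⟩ := (h.tw b).2.2.1 a ⟨h1, h2.trans h3⟩
  obtain ⟨a3, a4⟩ := (h.tw b).2.2.1 a' ⟨h1.trans h2, h3⟩
  have h5 := Real.strictAntiOn_arccos (show Cin γ a b ∈ Icc (-1) 1 from ⟨a1.le, a2.le⟩)
    (show Cin γ a' b ∈ Icc (-1) 1 from ⟨a3.le, a4.le⟩) h4
  linarith

theorem BR5_per (h : BR5_Dat γ L φ) (a b : ℝ) :
    BR5_X γ φ (a + L) (b + L) = BR5_X γ φ a b + 2 * Real.pi := by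
  have h1 : deriv γ (a + L) = deriv γ a := by
    have h2 : (fun s => γ (s + L)) = γ := funext h.T.per
    have h3 := deriv_comp_add_const γ L a
    rw [h2] at h3
    exact h3.symm
  unfold BR5_X Cout
  rw [h.p, h.T.per, h.T.per, h1]
  ring

theorem BR5_contC (h : BR5_Dat γ L φ) :
    ContinuousOn (fun z : ℝ × ℝ => BR5_X γ φ z.1 z.2) {z | z.1 < z.2 ∧ z.2 < z.1 + L} := by
  have hγ : Continuous γ := h.T.smooth.continuous
  have hγ' : Continuous (deriv γ) := h.T.smooth.continuous_deriv (by norm_num)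
  unfold BR5_X Cout
  refine (h.c.comp continuous_fst).continuousOn.add ?_
  refine Real.continuous_arccos.comp_continuousOn ?_
  refine ContinuousOn.div ?_ ?_ ?_
  · refine Continuous.continuousOn ?_
    exact Complex.continuous_re.comp ((Complex.continuous_conj.comp
      (hγ'.comp continuous_fst)).mul ((hγ.comp continuous_snd).sub (hγ.comp continuous_fst)))
  · exact (((hγ.comp continuous_snd).sub (hγ.comp continuous_fst)).norm).continuousOn
  · rintro ⟨a, b⟩ ⟨h1, h2⟩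
    exact norm_ne_zero_iff.2 (BR5_ne h h1 h2)

variable {f : ℝ → ℝ}

/-- the angle of the chord of the circle -/
theorem BR5_xcont (h : BR5_Dat γ L φ) (hf : InvGraph γ L f) :
    Continuous (fun s => BR5_X γ φ s (f s)) := by
  have h1 : Continuous (fun s : ℝ => (s, f s)) := continuous_id.prodMk hf.cont
  exact (BR5_contC h).comp_continuous h1 fun s => ⟨hf.lo s, hf.hi s⟩

theorem BR5_xmono (h : BR5_Dat γ L φ) (hf : InvGraph γ L f) :
    StrictMono (fun s => BR5_X γ φ s (f s)) := by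
  intro s t hst
  show BR5_X γ φ s (f s) < BR5_X γ φ t (f t)
  rcases lt_or_ge t (f s) with h1 | h1
  · have h2 : BR5_X γ φ s (f s) < BR5_X γ φ t (f s) :=
      BR5_mono_left h (by have := hf.hi s; linarith) hst h1
    exact h2.trans (BR5_mono_right h h1 (hf.mono hst) (hf.hi t))
  · calc BR5_X γ φ s (f s) < φ (f s) := BR5_hi h (hf.lo s) (hf.hi s)
      _ ≤ φ t := h.m.monotone h1
      _ < BR5_X γ φ t (f t) := BR5_lo h (hf.lo t) (hf.hi t)

theorem BR5_xper (h : BR5_Dat γ L φ) (hf : InvGraph γ L f) (s : ℝ) :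
    BR5_X γ φ (s + L) (f (s + L)) = BR5_X γ φ s (f s) + 2 * Real.pi := by
  rw [hf.per, BR5_per h]

/-- the reflection law in terms of the angles -/
theorem BR5_refl (h : BR5_Dat γ L φ) (hf : InvGraph γ L f) (s : ℝ) :
    BR5_X γ φ (f s) (f (f s)) = 2 * φ (f s) - BR5_X γ φ s (f s) := by
  rw [BR5_eq h (hf.lo s) (hf.hi s), hf.refl s]
  unfold BR5_X
  ring

theorem BR5_circle (h : BR5_Dat γ L φ) (hf : InvGraph γ L f) {δ : ℝ → ℂ}
    (hδ : ∀ s, γ s = δ (φ s)) :
    ∃ g, InvCircle δ g ∧ ∀ s, g (BR5_X γ φ s (f s)) = BR5_X γ φ (f s) (f (f s)) := by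
  have hs : Function.Surjective (fun s => BR5_X γ φ s (f s)) :=
    BR5_surj (BR5_xcont h hf) (by have := Real.pi_pos; linarith) (BR5_xper h hf)
  set e : ℝ ≃o ℝ := (BR5_xmono h hf).orderIsoOfSurjective _ hs with he
  have hes : ∀ s, e s = BR5_X γ φ s (f s) := fun s => rfl
  have key : ∀ s, (e (f (e.symm (e s)))) = BR5_X γ φ (f s) (f (f s)) := by
    intro s
    rw [e.symm_apply_apply, hes]
  refine ⟨fun x => e (f (e.symm x)), ⟨?_, ?_, ?_, ?_, ?_⟩, fun s => ?_⟩
  · exact e.continuous.comp (hf.cont.comp e.symm.continuous)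
  · exact e.strictMono.comp (hf.mono.comp e.symm.strictMono)
  · intro x
    obtain ⟨s, rfl⟩ := e.surjective x
    have h1 : e s + 2 * Real.pi = e (s + L) := by
      rw [hes, hes, BR5_xper h hf]
    show e (f (e.symm (e s + 2 * Real.pi))) = e (f (e.symm (e s))) + 2 * Real.pi
    rw [h1, e.symm_apply_apply, e.symm_apply_apply, hf.per, hes, hes, BR5_xper h hf]
  · intro x
    obtain ⟨s, rfl⟩ := e.surjective x
    show e s < e (f (e.symm (e s))) ∧ e (f (e.symm (e s))) < e s + 2 * Real.pi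
    rw [key, hes]
    have h1 := BR5_hi h (hf.lo s) (hf.hi s)
    have h2 := BR5_lo h (hf.lo (f s)) (hf.hi (f s))
    have h3 := BR5_refl h hf s
    have h4 := (BR5_tin h (hf.lo s) (hf.hi s)).2
    have h5 := BR5_eq h (hf.lo s) (hf.hi s)
    constructor
    · linarith
    · linarith
  · intro x
    obtain ⟨s, rfl⟩ := e.surjective x
    show support (δ ((e s + e (f (e.symm (e s)))) / 2)) (e (f (e.symm (e s)))) =
      support (δ ((e (f (e.symm (e s))) + e (f (e.symm (e (f (e.symm (e s))))))) / 2))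
        (e (f (e.symm (e s))))
    rw [key s]
    have h1 : e (f (e.symm (BR5_X γ φ (f s) (f (f s))))) =
        BR5_X γ φ (f (f s)) (f (f (f s))) := by
      rw [← hes (f s), key]
    rw [h1, hes]
    have h2 : (BR5_X γ φ s (f s) + BR5_X γ φ (f s) (f (f s))) / 2 = φ (f s) := by
      rw [BR5_refl h hf s]
      ring
    have h3 : (BR5_X γ φ (f s) (f (f s)) + BR5_X γ φ (f (f s)) (f (f (f s)))) / 2 =
        φ (f (f s)) := by
      rw [BR5_refl h hf (f s)]
      ring
    rw [h2, h3, ← hδ, ← hδ]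
    have h4 := BR5_out h (hf.lo (f s)) (hf.hi (f s))
    set X := BR5_X γ φ (f s) (f (f s)) with hX
    have h5 : γ (f (f s)) = γ (f s) + ‖γ (f (f s)) - γ (f s)‖ * I * cexp ((X : ℝ) * I) := by
      rw [← h4]
      ring
    unfold support
    have h6 : γ (f (f s)) * cexp (-((X : ℝ) * I)) = γ (f s) * cexp (-((X : ℝ) * I)) +
        ‖γ (f (f s)) - γ (f s)‖ * I := by
      conv_lhs => rw [h5]
      rw [add_mul, mul_assoc _ (cexp ((X : ℝ) * I)), ← Complex.exp_add, add_neg_cancel,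
        Complex.exp_zero, mul_one]
    rw [h6, Complex.add_re]
    have h7 : (((‖γ (f (f s)) - γ (f s)‖ : ℝ) : ℂ) * I).re = 0 := by
      rw [Complex.re_ofReal_mul, Complex.I_re, mul_zero]
    rw [h7, add_zero]
  · exact key s

end

theorem t_BR5 (h1 : S_TW) : S_BR5 := by
  intro γ L F φ δ ρ hT hF hF3 hcov hO hφc hφm hφp hδ hd
  have h : BR5_Dat γ L φ := ⟨hT, h1 γ L hT, hφc, hφm, hφp, hd⟩
  have hpi := Real.pi_pos
  obtain ⟨G, hG, hGe⟩ := BR5_circle h hF hδ
  have hs : Function.Surjective (fun s => BR5_X γ φ s (F s)) :=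
    BR5_surj (BR5_xcont h hF) (by linarith) (BR5_xper h hF)
  refine ⟨G, hG, ?_, ?_⟩
  · intro x
    obtain ⟨s, rfl⟩ := hs x
    show G (G (G (BR5_X γ φ s (F s)))) = BR5_X γ φ s (F s) + 2 * Real.pi
    rw [hGe, hGe, hGe, hF3, BR5_xper h hF]
  · intro x y hxy hyG
    have hy2 : y < x + 2 * Real.pi := hyG.trans (hG.2.2.2.1 x).2
    obtain ⟨s', hs'⟩ := BR5_surj hφc (by linarith) hφp ((x + y) / 2)
    have hx1 : x < φ s' := by rw [hs']; linarith
    have hx2 : φ s' - Real.pi < x := by rw [hs']; linarith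
    -- the start of the chord
    have hL := hT.pos
    obtain ⟨a1, ha1, ha1', ha1x⟩ : ∃ a1, s' - L < a1 ∧ a1 < s' ∧ x < φ a1 := by
      have h2 : ∀ᶠ a in nhdsWithin s' (Iio s'), x < φ a :=
        (hφc.continuousAt.continuousWithinAt.eventually (lt_mem_nhds hx1))
      have h3 : ∀ᶠ a in nhdsWithin s' (Iio s'), s' - L < a :=
        (Filter.Eventually.filter_mono nhdsWithin_le_nhds (lt_mem_nhds (by linarith)))
      obtain ⟨a, ⟨h4, h5⟩, h6⟩ := ((h2.and h3).and self_mem_nhdsWithin).exists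
      exact ⟨a, h5, h6, h4⟩
    obtain ⟨a0, ha0, ha0', ha0x⟩ : ∃ a0, s' - L < a0 ∧ a0 < s' ∧ φ a0 + Real.pi < x := by
      have e : φ (s' - L) + Real.pi < x := by
        have h5 := hφp (s' - L)
        rw [sub_add_cancel] at h5
        linarith
      have h2 : ∀ᶠ a in nhdsWithin (s' - L) (Ioi (s' - L)), φ a + Real.pi < x :=
        ((hφc.add continuous_const).continuousAt.continuousWithinAt.eventually (gt_mem_nhds e))
      have h3 : ∀ᶠ a in nhdsWithin (s' - L) (Ioi (s' - L)), a < s' :=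
        (Filter.Eventually.filter_mono nhdsWithin_le_nhds (gt_mem_nhds (by linarith)))
      obtain ⟨a, ⟨h4, h5⟩, h6⟩ := ((h2.and h3).and self_mem_nhdsWithin).exists
      exact ⟨a, h6, h5, h4⟩
    have h01 : a0 ≤ a1 := by
      have : φ a0 < φ a1 := by linarith
      exact (hφm.lt_iff_lt.1 this).le
    obtain ⟨s, hsI, hsx⟩ : ∃ s ∈ Icc a0 a1, BR5_X γ φ s s' = x := by
      have hc : ContinuousOn (fun a => BR5_X γ φ a s') (Icc a0 a1) := by
        have h2 : ContinuousOn (fun a : ℝ => (a, s')) (Icc a0 a1) :=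
          (continuous_id.prodMk continuous_const).continuousOn
        refine (BR5_contC h).comp h2 fun a ha => ⟨?_, ?_⟩
        · exact ha.2.trans_lt ha1'
        · have := ha.1
          show s' < a + L
          linarith
      have h2 := intermediate_value_Icc h01 hc
      have h3 : x ∈ Icc (BR5_X γ φ a0 s') (BR5_X γ φ a1 s') := by
        constructor
        · have h4 := (BR5_tout h (a := a0) (b := s') ha0' (by linarith)).2
          unfold BR5_X
          linarith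
        · have h4 := BR5_lo h (a := a1) (b := s') ha1' (by linarith)
          linarith
      obtain ⟨s, hs1, hs2⟩ := h2 h3
      exact ⟨s, hs1, hs2⟩
    have hs1 : s' - L < s := lt_of_lt_of_le ha0 hsI.1
    have hs2 : s < s' := lt_of_le_of_lt hsI.2 ha1'
    have hsF : s' < F s := by
      by_contra hc
      push Not at hc
      obtain ⟨t, ht⟩ := BR5_surj hF.cont hT.pos hF.per s'
      have hst : s ≤ t := by
        by_contra hc2
        push Not at hc2
        have := hF.mono hc2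
        linarith
      have ht1 := hF.lo t
      rw [ht] at ht1
      have hX : x ≤ BR5_X γ φ t (F t) := by
        rw [ht, ← hsx]
        rcases eq_or_lt_of_le hst with h2 | h2
        · rw [h2]
        · exact (BR5_mono_left h hs1 h2 ht1).le
      have h2 : G x ≤ G (BR5_X γ φ t (F t)) := hG.2.1.monotone hX
      rw [hGe, BR5_refl h hF, ht] at h2
      rw [ht] at hX
      rw [hs'] at h2
      linarith
    obtain ⟨f, hf, hfs⟩ := hcov s s' hs2 hsF
    obtain ⟨g, hg, hge⟩ := BR5_circle h hf hδ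
    refine ⟨g, hg, ?_⟩
    have h2 := hge s
    rw [BR5_refl h hf, hfs, hsx, hs'] at h2
    rw [h2]
    ring

end

end Pool.Agent.H283R2.BK
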