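import Pool.Agent.H283R2.BK.Defs

/-! # Task C3: the inequality (C3) -/

open Real Complex Set MeasureTheory

namespace Pool.Agent.H283R2.BK

noncomputable section

/-- auxiliary function -/
def C3_g (L : ℝ) : ℝ := L + Real.sin L * Real.cos L - 3 / 2 * Real.sin L

lemma C3_g_deriv (L : ℝ) :
    HasDerivAt C3_g (Real.cos L * (2 * Real.cos L - 3 / 2)) L := by
  have h := ((hasDerivAt_id L).add ((Real.hasDerivAt_sin L).mul (Real.hasDerivAt_cos L))).sub
    ((Real.hasDerivAt_sin L).const_mul (3 / 2))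
  refine HasDerivAt.congr_deriv h ?_
  have := Real.sin_sq_add_cos_sq L
  linear_combination -this

lemma C3_g_pos {L : ℝ} (h0 : 0 < L) (h1 : L < π) : 0 < C3_g L := by
  have hpi := Real.pi_gt_three
  have hd : Differentiable ℝ C3_g := fun x => (C3_g_deriv x).differentiableAt
  have hhalf : 0 < C3_g (π / 2) := by
    unfold C3_g
    rw [Real.sin_pi_div_two, Real.cos_pi_div_two]
    linarith
  rcases le_total (π / 2) L with h | h
  · have hm : MonotoneOn C3_g (Icc (π / 2) π) := by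
      refine monotoneOn_of_deriv_nonneg (convex_Icc _ _) hd.continuous.continuousOn
        hd.differentiableOn ?_
      intro x hx
      rw [interior_Icc] at hx
      rw [(C3_g_deriv x).deriv]
      have hc : Real.cos x ≤ 0 :=
        Real.cos_nonpos_of_pi_div_two_le_of_le hx.1.le (by linarith [hx.2])
      nlinarith
    exact lt_of_lt_of_le hhalf (hm ⟨le_refl _, by linarith⟩ ⟨h, h1.le⟩ h)
  · rcases le_total L (π / 3) with h3 | h3
    · have hc : 1 / 2 ≤ Real.cos L := by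
        rw [← Real.cos_pi_div_three]
        exact Real.cos_le_cos_of_nonneg_of_le_pi h0.le (by linarith) h3
      have hs : Real.sin L < L := Real.sin_lt h0
      have hs0 : 0 < Real.sin L := Real.sin_pos_of_pos_of_lt_pi h0 h1
      unfold C3_g
      nlinarith
    · have hm : AntitoneOn C3_g (Icc (π / 3) (π / 2)) := by
        refine antitoneOn_of_deriv_nonpos (convex_Icc _ _) hd.continuous.continuousOn
          hd.differentiableOn ?_
        intro x hx
        rw [interior_Icc] at hx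
        rw [(C3_g_deriv x).deriv]
        have hc : Real.cos x ≤ 1 / 2 := by
          rw [← Real.cos_pi_div_three]
          exact Real.cos_le_cos_of_nonneg_of_le_pi (by linarith) (by linarith [hx.2]) hx.1.le
        have hc0 : 0 ≤ Real.cos x :=
          Real.cos_nonneg_of_neg_pi_div_two_le_of_le (by linarith [hx.1]) hx.2.le
        nlinarith
      exact lt_of_lt_of_le hhalf (hm ⟨h3, h⟩ ⟨by linarith, le_refl _⟩ h)

lemma C3_cube {t : ℝ} (ht : 0 ≤ t) :
    2 / 3 * Real.sin t ^ 3 ≤ t - Real.sin t * Real.cos t := by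
  have hd : ∀ x, HasDerivAt (fun t : ℝ => t - Real.sin t * Real.cos t - 2 / 3 * Real.sin t ^ 3)
      (2 * Real.sin x ^ 2 * (1 - Real.cos x)) x := by
    intro x
    have h := ((hasDerivAt_id x).sub ((Real.hasDerivAt_sin x).mul (Real.hasDerivAt_cos x))).sub
      (((Real.hasDerivAt_sin x).pow 3).const_mul (2 / 3))
    refine HasDerivAt.congr_deriv h ?_
    have := Real.sin_sq_add_cos_sq x
    norm_num
    linear_combination -this
  have hm : Monotone (fun t : ℝ => t - Real.sin t * Real.cos t - 2 / 3 * Real.sin t ^ 3) := by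
    refine monotone_of_deriv_nonneg (fun x => (hd x).differentiableAt) ?_
    intro x
    rw [(hd x).deriv]
    have := Real.cos_le_one x
    have h2 : 0 ≤ Real.sin x ^ 2 := sq_nonneg _
    nlinarith
  have := hm ht
  simp only [Real.sin_zero, zero_mul] at this
  norm_num at this
  linarith

lemma C3_lin {t : ℝ} (ht : 0 < t) : 0 < t - Real.sin t * Real.cos t := by
  have h := Real.sin_lt (show 0 < 2 * t by linarith)
  rw [Real.sin_two_mul] at h
  linarith

lemma C3_el (A : ℝ) : π * el A = (π - A) - Real.sin (π - A) * Real.cos (π - A) := by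
  have := Real.pi_pos
  unfold el
  rw [Real.sin_pi_sub, Real.cos_pi_sub]
  field_simp
  ring

lemma C3_el_pos {A : ℝ} (h : A < π) : 0 < el A := by
  have h1 : 0 < π * el A := by
    rw [C3_el]
    exact C3_lin (by linarith)
  exact pos_of_mul_pos_right h1 Real.pi_pos.le

lemma C3_br {x L : ℝ} (hx : 0 < x) (hxL : x < L) (hL : L < π) :
    0 < ((L - Real.sin L * Real.cos L) - 3 / 2 * Real.sin L) * Real.sin x
      + 2 * Real.sin L ^ 2 * Real.cos x := by
  have hs : 0 < Real.sin L := Real.sin_pos_of_pos_of_lt_pi (by linarith) hL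
  have hsx : 0 < Real.sin x := Real.sin_pos_of_pos_of_lt_pi hx (by linarith)
  have hsd : 0 < Real.sin (L - x) := Real.sin_pos_of_pos_of_lt_pi (by linarith) (by linarith)
  have hg := C3_g_pos (show 0 < L by linarith) hL
  have key : Real.sin L * (((L - Real.sin L * Real.cos L) - 3 / 2 * Real.sin L) * Real.sin x
      + 2 * Real.sin L ^ 2 * Real.cos x)
      = 2 * Real.sin L ^ 2 * Real.sin (L - x) + Real.sin L * C3_g L * Real.sin x := by
    rw [Real.sin_sub]
    unfold C3_g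
    ring
  have hpos : 0 < Real.sin L * (((L - Real.sin L * Real.cos L) - 3 / 2 * Real.sin L) * Real.sin x
      + 2 * Real.sin L ^ 2 * Real.cos x) := by
    rw [key]
    positivity
  exact pos_of_mul_pos_right hpos hs.le

theorem t_C3 : S_C3 := by
  intro A1 A2 A3 h1 h2 h3 hsum
  have hpi := Real.pi_pos
  have hS1 : 0 < Real.sin A1 := Real.sin_pos_of_pos_of_lt_pi h1 (by linarith)
  have hS2 : 0 < Real.sin A2 := Real.sin_pos_of_pos_of_lt_pi h2 (by linarith)
  have hS3 : 0 < Real.sin A3 := Real.sin_pos_of_pos_of_lt_pi h3 (by linarith)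
  have hl1 : 0 < el A1 := C3_el_pos (by linarith)
  have hl2 : 0 < el A2 := C3_el_pos (by linarith)
  have hl3 : 0 < el A3 := C3_el_pos (by linarith)
  have hlam := C3_el A3
  have hcube := C3_cube (show 0 ≤ π - A3 by linarith)
  have hb2 := C3_br (x := A2) (L := π - A3) h2 (by linarith) (by linarith)
  have hb1 := C3_br (x := A1) (L := π - A3) h1 (by linarith) (by linarith)
  rw [← hlam] at hcube hb1 hb2
  rw [Real.sin_pi_sub] at hcube hb1 hb2
  rw [Real.sin_two_mul, Real.sin_two_mul]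
  set S1 := Real.sin A1
  set S2 := Real.sin A2
  set S3 := Real.sin A3
  set C1 := Real.cos A1
  set C2 := Real.cos A2
  set l1 := el A1
  set l2 := el A2
  set l3 := el A3
  set lam := π * l3
  have hsig : 0 < l1 * S2 ^ 2 + l2 * S1 ^ 2 := by positivity
  have hD : (l1 * S2 ^ 2 - l2 * S1 ^ 2) ^ 2 ≤ (l1 * S2 ^ 2 + l2 * S1 ^ 2) ^ 2 := by
    have ha : 0 ≤ (l1 * S2 ^ 2) * (l2 * S1 ^ 2) := by positivity
    nlinarith
  have hX : 2 / 3 * S3 ^ 3 * (l1 * S2 ^ 2 + l2 * S1 ^ 2) ≤ lam * (l1 * S2 ^ 2 + l2 * S1 ^ 2) :=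
    mul_le_mul_of_nonneg_right hcube hsig.le
  have hXY : 3 / 2 * S3 * (l1 * S2 ^ 2 + l2 * S1 ^ 2) <
      lam * (l1 * S2 ^ 2 + l2 * S1 ^ 2) + 2 * l3 * (S1 * S2 * S3)
      + S3 ^ 2 * (l1 * (2 * S2 * C2) + l2 * (2 * S1 * C1)) := by
    have e1 : 0 < l1 * S2 * ((lam - 3 / 2 * S3) * S2 + 2 * S3 ^ 2 * C2) := by positivity
    have e2 : 0 < l2 * S1 * ((lam - 3 / 2 * S3) * S1 + 2 * S3 ^ 2 * C1) := by positivity
    have e3 : 0 < l3 * (S1 * S2 * S3) := by positivity
    nlinarith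
  have h0 : 0 < 2 / 3 * S3 ^ 3 * (l1 * S2 ^ 2 + l2 * S1 ^ 2) := by positivity
  have h0' : 0 < 3 / 2 * S3 * (l1 * S2 ^ 2 + l2 * S1 ^ 2) := by positivity
  calc S3 ^ 4 * (l1 * S2 ^ 2 - l2 * S1 ^ 2) ^ 2
      ≤ S3 ^ 4 * (l1 * S2 ^ 2 + l2 * S1 ^ 2) ^ 2 := by
        exact mul_le_mul_of_nonneg_left hD (by positivity)
    _ = (2 / 3 * S3 ^ 3 * (l1 * S2 ^ 2 + l2 * S1 ^ 2)) *
        (3 / 2 * S3 * (l1 * S2 ^ 2 + l2 * S1 ^ 2)) := by ring
    _ < (2 / 3 * S3 ^ 3 * (l1 * S2 ^ 2 + l2 * S1 ^ 2)) *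
        (lam * (l1 * S2 ^ 2 + l2 * S1 ^ 2) + 2 * l3 * (S1 * S2 * S3)
          + S3 ^ 2 * (l1 * (2 * S2 * C2) + l2 * (2 * S1 * C1))) :=
        mul_lt_mul_of_pos_left hXY h0
    _ ≤ lam * (l1 * S2 ^ 2 + l2 * S1 ^ 2) *
        (lam * (l1 * S2 ^ 2 + l2 * S1 ^ 2) + 2 * l3 * (S1 * S2 * S3)
          + S3 ^ 2 * (l1 * (2 * S2 * C2) + l2 * (2 * S1 * C1))) :=
        mul_le_mul_of_nonneg_right hX (h0'.trans hXY).le

end

end Pool.Agent.H283R2.BK
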