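import Pool.Agent.H283R2.BK.Defs

/-!
# Calibration of an invariant circle
-/

open Real Complex Set MeasureTheory Filter Topology

namespace Pool.Agent.H283R2.BK

theorem CAL_surj {h k g : ℝ → ℝ} (hg : Circ h k g) : Function.Surjective g := by
  refine hg.cont.surjective ?_ ?_
  · exact tendsto_atTop_mono (fun x => (hg.lo x).le) tendsto_id
  · exact tendsto_atBot_mono (fun x => (hg.hi x).le) (tendsto_atBot_add_const_right _ _ tendsto_id)

theorem CAL_contA {h k ρ : ℝ → ℝ} (hS : Sup h k ρ) :
    Continuous (fun z : ℝ × ℝ => Am h k z.1 z.2) := by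
  have hh : Continuous h := continuous_iff_continuousAt.2 fun x => (hS.dh x).continuousAt
  have hk : Continuous k := continuous_iff_continuousAt.2 fun x => (hS.dk x).continuousAt
  unfold Am
  fun_prop

theorem CAL_contB {h k ρ : ℝ → ℝ} (hS : Sup h k ρ) :
    Continuous (fun z : ℝ × ℝ => Bm h k z.1 z.2) := by
  have hh : Continuous h := continuous_iff_continuousAt.2 fun x => (hS.dh x).continuousAt
  have hk : Continuous k := continuous_iff_continuousAt.2 fun x => (hS.dk x).continuousAt
  unfold Bm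
  fun_prop

/-- `B(·, y)` is strictly increasing on `[y - 2π, y]` -/
theorem CAL_Bmono (h1 : S_DER) {h k ρ : ℝ → ℝ} (hS : Sup h k ρ) (y : ℝ) :
    StrictMonoOn (fun x => Bm h k x y) (Icc (y - 2 * π) y) := by
  refine strictMonoOn_of_deriv_pos (convex_Icc _ _) ?_ ?_
  · exact ((CAL_contB hS).comp (by fun_prop : Continuous fun x : ℝ => (x, y))).continuousOn
  · intro x hx
    rw [interior_Icc] at hx
    rw [((h1 h k ρ hS x y).2.2.2.2.1).deriv]
    unfold S12
    have h2 : 0 < Real.sin ((y - x) / 2) :=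
      Real.sin_pos_of_pos_of_lt_pi (by linarith [hx.2]) (by linarith [hx.1])
    have := hS.pos ((x + y) / 2)
    positivity

theorem CAL_max (h1 : S_DER) {h k ρ g : ℝ → ℝ} (hS : Sup h k ρ) (hg : Circ h k g) (u : ℝ → ℝ)
    (hu : ∀ x, HasDerivAt u (Am h k x (g x)) x) (x y : ℝ) (hxy : x ≤ y) (hyx : y ≤ x + 2 * π)
    (hne : y ≠ g x) : Sg h x y - u y < Sg h x (g x) - u (g x) := by
  have hd : ∀ t, HasDerivAt (fun t => Sg h x t - u t) (Bm h k x t - Am h k t (g t)) t :=
    fun t => ((h1 h k ρ hS x t).2.1).sub (hu t)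
  have hc : Continuous (fun t => Sg h x t - u t) :=
    continuous_iff_continuousAt.2 fun t => (hd t).continuousAt
  have hz : ∀ t, ∃ z, g z = t ∧ z < t ∧ t - 2 * π < z ∧ Am h k t (g t) = Bm h k z t := by
    intro t
    obtain ⟨z, rfl⟩ := CAL_surj hg t
    exact ⟨z, rfl, hg.lo z, by linarith [hg.hi z], (hg.st z).symm⟩
  rcases lt_or_gt_of_ne hne with hlt | hgt
  · have hmono : StrictMonoOn (fun t => Sg h x t - u t) (Icc x (g x)) := by
      refine strictMonoOn_of_deriv_pos (convex_Icc _ _) hc.continuousOn ?_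
      intro t ht
      rw [interior_Icc] at ht
      rw [(hd t).deriv]
      obtain ⟨z, hz1, hz2, hz3, hz4⟩ := hz t
      have hzx : z < x := by
        rw [← hg.mono.lt_iff_lt, hz1]; exact ht.2
      have := CAL_Bmono h1 hS t ⟨hz3.le, hz2.le⟩ ⟨by linarith, ht.1.le⟩ hzx
      rw [hz4]
      simp only at this
      linarith
    exact hmono ⟨hxy, hlt.le⟩ ⟨(hg.lo x).le, le_refl _⟩ hlt
  · have hanti : StrictAntiOn (fun t => Sg h x t - u t) (Icc (g x) (x + 2 * π)) := by
      refine strictAntiOn_of_deriv_neg (convex_Icc _ _) hc.continuousOn ?_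
      intro t ht
      rw [interior_Icc] at ht
      rw [(hd t).deriv]
      obtain ⟨z, hz1, hz2, hz3, hz4⟩ := hz t
      have hzx : x < z := by
        rw [← hg.mono.lt_iff_lt, hz1]; exact ht.1
      have := CAL_Bmono h1 hS t ⟨by linarith [ht.2], by linarith⟩ ⟨hz3.le, hz2.le⟩ hzx
      rw [hz4]
      simp only at this
      linarith
    exact hanti ⟨le_refl _, (hg.hi x).le⟩ ⟨hgt.le, hyx⟩ hgt

theorem t_CAL (h1 : S_DER) : S_CAL := by
  intro h k ρ g hS hg
  have ha : Continuous (fun x => Am h k x (g x)) :=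
    (CAL_contA hS).comp (continuous_id.prodMk hg.cont)
  set u : ℝ → ℝ := fun x => ∫ s in (0 : ℝ)..x, Am h k s (g s) with hudef
  have hu : ∀ x, HasDerivAt u (Am h k x (g x)) x := fun x =>
    intervalIntegral.integral_hasDerivAt_right (ha.intervalIntegrable _ _)
      ha.stronglyMeasurable.stronglyMeasurableAtFilter ha.continuousAt
  have hmax := CAL_max h1 hS hg u hu
  have hmax' : ∀ x y, x ≤ y → y ≤ x + 2 * π → Sg h x y - u y ≤ Sg h x (g x) - u (g x) := by
    intro x y hxy hyx
    by_cases hy : y = g x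
    · rw [hy]
    · exact (hmax x y hxy hyx hy).le
  set m : ℝ → ℝ := fun x => Sg h x (g x) + u x - u (g x) with hm
  -- the local Lipschitz estimate
  have hloc : ∀ x, ∀ ε > 0, ∃ δ > 0, ∀ s ∈ Metric.ball x δ, ∀ s' ∈ Metric.ball x δ,
      m s - m s' ≤ ε * |s' - s| := by
    intro x ε hε
    have hc1 : Continuous (fun z : ℝ × ℝ => Am h k z.1 (g z.1) - Am h k z.1 (g z.2)) :=
      (ha.comp continuous_fst).sub
        ((CAL_contA hS).comp (continuous_fst.prodMk (hg.cont.comp continuous_snd)))
    have hc2 : Continuous (fun z : ℝ × ℝ => g z.2 - z.1) :=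
      (hg.cont.comp continuous_snd).sub continuous_fst
    have e1 : ∀ᶠ z : ℝ × ℝ in 𝓝 (x, x), |Am h k z.1 (g z.1) - Am h k z.1 (g z.2)| < ε := by
      have := hc1.abs.tendsto (x, x)
      simp only [sub_self, abs_zero] at this
      exact this.eventually (gt_mem_nhds hε)
    have e2 : ∀ᶠ z : ℝ × ℝ in 𝓝 (x, x), 0 < g z.2 - z.1 :=
      (hc2.tendsto (x, x)).eventually (lt_mem_nhds (by have := hg.lo x; simp only; linarith))
    have e3 : ∀ᶠ z : ℝ × ℝ in 𝓝 (x, x), g z.2 - z.1 < 2 * π :=
      (hc2.tendsto (x, x)).eventually (gt_mem_nhds (by have := hg.hi x; simp only; linarith))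
    obtain ⟨δ, hδ, hb⟩ := Metric.eventually_nhds_iff_ball.1 (e1.and (e2.and e3))
    refine ⟨δ, hδ, fun s hs s' hs' => ?_⟩
    have hpair : ∀ t ∈ Metric.ball x δ, (t, s) ∈ Metric.ball ((x, x) : ℝ × ℝ) δ := by
      intro t ht
      rw [← ball_prod_same]
      exact ⟨ht, hs⟩
    have hadm := hb _ (hpair s' hs')
    simp only at hadm
    have hA := hmax' s' (g s) (by linarith [hadm.2.1]) (by linarith [hadm.2.2])
    have hmv := (convex_ball x δ).norm_image_sub_le_of_norm_hasDerivWithin_le
      (f := fun t => Sg h t (g s) + u t)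
      (f' := fun t => -(Am h k t (g s)) + Am h k t (g t)) (C := ε)
      (fun t _ => (((h1 h k ρ hS t (g s)).1).add (hu t)).hasDerivWithinAt)
      (fun t ht => by
        have := (hb _ (hpair t ht)).1
        simp only at this
        rw [Real.norm_eq_abs, neg_add_eq_sub]
        exact this.le) hs hs'
    rw [Real.norm_eq_abs, Real.norm_eq_abs] at hmv
    have h3 := (abs_le.1 hmv).1
    simp only [hm]
    linarith
  have hder : ∀ x, HasDerivAt m 0 x := by
    intro x
    rw [hasDerivAt_iff_isLittleO, Asymptotics.isLittleO_iff]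
    intro ε hε
    obtain ⟨δ, hδ, hb⟩ := hloc x ε hε
    filter_upwards [Metric.ball_mem_nhds x hδ] with s hs
    have h2 := hb s hs x (Metric.mem_ball_self hδ)
    have h3 := hb x (Metric.mem_ball_self hδ) s hs
    rw [smul_zero, sub_zero, Real.norm_eq_abs, Real.norm_eq_abs, abs_le]
    rw [abs_sub_comm] at h2
    constructor <;> linarith
  have hconst : ∀ x, m x = m 0 := fun x =>
    is_const_of_deriv_eq_zero (fun x => (hder x).differentiableAt) (fun x => (hder x).deriv) x 0
  refine ⟨u, m 0, hu, hconst, ?_, ?_⟩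
  · intro x y hxy hyx
    have := hmax' x y hxy hyx
    have h2 := hconst x
    simp only [hm] at h2 ⊢
    linarith
  · intro x y hxy hyx heq
    by_contra hne
    have := hmax x y hxy hyx hne
    have h2 := hconst x
    simp only [hm] at h2 heq
    linarith

end Pool.Agent.H283R2.BK
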