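import Pool.Agent.H283R2.BK.Defs

open Real Complex Set MeasureTheory

namespace Pool.Agent.H283R2.BK

noncomputable section

theorem CG_en_per (u : ℝ) : en (2 * (u + 2 * π)) = en (2 * u) := by
  unfold en
  have h : ((2 * (u + 2 * π) : ℝ) : ℂ) * I = ((2 * u : ℝ) : ℂ) * I + 2 * π * I + 2 * π * I := by
    push_cast; ring
  rw [h, Complex.exp_add, Complex.exp_add, Complex.exp_two_pi_mul_I, mul_one, mul_one]

theorem CG_en_deriv (u : ℝ → ℝ) (w t : ℝ) (hu : HasDerivAt u w t) :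
    HasDerivAt (fun t => en (2 * u t)) (2 * I * w * en (2 * u t)) t := by
  have h1 : HasDerivAt (fun t => ((2 * u t : ℝ) : ℂ)) ((2 * w : ℝ) : ℂ) t :=
    (hu.const_mul 2).ofReal_comp
  have h2 := (h1.mul_const I).cexp
  refine h2.congr_deriv ?_
  unfold en
  push_cast
  ring

theorem CG_el_deriv (hEL : S_EL) (A : ℝ → ℝ) (a t : ℝ) (hA : HasDerivAt A a t) (h0 : 0 < A t)
    (h1 : A t < π) : HasDerivAt (fun t => ((el (A t) : ℝ) : ℂ)) ((eld (A t) a : ℝ) : ℂ) t := by
  have h2 := ((hEL.1 (A t) h0 h1).2.2.comp t hA).ofReal_comp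
  refine h2.congr_deriv ?_
  unfold eld
  rfl

theorem CG_cont_el : Continuous el := by
  unfold el
  fun_prop

theorem CG_cont_en : Continuous en := by
  unfold en
  fun_prop

theorem t_CG (hEL : S_EL) (hPW : S_PW) : S_CG := by
  intro D hD
  have hA1 : ∀ t, 0 < D.A1 t := fun t => by have := hD.g23 t; unfold TD.A1; linarith
  have hA2 : ∀ t, 0 < D.A2 t := fun t => by have := hD.g31 t; unfold TD.A2; linarith
  have hA3 : ∀ t, 0 < D.A3 t := fun t => by have := hD.g12 t; unfold TD.A3; linarith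
  have hAs : ∀ t, D.A1 t + D.A2 t + D.A3 t = π := fun t => by
    unfold TD.A1 TD.A2 TD.A3; ring
  have hp : ∀ t, D.p1 t + D.p2 t + D.p3 t = 1 := by
    intro t
    have h1 := ((hD.d1 t).add (hD.d2 t)).add (hD.d3 t)
    have h2 : HasDerivAt (D.f1 + D.f2 + D.f3) 1 t := by
      have e : D.f1 + D.f2 + D.f3 = fun t => t := by
        funext t
        exact hD.sum t
      rw [e]
      exact hasDerivAt_id t
    exact h1.unique h2
  have dA1 : ∀ t, HasDerivAt D.A1 (D.w3 t - D.w2 t) t := fun t => by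
    have h := ((hD.d3 t).sub (hD.d2 t)).const_sub π
    refine h.congr_deriv ?_
    unfold TD.w3 TD.w2; ring
  have dA2 : ∀ t, HasDerivAt D.A2 (D.w1 t - D.w3 t) t := fun t => by
    have h := ((hD.d3 t).sub (hD.d1 t)).sub_const π
    refine h.congr_deriv ?_
    unfold TD.w1 TD.w3; ring
  have dA3 : ∀ t, HasDerivAt D.A3 (D.w2 t - D.w1 t) t := fun t => by
    have h := ((hD.d2 t).sub (hD.d1 t)).const_sub π
    refine h.congr_deriv ?_
    unfold TD.w1 TD.w2; ring
  have du1 : ∀ t, HasDerivAt D.u1 (D.w1 t) t := fun t => (hasDerivAt_id t).sub (hD.d1 t)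
  have du2 : ∀ t, HasDerivAt D.u2 (D.w2 t) t := fun t => (hasDerivAt_id t).sub (hD.d2 t)
  have du3 : ∀ t, HasDerivAt D.u3 (D.w3 t) t := fun t => (hasDerivAt_id t).sub (hD.d3 t)
  have hl1 : ∀ t, 0 < el (D.A1 t) := fun t =>
    (hEL.1 _ (hA1 t) (by linarith [hA2 t, hA3 t, hAs t])).1
  have hl2 : ∀ t, 0 < el (D.A2 t) := fun t =>
    (hEL.1 _ (hA2 t) (by linarith [hA1 t, hA3 t, hAs t])).1
  have hl3 : ∀ t, 0 < el (D.A3 t) := fun t =>
    (hEL.1 _ (hA3 t) (by linarith [hA1 t, hA2 t, hAs t])).1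
  have hL : ∀ t, ((el (D.A1 t) + el (D.A2 t) + el (D.A3 t) : ℝ) : ℂ) ≠ 0 := fun t => by
    have : el (D.A1 t) + el (D.A2 t) + el (D.A3 t) ≠ 0 :=
      (add_pos (add_pos (hl1 t) (hl2 t)) (hl3 t)).ne'
    exact_mod_cast this
  have hPWt := fun t => hPW (D.A1 t) (D.A2 t) (D.A3 t) (D.u1 t) (D.u2 t) (D.u3 t)
    (D.w1 t) (D.w2 t) (D.w3 t) (hA1 t) (hA2 t) (hA3 t) (hAs t)
    (by unfold TD.u1 TD.u2 TD.A3; ring) (by unfold TD.u2 TD.u3 TD.A1; ring)
    (by unfold TD.w1 TD.w2 TD.w3; linarith [hp t])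
    (by unfold TD.w1; linarith [hp t, hD.q2 t, hD.q3 t]) (by unfold TD.w1; linarith [hD.q1 t])
    (by unfold TD.w2; linarith [hp t, hD.q1 t, hD.q3 t]) (by unfold TD.w2; linarith [hD.q2 t])
    (by unfold TD.w3; linarith [hp t, hD.q1 t, hD.q2 t]) (by unfold TD.w3; linarith [hD.q3 t])
  refine ⟨fun t => cen (D.A1 t) (D.A2 t) (D.A3 t) (D.u1 t) (D.u2 t) (D.u3 t),
    fun t => cend (D.A1 t) (D.A2 t) (D.A3 t) (D.u1 t) (D.u2 t) (D.u3 t) (D.w1 t) (D.w2 t) (D.w3 t),
    ⟨?_, ?_, ?_, fun t => (hPWt t).1, fun t => (hPWt t).2.1⟩, fun t => (hPWt t).2.2⟩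
  · intro t
    have e1 := CG_el_deriv hEL D.A1 _ t (dA1 t) (hA1 t) (by linarith [hA2 t, hA3 t, hAs t])
    have e2 := CG_el_deriv hEL D.A2 _ t (dA2 t) (hA2 t) (by linarith [hA1 t, hA3 t, hAs t])
    have e3 := CG_el_deriv hEL D.A3 _ t (dA3 t) (hA3 t) (by linarith [hA1 t, hA2 t, hAs t])
    have n1 := e1.mul (CG_en_deriv D.u1 _ t (du1 t))
    have n2 := e2.mul (CG_en_deriv D.u2 _ t (du2 t))
    have n3 := e3.mul (CG_en_deriv D.u3 _ t (du3 t))
    have hN := (n1.add n2).add n3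
    have hLd := (e1.add e2).add e3
    have hL0 := hL t
    have h := hN.div hLd (by
      simp only [Pi.add_apply]
      push_cast at hL0
      exact hL0)
    have ef : (fun t => cen (D.A1 t) (D.A2 t) (D.A3 t) (D.u1 t) (D.u2 t) (D.u3 t)) =
        (((fun t => ((el (D.A1 t) : ℝ) : ℂ)) * (fun t => en (2 * D.u1 t)) +
          (fun t => ((el (D.A2 t) : ℝ) : ℂ)) * (fun t => en (2 * D.u2 t))) +
          (fun t => ((el (D.A3 t) : ℝ) : ℂ)) * (fun t => en (2 * D.u3 t))) /
        ((fun t => ((el (D.A1 t) : ℝ) : ℂ)) + (fun t => ((el (D.A2 t) : ℝ) : ℂ)) +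
          (fun t => ((el (D.A3 t) : ℝ) : ℂ))) := by
      funext t
      simp only [cen, Pi.div_apply, Pi.add_apply, Pi.mul_apply]
      push_cast
      rfl
    rw [ef]
    refine h.congr_deriv ?_
    simp only [cend, cen, Pi.add_apply, Pi.mul_apply]
    push_cast at hL0 ⊢
    field_simp
  · have cA1 : Continuous D.A1 := continuous_iff_continuousAt.2 fun t => (dA1 t).continuousAt
    have cA2 : Continuous D.A2 := continuous_iff_continuousAt.2 fun t => (dA2 t).continuousAt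
    have cA3 : Continuous D.A3 := continuous_iff_continuousAt.2 fun t => (dA3 t).continuousAt
    have cu1 : Continuous D.u1 := continuous_iff_continuousAt.2 fun t => (du1 t).continuousAt
    have cu2 : Continuous D.u2 := continuous_iff_continuousAt.2 fun t => (du2 t).continuousAt
    have cu3 : Continuous D.u3 := continuous_iff_continuousAt.2 fun t => (du3 t).continuousAt
    have cw1 : Continuous D.w1 := continuous_const.sub hD.c1
    have cw2 : Continuous D.w2 := continuous_const.sub hD.c2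
    have cw3 : Continuous D.w3 := continuous_const.sub hD.c3
    have cl1 : Continuous (fun t => el (D.A1 t)) := CG_cont_el.comp cA1
    have cl2 : Continuous (fun t => el (D.A2 t)) := CG_cont_el.comp cA2
    have cl3 : Continuous (fun t => el (D.A3 t)) := CG_cont_el.comp cA3
    have ce1 : Continuous (fun t => en (2 * D.u1 t)) := CG_cont_en.comp (continuous_const.mul cu1)
    have ce2 : Continuous (fun t => en (2 * D.u2 t)) := CG_cont_en.comp (continuous_const.mul cu2)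
    have ce3 : Continuous (fun t => en (2 * D.u3 t)) := CG_cont_en.comp (continuous_const.mul cu3)
    have cL : Continuous (fun t => ((el (D.A1 t) + el (D.A2 t) + el (D.A3 t) : ℝ) : ℂ)) := by
      fun_prop
    unfold cend cen eld
    refine Continuous.sub (Continuous.div₀ ?_ cL hL) (Continuous.mul (Continuous.div₀ ?_ cL hL)
      (Continuous.div₀ ?_ cL hL))
    · fun_prop
    · fun_prop
    · fun_prop
  · intro t
    have a1 : D.A1 (t + 2 * π) = D.A2 t := by
      unfold TD.A1 TD.A2; rw [hD.s3, hD.s2]; ring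
    have a2 : D.A2 (t + 2 * π) = D.A3 t := by
      unfold TD.A2 TD.A3; rw [hD.s3, hD.s1]; ring
    have a3 : D.A3 (t + 2 * π) = D.A1 t := by
      unfold TD.A3 TD.A1; rw [hD.s2, hD.s1]
    have b1 : D.u1 (t + 2 * π) = D.u2 t + 2 * π := by
      unfold TD.u1 TD.u2; rw [hD.s1]; ring
    have b2 : D.u2 (t + 2 * π) = D.u3 t + 2 * π := by
      unfold TD.u2 TD.u3; rw [hD.s2]; ring
    have b3 : D.u3 (t + 2 * π) = D.u1 t := by
      unfold TD.u3 TD.u1; rw [hD.s3]; ring
    simp only [a1, a2, a3, b1, b2, b3, cen, CG_en_per]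
    push_cast
    congr 1 <;> ring

end

end Pool.Agent.H283R2.BK
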