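import Pool.Agent.H283R2.BK.Defs

/-!
Task CL: closure on the triangles for `2 h k`.
-/

open Real Complex Set MeasureTheory

namespace Pool.Agent.H283R2.BK

theorem CL_sq (h k : ℝ → ℝ) (x y : ℝ) :
    Bm h k x y ^ 2 - Am h k x y ^ 2 =
      Real.sin (y - x) * (2 * h ((x + y) / 2) * k ((x + y) / 2)) := by
  have e : Real.sin (y - x) = 2 * Real.sin ((y - x) / 2) * Real.cos ((y - x) / 2) := by
    rw [← Real.sin_two_mul]
    congr 1
    ring
  rw [e]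
  unfold Bm Am
  ring

theorem CL_Aper (h k ρ : ℝ → ℝ) (hS : Sup h k ρ) (x y : ℝ) :
    Am h k (x + 2 * π) (y + 2 * π) = Am h k x y := by
  unfold Am
  have e1 : (x + 2 * π + (y + 2 * π)) / 2 = (x + y) / 2 + 2 * π := by ring
  have e2 : (y + 2 * π - (x + 2 * π)) / 2 = (y - x) / 2 := by ring
  rw [e1, e2, hS.ph, hS.pk]

theorem t_CL : S_CL := by
  intro h k ρ g D hS hg _ hOn t
  obtain ⟨h1, h2, h3⟩ := hOn t
  have s1 := hg.st (D.f1 t)
  have s2 := hg.st (D.f2 t)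
  have s3 := hg.st (D.f3 t)
  rw [h1, h2] at s1
  rw [h2, h3] at s2
  rw [h3, hg.per, h1, CL_Aper h k ρ hS] at s3
  have e1 := CL_sq h k (D.f1 t) (D.f2 t)
  have e2 := CL_sq h k (D.f2 t) (D.f3 t)
  have e3 := CL_sq h k (D.f3 t) (D.f1 t + 2 * π)
  have a1 : Real.sin (D.A1 t) = Real.sin (D.f3 t - D.f2 t) := by
    unfold TD.A1
    rw [Real.sin_pi_sub]
  have a3 : Real.sin (D.A3 t) = Real.sin (D.f2 t - D.f1 t) := by
    unfold TD.A3
    rw [Real.sin_pi_sub]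
  have a2 : Real.sin (D.A2 t) = Real.sin (D.f1 t + 2 * π - D.f3 t) := by
    unfold TD.A2
    rw [show D.f1 t + 2 * π - D.f3 t = π - (D.f3 t - D.f1 t - π) by ring, Real.sin_pi_sub]
  have b1 : D.b1 t = (D.f2 t + D.f3 t) / 2 := rfl
  have b3 : D.b3 t = (D.f1 t + D.f2 t) / 2 := rfl
  have b2 : D.b2 t = (D.f3 t + (D.f1 t + 2 * π)) / 2 := by
    unfold TD.b2
    ring
  rw [a1, a2, a3, b1, b2, b3, ← e1, ← e2, ← e3, s1, s2, s3]
  ring

end Pool.Agent.H283R2.BK
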