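import Pool.Agent.H283R2.BK.Defs

/-!
Task CORE: assembly of the core theorem.
-/

open Real Complex Set MeasureTheory

namespace Pool.Agent.H283R2.BK

noncomputable section

theorem CORE_en_re (x : ℝ) : (en x).re = Real.cos x := Complex.exp_ofReal_mul_I_re x

theorem CORE_en_im (x : ℝ) : (en x).im = Real.sin x := Complex.exp_ofReal_mul_I_im x

theorem CORE_en_per (x : ℝ) : en (x + 2 * π) = en x := by
  apply Complex.ext
  · rw [CORE_en_re, CORE_en_re, Real.cos_add_two_pi]
  · rw [CORE_en_im, CORE_en_im, Real.sin_add_two_pi]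

theorem CORE_u {D : TD} (hD : IsTri D) (t : ℝ) :
    en (D.u1 t) = en (2 * D.b1 t) ∧ en (D.u2 t) = en (2 * D.b2 t) ∧
      en (D.u3 t) = en (2 * D.b3 t) := by
  have hs := hD.sum t
  refine ⟨?_, ?_, ?_⟩
  · congr 1
    unfold TD.u1 TD.b1
    linarith
  · rw [← CORE_en_per (D.u2 t)]
    congr 1
    unfold TD.u2 TD.b2
    linarith
  · congr 1
    unfold TD.u3 TD.b3
    linarith

theorem CORE_clos (D : TD) (t : ℝ) :
    Real.sin (D.A1 t) * Real.cos (2 * D.b1 t) + Real.sin (D.A2 t) * Real.cos (2 * D.b2 t)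
      + Real.sin (D.A3 t) * Real.cos (2 * D.b3 t) = 0 ∧
    Real.sin (D.A1 t) * Real.sin (2 * D.b1 t) + Real.sin (D.A2 t) * Real.sin (2 * D.b2 t)
      + Real.sin (D.A3 t) * Real.sin (2 * D.b3 t) = 0 := by
  have e1 : Real.sin (D.A1 t) = Real.sin (D.f3 t - D.f2 t) := by
    unfold TD.A1
    rw [Real.sin_pi_sub]
  have e2 : Real.sin (D.A2 t) = Real.sin (D.f1 t - D.f3 t) := by
    unfold TD.A2
    rw [Real.sin_sub_pi, ← Real.sin_neg, neg_sub]
  have e3 : Real.sin (D.A3 t) = Real.sin (D.f2 t - D.f1 t) := by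
    unfold TD.A3
    rw [Real.sin_pi_sub]
  have c1 : (2 * D.b1 t) = D.f2 t + D.f3 t := by unfold TD.b1; ring
  have c2 : (2 * D.b2 t) = (D.f3 t + D.f1 t) + 2 * π := by unfold TD.b2; ring
  have c3 : (2 * D.b3 t) = D.f1 t + D.f2 t := by unfold TD.b3; ring
  have s1 := Real.sin_sq_add_cos_sq (D.f1 t)
  have s2 := Real.sin_sq_add_cos_sq (D.f2 t)
  have s3 := Real.sin_sq_add_cos_sq (D.f3 t)
  rw [e1, e2, e3, c1, c2, c3, Real.cos_add_two_pi, Real.sin_add_two_pi]
  simp only [Real.sin_sub, Real.cos_add, Real.sin_add]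
  constructor
  · linear_combination
      (Real.sin (D.f2 t) * Real.cos (D.f2 t) - Real.sin (D.f3 t) * Real.cos (D.f3 t)) * s1
      + (Real.sin (D.f3 t) * Real.cos (D.f3 t) - Real.sin (D.f1 t) * Real.cos (D.f1 t)) * s2
      + (Real.sin (D.f1 t) * Real.cos (D.f1 t) - Real.sin (D.f2 t) * Real.cos (D.f2 t)) * s3
  · linear_combination
      (Real.sin (D.f2 t) ^ 2 - Real.sin (D.f3 t) ^ 2) * s1
      + (Real.sin (D.f3 t) ^ 2 - Real.sin (D.f1 t) ^ 2) * s2
      + (Real.sin (D.f1 t) ^ 2 - Real.sin (D.f2 t) ^ 2) * s3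

/-- the constant of the translation -/
def CORE_kap (a b : ℝ) : ℂ := ⟨2 * a * b, -(a ^ 2 - b ^ 2)⟩

theorem CORE_shift (h k : ℝ → ℝ) (a b x : ℝ) :
    2 * hs h a b x * ks k a b x = 2 * h x * k x
      - a * (2 * (k x * Real.cos x - h x * Real.sin x))
      - b * (2 * (k x * Real.sin x + h x * Real.cos x)) + ip (CORE_kap a b) (en (2 * x)) := by
  unfold hs ks ip CORE_kap
  rw [CORE_en_re, CORE_en_im, Real.cos_two_mul', Real.sin_two_mul]
  ring

theorem CORE_w {D : TD} (hD : IsTri D) (t : ℝ) : 0 < D.w1 t ∧ 0 < D.w2 t ∧ 0 < D.w3 t := by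
  have h1 : HasDerivAt (fun t => D.f1 t + D.f2 t + D.f3 t) (D.p1 t + D.p2 t + D.p3 t) t :=
    ((hD.d1 t).add (hD.d2 t)).add (hD.d3 t)
  have h2 : (fun t => D.f1 t + D.f2 t + D.f3 t) = fun t => t := by
    funext t
    exact hD.sum t
  rw [h2] at h1
  have h3 : D.p1 t + D.p2 t + D.p3 t = 1 := h1.unique (hasDerivAt_id' t)
  have q1 := hD.q1 t
  have q2 := hD.q2 t
  have q3 := hD.q3 t
  unfold TD.w1 TD.w2 TD.w3
  refine ⟨by linarith, by linarith, by linarith⟩

theorem CORE_contG {D : TD} (hD : IsTri D) (W : ℝ → ℂ) (hW : Continuous W) :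
    Continuous (fun t => D.G t (W t)) := by
  have c1 : Continuous D.f1 := continuous_iff_continuousAt.2 fun t => (hD.d1 t).continuousAt
  have c2 : Continuous D.f2 := continuous_iff_continuousAt.2 fun t => (hD.d2 t).continuousAt
  have c3 : Continuous D.f3 := continuous_iff_continuousAt.2 fun t => (hD.d3 t).continuousAt
  have p1 := hD.c1
  have p2 := hD.c2
  have p3 := hD.c3
  have w1 : ∀ t, 2 * (1 - D.p1 t) ≠ 0 := fun t => (mul_pos two_pos (CORE_w hD t).1).ne'
  have w2 : ∀ t, 2 * (1 - D.p2 t) ≠ 0 := fun t => (mul_pos two_pos (CORE_w hD t).2.1).ne'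
  have w3 : ∀ t, 2 * (1 - D.p3 t) ≠ 0 := fun t => (mul_pos two_pos (CORE_w hD t).2.2).ne'
  unfold TD.G TD.A1 TD.A2 TD.A3 TD.w1 TD.w2 TD.w3 TD.u1 TD.u2 TD.u3 el ip en
  refine ((Continuous.mul (Continuous.div (by fun_prop) (by fun_prop) w1) (by fun_prop)).add
    (Continuous.mul (Continuous.div (by fun_prop) (by fun_prop) w2) (by fun_prop))).add
    (Continuous.mul (Continuous.div (by fun_prop) (by fun_prop) w3) (by fun_prop))

theorem CORE_contcr {Z W : ℝ → ℂ} (hZ : Continuous Z) (hW : Continuous W) :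
    Continuous (fun t => cr (Z t) (W t)) := by
  unfold cr
  fun_prop

theorem CORE_loop_cont {Z Z' : ℝ → ℂ} (hL : IsLoop Z Z') : Continuous Z :=
  continuous_iff_continuousAt.2 fun t => (hL.d t).continuousAt

theorem CORE_F_const {D : TD} (hD : IsTri D) {Z Z' : ℝ → ℂ} (hL : IsLoop Z Z') (κ : ℂ) :
    D.F (fun t => Z t + κ) Z' = D.F Z Z' := by
  have hc := CORE_loop_cont hL
  have h1 : ∀ t, D.G t (Z' t) - cr (Z t + κ) (Z' t) =
      (D.G t (Z' t) - cr (Z t) (Z' t)) - cr κ (Z' t) := by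
    intro t
    unfold cr
    simp only [Complex.add_re, Complex.add_im]
    ring
  have h2 : ∫ t in (0 : ℝ)..(2 * π), cr κ (Z' t) = cr κ (Z (2 * π)) - cr κ (Z 0) := by
    refine intervalIntegral.integral_eq_sub_of_hasDerivAt (f := fun t => cr κ (Z t))
      (f' := fun t => cr κ (Z' t)) ?_ ?_
    · intro t _
      have hd := hL.d t
      have hre : HasDerivAt (fun t => (Z t).re) (Z' t).re t :=
        Complex.reCLM.hasFDerivAt.comp_hasDerivAt t hd
      have him : HasDerivAt (fun t => (Z t).im) (Z' t).im t :=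
        Complex.imCLM.hasFDerivAt.comp_hasDerivAt t hd
      unfold cr
      exact (him.const_mul κ.re).sub (hre.const_mul κ.im)
    · exact (CORE_contcr continuous_const hL.c).intervalIntegrable _ _
  have h3 : Z (2 * π) = Z 0 := by
    have := hL.per 0
    rwa [zero_add] at this
  unfold TD.F
  simp only [h1]
  rw [intervalIntegral.integral_sub, h2, h3, sub_self, sub_zero]
  · exact ((CORE_contG hD _ hL.c).sub (CORE_contcr hc hL.c)).intervalIntegrable _ _
  · exact (CORE_contcr continuous_const hL.c).intervalIntegrable _ _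

theorem CORE_G_smul (D : TD) (t a : ℝ) (w : ℂ) : D.G t ((a : ℂ) * w) = a ^ 2 * D.G t w := by
  unfold TD.G ip
  simp only [Complex.re_ofReal_mul, Complex.im_ofReal_mul]
  ring

theorem CORE_F_smul (D : TD) (a : ℝ) (Z Z' : ℝ → ℂ) :
    D.F (fun t => (a : ℂ) * Z t) (fun t => (a : ℂ) * Z' t) = a ^ 2 * D.F Z Z' := by
  unfold TD.F
  rw [← intervalIntegral.integral_const_mul]
  congr 1
  funext t
  rw [CORE_G_smul]
  unfold cr
  simp only [Complex.re_ofReal_mul, Complex.im_ofReal_mul]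
  ring

theorem CORE_G_para (D : TD) (t : ℝ) (v w : ℂ) :
    D.G t (v + w) + D.G t (v - w) = 2 * D.G t v + 2 * D.G t w := by
  unfold TD.G ip
  simp only [Complex.add_re, Complex.add_im, Complex.sub_re, Complex.sub_im]
  ring

theorem CORE_F_para {D : TD} (hD : IsTri D) {U U' V V' : ℝ → ℂ} (hU : Continuous U)
    (hU' : Continuous U') (hV : Continuous V) (hV' : Continuous V') :
    D.F (fun t => U t + V t) (fun t => U' t + V' t) +
      D.F (fun t => U t - V t) (fun t => U' t - V' t) = 2 * D.F U U' + 2 * D.F V V' := by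
  have i1 : IntervalIntegrable (fun t => D.G t (U' t + V' t) - cr (U t + V t) (U' t + V' t))
      volume 0 (2 * π) :=
    ((CORE_contG hD _ (hU'.add hV')).sub
      (CORE_contcr (hU.add hV) (hU'.add hV'))).intervalIntegrable _ _
  have i2 : IntervalIntegrable (fun t => D.G t (U' t - V' t) - cr (U t - V t) (U' t - V' t))
      volume 0 (2 * π) :=
    ((CORE_contG hD _ (hU'.sub hV')).sub
      (CORE_contcr (hU.sub hV) (hU'.sub hV'))).intervalIntegrable _ _
  have i3 : IntervalIntegrable (fun t => 2 * (D.G t (U' t) - cr (U t) (U' t)))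
      volume 0 (2 * π) :=
    (((CORE_contG hD _ hU').sub (CORE_contcr hU hU')).const_mul 2).intervalIntegrable _ _
  have i4 : IntervalIntegrable (fun t => 2 * (D.G t (V' t) - cr (V t) (V' t)))
      volume 0 (2 * π) :=
    (((CORE_contG hD _ hV').sub (CORE_contcr hV hV')).const_mul 2).intervalIntegrable _ _
  unfold TD.F
  rw [← intervalIntegral.integral_add i1 i2, ← intervalIntegral.integral_const_mul,
    ← intervalIntegral.integral_const_mul, ← intervalIntegral.integral_add i3 i4]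
  congr 1
  funext t
  have h1 := CORE_G_para D t (U' t) (V' t)
  unfold cr
  simp only [Complex.add_re, Complex.add_im, Complex.sub_re, Complex.sub_im]
  linear_combination h1

theorem CORE_loop_lin {Z0 Z0' Z1 Z1' Z2 Z2' : ℝ → ℂ} (h0 : IsLoop Z0 Z0') (h1 : IsLoop Z1 Z1')
    (h2 : IsLoop Z2 Z2') (a b d : ℝ) (κ : ℂ) :
    IsLoop (fun t => (a : ℂ) * Z0 t + b * Z1 t + d * Z2 t + κ)
      (fun t => (a : ℂ) * Z0' t + b * Z1' t + d * Z2' t) := by
  refine ⟨fun t => ?_, ?_, fun t => ?_⟩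
  · exact ((((h0.d t).const_mul (a : ℂ)).add ((h1.d t).const_mul (b : ℂ))).add
      ((h2.d t).const_mul (d : ℂ))).add_const κ
  · have c0 := h0.c
    have c1 := h1.c
    have c2 := h2.c
    fun_prop
  · rw [h0.per, h1.per, h2.per]

theorem CORE_b3_surj {D : TD} (hD : IsTri D) (x : ℝ) : ∃ t, D.b3 t = x := by
  have c1 : Continuous D.f1 := continuous_iff_continuousAt.2 fun t => (hD.d1 t).continuousAt
  have c2 : Continuous D.f2 := continuous_iff_continuousAt.2 fun t => (hD.d2 t).continuousAt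
  have hb : Continuous D.b3 := by
    unfold TD.b3
    fun_prop
  have hstep : ∀ t, D.b3 (t + 6 * π) = D.b3 t + 2 * π := by
    intro t
    have e : t + 6 * π = t + 2 * π + 2 * π + 2 * π := by ring
    have a1 : D.f1 (t + 2 * π + 2 * π + 2 * π) = D.f1 t + 2 * π := by
      rw [hD.s1, hD.s2, hD.s3]
    have a2 : D.f2 (t + 2 * π + 2 * π + 2 * π) = D.f2 t + 2 * π := by
      rw [hD.s2, hD.s3, hD.s1]
    unfold TD.b3
    rw [e, a1, a2]
    ring
  have hn : ∀ (n : ℕ) t, D.b3 (t + n * (6 * π)) = D.b3 t + n * (2 * π) := by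
    intro n
    induction n with
    | zero => intro t; simp
    | succ n ih =>
      intro t
      have e : t + ((n + 1 : ℕ) : ℝ) * (6 * π) = (t + n * (6 * π)) + 6 * π := by
        push_cast
        ring
      rw [e, hstep, ih]
      push_cast
      ring
  obtain ⟨n, hn1⟩ := exists_nat_ge (|x - D.b3 0| / (2 * π))
  have hπ : 0 < 2 * π := by positivity
  have h1 : |x - D.b3 0| ≤ n * (2 * π) := by
    rwa [div_le_iff₀ hπ] at hn1
  have h2 := hn n 0
  have h3 := hn n (-(n * (6 * π)))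
  rw [zero_add] at h2
  rw [neg_add_cancel] at h3
  have h4 := abs_le.1 h1
  have hle : -(n * (6 * π)) ≤ (n : ℝ) * (6 * π) := by
    have : 0 ≤ (n : ℝ) * (6 * π) := by positivity
    linarith
  obtain ⟨t, _, ht⟩ := intermediate_value_Icc hle hb.continuousOn
    (show x ∈ Icc (D.b3 (-(n * (6 * π)))) (D.b3 (n * (6 * π))) from
      ⟨by linarith, by linarith⟩)
  exact ⟨t, ht⟩

theorem t_CORE (hHOPF : S_HOPF) (hREG : S_REG) (hGAP : S_GAP) (hPAR : S_PAR) (hZ : S_Z)
    (hCL : S_CL) (hH1 : S_H1) (hH2 : S_H2) (hLIX : S_LIX) (hSH : S_SH) (hE1 : S_E1) :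
    S_CORE := by
  intro h k ρ g hS hpos hg hg3 hcov
  obtain ⟨g', hg', hg'c, hg'p⟩ := hREG h k ρ g hS hg hg3
  obtain ⟨D, hD, hOn⟩ := hPAR g g' hg' hg'c hg'p hg.per hg3 hg.lo (hGAP h k ρ g hS hg hg3)
  have ch : Continuous h := continuous_iff_continuousAt.2 fun t => (hS.dh t).continuousAt
  have ck : Continuous k := continuous_iff_continuousAt.2 fun t => (hS.dk t).continuousAt
  have cρ := hS.cr
  -- closure conditions
  have cl0 := hCL h k ρ g D hS hg hD hOn
  have clab : ∀ a b t, Real.sin (D.A1 t) * (2 * hs h a b (D.b1 t) * ks k a b (D.b1 t))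
    + Real.sin (D.A2 t) * (2 * hs h a b (D.b2 t) * ks k a b (D.b2 t))
    + Real.sin (D.A3 t) * (2 * hs h a b (D.b3 t) * ks k a b (D.b3 t)) = 0 := fun a b t =>
    hCL _ _ ρ g D (hSH h k ρ hS a b).1 ((hSH h k ρ hS a b).2 g hg) hD hOn t
  set v1 : ℝ → ℝ := fun x => 2 * (k x * Real.cos x - h x * Real.sin x) with hv1
  set v2 : ℝ → ℝ := fun x => 2 * (k x * Real.sin x + h x * Real.cos x) with hv2
  have cl1 : ∀ t, Real.sin (D.A1 t) * v1 (D.b1 t) + Real.sin (D.A2 t) * v1 (D.b2 t)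
      + Real.sin (D.A3 t) * v1 (D.b3 t) = 0 := by
    intro t
    have h0 := cl0 t
    have h1 := clab 1 0 t
    obtain ⟨_, h3⟩ := CORE_clos D t
    rw [CORE_shift, CORE_shift, CORE_shift] at h1
    unfold ip CORE_kap at h1
    simp only [CORE_en_re, CORE_en_im] at h1
    simp only [hv1]
    linear_combination h0 - h1 - h3
  have cl2 : ∀ t, Real.sin (D.A1 t) * v2 (D.b1 t) + Real.sin (D.A2 t) * v2 (D.b2 t)
      + Real.sin (D.A3 t) * v2 (D.b3 t) = 0 := by
    intro t
    have h0 := cl0 t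
    have h1 := clab 0 1 t
    obtain ⟨_, h3⟩ := CORE_clos D t
    rw [CORE_shift, CORE_shift, CORE_shift] at h1
    unfold ip CORE_kap at h1
    simp only [CORE_en_re, CORE_en_im] at h1
    simp only [hv2]
    linear_combination h0 - h1 + h3
  -- the three loops
  obtain ⟨Z0, Z0', hL0, hZ0⟩ := hZ D (fun x => 2 * h x * k x)
    (fun x => 2 * k x * k x + 2 * h x * (ρ x - h x)) hD
    (fun x => by
      have := ((hS.dh x).const_mul 2).mul (hS.dk x)
      exact this)
    (by fun_prop) (fun x => by simp only [hS.ph, hS.pk]) cl0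
  obtain ⟨Z1, Z1', hL1, hZ1⟩ := hZ D v1
    (fun x => 2 * (((ρ x - h x) * Real.cos x + k x * (-Real.sin x)) -
      (k x * Real.sin x + h x * Real.cos x))) hD
    (fun x => ((((hS.dk x).mul (Real.hasDerivAt_cos x)).sub
      ((hS.dh x).mul (Real.hasDerivAt_sin x))).const_mul 2))
    (by fun_prop) (fun x => by simp only [hv1, hS.ph, hS.pk, Real.cos_add_two_pi,
      Real.sin_add_two_pi]) cl1
  obtain ⟨Z2, Z2', hL2, hZ2⟩ := hZ D v2
    (fun x => 2 * (((ρ x - h x) * Real.sin x + k x * Real.cos x) +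
      (k x * Real.cos x + h x * (-Real.sin x)))) hD
    (fun x => ((((hS.dk x).mul (Real.hasDerivAt_sin x)).add
      ((hS.dh x).mul (Real.hasDerivAt_cos x))).const_mul 2))
    (by fun_prop) (fun x => by simp only [hv2, hS.ph, hS.pk, Real.cos_add_two_pi,
      Real.sin_add_two_pi]) cl2
  -- linearity of ip
  have ipl : ∀ (a b d : ℝ) (z0 z1 z2 κ w : ℂ), ip ((a : ℂ) * z0 + b * z1 + d * z2 + κ) w =
      a * ip z0 w + b * ip z1 w + d * ip z2 w + ip κ w := by
    intro a b d z0 z1 z2 κ w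
    unfold ip
    simp only [Complex.add_re, Complex.add_im, Complex.re_ofReal_mul, Complex.im_ofReal_mul]
    ring
  -- the Hopf inequality for all translates
  have key : ∀ b d : ℝ, D.F (fun t => ((1 : ℝ) : ℂ) * Z0 t + b * Z1 t + d * Z2 t)
      (fun t => ((1 : ℝ) : ℂ) * Z0' t + b * Z1' t + d * Z2' t) ≤ 0 := by
    intro b d
    have hS' := (hSH h k ρ hS (-b) (-d)).1
    have hC' := (hSH h k ρ hS (-b) (-d)).2
    have hL := CORE_loop_lin hL0 hL1 hL2 1 b d (CORE_kap (-b) (-d))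
    have hL00 := CORE_loop_lin hL0 hL1 hL2 1 b d 0
    simp only [add_zero] at hL00
    have hcov' : Cov (hs h (-b) (-d)) (ks k (-b) (-d)) g := by
      filter_upwards [hcov] with z hz h1 h2
      obtain ⟨g1, hg1, hg2⟩ := hz h1 h2
      exact ⟨g1, hC' g1 hg1, hg2⟩
    have hval : ∀ t, ip (((1 : ℝ) : ℂ) * Z0 t + b * Z1 t + d * Z2 t + CORE_kap (-b) (-d))
          (en (D.u1 t)) = 2 * hs h (-b) (-d) (D.b1 t) * ks k (-b) (-d) (D.b1 t) ∧
        ip (((1 : ℝ) : ℂ) * Z0 t + b * Z1 t + d * Z2 t + CORE_kap (-b) (-d))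
          (en (D.u2 t)) = 2 * hs h (-b) (-d) (D.b2 t) * ks k (-b) (-d) (D.b2 t) ∧
        ip (((1 : ℝ) : ℂ) * Z0 t + b * Z1 t + d * Z2 t + CORE_kap (-b) (-d))
          (en (D.u3 t)) = 2 * hs h (-b) (-d) (D.b3 t) * ks k (-b) (-d) (D.b3 t) := by
      intro t
      obtain ⟨a1, a2, a3⟩ := hZ0 t
      obtain ⟨b1, b2, b3⟩ := hZ1 t
      obtain ⟨d1, d2, d3⟩ := hZ2 t
      obtain ⟨u1, u2, u3⟩ := CORE_u hD t
      refine ⟨?_, ?_, ?_⟩
      · rw [ipl, a1, b1, d1, CORE_shift, u1]
        simp only [hv1, hv2]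
        ring
      · rw [ipl, a2, b2, d2, CORE_shift, u2]
        simp only [hv1, hv2]
        ring
      · rw [ipl, a3, b3, d3, CORE_shift, u3]
        simp only [hv1, hv2]
        ring
    have e1 := hHOPF _ _ ρ g hS' (hC' g hg) hcov'
    rw [hH1 _ _ ρ g D hS' (hC' g hg) hD hOn,
      hH2 _ _ ρ g D _ _ hS' (hC' g hg) hD hOn hL hval,
      CORE_F_const hD hL00] at e1
    have hπ : 0 < π / 8 := by positivity
    by_contra hcon
    push Not at hcon
    have := mul_pos hπ hcon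
    linarith
  have hcont : ∀ (a b d : ℝ), Continuous (fun t => (a : ℂ) * Z0 t + b * Z1 t + d * Z2 t) ∧
      Continuous (fun t => (a : ℂ) * Z0' t + b * Z1' t + d * Z2' t) := by
    intro a b d
    have l := CORE_loop_lin hL0 hL1 hL2 a b d 0
    simp only [add_zero] at l
    exact ⟨CORE_loop_cont l, l.c⟩
  have key2 : ∀ a b d : ℝ, a ≠ 0 → D.F (fun t => (a : ℂ) * Z0 t + b * Z1 t + d * Z2 t)
      (fun t => (a : ℂ) * Z0' t + b * Z1' t + d * Z2' t) ≤ 0 := by
    intro a b d ha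
    have haC : (a : ℂ) ≠ 0 := by exact_mod_cast ha
    have e1 : (fun t => (a : ℂ) * Z0 t + b * Z1 t + d * Z2 t) = fun t => (a : ℂ) *
        (((1 : ℝ) : ℂ) * Z0 t + ((b / a : ℝ) : ℂ) * Z1 t + ((d / a : ℝ) : ℂ) * Z2 t) := by
      funext t
      push_cast
      field_simp
    have e2 : (fun t => (a : ℂ) * Z0' t + b * Z1' t + d * Z2' t) = fun t => (a : ℂ) *
        (((1 : ℝ) : ℂ) * Z0' t + ((b / a : ℝ) : ℂ) * Z1' t + ((d / a : ℝ) : ℂ) * Z2' t) := by
      funext t
      push_cast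
      field_simp
    rw [e1, e2, CORE_F_smul]
    exact mul_nonpos_of_nonneg_of_nonpos (sq_nonneg a) (key _ _)
  have key3 : ∀ a b d : ℝ, D.F (fun t => (a : ℂ) * Z0 t + b * Z1 t + d * Z2 t)
      (fun t => (a : ℂ) * Z0' t + b * Z1' t + d * Z2' t) ≤ 0 := by
    intro a b d
    by_cases ha : a = 0
    · subst ha
      set W : ℝ → ℂ := fun t => ((0 : ℝ) : ℂ) * Z0 t + b * Z1 t + d * Z2 t with hW
      set W' : ℝ → ℂ := fun t => ((0 : ℝ) : ℂ) * Z0' t + b * Z1' t + d * Z2' t with hW'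
      by_contra hcon
      push Not at hcon
      set m := D.F W W' with hm
      set F0 := D.F Z0 Z0' with hF0
      set s : ℝ := m / (2 * (|F0| + 1)) with hs
      have hF0' : 0 < |F0| + 1 := by positivity
      have hs0 : 0 < s := by positivity
      set ε : ℝ := Real.sqrt s with hε
      have hε0 : ε ≠ 0 := (Real.sqrt_pos.2 hs0).ne'
      have hε2 : ε ^ 2 = s := Real.sq_sqrt hs0.le
      have hcW := hcont 0 b d
      have hc0 := CORE_loop_cont hL0
      have hp := CORE_F_para hD (U := W) (U' := W') (V := fun t => (ε : ℂ) * Z0 t)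
        (V' := fun t => (ε : ℂ) * Z0' t) hcW.1 hcW.2 (continuous_const.mul hc0)
        (continuous_const.mul hL0.c)
      rw [CORE_F_smul, hε2] at hp
      have k1 := key2 ε b d hε0
      have k2 := key2 (-ε) b d (neg_ne_zero.2 hε0)
      have e1 : (fun t => W t + (ε : ℂ) * Z0 t) = fun t => (ε : ℂ) * Z0 t + b * Z1 t +
          d * Z2 t := by
        funext t
        simp only [hW]
        push_cast
        ring
      have e2 : (fun t => W' t + (ε : ℂ) * Z0' t) = fun t => (ε : ℂ) * Z0' t + b * Z1' t +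
          d * Z2' t := by
        funext t
        simp only [hW']
        push_cast
        ring
      have e3 : (fun t => W t - (ε : ℂ) * Z0 t) = fun t => ((-ε : ℝ) : ℂ) * Z0 t + b * Z1 t +
          d * Z2 t := by
        funext t
        simp only [hW]
        push_cast
        ring
      have e4 : (fun t => W' t - (ε : ℂ) * Z0' t) = fun t => ((-ε : ℝ) : ℂ) * Z0' t +
          b * Z1' t + d * Z2' t := by
        funext t
        simp only [hW']
        push_cast
        ring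
      rw [e1, e2, e3, e4] at hp
      have h1 : m ≤ -(s * F0) := by linarith
      have h2 : -(s * F0) ≤ s * |F0| := by
        have := neg_abs_le F0
        nlinarith
      have h3 : s * |F0| ≤ s * (|F0| + 1) := by nlinarith
      have h4 : s * (|F0| + 1) = m / 2 := by
        rw [hs]
        field_simp
      linarith
    · exact key2 a b d ha
  obtain ⟨a, b, d, hne, hzero⟩ := hLIX D hD Z0 Z0' Z1 Z1' Z2 Z2' hL0 hL1 hL2 key3
  -- the combination is constant
  have l := CORE_loop_lin hL0 hL1 hL2 a b d 0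
  simp only [add_zero] at l
  have hdiff : Differentiable ℝ (fun t => (a : ℂ) * Z0 t + b * Z1 t + d * Z2 t) :=
    fun t => (l.d t).differentiableAt
  have hder : ∀ t, deriv (fun t => (a : ℂ) * Z0 t + b * Z1 t + d * Z2 t) t = 0 := by
    intro t
    rw [(l.d t).deriv]
    exact hzero t
  have hconst : ∀ t, (a : ℂ) * Z0 t + b * Z1 t + d * Z2 t =
      (a : ℂ) * Z0 0 + b * Z1 0 + d * Z2 0 := fun t =>
    is_const_of_deriv_eq_zero hdiff hder t 0
  refine hE1 h k ρ hS hpos a b d hne ((a : ℂ) * Z0 0 + b * Z1 0 + d * Z2 0) ?_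
  intro x
  obtain ⟨t, rfl⟩ := CORE_b3_surj hD x
  have e := ipl a b d (Z0 t) (Z1 t) (Z2 t) 0 (en (D.u3 t))
  rw [add_zero, hconst t, (hZ0 t).2.2, (hZ1 t).2.2, (hZ2 t).2.2, (CORE_u hD t).2.2] at e
  rw [e]
  simp only [hv1, hv2, ip, Complex.zero_re, Complex.zero_im]
  ring

end

end Pool.Agent.H283R2.BK
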