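import Pool.Agent.H283R2.BK.Defs

/-!
# Change of variables under the graph of an invariant circle
-/

open Real Complex Set MeasureTheory Filter Topology

namespace Pool.Agent.H283R2.BK

/-- derivative under the integral sign, continuous data -/
theorem CV_dui (φ φx : ℝ → ℝ → ℝ) (hc : Continuous (Function.uncurry φ))
    (hcx : Continuous (Function.uncurry φx)) (hd : ∀ x t, HasDerivAt (fun z => φ z t) (φx x t) x)
    (a b x : ℝ) : HasDerivAt (fun z => ∫ t in a..b, φ z t) (∫ t in a..b, φx x t) x := by
  have hK : IsCompact (Icc (x - 1) (x + 1) ×ˢ uIcc a b) := isCompact_Icc.prod isCompact_uIcc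
  obtain ⟨C, hC⟩ := hK.exists_bound_of_continuousOn hcx.continuousOn
  refine (intervalIntegral.hasDerivAt_integral_of_dominated_loc_of_deriv_le
    (s := Icc (x - 1) (x + 1)) (bound := fun _ => C) ?_ ?_ ?_ ?_ ?_ ?_ ?_).2
  · exact Icc_mem_nhds (by linarith) (by linarith)
  · refine Eventually.of_forall fun z => ?_
    exact (hc.comp (by fun_prop : Continuous fun t : ℝ => (z, t))).aestronglyMeasurable
  · exact (hc.comp (by fun_prop : Continuous fun t : ℝ => (x, t))).intervalIntegrable _ _
  · exact (hcx.comp (by fun_prop : Continuous fun t : ℝ => (x, t))).aestronglyMeasurable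
  · refine Eventually.of_forall fun t ht z hz => ?_
    exact hC (z, t) ⟨hz, uIoc_subset_uIcc ht⟩
  · exact intervalIntegrable_const
  · exact Eventually.of_forall fun t ht z hz => hd z t

/-- Leibniz rule with a moving endpoint -/
theorem CV_leib (φ φx : ℝ → ℝ → ℝ) (hc : Continuous (Function.uncurry φ))
    (hcx : Continuous (Function.uncurry φx)) (hd : ∀ x t, HasDerivAt (fun z => φ z t) (φx x t) x)
    (v : ℝ → ℝ) (v' x : ℝ) (hv : HasDerivAt v v' x) :
    HasDerivAt (fun z => ∫ t in (0 : ℝ)..v z, φ z t)
      ((∫ t in (0 : ℝ)..v x, φx x t) + φ x (v x) * v') x := by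
  have h := hasStrictFDerivAt_uncurry_coprod (𝕜 := ℝ) (u := ((x, v x) : ℝ × ℝ))
    (f := fun (z b : ℝ) => ∫ t in (0 : ℝ)..b, φ z t)
    (f₁ := fun (z b : ℝ) => ContinuousLinearMap.toSpanSingleton ℝ (∫ t in (0 : ℝ)..b, φx z t))
    (f₂ := fun (z b : ℝ) => ContinuousLinearMap.toSpanSingleton ℝ (φ z b))
    (Eventually.of_forall fun p => (CV_dui φ φx hc hcx hd 0 p.2 p.1).hasFDerivAt)
    (Eventually.of_forall fun p => by
      have hcp : Continuous (φ p.1) := hc.comp (by fun_prop : Continuous fun t : ℝ => (p.1, t))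
      exact (hcp.integral_hasStrictDerivAt 0 p.2).hasDerivAt.hasFDerivAt)
    (by
      apply Continuous.continuousAt
      have h1 : Continuous fun q : ℝ × ℝ => ∫ t in (0 : ℝ)..q.2, φx q.1 t :=
        intervalIntegral.continuous_parametric_intervalIntegral_of_continuous
          (f := fun (q : ℝ × ℝ) t => φx q.1 t)
          (hcx.comp (by fun_prop : Continuous fun r : (ℝ × ℝ) × ℝ => (r.1.1, r.2)))
          continuous_snd
      exact (ContinuousLinearMap.toSpanSingletonCLE (𝕜 := ℝ) (E := ℝ)).continuous.comp h1)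
    (by
      apply Continuous.continuousAt
      exact (ContinuousLinearMap.toSpanSingletonCLE (𝕜 := ℝ) (E := ℝ)).continuous.comp hc)
  have h2 := h.hasFDerivAt.comp_hasDerivAt x ((hasDerivAt_id x).prodMk hv)
  refine h2.congr_deriv ?_
  simp [ContinuousLinearMap.toSpanSingleton_apply, Function.HasUncurry.uncurry]
  ring

theorem t_CV : S_CV := by
  intro F g g' hF hper hg hg' hgper _
  set φ : ℝ → ℝ → ℝ := fun z t => ∫ d in (0 : ℝ)..(t - z), F t d with hφ
  set φx : ℝ → ℝ → ℝ := fun z t => -F t (t - z) with hφx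
  have hgc : Continuous g := continuous_iff_continuousAt.2 fun x => (hg x).continuousAt
  have hc : Continuous (Function.uncurry φ) := by
    have h1 : Continuous fun q : ℝ × ℝ => ∫ t in (0 : ℝ)..(q.2 - q.1), F q.2 t :=
      intervalIntegral.continuous_parametric_intervalIntegral_of_continuous
        (f := fun (q : ℝ × ℝ) t => F q.2 t)
        (hF.comp (by fun_prop : Continuous fun r : (ℝ × ℝ) × ℝ => (r.1.2, r.2)))
        (by fun_prop)
    exact h1
  have hcx : Continuous (Function.uncurry φx) := by
    have h1 : Continuous fun q : ℝ × ℝ => -F q.2 (q.2 - q.1) :=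
      (hF.comp (by fun_prop : Continuous fun q : ℝ × ℝ => (q.2, q.2 - q.1))).neg
    exact h1
  have hd : ∀ x t, HasDerivAt (fun z => φ z t) (φx x t) x := by
    intro x t
    have hFt : Continuous (F t) := hF.comp (by fun_prop : Continuous fun d : ℝ => (t, d))
    have h1 : HasDerivAt (fun c => ∫ d in (0 : ℝ)..c, F t d) (F t (t - x)) (t - x) :=
      (hFt.integral_hasStrictDerivAt 0 (t - x)).hasDerivAt
    have h2 : HasDerivAt (fun z : ℝ => t - z) (-1) x := by
      simpa using (hasDerivAt_id x).const_sub t
    have h3 := h1.comp x h2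
    refine h3.congr_deriv ?_
    simp [hφx]
  set w : ℝ → ℝ := fun x => (x + g x) / 2 with hw
  have hwd : ∀ x, HasDerivAt w ((1 + g' x) / 2) x := fun x =>
    ((hasDerivAt_id x).add (hg x)).div_const 2
  have hwc : Continuous w := by fun_prop
  -- the inner integral
  have hin : ∀ x, (∫ y in x..(g x), F ((x + y) / 2) ((y - x) / 2))
      = -2 * ((∫ t in (0 : ℝ)..w x, φx x t) - ∫ t in (0 : ℝ)..x, φx x t) := by
    intro x
    have hci : ∀ a b, IntervalIntegrable (φx x) volume a b := fun a b =>
      (hcx.comp (by fun_prop : Continuous fun t : ℝ => (x, t))).intervalIntegrable _ _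
    rw [intervalIntegral.integral_interval_sub_left (hci _ _) (hci _ _)]
    have h1 := intervalIntegral.integral_comp_add_div (a := x) (b := g x)
      (fun t => F t (t - x)) (two_ne_zero : (2 : ℝ) ≠ 0) (x / 2)
    have h2 : ∀ y : ℝ, F (x / 2 + y / 2) (x / 2 + y / 2 - x) = F ((x + y) / 2) ((y - x) / 2) := by
      intro y
      congr 1
      · ring_nf
      · ring
    simp only [h2] at h1
    rw [h1]
    have h3 : x / 2 + x / 2 = x := by ring
    have h4 : x / 2 + g x / 2 = w x := by simp only [hw]; ring
    rw [h3, h4]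
    simp only [hφx, intervalIntegral.integral_neg, smul_eq_mul]
    ring
  -- the outer term
  have hout : ∀ x, φ x (w x) = ∫ d in (0 : ℝ)..((g x - x) / 2), F ((x + g x) / 2) d := by
    intro x
    simp only [hφ, hw]
    congr 1
    ring
  have hz : ∀ x, φ x x = 0 := by
    intro x
    simp [hφ]
  -- the total derivative
  have hH : ∀ x, HasDerivAt (fun z => (∫ t in (0 : ℝ)..w z, φ z t) - ∫ t in (0 : ℝ)..z, φ z t)
      ((1 / 2) * ((∫ d in (0 : ℝ)..((g x - x) / 2), F ((x + g x) / 2) d) * (1 + g' x))
        - (1 / 2) * (∫ y in x..(g x), F ((x + y) / 2) ((y - x) / 2))) x := by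
    intro x
    have h1 := CV_leib φ φx hc hcx hd w ((1 + g' x) / 2) x (hwd x)
    have h2 := CV_leib φ φx hc hcx hd (fun z => z) 1 x (hasDerivAt_id x)
    refine (h1.sub h2).congr_deriv ?_
    rw [hin x, hz x, hout x]
    ring
  have hA : Continuous fun x => (∫ d in (0 : ℝ)..((g x - x) / 2), F ((x + g x) / 2) d)
      * (1 + g' x) := by
    have h1 : Continuous fun x => φ x (w x) :=
      hc.comp (by fun_prop : Continuous fun x : ℝ => (x, w x))
    have h2 : (fun x => φ x (w x)) = fun x => ∫ d in (0 : ℝ)..((g x - x) / 2),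
      F ((x + g x) / 2) d := funext hout
    rw [h2] at h1
    exact h1.mul (by fun_prop)
  have hB : Continuous fun x => ∫ y in x..(g x), F ((x + y) / 2) ((y - x) / 2) := by
    have h1 : Continuous fun x => -2 * ((∫ t in (0 : ℝ)..w x, φx x t)
        - ∫ t in (0 : ℝ)..x, φx x t) := by
      have h2 : Continuous fun x => ∫ t in (0 : ℝ)..w x, φx x t :=
        intervalIntegral.continuous_parametric_intervalIntegral_of_continuous hcx hwc
      have h3 : Continuous fun x => ∫ t in (0 : ℝ)..x, φx x t :=
        intervalIntegral.continuous_parametric_intervalIntegral_of_continuous hcx continuous_id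
      exact (h2.sub h3).const_mul (-2) |>.congr fun x => rfl
    exact h1.congr fun x => (hin x).symm
  have hFTC := intervalIntegral.integral_eq_sub_of_hasDerivAt (a := 0) (b := 2 * π)
    (fun x _ => hH x) (((hA.const_mul (1 / 2)).sub (hB.const_mul (1 / 2))).intervalIntegrable _ _)
  rw [intervalIntegral.integral_sub ((hA.const_mul (1 / 2)).intervalIntegrable _ _)
    ((hB.const_mul (1 / 2)).intervalIntegrable _ _), intervalIntegral.integral_const_mul,
    intervalIntegral.integral_const_mul] at hFTC
  -- periodicity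
  have hci : ∀ z a b, IntervalIntegrable (φ z) volume a b := fun z a b =>
    (hc.comp (by fun_prop : Continuous fun t : ℝ => (z, t))).intervalIntegrable _ _
  have hP : ((∫ t in (0 : ℝ)..w (2 * π), φ (2 * π) t) - ∫ t in (0 : ℝ)..(2 * π), φ (2 * π) t)
      = (∫ t in (0 : ℝ)..w 0, φ 0 t) - ∫ t in (0 : ℝ)..0, φ 0 t := by
    rw [intervalIntegral.integral_interval_sub_left (hci _ _ _) (hci _ _ _),
      intervalIntegral.integral_same, sub_zero]
    have h1 : w (2 * π) = w 0 + 2 * π := by
      have := hgper 0
      rw [zero_add] at this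
      simp only [hw]
      rw [this]
      ring
    have h2 := intervalIntegral.integral_comp_add_right (a := 0) (b := w 0)
      (fun t => φ (2 * π) t) (2 * π)
    rw [zero_add, ← h1] at h2
    rw [← h2]
    congr 1
    funext t
    simp only [hφ]
    have h3 : t + 2 * π - 2 * π = t - 0 := by ring
    rw [h3]
    simp only [hper]
  rw [hP, sub_self] at hFTC
  linarith

end Pool.Agent.H283R2.BK
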