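import Pool.Agent.H283R2.BK.Defs

/-! task E1 -/

open Real Complex Set MeasureTheory

namespace Pool.Agent.H283R2.BK

theorem t_E1 : S_E1 := by
  intro h k ρ hS hpos a b d habd z hz
  have hip : ∀ x, ip z (en (2 * x)) = z.re * Real.cos (2 * x) + z.im * Real.sin (2 * x) := by
    intro x
    unfold ip en
    rw [Complex.exp_ofReal_mul_I_re, Complex.exp_ofReal_mul_I_im]
  let P : ℝ → ℝ := fun x => a * h x ^ 2 + 2 * h x * (b * Real.cos x + d * Real.sin x)
    - (z.re / 2 * Real.sin (2 * x) - z.im / 2 * Real.cos (2 * x))
  have hP : ∀ x, HasDerivAt P 0 x := by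
    intro x
    have h1 := hS.dh x
    have h2 : HasDerivAt (fun x : ℝ => 2 * x) 2 x := by simpa using (hasDerivAt_id x).const_mul 2
    have hc := Real.hasDerivAt_cos x
    have hs := Real.hasDerivAt_sin x
    have hc2 := (Real.hasDerivAt_cos (2 * x)).comp x h2
    have hs2 := (Real.hasDerivAt_sin (2 * x)).comp x h2
    have e := (((h1.pow 2).const_mul a).add ((h1.const_mul 2).mul ((hc.const_mul b).add
      (hs.const_mul d)))).sub ((hs2.const_mul (z.re / 2)).sub (hc2.const_mul (z.im / 2)))
    refine (e.congr_deriv ?_)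
    have h3 := hz x
    rw [hip x] at h3
    simp only [Nat.cast_ofNat, Pi.add_apply]
    linear_combination h3
  have hPc : ∀ x, P x = P 0 := by
    intro x
    exact is_const_of_deriv_eq_zero (fun y => (hP y).differentiableAt)
      (fun y => (hP y).deriv) x 0
  have key : ∀ x, a * h x ^ 2 + 2 * h x * (b * Real.cos x + d * Real.sin x) =
      P 0 + (z.re / 2 * Real.sin (2 * x) - z.im / 2 * Real.cos (2 * x)) := by
    intro x
    have := hPc x
    simp only [P] at this ⊢
    linarith
  by_cases ha : a = 0
  · exfalso
    have hm : ∀ x, b * Real.cos x + d * Real.sin x = 0 := by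
      intro x
      have h1 := key x
      have h2 := key (x + π)
      rw [show 2 * (x + π) = 2 * x + 2 * π by ring, Real.sin_add_two_pi, Real.cos_add_two_pi,
        Real.cos_add_pi, Real.sin_add_pi] at h2
      rw [ha] at h1 h2
      have h3 : (b * Real.cos x + d * Real.sin x) * (h x + h (x + π)) = 0 := by
        linear_combination (h1 - h2) / 2
      rcases mul_eq_zero.1 h3 with h4 | h4
      · exact h4
      · have := hpos x
        have := hpos (x + π)
        linarith
    have hb := hm 0
    have hd := hm (π / 2)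
    simp only [Real.cos_zero, Real.sin_zero, mul_one, mul_zero, add_zero] at hb
    simp only [Real.cos_pi_div_two, Real.sin_pi_div_two, mul_one, mul_zero, zero_add] at hd
    rcases habd with h | h | h
    · exact h ha
    · exact h hb
    · exact h hd
  · refine ⟨-b / a, -d / a, P 0 / a - z.im / (2 * a) + b ^ 2 / a ^ 2, z.re / (2 * a) + b * d / a ^ 2,
      P 0 / a + z.im / (2 * a) + d ^ 2 / a ^ 2, fun x => ?_⟩
    have h1 := key x
    rw [Real.sin_two_mul, Real.cos_two_mul'] at h1
    have h2 := Real.sin_sq_add_cos_sq x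
    unfold hs
    field_simp
    linear_combination a * h1 * 2 + (-2 * a * P 0) * h2

end Pool.Agent.H283R2.BK
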