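import Pool.Agent.H283R2.BK.Defs

/-!
Task E2 of `h283b_tasks`: ellipse from its support function.
-/

open Real Complex Set MeasureTheory

namespace Pool.Agent.H283R2.BK

theorem E2_dH {h k ρ : ℝ → ℝ} (hs' : Sup h k ρ) (a b x : ℝ) :
    HasDerivAt (hs h a b) (ks k a b x) x := by
  unfold hs ks
  have h1 := ((hs'.dh x).sub ((Real.hasDerivAt_cos x).const_mul a)).sub
    ((Real.hasDerivAt_sin x).const_mul b)
  refine h1.congr_deriv ?_
  ring

theorem E2_dK {h k ρ : ℝ → ℝ} (hs' : Sup h k ρ) (a b x : ℝ) :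
    HasDerivAt (ks k a b) (ρ x - hs h a b x) x := by
  unfold hs ks
  have h1 := ((hs'.dk x).add ((Real.hasDerivAt_sin x).const_mul a)).sub
    ((Real.hasDerivAt_cos x).const_mul b)
  refine h1.congr_deriv ?_
  ring

theorem E2_first {H K : ℝ → ℝ} (dH : ∀ x, HasDerivAt H (K x) x) (α β δ : ℝ)
    (hQ : ∀ x, (H x) ^ 2 =
      α * Real.cos x ^ 2 + 2 * β * (Real.cos x * Real.sin x) + δ * Real.sin x ^ 2) (x : ℝ) :
    H x * K x = (δ - α) * (Real.cos x * Real.sin x) + β * (Real.cos x ^ 2 - Real.sin x ^ 2) := by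
  have hc := Real.hasDerivAt_cos x
  have hsn := Real.hasDerivAt_sin x
  have h1 : HasDerivAt (fun x => (H x) ^ 2) (2 * (H x * K x)) x := by
    have := (dH x).pow 2
    refine this.congr_deriv ?_
    push_cast
    ring
  have h2 : HasDerivAt (fun x => α * Real.cos x ^ 2 + 2 * β * (Real.cos x * Real.sin x)
      + δ * Real.sin x ^ 2)
      (2 * ((δ - α) * (Real.cos x * Real.sin x) + β * (Real.cos x ^ 2 - Real.sin x ^ 2))) x := by
    have := (((hc.pow 2).const_mul α).add ((hc.mul hsn).const_mul (2 * β))).add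
      ((hsn.pow 2).const_mul δ)
    refine this.congr_deriv ?_
    push_cast
    ring
  have h3 : (fun x => (H x) ^ 2) = fun x => α * Real.cos x ^ 2
      + 2 * β * (Real.cos x * Real.sin x) + δ * Real.sin x ^ 2 := funext hQ
  rw [h3] at h1
  have := h1.unique h2
  linarith

theorem E2_second {H K ρ : ℝ → ℝ} (dH : ∀ x, HasDerivAt H (K x) x)
    (dK : ∀ x, HasDerivAt K (ρ x - H x) x) (α β δ : ℝ)
    (h1 : ∀ x, H x * K x =
      (δ - α) * (Real.cos x * Real.sin x) + β * (Real.cos x ^ 2 - Real.sin x ^ 2)) (x : ℝ) :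
    K x ^ 2 + H x * (ρ x - H x) = (δ - α) * (Real.cos x ^ 2 - Real.sin x ^ 2)
      - 4 * β * (Real.cos x * Real.sin x) := by
  have hc := Real.hasDerivAt_cos x
  have hsn := Real.hasDerivAt_sin x
  have h2 : HasDerivAt (fun x => H x * K x) (K x ^ 2 + H x * (ρ x - H x)) x := by
    refine ((dH x).mul (dK x)).congr_deriv ?_
    ring
  have h3 : HasDerivAt (fun x => (δ - α) * (Real.cos x * Real.sin x)
      + β * (Real.cos x ^ 2 - Real.sin x ^ 2))
      ((δ - α) * (Real.cos x ^ 2 - Real.sin x ^ 2) - 4 * β * (Real.cos x * Real.sin x)) x := by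
    have := ((hc.mul hsn).const_mul (δ - α)).add (((hc.pow 2).sub (hsn.pow 2)).const_mul β)
    refine this.congr_deriv ?_
    push_cast
    ring
  have h4 : (fun x => H x * K x) = fun x => (δ - α) * (Real.cos x * Real.sin x)
      + β * (Real.cos x ^ 2 - Real.sin x ^ 2) := funext h1
  rw [h4] at h2
  exact h2.unique h3

theorem E2_det (c s H K ρ α β δ : ℝ) (hcs : c ^ 2 + s ^ 2 = 1)
    (e0 : H ^ 2 = α * c ^ 2 + 2 * β * (c * s) + δ * s ^ 2)
    (e1 : H * K = (δ - α) * (c * s) + β * (c ^ 2 - s ^ 2))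
    (e2 : K ^ 2 + H * (ρ - H) = (δ - α) * (c ^ 2 - s ^ 2) - 4 * β * (c * s)) :
    H ^ 3 * ρ = α * δ - β ^ 2 := by
  calc H ^ 3 * ρ = H ^ 2 * (K ^ 2 + H * (ρ - H)) - (H * K) ^ 2 + (H ^ 2) ^ 2 := by ring
    _ = (α * δ - β ^ 2) * (c ^ 2 + s ^ 2) ^ 2 := by rw [e2, e1, e0]; ring
    _ = α * δ - β ^ 2 := by rw [hcs]; ring

theorem E2_re (o : ℂ) (hh kk a b x : ℝ) :
    (o + ((hh : ℂ) + kk * I) * cexp (x * I)).re - (o + (⟨a, b⟩ : ℂ)).re =
      (hh - a * Real.cos x - b * Real.sin x) * Real.cos x
        - (kk + a * Real.sin x - b * Real.cos x) * Real.sin x := by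
  have h1 : (cexp (x * I)).re = Real.cos x := Complex.exp_ofReal_mul_I_re x
  have h2 : (cexp (x * I)).im = Real.sin x := Complex.exp_ofReal_mul_I_im x
  rw [Complex.add_re, Complex.mul_re, h1, h2, Complex.add_re]
  simp only [Complex.add_re, Complex.add_im, Complex.mul_re, Complex.mul_im, Complex.ofReal_re,
    Complex.ofReal_im, Complex.I_re, Complex.I_im]
  have := Real.sin_sq_add_cos_sq x
  linear_combination a * this

theorem E2_im (o : ℂ) (hh kk a b x : ℝ) :
    (o + ((hh : ℂ) + kk * I) * cexp (x * I)).im - (o + (⟨a, b⟩ : ℂ)).im =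
      (hh - a * Real.cos x - b * Real.sin x) * Real.sin x
        + (kk + a * Real.sin x - b * Real.cos x) * Real.cos x := by
  have h1 : (cexp (x * I)).re = Real.cos x := Complex.exp_ofReal_mul_I_re x
  have h2 : (cexp (x * I)).im = Real.sin x := Complex.exp_ofReal_mul_I_im x
  rw [Complex.add_im, Complex.mul_im, h1, h2, Complex.add_im]
  simp only [Complex.add_re, Complex.add_im, Complex.mul_re, Complex.mul_im, Complex.ofReal_re,
    Complex.ofReal_im, Complex.I_re, Complex.I_im]
  have := Real.sin_sq_add_cos_sq x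
  linear_combination b * this

theorem t_E2 : S_E2 := by
  rintro γ h k ρ o hsup hpos hγ ⟨a, b, α, β, δ, hQ⟩
  obtain ⟨H, hHdef⟩ : ∃ H, H = hs h a b := ⟨_, rfl⟩
  obtain ⟨K, hKdef⟩ : ∃ K, K = ks k a b := ⟨_, rfl⟩
  have dH : ∀ x, HasDerivAt H (K x) x := fun x => by
    rw [hHdef, hKdef]; exact E2_dH hsup a b x
  have dK : ∀ x, HasDerivAt K (ρ x - H x) x := fun x => by
    rw [hHdef, hKdef]; exact E2_dK hsup a b x
  have hQ' : ∀ x, (H x) ^ 2 =
      α * Real.cos x ^ 2 + 2 * β * (Real.cos x * Real.sin x) + δ * Real.sin x ^ 2 := fun x => by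
    rw [hHdef]; exact hQ x
  have e1 := E2_first dH α β δ hQ'
  have e2 := E2_second dH dK α β δ e1
  have hcs : ∀ x : ℝ, Real.cos x ^ 2 + Real.sin x ^ 2 = 1 := Real.cos_sq_add_sin_sq
  have hdet : ∀ x, H x ^ 3 * ρ x = α * δ - β ^ 2 := fun x =>
    E2_det _ _ _ _ _ _ _ _ (hcs x) (hQ' x) (e1 x) (e2 x)
  have hsum : 0 < H 0 + H π := by
    rw [hHdef]
    unfold hs
    rw [Real.cos_zero, Real.sin_zero, Real.cos_pi, Real.sin_pi]
    have := hpos 0
    have := hpos π
    linarith
  have hD : 0 < α * δ - β ^ 2 := by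
    rcases lt_or_ge 0 (H 0) with h0 | h0
    · rw [← hdet 0]
      have := hsup.pos 0
      positivity
    · have h1 : 0 < H π := by linarith
      rw [← hdet π]
      have := hsup.pos π
      positivity
  have hH : ∀ x, 0 < H x := by
    intro x
    by_contra hx
    have h1 : H x ≤ 0 := not_lt.mp hx
    have h2 : H x ^ 3 ≤ 0 := by
      have : H x ^ 3 = H x * H x ^ 2 := by ring
      rw [this]
      exact mul_nonpos_of_nonpos_of_nonneg h1 (sq_nonneg _)
    have h3 := mul_nonpos_of_nonpos_of_nonneg h2 (hsup.pos x).le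
    rw [hdet x] at h3
    linarith
  have hδ : 0 < δ := by
    have h1 := hQ' (π / 2)
    rw [Real.cos_pi_div_two, Real.sin_pi_div_two] at h1
    have h2 := hH (π / 2)
    have h3 : 0 < H (π / 2) ^ 2 := by positivity
    rw [h1] at h3
    linarith
  -- coordinates of the curve
  have hre : ∀ x, (γ x).re - (o + (⟨a, b⟩ : ℂ)).re = H x * Real.cos x - K x * Real.sin x := by
    intro x
    rw [hγ x, E2_re, hHdef, hKdef]
    rfl
  have him : ∀ x, (γ x).im - (o + (⟨a, b⟩ : ℂ)).im = H x * Real.sin x + K x * Real.cos x := by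
    intro x
    rw [hγ x, E2_im, hHdef, hKdef]
    rfl
  have hHP : ∀ x, H x * (H x * Real.cos x - K x * Real.sin x) =
      α * Real.cos x + β * Real.sin x := by
    intro x
    have : H x * (H x * Real.cos x - K x * Real.sin x) =
      H x ^ 2 * Real.cos x - (H x * K x) * Real.sin x := by ring
    rw [this, hQ' x, e1 x]
    linear_combination (α * Real.cos x + β * Real.sin x) * hcs x
  have hHR : ∀ x, H x * (H x * Real.sin x + K x * Real.cos x) =
      β * Real.cos x + δ * Real.sin x := by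
    intro x
    have : H x * (H x * Real.sin x + K x * Real.cos x) =
      H x ^ 2 * Real.sin x + (H x * K x) * Real.cos x := by ring
    rw [this, hQ' x, e1 x]
    linear_combination (β * Real.cos x + δ * Real.sin x) * hcs x
  set D : ℝ := α * δ - β ^ 2 with hDdef
  refine ⟨o + (⟨a, b⟩ : ℂ), δ / D, -β / D, α / D, by positivity, ?_, ?_⟩
  · have : δ / D * (α / D) - (-β / D) ^ 2 = 1 / D := by
      field_simp
      rw [hDdef]
      ring
    rw [this]
    positivity
  · ext w
    simp only [mem_range, mem_ofPred_eq]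
    constructor
    · rintro ⟨x, rfl⟩
      rw [hre x, him x]
      set P := H x * Real.cos x - K x * Real.sin x with hP
      set R := H x * Real.sin x + K x * Real.cos x with hR
      have h1 : H x ^ 2 * (δ * P ^ 2 - 2 * β * P * R + α * R ^ 2) = H x ^ 2 * D := by
        have : H x ^ 2 * (δ * P ^ 2 - 2 * β * P * R + α * R ^ 2) =
          δ * (H x * P) ^ 2 - 2 * β * (H x * P) * (H x * R) + α * (H x * R) ^ 2 := by ring
        rw [this, hHP x, hHR x, hQ' x, hDdef]
        ring
      have h2 : δ * P ^ 2 - 2 * β * P * R + α * R ^ 2 = D :=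
        mul_left_cancel₀ (pow_ne_zero 2 (hH x).ne') h1
      field_simp
      linarith
    · intro hw
      set X := w.re - (o + (⟨a, b⟩ : ℂ)).re with hX
      set Y := w.im - (o + (⟨a, b⟩ : ℂ)).im with hY
      have hw' : δ * X ^ 2 - 2 * β * X * Y + α * Y ^ 2 = D := by
        field_simp at hw
        linarith
      set v : ℂ := ⟨δ * X - β * Y, -β * X + α * Y⟩ with hv
      have hvre : v.re = δ * X - β * Y := rfl
      have hvim : v.im = -β * X + α * Y := rfl
      have hv0 : v ≠ 0 := by
        intro h0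
        have h1 : v.re = 0 := by rw [h0]; rfl
        have h2 : v.im = 0 := by rw [h0]; rfl
        rw [hvre] at h1
        rw [hvim] at h2
        have : δ * X ^ 2 - 2 * β * X * Y + α * Y ^ 2 = X * (δ * X - β * Y)
          + Y * (-β * X + α * Y) := by ring
        rw [this, h1, h2] at hw'
        linarith
      have hn : 0 < ‖v‖ := norm_pos_iff.mpr hv0
      obtain ⟨t, ht⟩ : ∃ t, t = Complex.arg v := ⟨_, rfl⟩
      have hct : Real.cos t = v.re / ‖v‖ := by rw [ht]; exact Complex.cos_arg hv0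
      have hst : Real.sin t = v.im / ‖v‖ := by rw [ht]; exact Complex.sin_arg v
      have g1 : α * Real.cos t + β * Real.sin t = D * X / ‖v‖ := by
        rw [hct, hst, hvre, hvim, hDdef]
        ring
      have g2 : β * Real.cos t + δ * Real.sin t = D * Y / ‖v‖ := by
        rw [hct, hst, hvre, hvim, hDdef]
        ring
      have g3 : H t ^ 2 = (D / ‖v‖) ^ 2 := by
        have : H t ^ 2 = Real.cos t * (α * Real.cos t + β * Real.sin t)
          + Real.sin t * (β * Real.cos t + δ * Real.sin t) := by rw [hQ' t]; ring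
        rw [this, g1, g2, hct, hst, hvre, hvim]
        have h5 : (δ * X - β * Y) / ‖v‖ * (D * X / ‖v‖) + (-β * X + α * Y) / ‖v‖ * (D * Y / ‖v‖)
          = D * (δ * X ^ 2 - 2 * β * X * Y + α * Y ^ 2) / ‖v‖ ^ 2 := by
          field_simp
          ring
        rw [h5, hw']
        ring
      have g4 : H t = D / ‖v‖ := by
        have h6 : 0 ≤ D / ‖v‖ := by positivity
        exact (pow_left_inj₀ (hH t).le h6 two_ne_zero).mp g3
      refine ⟨t, ?_⟩
      apply Complex.ext
      · have h7 : H t * (H t * Real.cos t - K t * Real.sin t) = H t * X := by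
          rw [hHP t, g1, g4]
          ring
        have h8 := mul_left_cancel₀ (hH t).ne' h7
        have h9 := hre t
        rw [h8, hX] at h9
        linarith
      · have h7 : H t * (H t * Real.sin t + K t * Real.cos t) = H t * Y := by
          rw [hHR t, g2, g4]
          ring
        have h8 := mul_left_cancel₀ (hH t).ne' h7
        have h9 := him t
        rw [h8, hY] at h9
        linarith

end Pool.Agent.H283R2.BK
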