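import Pool.Agent.H283R2.BK.Defs

set_option autoImplicit false

/-! Task EL (helper553): the weights. -/

open Real

namespace Pool.Agent.H283R2.BK

theorem el_aux_pos (A : ℝ) (h0 : 0 < A) (h1 : A < π) : 0 < A - Real.sin A * Real.cos A := by
  have hs : 0 < Real.sin A := Real.sin_pos_of_pos_of_lt_pi h0 h1
  have hlt : Real.sin A < A := Real.sin_lt h0
  have hc : Real.cos A ≤ 1 := Real.cos_le_one A
  nlinarith

theorem t_EL : S_EL := by
  refine ⟨fun A h0 h1 => ⟨?_, ?_, ?_⟩, ?_⟩
  · have h2 := el_aux_pos (π - A) (by linarith) (by linarith)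
    rw [Real.sin_pi_sub, Real.cos_pi_sub] at h2
    unfold el
    have h3 : (A - Real.sin A * Real.cos A) / π < 1 := by
      rw [div_lt_one Real.pi_pos]
      linarith
    linarith
  · have h2 := el_aux_pos A h0 h1
    unfold el
    have h3 : 0 < (A - Real.sin A * Real.cos A) / π := div_pos h2 Real.pi_pos
    linarith
  · have h2 : HasDerivAt (fun A => 1 - (A - Real.sin A * Real.cos A) / π)
        (0 - (1 - (Real.cos A * Real.cos A + Real.sin A * (-Real.sin A))) / π) A :=
      (hasDerivAt_const A (1 : ℝ)).sub (((hasDerivAt_id' A).sub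
        ((Real.hasDerivAt_sin A).mul (Real.hasDerivAt_cos A))).div_const π)
    have h3 : -(2 / π) * Real.sin A ^ 2 =
        0 - (1 - (Real.cos A * Real.cos A + Real.sin A * (-Real.sin A))) / π := by
      have := Real.sin_sq_add_cos_sq A
      field_simp
      linear_combination -this
    rw [h3]
    exact h2
  · intro A1 A2 A3 h
    have h3 : A3 = π - (A1 + A2) := by linarith
    unfold el
    rw [h3, Real.sin_pi_sub, Real.cos_pi_sub, Real.sin_add, Real.cos_add]
    have e1 := Real.sin_sq_add_cos_sq A1
    have e2 := Real.sin_sq_add_cos_sq A2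
    have hp : π ≠ 0 := Real.pi_ne_zero
    field_simp
    linear_combination (-(Real.sin A2 * Real.cos A2)) * e1 - (Real.sin A1 * Real.cos A1) * e2

end Pool.Agent.H283R2.BK
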