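import Pool.Agent.H283R2.BK.Defs

open Real Complex Set MeasureTheory

namespace Pool.Agent.H283R2.BK

noncomputable section

/-- coordinates of the boundary point with normal angle `s` -/
def GAP_px (h k : ℝ → ℝ) (s : ℝ) : ℝ := h s * Real.cos s - k s * Real.sin s
def GAP_py (h k : ℝ → ℝ) (s : ℝ) : ℝ := h s * Real.sin s + k s * Real.cos s

theorem GAP_px_per {h k ρ : ℝ → ℝ} (hS : Sup h k ρ) (s : ℝ) :
    GAP_px h k (s + 2 * π) = GAP_px h k s := by
  unfold GAP_px
  rw [hS.ph, hS.pk, Real.cos_add_two_pi, Real.sin_add_two_pi]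

theorem GAP_py_per {h k ρ : ℝ → ℝ} (hS : Sup h k ρ) (s : ℝ) :
    GAP_py h k (s + 2 * π) = GAP_py h k s := by
  unfold GAP_py
  rw [hS.ph, hS.pk, Real.cos_add_two_pi, Real.sin_add_two_pi]

theorem GAP_step (hSV : S_SV) {h k ρ g : ℝ → ℝ} (hS : Sup h k ρ) (hC : Circ h k g) (x : ℝ) :
    ∃ L : ℝ, 0 < L ∧
      GAP_px h k ((g x + g (g x)) / 2) - GAP_px h k ((x + g x) / 2) = -(L * Real.sin (g x)) ∧
      GAP_py h k ((g x + g (g x)) / 2) - GAP_py h k ((x + g x) / 2) = L * Real.cos (g x) := by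
  have hsv := hSV h k ρ g hS hC x 2 (fun n => if n = 1 then 1 else 0) (by simp) (by simp)
  have hst := hC.st x
  have hlo1 := hC.lo x
  have hhi1 := hC.hi x
  have hlo2 := hC.lo (g x)
  have hhi2 := hC.hi (g x)
  simp only [Finset.sum_range_succ, Finset.sum_range_zero, Function.iterate_succ_apply',
    Function.iterate_zero, id] at hsv
  norm_num at hsv
  set y := g x with hy
  set z := g y with hz
  set d := (y - x) / 2 with hd
  set d' := (z - y) / 2 with hd'
  have e1 : (x + y) / 2 = y - d := by rw [hd]; ring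
  have e2 : (y + z) / 2 = y + d' := by rw [hd']; ring
  have hd0 : 0 < d := by rw [hd]; linarith
  have hdpi : d < π := by rw [hd]; linarith
  have hd'0 : 0 < d' := by rw [hd']; linarith
  have hd'pi : d' < π := by rw [hd']; linarith
  have hs1 : 0 < Real.sin d := Real.sin_pos_of_pos_of_lt_pi hd0 hdpi
  have hs2 : 0 < Real.sin d' := Real.sin_pos_of_pos_of_lt_pi hd'0 hd'pi
  unfold S22 S11 at hsv
  unfold Bm Am at hst
  rw [← hd, ← hd', e1, e2] at hsv hst
  have hr1 := hS.pos (y - d)
  have hr2 := hS.pos (y + d')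
  refine ⟨(h (y + d') * Real.sin d' + k (y + d') * Real.cos d') -
    (k (y - d) * Real.cos d - h (y - d) * Real.sin d), ?_, ?_, ?_⟩
  · have p1 := mul_pos hr1 hs1
    have p2 := mul_pos hr2 hs2
    nlinarith
  · rw [e1, e2]
    unfold GAP_px
    rw [Real.cos_add, Real.cos_sub, Real.sin_add, Real.sin_sub]
    linear_combination (-Real.cos y) * hst
  · rw [e1, e2]
    unfold GAP_py
    rw [Real.cos_add, Real.cos_sub, Real.sin_add, Real.sin_sub]
    linear_combination (-Real.sin y) * hst

theorem t_GAP (hSV : S_SV) : S_GAP := by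
  intro h k ρ g hS hC h3 x
  obtain ⟨L1, hL1, a1, b1⟩ := GAP_step hSV hS hC x
  obtain ⟨L2, hL2, a2, b2⟩ := GAP_step hSV hS hC (g x)
  obtain ⟨L3, hL3, a3, b3⟩ := GAP_step hSV hS hC (g (g x))
  rw [h3] at a2 b2 a3 b3
  rw [hC.per] at a3 b3
  set y := g x with hy
  set z := g y with hz
  have hlo1 := hC.lo x
  have hlo2 := hC.lo y
  have hlo3 : z < x + 2 * π := by
    have := hC.lo z
    rw [hz, hy, h3] at this
    exact this
  have e1 : (x + 2 * π + (y + 2 * π)) / 2 = (x + y) / 2 + 2 * π := by ring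
  rw [e1, GAP_px_per hS, Real.sin_add_two_pi] at a3
  rw [e1, GAP_py_per hS, Real.cos_add_two_pi] at b3
  have hsin : L1 * Real.sin y + L2 * Real.sin z + L3 * Real.sin x = 0 := by
    linear_combination a1 + a2 + a3
  have hcos : L1 * Real.cos y + L2 * Real.cos z + L3 * Real.cos x = 0 := by
    linear_combination -b1 - b2 - b3
  have key : L1 * Real.sin (y - x) + L2 * Real.sin (z - x) = 0 := by
    rw [Real.sin_sub, Real.sin_sub]
    linear_combination Real.cos x * hsin - Real.sin x * hcos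
  by_contra hcon
  push Not at hcon
  have hyz : y < z := hlo2
  have s1 : Real.sin (y - x) ≤ 0 := by
    have : 0 ≤ Real.sin (y - x - π) :=
      Real.sin_nonneg_of_nonneg_of_le_pi (by linarith) (by linarith)
    rw [Real.sin_sub_pi] at this
    linarith
  have s2 : Real.sin (z - x) < 0 := by
    have : 0 < Real.sin (z - x - π) :=
      Real.sin_pos_of_pos_of_lt_pi (by linarith) (by linarith)
    rw [Real.sin_sub_pi] at this
    linarith
  have p1 := mul_nonneg hL1.le (neg_nonneg.mpr s1)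
  have p2 := mul_pos hL2 (neg_pos.mpr s2)
  linarith

end

end Pool.Agent.H283R2.BK
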