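import Pool.Agent.H283R2.BK.Defs2

/-!
# Glue: from the core theorem to the final statements
-/

open Real Complex Set MeasureTheory

namespace Pool.Agent.H283R2.BK

theorem oval_cov (hCORE : S_CORE) (hOV : S_OV) (hE2 : S_E2) (γ : ℝ → ℂ) (ρ g : ℝ → ℝ)
    (hγ : IsOval γ ρ) (hg : InvCircle γ g) (h3 : ∀ x, g (g (g x)) = x + 2 * π)
    (hc : ∀ᵐ z : ℝ × ℝ, z.1 < z.2 → z.2 < g z.1 → ∃ g', InvCircle γ g' ∧ g' z.1 = z.2) :
    IsEll γ := by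
  obtain ⟨o, h, k, hs, hp, hγo, h1, h2⟩ := hOV γ ρ hγ
  refine hE2 γ h k ρ o hs hp hγo (hCORE h k ρ g hs hp (h1 g hg) h3 ?_)
  filter_upwards [hc] with z hz a b
  obtain ⟨g', hg', e⟩ := hz a b
  exact ⟨g', h1 g' hg', e⟩

theorem oval_rat (hCORE : S_CORE) (hOV : S_OV) (hE2 : S_E2) (hRAT : S_RAT) (γ : ℝ → ℂ)
    (ρ : ℝ → ℝ) (hγ : IsOval γ ρ)
    (hr : ∀ p q : ℕ, 0 < p → 3 * p ≤ q → Nat.Coprime p q →
      ∃ g, InvCircle γ g ∧ ∀ x, g^[q] x = x + 2 * π * p) : IsEll γ := by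
  obtain ⟨o, h, k, hs, hp, hγo, h1, h2⟩ := hOV γ ρ hγ
  obtain ⟨g, hg, hg3⟩ := hr 1 3 one_pos (le_refl _) (by decide)
  have h3 : ∀ x, g (g (g x)) = x + 2 * π := by
    intro x
    have := hg3 x
    simpa [Function.iterate_succ, Function.comp] using this
  refine hE2 γ h k ρ o hs hp hγo (hCORE h k ρ g hs hp (h1 g hg) h3 ?_)
  refine hRAT h k ρ g hs ?_ (h1 g hg) h3
  intro p q a b c
  obtain ⟨g', hg', e⟩ := hr p q a b c
  exact ⟨g', h1 g' hg', e⟩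

theorem table_rat (hCORE : S_CORE) (hOV : S_OV) (hE2 : S_E2) (hRAT : S_RAT)
    (hBR1 : S_BR1) (hBR2 : S_BR2) (hBR3 : S_BR3) (hBR4 : S_BR4) (γ : ℝ → ℂ) (L : ℝ)
    (hT : Table γ L)
    (hr : ∀ p q : ℕ, 0 < p → 3 * p ≤ q → Nat.Coprime p q → ∃ x y, RotCircle γ L p q x y) :
    IsEll γ := by
  have hG : ∀ p q : ℕ, 0 < p → 3 * p ≤ q → Nat.Coprime p q → ∃ f, Graph γ L p q f := by
    intro p q a b c
    obtain ⟨x, y, h⟩ := hr p q a b c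
    exact hBR1 γ L p q x y hT (by omega) h
  obtain ⟨f, hf⟩ := hG 1 3 one_pos (le_refl _) (by decide)
  obtain ⟨φ, δ, ρ, hO, hφ, hm, hper, hγδ, hder, hran⟩ := hBR3 γ L hT
    (hBR2 γ L 1 3 f hT (by norm_num) hf)
  have key : IsEll δ := by
    refine oval_rat hCORE hOV hE2 hRAT δ ρ hO ?_
    intro p q a b c
    obtain ⟨f', hf'⟩ := hG p q a b c
    exact hBR4 γ L p q f' φ δ ρ hT (by omega) hf' hO hφ hm hper hγδ hder
  obtain ⟨c, a, b, d, h1, h2, h3⟩ := key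
  exact ⟨c, a, b, d, h1, h2, hran.trans h3⟩

end Pool.Agent.H283R2.BK
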