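import Pool.Agent.H283R2.BK.Defs

/-!
# The Hopf integral as a single integral over the family of triangles
-/

open Real Set MeasureTheory

namespace Pool.Agent.H283R2.BK

noncomputable section

/-- the Hopf integrand in the variables `ψ = (x+y)/2`, `d = (y-x)/2` -/
def H1_F (h k ρ : ℝ → ℝ) (x d : ℝ) : ℝ :=
  h x * ρ x * ((h x * (ρ x - h x) + 3 * (k x) ^ 2) * (Real.sin d ^ 2 * Real.cos d ^ 2)
    - (k x) ^ 2 * Real.sin d ^ 2)

theorem H1_Qd (h k ρ : ℝ → ℝ) (x y : ℝ) :
    Qd h k ρ x y * S12 ρ x y = H1_F h k ρ ((x + y) / 2) ((y - x) / 2) := by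
  unfold Qd S12 S11 S22 Am Bm H1_F
  generalize (x + y) / 2 = ψ
  generalize (y - x) / 2 = d
  have hc : Real.cos d ^ 2 = 1 - Real.sin d ^ 2 := by
    have := Real.sin_sq_add_cos_sq d
    linarith
  have h4 : Real.cos d ^ 4 = (1 - Real.sin d ^ 2) ^ 2 := by
    rw [← hc]; ring
  ring_nf
  simp only [hc]
  ring

theorem H1_cont_k {h k ρ : ℝ → ℝ} (H : Sup h k ρ) : Continuous k :=
  continuous_iff_continuousAt.2 fun x => (H.dk x).continuousAt

theorem H1_cont_h {h k ρ : ℝ → ℝ} (H : Sup h k ρ) : Continuous h :=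
  continuous_iff_continuousAt.2 fun x => (H.dh x).continuousAt

theorem H1_contF {h k ρ : ℝ → ℝ} (H : Sup h k ρ) :
    Continuous (Function.uncurry (H1_F h k ρ)) := by
  have h1 := H1_cont_h H
  have h2 := H1_cont_k H
  have h3 := H.cr
  unfold H1_F Function.uncurry
  fun_prop

theorem H1_contPf {h k ρ : ℝ → ℝ} (H : Sup h k ρ) :
    Continuous (Function.uncurry (Pf h k ρ)) := by
  have h1 := H1_cont_h H
  have h2 := H1_cont_k H
  have h3 := H.cr
  unfold Pf Function.uncurry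
  fun_prop

theorem H1_dPf (h k ρ : ℝ → ℝ) (x d : ℝ) :
    HasDerivAt (fun d => Pf h k ρ x d) (H1_F h k ρ x d) d := by
  unfold Pf H1_F
  have e4 : HasDerivAt (fun d : ℝ => Real.sin (4 * d)) (Real.cos (4 * d) * 4) d := by
    have := ((hasDerivAt_id' d).const_mul (4 : ℝ)).sin
    simpa using this
  have e2 : HasDerivAt (fun d : ℝ => Real.sin (2 * d)) (Real.cos (2 * d) * 2) d := by
    have := ((hasDerivAt_id' d).const_mul (2 : ℝ)).sin
    simpa using this
  have e0 : HasDerivAt (fun d : ℝ => d / 2) (1 / 2) d := (hasDerivAt_id d).div_const 2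
  have a1 : HasDerivAt (fun d : ℝ => (d / 2 - Real.sin (4 * d) / 8) / 4)
      ((1 / 2 - Real.cos (4 * d) * 4 / 8) / 4) d := (e0.sub (e4.div_const 8)).div_const 4
  have a2 : HasDerivAt (fun d : ℝ => d / 2 - Real.sin (2 * d) / 4)
      (1 / 2 - Real.cos (2 * d) * 2 / 4) d := e0.sub (e2.div_const 4)
  have a3 := ((a1.const_mul (h x * (ρ x - h x) + 3 * (k x) ^ 2)).sub
    (a2.const_mul ((k x) ^ 2))).const_mul (h x * ρ x)
  refine a3.congr_deriv ?_
  have c2 : Real.cos (2 * d) = 1 - 2 * Real.sin d ^ 2 := by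
    rw [Real.cos_two_mul]
    have := Real.sin_sq_add_cos_sq d
    linarith
  have c4 : Real.cos (4 * d) = 1 - 8 * (Real.sin d ^ 2 * Real.cos d ^ 2) := by
    have e : (4 : ℝ) * d = 2 * (2 * d) := by ring
    rw [e, Real.cos_two_mul, c2]
    have := Real.sin_sq_add_cos_sq d
    have hc : Real.cos d ^ 2 = 1 - Real.sin d ^ 2 := by linarith
    rw [hc]
    ring
  rw [c2, c4]
  ring

theorem H1_intF {h k ρ : ℝ → ℝ} (H : Sup h k ρ) (x D : ℝ) :
    ∫ d in (0 : ℝ)..D, H1_F h k ρ x d = Pf h k ρ x D := by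
  have hc : Continuous (fun d => H1_F h k ρ x d) :=
    (H1_contF H).comp (f := fun d : ℝ => (x, d)) (by fun_prop)
  rw [intervalIntegral.integral_eq_sub_of_hasDerivAt (f := fun d => Pf h k ρ x d)
    (fun d _ => H1_dPf h k ρ x d) (hc.intervalIntegrable _ _)]
  simp [Pf]

theorem H1_six {D : TD} (hD : IsTri D) (t : ℝ) : D.f1 (t + 6 * π) = D.f1 t + 2 * π := by
  have e : t + 6 * π = ((t + 2 * π) + 2 * π) + 2 * π := by ring
  rw [e, hD.s1, hD.s2, hD.s3]

theorem H1_sixn {D : TD} (hD : IsTri D) (t : ℝ) (n : ℕ) :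
    D.f1 (t + 6 * π * n) = D.f1 t + 2 * π * n := by
  induction n with
  | zero => simp
  | succ n ih =>
    have e : t + 6 * π * ((n + 1 : ℕ) : ℝ) = (t + 6 * π * n) + 6 * π := by push_cast; ring
    rw [e, H1_six hD, ih]
    push_cast; ring

theorem H1_surj {D : TD} (hD : IsTri D) : Function.Surjective D.f1 := by
  intro x
  have hc : Continuous D.f1 := continuous_iff_continuousAt.2 fun t => (hD.d1 t).continuousAt
  obtain ⟨n, hn⟩ := exists_nat_ge ((x - D.f1 0) / (2 * π))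
  obtain ⟨m, hm⟩ := exists_nat_ge ((D.f1 0 - x) / (2 * π))
  have hpi : 0 < 2 * π := by positivity
  rw [div_le_iff₀ hpi] at hn hm
  have h1 : D.f1 (0 + 6 * π * n) = D.f1 0 + 2 * π * n := H1_sixn hD 0 n
  have h2 : D.f1 (-(6 * π * m) + 6 * π * m) = D.f1 (-(6 * π * m)) + 2 * π * m :=
    H1_sixn hD _ m
  rw [neg_add_cancel] at h2
  have hx : x ∈ Icc (D.f1 (-(6 * π * m))) (D.f1 (0 + 6 * π * n)) := by
    constructor
    · nlinarith
    · nlinarith
  obtain ⟨t, ht⟩ := mem_range_of_exists_le_of_exists_ge hc ⟨_, hx.1⟩ ⟨_, hx.2⟩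
  exact ⟨t, ht⟩

theorem H1_mono {D : TD} (hD : IsTri D) : StrictMono D.f1 :=
  strictMono_of_hasDerivAt_pos hD.d1 hD.q1

theorem H1_reg {g : ℝ → ℝ} {D : TD} (hD : IsTri D) (hO : On g D) :
    ∃ g' : ℝ → ℝ, (∀ x, HasDerivAt g (g' x) x) ∧ Continuous g' := by
  set e : ℝ ≃o ℝ := StrictMono.orderIsoOfSurjective D.f1 (H1_mono hD) (H1_surj hD) with he
  have hfe : ∀ x, D.f1 (e.symm x) = x := fun x => e.apply_symm_apply x
  have hce : Continuous e.symm := e.symm.continuous
  have hde : ∀ x, HasDerivAt e.symm (D.p1 (e.symm x))⁻¹ x := by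
    intro x
    exact HasDerivAt.of_local_left_inverse hce.continuousAt (hD.d1 _) (hD.q1 _).ne'
      (Filter.Eventually.of_forall hfe)
  have hg : g = fun x => D.f2 (e.symm x) := by
    funext x
    have := (hO (e.symm x)).1
    rw [hfe] at this
    exact this
  refine ⟨fun x => D.p2 (e.symm x) * (D.p1 (e.symm x))⁻¹, ?_, ?_⟩
  · intro x
    rw [hg]
    exact (hD.d2 _).comp x (hde x)
  · refine (hD.c2.comp hce).mul ((hD.c1.comp hce).inv₀ fun x => (hD.q1 _).ne')

theorem H1_sub {h k ρ g g' : ℝ → ℝ} (H : Sup h k ρ) (hg : ∀ x, HasDerivAt g (g' x) x)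
    (hgc : Continuous g') {fa fb pa pb : ℝ → ℝ} (da : ∀ t, HasDerivAt fa (pa t) t)
    (db : ∀ t, HasDerivAt fb (pb t) t) (ca : Continuous pa) (hab : ∀ t, g (fa t) = fb t)
    (a b : ℝ) :
    (∫ x in (fa a)..(fa b), Pf h k ρ ((x + g x) / 2) ((g x - x) / 2) * (1 + g' x))
      = ∫ t in a..b, Pf h k ρ ((fa t + fb t) / 2) ((fb t - fa t) / 2) * (pa t + pb t) := by
  have hgcont : Continuous g := continuous_iff_continuousAt.2 fun x => (hg x).continuousAt
  have hG : Continuous (fun x => Pf h k ρ ((x + g x) / 2) ((g x - x) / 2) * (1 + g' x)) := by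
    refine Continuous.mul ?_ (by fun_prop)
    exact (H1_contPf H).comp (f := fun x => ((x + g x) / 2, (g x - x) / 2)) (by fun_prop)
  rw [← intervalIntegral.integral_comp_mul_deriv (f := fa) (f' := pa)
    (g := fun x => Pf h k ρ ((x + g x) / 2) ((g x - x) / 2) * (1 + g' x))
    (fun x _ => da x) ca.continuousOn hG]
  refine intervalIntegral.integral_congr fun t _ => ?_
  have hd : g' (fa t) * pa t = pb t := by
    have h1 : HasDerivAt (fun t => g (fa t)) (g' (fa t) * pa t) t := (hg (fa t)).comp t (da t)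
    have h2 : (fun t => g (fa t)) = fb := funext hab
    rw [h2] at h1
    exact h1.unique (db t)
  simp only [Function.comp, hab]
  rw [← hd]
  ring

theorem t_H1 (h1 : S_CV) : S_H1 := by
  intro h k ρ g D H hC hD hO
  obtain ⟨g', hg, hgc⟩ := H1_reg hD hO
  have hgcont : Continuous g := hC.cont
  have hG : Continuous (fun x => Pf h k ρ ((x + g x) / 2) ((g x - x) / 2) * (1 + g' x)) := by
    refine Continuous.mul ?_ (by fun_prop)
    exact (H1_contPf H).comp (f := fun x => ((x + g x) / 2, (g x - x) / 2)) (by fun_prop)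
  set G : ℝ → ℝ := fun x => Pf h k ρ ((x + g x) / 2) ((g x - x) / 2) * (1 + g' x) with hGdef
  -- the Hopf integral is the integral of `G`
  have e1 : HI h k ρ g = ∫ x in (0 : ℝ)..(2 * π), G x := by
    have a := h1 (H1_F h k ρ) g g' (H1_contF H) ?_ hg hgc hC.per (fun x => (hC.lo x).le)
    · unfold HI
      have b : (∫ x in (0 : ℝ)..(2 * π), ∫ y in x..(g x), Qd h k ρ x y * S12 ρ x y)
          = ∫ x in (0 : ℝ)..(2 * π), ∫ y in x..(g x),
            H1_F h k ρ ((x + y) / 2) ((y - x) / 2) := by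
        refine intervalIntegral.integral_congr fun x _ => ?_
        refine intervalIntegral.integral_congr fun y _ => ?_
        exact H1_Qd h k ρ x y
      rw [b, a]
      refine intervalIntegral.integral_congr fun x _ => ?_
      simp only [H1_intF H, hGdef]
    · intro x d
      simp only [H1_F, H.ph, H.pk, H.pr]
  -- periodicity
  have g'per : ∀ x, g' (x + 2 * π) = g' x := by
    intro x
    have a1 : HasDerivAt (fun x => g (x + 2 * π)) (g' (x + 2 * π)) x :=
      (hg (x + 2 * π)).comp_add_const x (2 * π)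
    have a2 : HasDerivAt (fun x => g (x + 2 * π)) (g' x) x := by
      have : (fun x => g (x + 2 * π)) = fun x => g x + 2 * π := funext hC.per
      rw [this]
      exact (hg x).add_const (2 * π)
    exact a1.unique a2
  have hper : Function.Periodic G (2 * π) := by
    intro x
    simp only [hGdef]
    rw [g'per, hC.per]
    have q1 : (x + 2 * π + (g x + 2 * π)) / 2 = (x + g x) / 2 + 2 * π := by ring
    have q2 : (g x + 2 * π - (x + 2 * π)) / 2 = (g x - x) / 2 := by ring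
    rw [q1, q2]
    simp only [Pf, H.ph, H.pk, H.pr]
  have e2 : (∫ x in (0 : ℝ)..(2 * π), G x) = ∫ x in (D.f1 0)..(D.f1 0 + 2 * π), G x := by
    have := hper.intervalIntegral_add_eq 0 (D.f1 0)
    rw [zero_add] at this
    exact this
  have i1 : ∀ a b : ℝ, IntervalIntegrable G volume a b := fun a b => hG.intervalIntegrable a b
  have e3 : (∫ x in (D.f1 0)..(D.f1 0 + 2 * π), G x)
      = (∫ x in (D.f1 0)..(D.f1 (2 * π)), G x) + (∫ x in (D.f2 0)..(D.f2 (2 * π)), G x)
        + ∫ x in (D.f3 0)..(D.f3 (2 * π)), G x := by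
    have r1 : D.f1 (2 * π) = D.f2 0 := by have := hD.s1 0; rwa [zero_add] at this
    have r2 : D.f2 (2 * π) = D.f3 0 := by have := hD.s2 0; rwa [zero_add] at this
    have r3 : D.f3 (2 * π) = D.f1 0 + 2 * π := by have := hD.s3 0; rwa [zero_add] at this
    rw [r1, r2, r3, intervalIntegral.integral_add_adjacent_intervals (i1 _ _) (i1 _ _),
      intervalIntegral.integral_add_adjacent_intervals (i1 _ _) (i1 _ _)]
  have s1 := H1_sub (h := h) (k := k) (ρ := ρ) H hg hgc hD.d1 hD.d2 hD.c1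
    (fun t => (hO t).1) 0 (2 * π)
  have s2 := H1_sub (h := h) (k := k) (ρ := ρ) H hg hgc hD.d2 hD.d3 hD.c2
    (fun t => (hO t).2.1) 0 (2 * π)
  have s3 := H1_sub (h := h) (k := k) (ρ := ρ) H hg hgc hD.d3
    (fb := fun t => D.f1 t + 2 * π) (pb := D.p1) (fun t => (hD.d1 t).add_const (2 * π)) hD.c3
    (fun t => (hO t).2.2) 0 (2 * π)
  have hsum : ∀ t, D.p1 t + D.p2 t + D.p3 t = 1 := by
    intro t
    have a1 : HasDerivAt (fun t => D.f1 t + D.f2 t + D.f3 t) (D.p1 t + D.p2 t + D.p3 t) t :=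
      ((hD.d1 t).add (hD.d2 t)).add (hD.d3 t)
    have a2 : (fun t => D.f1 t + D.f2 t + D.f3 t) = fun t => t := funext hD.sum
    rw [a2] at a1
    exact a1.unique (hasDerivAt_id t)
  have cf1 : Continuous D.f1 := continuous_iff_continuousAt.2 fun t => (hD.d1 t).continuousAt
  have cf2 : Continuous D.f2 := continuous_iff_continuousAt.2 fun t => (hD.d2 t).continuousAt
  have cf3 : Continuous D.f3 := continuous_iff_continuousAt.2 fun t => (hD.d3 t).continuousAt
  have cp1 := hD.c1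
  have cp2 := hD.c2
  have cp3 := hD.c3
  have cP := H1_contPf H
  have k1 : Continuous (fun t => Pf h k ρ ((D.f1 t + D.f2 t) / 2) ((D.f2 t - D.f1 t) / 2)
      * (D.p1 t + D.p2 t)) := by
    refine Continuous.mul ?_ (by fun_prop)
    exact cP.comp (f := fun t => ((D.f1 t + D.f2 t) / 2, (D.f2 t - D.f1 t) / 2)) (by fun_prop)
  have k2 : Continuous (fun t => Pf h k ρ ((D.f2 t + D.f3 t) / 2) ((D.f3 t - D.f2 t) / 2)
      * (D.p2 t + D.p3 t)) := by
    refine Continuous.mul ?_ (by fun_prop)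
    exact cP.comp (f := fun t => ((D.f2 t + D.f3 t) / 2, (D.f3 t - D.f2 t) / 2)) (by fun_prop)
  have k3 : Continuous (fun t => Pf h k ρ ((D.f3 t + (D.f1 t + 2 * π)) / 2)
      ((D.f1 t + 2 * π - D.f3 t) / 2) * (D.p3 t + D.p1 t)) := by
    refine Continuous.mul ?_ (by fun_prop)
    exact cP.comp (f := fun t => ((D.f3 t + (D.f1 t + 2 * π)) / 2,
      (D.f1 t + 2 * π - D.f3 t) / 2)) (by fun_prop)
  have k12 : Continuous (fun t => Pf h k ρ ((D.f1 t + D.f2 t) / 2) ((D.f2 t - D.f1 t) / 2)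
      * (D.p1 t + D.p2 t) + Pf h k ρ ((D.f2 t + D.f3 t) / 2) ((D.f3 t - D.f2 t) / 2)
      * (D.p2 t + D.p3 t)) := k1.add k2
  rw [e1, e2, e3, s1, s2, s3,
    ← intervalIntegral.integral_add (k1.intervalIntegrable _ _) (k2.intervalIntegrable _ _),
    ← intervalIntegral.integral_add (k12.intervalIntegrable _ _)
      (k3.intervalIntegrable _ _)]
  refine intervalIntegral.integral_congr fun t _ => ?_
  have w := hsum t
  simp only [TD.b1, TD.b2, TD.b3, TD.A1, TD.A2, TD.A3, TD.w1, TD.w2, TD.w3]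
  have v1 : D.p2 t + D.p3 t = 1 - D.p1 t := by linarith
  have v2 : D.p3 t + D.p1 t = 1 - D.p2 t := by linarith
  have v3 : D.p1 t + D.p2 t = 1 - D.p3 t := by linarith
  have z1 : (π - (π - (D.f3 t - D.f2 t))) / 2 = (D.f3 t - D.f2 t) / 2 := by ring
  have z2 : (π - (D.f3 t - D.f1 t - π)) / 2 = (D.f1 t + 2 * π - D.f3 t) / 2 := by ring
  have z3 : (π - (π - (D.f2 t - D.f1 t))) / 2 = (D.f2 t - D.f1 t) / 2 := by ring
  have z4 : (D.f3 t + D.f1 t + 2 * π) / 2 = (D.f3 t + (D.f1 t + 2 * π)) / 2 := by ring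
  rw [v1, v2, v3, z1, z2, z3, z4]
  ring

end

end Pool.Agent.H283R2.BK
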