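import Pool.Agent.H283R2.BK.Defs

/-! Task H2: the main identity on the leaf. -/

open Real Complex Set MeasureTheory

namespace Pool.Agent.H283R2.BK

noncomputable section

/-- auxiliary primitive -/
def H2_K (h k s c d : ℝ) : ℝ :=
  -((h ^ 2 + k ^ 2) * (h ^ 2 * (1 - c ^ 4) / 4 - k ^ 2 * s ^ 4 / 4) +
    h * k * (h ^ 2 * (d / 2 + s * c / 2) - k ^ 2 * (d / 2 - s * c / 2))) / 2

def H2_L (h k b d : ℝ → ℝ) (t : ℝ) : ℝ :=
  h (b t) ^ 4 / 8 + H2_K (h (b t)) (k (b t)) (Real.sin (d t)) (Real.cos (d t)) (d t)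

def H2_E (h k b d : ℝ → ℝ) (t : ℝ) : ℝ :=
  (h (b t) * Real.cos (d t) - k (b t) * Real.sin (d t)) ^ 2 / 2

def H2_B (h k b d : ℝ → ℝ) (t : ℝ) : ℝ :=
  (h (b t) * Real.cos (d t) + k (b t) * Real.sin (d t)) ^ 2 / 2

def H2_J (d : ℝ → ℝ) (t : ℝ) : ℝ := d t / 2 - Real.sin (4 * d t) / 8

def H2_V (Z : ℝ → ℂ) (u : ℝ → ℝ) (t : ℝ) : ℝ :=
  (Z t).re * Real.cos (u t) + (Z t).im * Real.sin (u t)

def H2_U (Z : ℝ → ℂ) (u : ℝ → ℝ) (t : ℝ) : ℝ :=
  (Z t).im * Real.cos (u t) - (Z t).re * Real.sin (u t)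

theorem H2_ip (z : ℂ) (x : ℝ) : ip z (en x) = z.re * Real.cos x + z.im * Real.sin x := by
  unfold ip en
  rw [Complex.exp_ofReal_mul_I_re, Complex.exp_ofReal_mul_I_im]

theorem H2_sin4 (x : ℝ) : Real.sin (4 * x) =
    4 * Real.sin x * Real.cos x * (Real.cos x ^ 2 - Real.sin x ^ 2) := by
  rw [show 4 * x = 2 * (2 * x) by ring, Real.sin_two_mul, Real.sin_two_mul, Real.cos_two_mul']
  ring

theorem H2_alg (h k r s c d w e : ℝ) (hsc : s ^ 2 + c ^ 2 = 1) :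
    w * (h * r * ((h * (r - h) + 3 * k ^ 2) * ((d / 2 - (4 * s * c * (c ^ 2 - s ^ 2)) / 8) / 4) -
      k ^ 2 * (d / 2 - (2 * s * c) / 4))) =
    w / 4 * (((2 * k ^ 2 + 2 * h * (r - h)) ^ 2 / 4 - (2 * h * k) ^ 2) *
      (d / 2 - (4 * s * c * (c ^ 2 - s ^ 2)) / 8) -
      (2 * h * k) ^ 2 * (4 * s * c * (c ^ 2 - s ^ 2)) / 4) +
    (h * c + k * s) ^ 2 / 2 * ((-1)*c*e*h^2*s + (1)*c*e*k^2*s + (-1/2)*c*h*r*s*w + (1/2)*c*h^2*s*w + (-1/2)*c*k^2*s*w + (-1)*c^2*e*h*k + (1/2)*c^2*h*k*w + (1)*e*h*k*s^2 + (-1/2)*h*k*s^2*w + (1/2)*k*r*s^2*w) -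
    ((1/2)*c*e*h^2*k^2*s^3 + (1/2)*c*e*k^4*s^3 + (-3/8)*c*h*k^2*r*s*w + (-1/8)*c*h^3*r*s*w + (1/8)*c*h^4*s*w + (-1/8)*c*k^4*s*w + (-1/4)*c^2*e*h*k^3 + (-1/4)*c^2*e*h^3*k + (-1/2)*c^3*e*h^2*k^2*s + (-1/2)*c^3*e*h^4*s + (1/8)*c^4*h*k^3*w + (1/8)*c^4*h^2*k*r*w + (1/8)*c^4*h^3*k*w + (3/8)*d*h*k^2*r*w + (-3/4)*d*h^2*k^2*w + (-1/8)*d*h^3*r*w + (1/8)*d*h^4*w + (1/8)*d*k^4*w + (1/4)*e*h*k^3 + (1/4)*e*h*k^3*s^2 + (-1/4)*e*h^3*k + (1/4)*e*h^3*k*s^2 + (-1/8)*h*k^3*s^4*w + (-1/8)*h*k^3*w + (1/8)*h^2*k*r*s^4*w + (-1/8)*h^2*k*r*w + (-1/8)*h^3*k*s^4*w + (1/8)*h^3*k*w + (1/4)*k^3*r*s^4*w) := by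
  linear_combination ((-1/8)*c*h*k^2*r*s*w + (1/8)*c*h^3*r*s*w + (-1/8)*c*h^4*s*w + (1/8)*c*k^4*s*w + (1/2)*c^2*e*h^3*k + (1/8)*c^2*h*k^3*w + (1/8)*c^2*h^2*k*r*w + (-1/8)*c^2*h^3*k*w + (-1/4)*e*h*k^3 + (-1/2)*e*h*k^3*s^2 + (1/4)*e*h^3*k + (1/8)*h*k^3*s^2*w + (1/8)*h*k^3*w + (1/8)*h^2*k*r*s^2*w + (1/8)*h^2*k*r*w + (-1/8)*h^3*k*s^2*w + (-1/8)*h^3*k*w) * hsc

theorem H2_sqd {f : ℝ → ℝ} {f' t : ℝ} (h : HasDerivAt f f' t) :
    HasDerivAt (fun t => f t ^ 2) (2 * f t * f') t := by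
  have h1 := h.mul h
  refine (h1.congr_deriv (by ring)).congr_of_eventuallyEq ?_
  exact Filter.Eventually.of_forall fun x => by simp only [Pi.mul_apply]; ring

theorem H2_p4 {f : ℝ → ℝ} {f' t : ℝ} (h : HasDerivAt f f' t) :
    HasDerivAt (fun t => f t ^ 4) (4 * f t ^ 3 * f') t := by
  have h1 := H2_sqd (H2_sqd h)
  refine (h1.congr_deriv (by ring)).congr_of_eventuallyEq ?_
  exact Filter.Eventually.of_forall fun x => by simp only; ring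

theorem H2_vertex {h k ρ b d : ℝ → ℝ} {t w e : ℝ} (hS : Sup h k ρ) (hb : HasDerivAt b (w / 2) t)
    (hd : HasDerivAt d e t) : ∃ L' E' : ℝ, HasDerivAt (H2_L h k b d) L' t ∧
      HasDerivAt (H2_E h k b d) E' t ∧
      w * Pf h k ρ (b t) (d t) = w / 4 * (((2 * k (b t) ^ 2 + 2 * h (b t) * (ρ (b t) - h (b t))) ^ 2
        / 4 - (2 * h (b t) * k (b t)) ^ 2) * H2_J d t -
        (2 * h (b t) * k (b t)) ^ 2 * Real.sin (4 * d t) / 4) + H2_B h k b d t * E' - L' := by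
  have H : HasDerivAt (fun t => h (b t)) (k (b t) * (w / 2)) t := (hS.dh (b t)).comp t hb
  have K : HasDerivAt (fun t => k (b t)) ((ρ (b t) - h (b t)) * (w / 2)) t :=
    (hS.dk (b t)).comp t hb
  have s : HasDerivAt (fun t => Real.sin (d t)) (Real.cos (d t) * e) t := hd.sin
  have c : HasDerivAt (fun t => Real.cos (d t)) (-Real.sin (d t) * e) t := hd.cos
  have alg := H2_alg (h (b t)) (k (b t)) (ρ (b t)) (Real.sin (d t)) (Real.cos (d t)) (d t) w e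
    (Real.sin_sq_add_cos_sq (d t))
  have hL := ((H2_p4 H).div_const 8).add
    ((((((H2_sqd H).add (H2_sqd K)).mul
      ((((H2_sqd H).mul ((H2_p4 c).const_sub 1)).div_const 4).sub
        (((H2_sqd K).mul (H2_p4 s)).div_const 4))).add
      ((H.mul K).mul (((H2_sqd H).mul ((hd.div_const 2).add ((s.mul c).div_const 2))).sub
        ((H2_sqd K).mul ((hd.div_const 2).sub ((s.mul c).div_const 2)))))).neg).div_const 2)
  have hE := (H2_sqd ((H.mul c).sub (K.mul s))).div_const 2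
  refine ⟨_, _, hL, hE, ?_⟩
  unfold Pf H2_J H2_B
  rw [H2_sin4, Real.sin_two_mul, alg]
  simp only [Pi.mul_apply, Pi.add_apply, Pi.sub_apply]
  ring

theorem H2_el (A : ℝ) : π * el A = 4 * (((π - A) / 2) / 2 - Real.sin (4 * ((π - A) / 2)) / 8) := by
  unfold el
  have h1 : Real.sin (4 * ((π - A) / 2)) = -(2 * Real.sin A * Real.cos A) := by
    rw [show 4 * ((π - A) / 2) = 2 * π - 2 * A by ring, Real.sin_two_pi_sub, Real.sin_two_mul]
  rw [h1]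
  have hp : π ≠ 0 := Real.pi_ne_zero
  field_simp
  ring

theorem H2_sq (w vx z U J l : ℝ) (hw : w ≠ 0) (hv : vx * (w / 2) = z + w * U)
    (hel : π * l = 4 * J) :
    w / 4 * (vx ^ 2 / 4 * J) - π / 8 * (l / (2 * w) * z ^ 2) = J / 4 * (2 * z * U + w * U ^ 2) := by
  have h1 : π / 8 * (l / (2 * w) * z ^ 2) = J * z ^ 2 / (4 * w) := by
    have : J = π * l / 4 := by rw [hel]; ring
    rw [this]
    field_simp
    ring
  have h2 : vx = 2 * (z + w * U) / w := by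
    rw [eq_div_iff hw, ← hv]; ring
  rw [h1, h2]
  field_simp
  ring

/-- the trigonometric identity -/
theorem H2_trig (a b a' b' S1 C1 S2 C2 S3 C3 w1 w2 w3 v2 U2 v3 U3 z2 : ℝ)
    (hw : w1 + w2 + w3 = 2) (hS1 : S1 = -(S2 * C3 + C2 * S3)) (hC1 : C1 = C2 * C3 - S2 * S3)
    (hv2 : v2 = C3 * a - S3 * b) (hU2 : U2 = C3 * b + S3 * a) (hv3 : v3 = C2 * a + S2 * b)
    (hU3 : U3 = C2 * b - S2 * a) (hz2 : z2 = C3 * a' - S3 * b') :
    -(1 / 8) * (S1 * S2 * S3) * (a * b' - b * a') -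
      1 / 4 * (S1 ^ 2 * ((w2 - w3) / 2) * a * b + S2 ^ 2 * ((w3 - w1) / 2) * v2 * U2 +
        S3 ^ 2 * ((w1 - w2) / 2) * v3 * U3) -
      1 / 16 * (w1 * a ^ 2 * (2 * S1 * C1) + w2 * v2 ^ 2 * (2 * S2 * C2) +
        w3 * v3 ^ 2 * (2 * S3 * C3)) -
      1 / 8 * (S1 * a * (2 * C2 * ((w3 - w1) / 2) * v2 + S2 * (z2 + w2 * U2)) -
        S2 * v2 * (2 * C1 * ((w2 - w3) / 2) * a + S1 * (a' + w1 * b))) = 0 := by
  have hw3 : w3 = 2 - w1 - w2 := by linarith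
  subst hw3 hS1 hC1 hv2 hU2 hv3 hU3 hz2
  ring

theorem H2_hu {u : ℝ → ℝ} {Z : ℝ → ℂ} {Z' : ℂ} {t w : ℝ} (hZ : HasDerivAt Z Z' t)
    (hu : HasDerivAt u w t) :
    HasDerivAt (H2_V Z u) (Z'.re * Real.cos (u t) + Z'.im * Real.sin (u t) + w * H2_U Z u t) t ∧
    HasDerivAt (H2_U Z u) (Z'.im * Real.cos (u t) - Z'.re * Real.sin (u t) - w * H2_V Z u t) t := by
  have X : HasDerivAt (fun t => (Z t).re) Z'.re t :=
    (Complex.reCLM.hasFDerivAt.comp_hasDerivAt t hZ)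
  have Y : HasDerivAt (fun t => (Z t).im) Z'.im t :=
    (Complex.imCLM.hasFDerivAt.comp_hasDerivAt t hZ)
  have s := hu.sin
  have c := hu.cos
  constructor
  · refine ((X.mul c).add (Y.mul s)).congr_deriv ?_
    unfold H2_U; ring
  · refine ((Y.mul c).sub (X.mul s)).congr_deriv ?_
    unfold H2_V; ring

/-- the potential -/
def H2_Psi (L1 L2 L3 E1 E2 E3 J1 J2 J3 V1 V2 V3' U1 U2 U3 : ℝ → ℝ) (t : ℝ) : ℝ :=
  -(L1 t + L2 t + L3 t) + (E1 t * E2 t + E2 t * E3 t + E3 t * E1 t) / 2 +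
    (J1 t * V1 t * U1 t + J2 t * V2 t * U2 t + J3 t * V3' t * U3 t) / 4

theorem H2_dPsi {L1 L2 L3 E1 E2 E3 J1 J2 J3 V1 V2 V3' U1 U2 U3 : ℝ → ℝ}
    {l1 l2 l3 e1 e2 e3 j1 j2 j3 v1 v2 v3 u1 u2 u3 t : ℝ}
    (hL1 : HasDerivAt L1 l1 t) (hL2 : HasDerivAt L2 l2 t) (hL3 : HasDerivAt L3 l3 t)
    (hE1 : HasDerivAt E1 e1 t) (hE2 : HasDerivAt E2 e2 t) (hE3 : HasDerivAt E3 e3 t)
    (hJ1 : HasDerivAt J1 j1 t) (hJ2 : HasDerivAt J2 j2 t) (hJ3 : HasDerivAt J3 j3 t)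
    (hV1 : HasDerivAt V1 v1 t) (hV2 : HasDerivAt V2 v2 t) (hV3 : HasDerivAt V3' v3 t)
    (hU1 : HasDerivAt U1 u1 t) (hU2 : HasDerivAt U2 u2 t) (hU3 : HasDerivAt U3 u3 t) :
    HasDerivAt (H2_Psi L1 L2 L3 E1 E2 E3 J1 J2 J3 V1 V2 V3' U1 U2 U3)
      (-(l1 + l2 + l3) + (e1 * E2 t + E1 t * e2 + (e2 * E3 t + E2 t * e3) +
        (e3 * E1 t + E3 t * e1)) / 2 +
        ((j1 * V1 t + J1 t * v1) * U1 t + J1 t * V1 t * u1 +
          ((j2 * V2 t + J2 t * v2) * U2 t + J2 t * V2 t * u2) +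
          ((j3 * V3' t + J3 t * v3) * U3 t + J3 t * V3' t * u3)) / 4) t :=
  (((hL1.add hL2).add hL3).neg.add
    ((((hE1.mul hE2).add (hE2.mul hE3)).add (hE3.mul hE1)).div_const 2)).add
    (((((hJ1.mul hV1).mul hU1).add ((hJ2.mul hV2).mul hU2)).add ((hJ3.mul hV3).mul hU3)).div_const 4)

/-- final algebra -/
theorem H2_fin {w1 w2 w3 f1 f2 f3 f1' f2' f3' l1 l2 l3 J1 J2 J3 S1 S2 S3 C1 C2 C3 a b a' b'
    v2 U2 v3 U3 z2 zu2 z3 zu3 P1 P2 P3 G1 G2 G3 : ℝ}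
    (hw : w1 + w2 + w3 = 2) (hS1 : S1 = -(S2 * C3 + C2 * S3)) (hC1 : C1 = C2 * C3 - S2 * S3)
    (h2 : S2 ^ 2 + C2 ^ 2 = 1) (h3 : S3 ^ 2 + C3 ^ 2 = 1)
    (hv2 : v2 = C3 * a - S3 * b) (hU2 : U2 = C3 * b + S3 * a) (hv3 : v3 = C2 * a + S2 * b)
    (hU3 : U3 = C2 * b - S2 * a) (hz2 : z2 = C3 * a' - S3 * b') (hzu2 : zu2 = C3 * b' + S3 * a')
    (hz3 : z3 = C2 * a' + S2 * b') (hzu3 : zu3 = C2 * b' - S2 * a')
    (hP1 : P1 - G1 = J1 / 4 * (2 * a' * b + w1 * b ^ 2) - w1 / 4 * (a ^ 2 * J1 + a ^ 2 *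
      (2 * S1 * C1) / 4) + f2 * f1' - l1)
    (hP2 : P2 - G2 = J2 / 4 * (2 * z2 * U2 + w2 * U2 ^ 2) - w2 / 4 * (v2 ^ 2 * J2 + v2 ^ 2 *
      (2 * S2 * C2) / 4) + f3 * f2' - l2)
    (hP3 : P3 - G3 = J3 / 4 * (2 * z3 * U3 + w3 * U3 ^ 2) - w3 / 4 * (v3 ^ 2 * J3 + v3 ^ 2 *
      (2 * S3 * C3) / 4) + f1 * f3' - l3)
    (hy1 : S1 * a = 2 * (f2 - f1)) (hy2 : S2 * v2 = 2 * (f3 - f2))
    (hd1 : 2 * C1 * ((w2 - w3) / 2) * a + S1 * (a' + w1 * b) = 2 * (f2' - f1'))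
    (hd2 : 2 * C2 * ((w3 - w1) / 2) * v2 + S2 * (z2 + w2 * U2) = 2 * (f3' - f2'))
    (hJ : J1 + J2 + J3 = π / 2 + S1 * S2 * S3 / 2) :
    P1 + P2 + P3 - (G1 + G2 + G3 - π / 8 * (a * b' - b * a')) =
      -(l1 + l2 + l3) + (f1' * f2 + f1 * f2' + (f2' * f3 + f2 * f3') +
        (f3' * f1 + f3 * f1')) / 2 +
        ((S1 ^ 2 * ((w2 - w3) / 2) * a + J1 * (a' + w1 * b)) * b + J1 * a * (b' - w1 * a) +
          ((S2 ^ 2 * ((w3 - w1) / 2) * v2 + J2 * (z2 + w2 * U2)) * U2 +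
            J2 * v2 * (zu2 - w2 * v2)) +
          ((S3 ^ 2 * ((w1 - w2) / 2) * v3 + J3 * (z3 + w3 * U3)) * U3 +
            J3 * v3 * (zu3 - w3 * v3))) / 4 := by
  have T := H2_trig a b a' b' S1 C1 S2 C2 S3 C3 w1 w2 w3 v2 U2 v3 U3 z2 hw hS1 hC1 hv2 hU2 hv3
    hU3 hz2
  have c2 : z2 * U2 - v2 * zu2 = -(a * b' - b * a') := by
    rw [hz2, hU2, hv2, hzu2]
    linear_combination (-(a * b' - b * a')) * h3
  have c3 : z3 * U3 - v3 * zu3 = -(a * b' - b * a') := by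
    rw [hz3, hU3, hv3, hzu3]
    linear_combination (-(a * b' - b * a')) * h2
  have hF : f2 * f1' + f3 * f2' + f1 * f3' = (f1' * f2 + f1 * f2' + (f2' * f3 + f2 * f3') +
        (f3' * f1 + f3 * f1')) / 2 - 1 / 8 * (S1 * a * (2 * C2 * ((w3 - w1) / 2) * v2 +
        S2 * (z2 + w2 * U2)) - S2 * v2 * (2 * C1 * ((w2 - w3) / 2) * a +
        S1 * (a' + w1 * b))) := by
    rw [hy1, hy2, hd1, hd2]
    ring
  linear_combination hP1 + hP2 + hP3 + hF + T + (J2 / 4) * c2 + (J3 / 4) * c3 -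
    ((a * b' - b * a') / 4) * hJ

def H2_d1 (D : TD) (t : ℝ) : ℝ := (π - D.A1 t) / 2
def H2_d2 (D : TD) (t : ℝ) : ℝ := (π - D.A2 t) / 2
def H2_d3 (D : TD) (t : ℝ) : ℝ := (π - D.A3 t) / 2

theorem H2_d1e (D : TD) (t : ℝ) : H2_d1 D t = (D.f3 t - D.f2 t) / 2 := by
  unfold H2_d1 TD.A1; ring
theorem H2_d2e (D : TD) (t : ℝ) : H2_d2 D t = (D.f1 t + 2 * π - D.f3 t) / 2 := by
  unfold H2_d2 TD.A2; ring
theorem H2_d3e (D : TD) (t : ℝ) : H2_d3 D t = (D.f2 t - D.f1 t) / 2 := by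
  unfold H2_d3 TD.A3; ring

theorem H2_dJ {d : ℝ → ℝ} {t e : ℝ} (hd : HasDerivAt d e t) :
    HasDerivAt (H2_J d) (Real.sin (2 * d t) ^ 2 * e) t := by
  have h1 := (hd.div_const 2).sub (((hd.const_mul 4).sin).div_const 8)
  refine h1.congr_deriv ?_
  have h2 : Real.cos (4 * d t) = 1 - 2 * Real.sin (2 * d t) ^ 2 := by
    rw [show 4 * d t = 2 * (2 * d t) by ring, Real.cos_two_mul, Real.cos_sq']; ring
  rw [h2]; ring

theorem H2_dif (h k b d : ℝ → ℝ) (t : ℝ) :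
    Real.sin (2 * d t) * (2 * h (b t) * k (b t)) = 2 * (H2_B h k b d t - H2_E h k b d t) := by
  unfold H2_B H2_E
  rw [Real.sin_two_mul]; ring

/-- one vertex -/
theorem H2_one {w Pv vx v J s4 Bv e l z U A a SC : ℝ} (hw : w ≠ 0)
    (id : w * Pv = w / 4 * ((vx ^ 2 / 4 - v ^ 2) * J - v ^ 2 * s4 / 4) + Bv * e - l)
    (hv : vx * (w / 2) = z + w * U) (hel : π * el A = 4 * J) (ha : v = a) (hs : s4 = SC) :
    Pv * w - π / 8 * (el A / (2 * w) * z ^ 2) = J / 4 * (2 * z * U + w * U ^ 2) -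
      w / 4 * (a ^ 2 * J + a ^ 2 * SC / 4) + Bv * e - l := by
  have h1 := H2_sq w vx z U J (el A) hw hv hel
  subst ha hs
  linear_combination id + h1

theorem H2_cP {h k ρ b d : ℝ → ℝ} (ch : Continuous h) (ck : Continuous k) (cr : Continuous ρ)
    (cb : Continuous b) (cd : Continuous d) : Continuous fun t => Pf h k ρ (b t) (d t) := by
  unfold Pf
  fun_prop

theorem H2_cG {A w u : ℝ → ℝ} {z : ℝ → ℂ} (cA : Continuous A) (cw : Continuous w)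
    (cu : Continuous u) (cz : Continuous z) (hw : ∀ t, w t ≠ 0) :
    Continuous fun t => el (A t) / (2 * w t) * (ip (z t) (en (u t))) ^ 2 := by
  simp only [H2_ip]
  unfold el
  refine Continuous.mul (Continuous.div (by fun_prop) (by fun_prop) fun t => ?_) (by fun_prop)
  exact mul_ne_zero two_ne_zero (hw t)

theorem H2_pL {h k b d b' d' : ℝ → ℝ} {t s : ℝ} (h1 : h (b t) = h (b' s))
    (h2 : k (b t) = k (b' s)) (h3 : d t = d' s) : H2_L h k b d t = H2_L h k b' d' s := by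
  unfold H2_L; rw [h1, h2, h3]

theorem H2_pE {h k b d b' d' : ℝ → ℝ} {t s : ℝ} (h1 : h (b t) = h (b' s))
    (h2 : k (b t) = k (b' s)) (h3 : d t = d' s) : H2_E h k b d t = H2_E h k b' d' s := by
  unfold H2_E; rw [h1, h2, h3]

theorem H2_pJ {d d' : ℝ → ℝ} {t s : ℝ} (h3 : d t = d' s) : H2_J d t = H2_J d' s := by
  unfold H2_J; rw [h3]

theorem H2_pV {Z : ℝ → ℂ} {u u' : ℝ → ℝ} {t s : ℝ} (h1 : Z t = Z s)
    (h2 : Real.cos (u t) = Real.cos (u' s)) (h3 : Real.sin (u t) = Real.sin (u' s)) :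
    H2_V Z u t = H2_V Z u' s ∧ H2_U Z u t = H2_U Z u' s := by
  unfold H2_V H2_U; rw [h1, h2, h3]; exact ⟨rfl, rfl⟩

theorem t_H2 : S_H2 := by
  intro h k ρ g D Z Z' hS hC hT hOn hZ hip
  have hp : ∀ t, D.p1 t + D.p2 t + D.p3 t = 1 := by
    intro t
    have h1 := ((hT.d1 t).add (hT.d2 t)).add (hT.d3 t)
    have h2 : HasDerivAt (fun t => D.f1 t + D.f2 t + D.f3 t) 1 t := by
      simp only [hT.sum]
      exact hasDerivAt_id' t
    exact h1.unique h2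
  have hw : ∀ t, D.w1 t + D.w2 t + D.w3 t = 2 := fun t => by
    unfold TD.w1 TD.w2 TD.w3; linarith [hp t]
  have hw1 : ∀ t, D.w1 t ≠ 0 := fun t => by
    unfold TD.w1; have := hp t; have := hT.q2 t; have := hT.q3 t; intro h; linarith
  have hw2 : ∀ t, D.w2 t ≠ 0 := fun t => by
    unfold TD.w2; have := hp t; have := hT.q1 t; have := hT.q3 t; intro h; linarith
  have hw3 : ∀ t, D.w3 t ≠ 0 := fun t => by
    unfold TD.w3; have := hp t; have := hT.q1 t; have := hT.q2 t; intro h; linarith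
  have hb1 : ∀ t, HasDerivAt D.b1 (D.w1 t / 2) t := fun t =>
    (((hT.d2 t).add (hT.d3 t)).div_const 2).congr_deriv (by unfold TD.w1; linarith [hp t])
  have hb2 : ∀ t, HasDerivAt D.b2 (D.w2 t / 2) t := fun t =>
    ((((hT.d3 t).add (hT.d1 t)).add_const (2 * π)).div_const 2).congr_deriv
      (by unfold TD.w2; linarith [hp t])
  have hb3 : ∀ t, HasDerivAt D.b3 (D.w3 t / 2) t := fun t =>
    (((hT.d1 t).add (hT.d2 t)).div_const 2).congr_deriv (by unfold TD.w3; linarith [hp t])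
  have hd1 : ∀ t, HasDerivAt (H2_d1 D) ((D.w2 t - D.w3 t) / 2) t := fun t =>
    (((((hT.d3 t).sub (hT.d2 t)).const_sub π).const_sub π).div_const 2).congr_deriv
      (by unfold TD.w2 TD.w3; ring)
  have hd2 : ∀ t, HasDerivAt (H2_d2 D) ((D.w3 t - D.w1 t) / 2) t := fun t =>
    (((((hT.d3 t).sub (hT.d1 t)).sub_const π).const_sub π).div_const 2).congr_deriv
      (by unfold TD.w1 TD.w3; ring)
  have hd3 : ∀ t, HasDerivAt (H2_d3 D) ((D.w1 t - D.w2 t) / 2) t := fun t =>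
    (((((hT.d2 t).sub (hT.d1 t)).const_sub π).const_sub π).div_const 2).congr_deriv
      (by unfold TD.w1 TD.w2; ring)
  have hu1 : ∀ t, HasDerivAt D.u1 (D.w1 t) t := fun t => (hasDerivAt_id t).sub (hT.d1 t)
  have hu2 : ∀ t, HasDerivAt D.u2 (D.w2 t) t := fun t => (hasDerivAt_id t).sub (hT.d2 t)
  have hu3 : ∀ t, HasDerivAt D.u3 (D.w3 t) t := fun t => (hasDerivAt_id t).sub (hT.d3 t)
  have hV1 : ∀ t, H2_V Z D.u1 t = 2 * h (D.b1 t) * k (D.b1 t) := fun t => by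
    rw [← (hip t).1, H2_ip]; rfl
  have hV2 : ∀ t, H2_V Z D.u2 t = 2 * h (D.b2 t) * k (D.b2 t) := fun t => by
    rw [← (hip t).2.1, H2_ip]; rfl
  have hV3 : ∀ t, H2_V Z D.u3 t = 2 * h (D.b3 t) * k (D.b3 t) := fun t => by
    rw [← (hip t).2.2, H2_ip]; rfl
  -- energies
  have hB3 : ∀ t, H2_B h k D.b3 (H2_d3 D) t = H2_E h k D.b1 (H2_d1 D) t := by
    intro t
    have h1 := hC.st (D.f1 t)
    rw [(hOn t).1, (hOn t).2.1] at h1
    unfold Bm Am at h1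
    unfold H2_B H2_E TD.b3 TD.b1
    rw [H2_d3e, H2_d1e, h1]
  have hB1 : ∀ t, H2_B h k D.b1 (H2_d1 D) t = H2_E h k D.b2 (H2_d2 D) t := by
    intro t
    have h1 := hC.st (D.f2 t)
    rw [(hOn t).2.1, (hOn t).2.2] at h1
    unfold Bm Am at h1
    unfold H2_B H2_E TD.b1 TD.b2
    rw [H2_d1e, H2_d2e, h1, show D.f3 t + (D.f1 t + 2 * π) = D.f3 t + D.f1 t + 2 * π by ring]
  have hB2 : ∀ t, H2_B h k D.b2 (H2_d2 D) t = H2_E h k D.b3 (H2_d3 D) t := by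
    intro t
    have h1 := hC.st (D.f3 t)
    rw [(hOn t).2.2, hC.per, (hOn t).1] at h1
    unfold Bm Am at h1
    unfold H2_B H2_E TD.b2 TD.b3
    rw [show D.f1 t + 2 * π + (D.f2 t + 2 * π) = D.f1 t + D.f2 t + 2 * (2 * π) by ring,
      show (D.f1 t + D.f2 t + 2 * (2 * π)) / 2 = (D.f1 t + D.f2 t) / 2 + 2 * π by ring, hS.ph,
      hS.pk, show D.f2 t + 2 * π - (D.f1 t + 2 * π) = D.f2 t - D.f1 t by ring,
      show D.f3 t + (D.f1 t + 2 * π) = D.f3 t + D.f1 t + 2 * π by ring] at h1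
    rw [H2_d2e, H2_d3e, h1]
  have hY1 : ∀ t, Real.sin (2 * H2_d1 D t) * H2_V Z D.u1 t =
      2 * (H2_E h k D.b2 (H2_d2 D) t - H2_E h k D.b1 (H2_d1 D) t) := fun t => by
    rw [hV1, H2_dif, hB1]
  have hY2 : ∀ t, Real.sin (2 * H2_d2 D t) * H2_V Z D.u2 t =
      2 * (H2_E h k D.b3 (H2_d3 D) t - H2_E h k D.b2 (H2_d2 D) t) := fun t => by
    rw [hV2, H2_dif, hB2]
  have hvd : ∀ (b : ℝ → ℝ) (w t : ℝ), HasDerivAt b (w / 2) t →
      HasDerivAt (fun t => 2 * h (b t) * k (b t)) ((2 * k (b t) ^ 2 +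
        2 * h (b t) * (ρ (b t) - h (b t))) * (w / 2)) t := by
    intro b w t hb
    have H : HasDerivAt (fun t => h (b t)) (k (b t) * (w / 2)) t := (hS.dh (b t)).comp t hb
    have K : HasDerivAt (fun t => k (b t)) ((ρ (b t) - h (b t)) * (w / 2)) t :=
      (hS.dk (b t)).comp t hb
    exact ((H.const_mul 2).mul K).congr_deriv (by ring)
  set Ψ := H2_Psi (H2_L h k D.b1 (H2_d1 D)) (H2_L h k D.b2 (H2_d2 D)) (H2_L h k D.b3 (H2_d3 D))
    (H2_E h k D.b1 (H2_d1 D)) (H2_E h k D.b2 (H2_d2 D)) (H2_E h k D.b3 (H2_d3 D))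
    (H2_J (H2_d1 D)) (H2_J (H2_d2 D)) (H2_J (H2_d3 D))
    (H2_V Z D.u1) (H2_V Z D.u2) (H2_V Z D.u3) (H2_U Z D.u1) (H2_U Z D.u2) (H2_U Z D.u3) with hΨ
  have key : ∀ t, HasDerivAt Ψ ((Pf h k ρ (D.b1 t) ((π - D.A1 t) / 2) * D.w1 t
    + Pf h k ρ (D.b2 t) ((π - D.A2 t) / 2) * D.w2 t
    + Pf h k ρ (D.b3 t) ((π - D.A3 t) / 2) * D.w3 t) -
      π / 8 * (D.G t (Z' t) - cr (Z t) (Z' t))) t := by
    intro t
    obtain ⟨l1, e1, hL1, hE1, id1⟩ := H2_vertex hS (hb1 t) (hd1 t)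
    obtain ⟨l2, e2, hL2, hE2, id2⟩ := H2_vertex hS (hb2 t) (hd2 t)
    obtain ⟨l3, e3, hL3, hE3, id3⟩ := H2_vertex hS (hb3 t) (hd3 t)
    obtain ⟨dV1, dU1⟩ := H2_hu (hZ.d t) (hu1 t)
    obtain ⟨dV2, dU2⟩ := H2_hu (hZ.d t) (hu2 t)
    obtain ⟨dV3, dU3⟩ := H2_hu (hZ.d t) (hu3 t)
    have x1 := (hvd D.b1 _ t (hb1 t)).unique (by simpa only [← hV1] using dV1)
    have x2 := (hvd D.b2 _ t (hb2 t)).unique (by simpa only [← hV2] using dV2)
    have x3 := (hvd D.b3 _ t (hb3 t)).unique (by simpa only [← hV3] using dV3)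
    have y1 := (((hd1 t).const_mul 2).sin.mul dV1).unique (((hE2.sub hE1).const_mul 2).congr_of_eventuallyEq
      (Filter.Eventually.of_forall hY1))
    have y2 := (((hd2 t).const_mul 2).sin.mul dV2).unique (((hE3.sub hE2).const_mul 2).congr_of_eventuallyEq
      (Filter.Eventually.of_forall hY2))
    have dP := H2_dPsi hL1 hL2 hL3 hE1 hE2 hE3 (H2_dJ (hd1 t)) (H2_dJ (hd2 t)) (H2_dJ (hd3 t))
      dV1 dV2 dV3 dU1 dU2 dU3
    have s4 : ∀ x : ℝ, Real.sin (4 * x) = 2 * Real.sin (2 * x) * Real.cos (2 * x) := fun x => by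
      rw [show 4 * x = 2 * (2 * x) by ring, Real.sin_two_mul]
    have P1 := H2_one (hw1 t) id1 x1 (H2_el (D.A1 t)) (hV1 t).symm (s4 _)
    have P2 := H2_one (hw2 t) id2 x2 (H2_el (D.A2 t)) (hV2 t).symm (s4 _)
    have P3 := H2_one (hw3 t) id3 x3 (H2_el (D.A3 t)) (hV3 t).symm (s4 _)
    rw [hB1] at P1
    rw [hB2] at P2
    rw [hB3] at P3
    have hsum : H2_d1 D t + H2_d2 D t + H2_d3 D t = π := by
      rw [H2_d1e, H2_d2e, H2_d3e]; ring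
    have eu2 : D.u2 t = D.u1 t - 2 * H2_d3 D t := by
      rw [H2_d3e]; unfold TD.u1 TD.u2; ring
    have eu3 : D.u3 t = (D.u1 t + 2 * H2_d2 D t) - 2 * π := by
      rw [H2_d2e]; unfold TD.u1 TD.u3; ring
    have ed1 : 2 * H2_d1 D t = 2 * π - (2 * H2_d2 D t + 2 * H2_d3 D t) := by linarith
    have cu2 : Real.cos (D.u2 t) = Real.cos (D.u1 t) * Real.cos (2 * H2_d3 D t) +
        Real.sin (D.u1 t) * Real.sin (2 * H2_d3 D t) := by rw [eu2, Real.cos_sub]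
    have su2 : Real.sin (D.u2 t) = Real.sin (D.u1 t) * Real.cos (2 * H2_d3 D t) -
        Real.cos (D.u1 t) * Real.sin (2 * H2_d3 D t) := by rw [eu2, Real.sin_sub]
    have cu3 : Real.cos (D.u3 t) = Real.cos (D.u1 t) * Real.cos (2 * H2_d2 D t) -
        Real.sin (D.u1 t) * Real.sin (2 * H2_d2 D t) := by
      rw [eu3, Real.cos_sub_two_pi, Real.cos_add]
    have su3 : Real.sin (D.u3 t) = Real.sin (D.u1 t) * Real.cos (2 * H2_d2 D t) +
        Real.cos (D.u1 t) * Real.sin (2 * H2_d2 D t) := by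
      rw [eu3, Real.sin_sub_two_pi, Real.sin_add]
    have hS1 : Real.sin (2 * H2_d1 D t) = -(Real.sin (2 * H2_d2 D t) * Real.cos (2 * H2_d3 D t) +
        Real.cos (2 * H2_d2 D t) * Real.sin (2 * H2_d3 D t)) := by
      rw [ed1, Real.sin_two_pi_sub, Real.sin_add]
    have hC1 : Real.cos (2 * H2_d1 D t) = Real.cos (2 * H2_d2 D t) * Real.cos (2 * H2_d3 D t) -
        Real.sin (2 * H2_d2 D t) * Real.sin (2 * H2_d3 D t) := by
      rw [ed1, Real.cos_two_pi_sub, Real.cos_add]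
    have q2 := Real.sin_sq_add_cos_sq (2 * H2_d2 D t)
    have q3 := Real.sin_sq_add_cos_sq (2 * H2_d3 D t)
    have q1 := Real.sin_sq_add_cos_sq (D.u1 t)
    have hJ : H2_J (H2_d1 D) t + H2_J (H2_d2 D) t + H2_J (H2_d3 D) t = π / 2 +
        Real.sin (2 * H2_d1 D t) * Real.sin (2 * H2_d2 D t) * Real.sin (2 * H2_d3 D t) / 2 := by
      unfold H2_J
      rw [s4, s4, s4, hS1, hC1]
      linear_combination (1 / 2) * hsum +
        ((1 / 4) * Real.sin (2 * H2_d2 D t) * Real.cos (2 * H2_d2 D t)) * q3 +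
        ((1 / 4) * Real.sin (2 * H2_d3 D t) * Real.cos (2 * H2_d3 D t)) * q2
    have hcr : cr (Z t) (Z' t) = H2_V Z D.u1 t * ((Z' t).im * Real.cos (D.u1 t) -
        (Z' t).re * Real.sin (D.u1 t)) - H2_U Z D.u1 t * ((Z' t).re * Real.cos (D.u1 t) +
        (Z' t).im * Real.sin (D.u1 t)) := by
      unfold cr H2_V H2_U
      linear_combination (-((Z t).re * (Z' t).im - (Z t).im * (Z' t).re)) * q1
    have F := H2_fin (hw t) hS1 hC1 q2 q3 (a := H2_V Z D.u1 t) (b := H2_U Z D.u1 t)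
      (v2 := H2_V Z D.u2 t) (U2 := H2_U Z D.u2 t) (v3 := H2_V Z D.u3 t) (U3 := H2_U Z D.u3 t)
      (a' := (Z' t).re * Real.cos (D.u1 t) + (Z' t).im * Real.sin (D.u1 t))
      (b' := (Z' t).im * Real.cos (D.u1 t) - (Z' t).re * Real.sin (D.u1 t))
      (z2 := (Z' t).re * Real.cos (D.u2 t) + (Z' t).im * Real.sin (D.u2 t))
      (zu2 := (Z' t).im * Real.cos (D.u2 t) - (Z' t).re * Real.sin (D.u2 t))
      (z3 := (Z' t).re * Real.cos (D.u3 t) + (Z' t).im * Real.sin (D.u3 t))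
      (zu3 := (Z' t).im * Real.cos (D.u3 t) - (Z' t).re * Real.sin (D.u3 t))
      (by unfold H2_V H2_U; rw [cu2, su2]; ring) (by unfold H2_V H2_U; rw [cu2, su2]; ring)
      (by unfold H2_V H2_U; rw [cu3, su3]; ring) (by unfold H2_V H2_U; rw [cu3, su3]; ring)
      (by rw [cu2, su2]; ring) (by rw [cu2, su2]; ring)
      (by rw [cu3, su3]; ring) (by rw [cu3, su3]; ring)
      P1 P2 P3 (hY1 t) (hY2 t) (by linear_combination y1) (by linear_combination y2) hJ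
    refine dP.congr_deriv ?_
    rw [hcr]
    unfold TD.G
    rw [H2_ip, H2_ip, H2_ip]
    have F' := F
    simp only [H2_d1, H2_d2, H2_d3] at F' ⊢
    linear_combination (-1 : ℝ) * F'
  -- periodicity
  have per : Ψ (0 + 2 * π) = Ψ 0 := by
    have pb1 : D.b1 (0 + 2 * π) = D.b2 0 := by
      unfold TD.b1 TD.b2; rw [hT.s2, hT.s3]; ring
    have pb2 : D.b2 (0 + 2 * π) = D.b3 0 + 2 * π := by
      unfold TD.b2 TD.b3; rw [hT.s3, hT.s1]; ring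
    have pb3 : D.b3 (0 + 2 * π) = D.b1 0 := by
      unfold TD.b3 TD.b1; rw [hT.s1, hT.s2]
    have pd1 : H2_d1 D (0 + 2 * π) = H2_d2 D 0 := by
      rw [H2_d1e, H2_d2e, hT.s2, hT.s3]
    have pd2 : H2_d2 D (0 + 2 * π) = H2_d3 D 0 := by
      rw [H2_d2e, H2_d3e, hT.s1, hT.s3]; ring
    have pd3 : H2_d3 D (0 + 2 * π) = H2_d1 D 0 := by
      rw [H2_d3e, H2_d1e, hT.s1, hT.s2]
    have pu1 : D.u1 (0 + 2 * π) = D.u2 0 + 2 * π := by
      unfold TD.u1 TD.u2; rw [hT.s1]; ring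
    have pu2 : D.u2 (0 + 2 * π) = D.u3 0 + 2 * π := by
      unfold TD.u2 TD.u3; rw [hT.s2]; ring
    have pu3 : D.u3 (0 + 2 * π) = D.u1 0 := by
      unfold TD.u3 TD.u1; rw [hT.s3]; ring
    have hh2 : h (D.b2 (0 + 2 * π)) = h (D.b3 0) := by rw [pb2, hS.ph]
    have hk2 : k (D.b2 (0 + 2 * π)) = k (D.b3 0) := by rw [pb2, hS.pk]
    have e1 := H2_pV (u := D.u1) (u' := D.u2) (hZ.per 0) (by rw [pu1, Real.cos_add_two_pi])
      (by rw [pu1, Real.sin_add_two_pi])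
    have e2 := H2_pV (u := D.u2) (u' := D.u3) (hZ.per 0) (by rw [pu2, Real.cos_add_two_pi])
      (by rw [pu2, Real.sin_add_two_pi])
    have e3 := H2_pV (u := D.u3) (u' := D.u1) (hZ.per 0) (by rw [pu3]) (by rw [pu3])
    rw [hΨ]
    unfold H2_Psi
    rw [H2_pL (b' := D.b2) (d' := H2_d2 D) (by rw [pb1]) (by rw [pb1]) pd1,
      H2_pL (b := D.b2) (b' := D.b3) (d' := H2_d3 D) hh2 hk2 pd2,
      H2_pL (b := D.b3) (b' := D.b1) (d' := H2_d1 D) (by rw [pb3]) (by rw [pb3]) pd3,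
      H2_pE (b' := D.b2) (d' := H2_d2 D) (by rw [pb1]) (by rw [pb1]) pd1,
      H2_pE (b := D.b2) (b' := D.b3) (d' := H2_d3 D) hh2 hk2 pd2,
      H2_pE (b := D.b3) (b' := D.b1) (d' := H2_d1 D) (by rw [pb3]) (by rw [pb3]) pd3,
      H2_pJ pd1, H2_pJ pd2, H2_pJ pd3, e1.1, e1.2, e2.1, e2.2, e3.1, e3.2]
    ring
  rw [zero_add] at per
  -- continuity
  have ch : Continuous h := continuous_iff_continuousAt.2 fun x => (hS.dh x).continuousAt
  have ck : Continuous k := continuous_iff_continuousAt.2 fun x => (hS.dk x).continuousAt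
  have cb1 : Continuous D.b1 := continuous_iff_continuousAt.2 fun x => (hb1 x).continuousAt
  have cb2 : Continuous D.b2 := continuous_iff_continuousAt.2 fun x => (hb2 x).continuousAt
  have cb3 : Continuous D.b3 := continuous_iff_continuousAt.2 fun x => (hb3 x).continuousAt
  have cd1 : Continuous (H2_d1 D) := continuous_iff_continuousAt.2 fun x => (hd1 x).continuousAt
  have cd2 : Continuous (H2_d2 D) := continuous_iff_continuousAt.2 fun x => (hd2 x).continuousAt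
  have cd3 : Continuous (H2_d3 D) := continuous_iff_continuousAt.2 fun x => (hd3 x).continuousAt
  have cu1 : Continuous D.u1 := continuous_iff_continuousAt.2 fun x => (hu1 x).continuousAt
  have cu2 : Continuous D.u2 := continuous_iff_continuousAt.2 fun x => (hu2 x).continuousAt
  have cu3 : Continuous D.u3 := continuous_iff_continuousAt.2 fun x => (hu3 x).continuousAt
  have cf1 : Continuous D.f1 := continuous_iff_continuousAt.2 fun x => (hT.d1 x).continuousAt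
  have cf2 : Continuous D.f2 := continuous_iff_continuousAt.2 fun x => (hT.d2 x).continuousAt
  have cf3 : Continuous D.f3 := continuous_iff_continuousAt.2 fun x => (hT.d3 x).continuousAt
  have cw1 : Continuous D.w1 := continuous_const.sub hT.c1
  have cw2 : Continuous D.w2 := continuous_const.sub hT.c2
  have cw3 : Continuous D.w3 := continuous_const.sub hT.c3
  have cA1 : Continuous D.A1 := continuous_const.sub (cf3.sub cf2)
  have cA2 : Continuous D.A2 := (cf3.sub cf1).sub continuous_const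
  have cA3 : Continuous D.A3 := continuous_const.sub (cf2.sub cf1)
  have cZ : Continuous Z := continuous_iff_continuousAt.2 fun x => (hZ.d x).continuousAt
  have cZ' : Continuous Z' := hZ.c
  have cP : Continuous fun t => (Pf h k ρ (D.b1 t) ((π - D.A1 t) / 2) * D.w1 t
    + Pf h k ρ (D.b2 t) ((π - D.A2 t) / 2) * D.w2 t
    + Pf h k ρ (D.b3 t) ((π - D.A3 t) / 2) * D.w3 t) :=
    (((H2_cP ch ck hS.cr cb1 cd1).mul cw1).add ((H2_cP ch ck hS.cr cb2 cd2).mul cw2)).add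
      ((H2_cP ch ck hS.cr cb3 cd3).mul cw3)
  have cG : Continuous fun t => D.G t (Z' t) := by
    unfold TD.G
    exact ((H2_cG cA1 cw1 cu1 cZ' hw1).add (H2_cG cA2 cw2 cu2 cZ' hw2)).add
      (H2_cG cA3 cw3 cu3 cZ' hw3)
  have ccr : Continuous fun t => cr (Z t) (Z' t) := by
    unfold cr
    exact ((Complex.continuous_re.comp cZ).mul (Complex.continuous_im.comp cZ')).sub
      ((Complex.continuous_im.comp cZ).mul (Complex.continuous_re.comp cZ'))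
  have cF : Continuous fun t => D.G t (Z' t) - cr (Z t) (Z' t) := cG.sub ccr
  have cF' : Continuous fun t => π / 8 * (D.G t (Z' t) - cr (Z t) (Z' t)) :=
    continuous_const.mul cF
  have I := intervalIntegral.integral_eq_sub_of_hasDerivAt (fun t _ => key t)
    ((cP.sub cF').intervalIntegrable 0 (2 * π))
  rw [per, sub_self] at I
  have I2 := intervalIntegral.integral_sub (μ := volume) (cP.intervalIntegrable 0 (2 * π))
    (cF'.intervalIntegrable 0 (2 * π))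
  have I3 := I2.symm.trans I
  rw [intervalIntegral.integral_const_mul] at I3
  unfold TD.F
  linarith

end

end Pool.Agent.H283R2.BK
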