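import Pool.Agent.H283R2.BK.Defs

/-! Project BK, task HOPF: the Hopf inequality (helper605). -/

set_option autoImplicit false

open Real Complex Set MeasureTheory

namespace Pool.Agent.H283R2.BK

noncomputable section

/-- bounded measurable functions, periodic in the diagonal direction -/
structure HOPF_Nice (Φ : ℝ → ℝ → ℝ) : Prop where
  meas : Measurable (Function.uncurry Φ)
  bdd : ∃ C, ∀ x y, |Φ x y| ≤ C
  per : ∀ x y, Φ (x + 2 * π) (y + 2 * π) = Φ x y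

lemma HOPF_Nice.mul {Φ Ψ : ℝ → ℝ → ℝ} (h1 : HOPF_Nice Φ) (h2 : HOPF_Nice Ψ) :
    HOPF_Nice (fun x y => Φ x y * Ψ x y) where
  meas := h1.meas.mul h2.meas
  bdd := by
    obtain ⟨C, hC⟩ := h1.bdd
    obtain ⟨D, hD⟩ := h2.bdd
    refine ⟨C * D, fun x y => ?_⟩
    rw [abs_mul]
    exact mul_le_mul (hC x y) (hD x y) (abs_nonneg _) ((abs_nonneg _).trans (hC x y))
  per := fun x y => by rw [h1.per, h2.per]

lemma HOPF_Nice.add {Φ Ψ : ℝ → ℝ → ℝ} (h1 : HOPF_Nice Φ) (h2 : HOPF_Nice Ψ) :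
    HOPF_Nice (fun x y => Φ x y + Ψ x y) where
  meas := h1.meas.add h2.meas
  bdd := by
    obtain ⟨C, hC⟩ := h1.bdd
    obtain ⟨D, hD⟩ := h2.bdd
    exact ⟨C + D, fun x y => (abs_add_le _ _).trans (add_le_add (hC x y) (hD x y))⟩
  per := fun x y => by rw [h1.per, h2.per]

lemma HOPF_Nice.const (c : ℝ) : HOPF_Nice (fun _ _ => c) where
  meas := measurable_const
  bdd := ⟨|c|, fun _ _ => le_rfl⟩
  per := fun _ _ => rfl

lemma HOPF_bdd (f : ℝ → ℝ) (hf : Continuous f) (hp : ∀ x, f (x + 2 * π) = f x) :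
    ∃ C, ∀ x, |f x| ≤ C := by
  obtain ⟨C, hC⟩ := (isCompact_Icc (a := (0 : ℝ)) (b := 2 * π)).exists_bound_of_continuousOn
    hf.continuousOn
  refine ⟨C, fun x => ?_⟩
  obtain ⟨y, hy, e⟩ := (show Function.Periodic f (2 * π) from hp).exists_mem_Ico₀
    Real.two_pi_pos x
  rw [e]
  exact hC y ⟨hy.1, hy.2.le⟩

lemma HOPF_nice_mid (f : ℝ → ℝ) (hf : Continuous f) (hp : ∀ x, f (x + 2 * π) = f x) :
    HOPF_Nice (fun x y => f ((x + y) / 2)) where
  meas := by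
    have : Continuous (fun z : ℝ × ℝ => f ((z.1 + z.2) / 2)) := by fun_prop
    exact this.measurable
  bdd := by
    obtain ⟨C, hC⟩ := HOPF_bdd f hf hp
    exact ⟨C, fun x y => hC _⟩
  per := fun x y => by
    show f ((x + 2 * π + (y + 2 * π)) / 2) = f ((x + y) / 2)
    rw [show (x + 2 * π + (y + 2 * π)) / 2 = (x + y) / 2 + 2 * π by ring, hp]

lemma HOPF_nice_dif (f : ℝ → ℝ) (hf : Continuous f) (hb : ∃ C, ∀ x, |f x| ≤ C) :
    HOPF_Nice (fun x y => f ((y - x) / 2)) where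
  meas := by
    have : Continuous (fun z : ℝ × ℝ => f ((z.2 - z.1) / 2)) := by fun_prop
    exact this.measurable
  bdd := by
    obtain ⟨C, hC⟩ := hb
    exact ⟨C, fun x y => hC _⟩
  per := fun x y => by
    show f ((y + 2 * π - (x + 2 * π)) / 2) = f ((y - x) / 2)
    rw [show (y + 2 * π - (x + 2 * π)) / 2 = (y - x) / 2 by ring]

lemma HOPF_sin : HOPF_Nice (fun x y => Real.sin ((y - x) / 2)) :=
  HOPF_nice_dif Real.sin Real.continuous_sin ⟨1, Real.abs_sin_le_one⟩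

lemma HOPF_cos : HOPF_Nice (fun x y => Real.cos ((y - x) / 2)) :=
  HOPF_nice_dif Real.cos Real.continuous_cos ⟨1, Real.abs_cos_le_one⟩

section
variable {h k ρ : ℝ → ℝ} (H : Sup h k ρ)
include H

lemma HOPF_h : HOPF_Nice (fun x y => h ((x + y) / 2)) :=
  HOPF_nice_mid h (continuous_iff_continuousAt.2 fun x => (H.dh x).continuousAt) H.ph

lemma HOPF_k : HOPF_Nice (fun x y => k ((x + y) / 2)) :=
  HOPF_nice_mid k (continuous_iff_continuousAt.2 fun x => (H.dk x).continuousAt) H.pk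

lemma HOPF_ρ : HOPF_Nice (fun x y => ρ ((x + y) / 2)) :=
  HOPF_nice_mid ρ H.cr H.pr

lemma HOPF_Am : HOPF_Nice (Am h k) := by
  have := ((HOPF_h H).mul HOPF_cos).add
    ((HOPF_Nice.const (-1)).mul ((HOPF_k H).mul HOPF_sin))
  convert this using 3 with x y
  unfold Am
  ring

lemma HOPF_Bm : HOPF_Nice (Bm h k) := by
  have := ((HOPF_h H).mul HOPF_cos).add ((HOPF_k H).mul HOPF_sin)
  exact this

lemma HOPF_S12 : HOPF_Nice (S12 ρ) := by
  have := ((HOPF_Nice.const (1 / 2)).mul ((HOPF_ρ H).mul HOPF_sin))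
  convert this using 3 with x y
  unfold S12
  ring

lemma HOPF_S11 : HOPF_Nice (S11 h k ρ) := by
  have := (((HOPF_Nice.const (1 / 2)).mul ((HOPF_ρ H).mul HOPF_sin)).add
    ((HOPF_Nice.const (-1)).mul ((HOPF_h H).mul HOPF_sin))).add
    ((HOPF_Nice.const (-1)).mul ((HOPF_k H).mul HOPF_cos))
  convert this using 3 with x y
  unfold S11
  ring

lemma HOPF_S22 : HOPF_Nice (S22 h k ρ) := by
  have := (((HOPF_Nice.const (1 / 2)).mul ((HOPF_ρ H).mul HOPF_sin)).add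
    ((HOPF_Nice.const (-1)).mul ((HOPF_h H).mul HOPF_sin))).add
    (((HOPF_k H).mul HOPF_cos))
  convert this using 3 with x y
  unfold S22
  ring

end

/-- the three parts of the integrand -/
def HOPF_Fa (h k ρ : ℝ → ℝ) (x y : ℝ) : ℝ := S11 h k ρ x y * (Am h k x y) ^ 2
def HOPF_Fb (h k ρ : ℝ → ℝ) (x y : ℝ) : ℝ := 2 * S12 ρ x y * Am h k x y * Bm h k x y
def HOPF_Fc (h k ρ : ℝ → ℝ) (x y : ℝ) : ℝ := S22 h k ρ x y * (Bm h k x y) ^ 2

lemma HOPF_nFa {h k ρ : ℝ → ℝ} (H : Sup h k ρ) : HOPF_Nice (HOPF_Fa h k ρ) := by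
  have := (HOPF_S11 H).mul ((HOPF_Am H).mul (HOPF_Am H))
  convert this using 3 with x y
  unfold HOPF_Fa
  ring

lemma HOPF_nFb {h k ρ : ℝ → ℝ} (H : Sup h k ρ) : HOPF_Nice (HOPF_Fb h k ρ) := by
  have := ((HOPF_Nice.const 2).mul (HOPF_S12 H)).mul ((HOPF_Am H).mul (HOPF_Bm H))
  convert this using 3 with x y
  unfold HOPF_Fb
  ring

lemma HOPF_nFc {h k ρ : ℝ → ℝ} (H : Sup h k ρ) : HOPF_Nice (HOPF_Fc h k ρ) := by
  have := (HOPF_S22 H).mul ((HOPF_Bm H).mul (HOPF_Bm H))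
  convert this using 3 with x y
  unfold HOPF_Fc
  ring

/-! ### Fubini -/

/-- the region below the circle, one period -/
def HOPF_R (gG : ℝ → ℝ) : Set (ℝ × ℝ) := regionBetween id gG (Ioc 0 (2 * π))

lemma HOPF_measR (gG : ℝ → ℝ) (hc : Continuous gG) : MeasurableSet (HOPF_R gG) :=
  measurableSet_regionBetween measurable_id hc.measurable measurableSet_Ioc

lemma HOPF_volR {gG : ℝ → ℝ} (hhi : ∀ x, gG x < x + 2 * π) : volume (HOPF_R gG) < ⊤ := by
  refine lt_of_le_of_lt (measure_mono ?_)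
    ((isCompact_Icc (a := (0 : ℝ)) (b := 2 * π)).prod
      (isCompact_Icc (a := (0 : ℝ)) (b := 4 * π))).measure_lt_top
  rintro ⟨x, y⟩ ⟨hx, hy⟩
  have h1 := hhi x
  simp only [id, mem_Ioo] at hy
  simp only at hx
  exact ⟨⟨hx.1.le, hx.2⟩, ⟨(hx.1.trans hy.1).le, by
    have := hy.2
    have := hx.2
    show y ≤ 4 * π
    linarith⟩⟩

lemma HOPF_int {gG : ℝ → ℝ} (hhi : ∀ x, gG x < x + 2 * π) {Ψ : ℝ → ℝ → ℝ} (hΨ : HOPF_Nice Ψ) :
    IntegrableOn (Function.uncurry Ψ) (HOPF_R gG) := by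
  obtain ⟨C, hC⟩ := hΨ.bdd
  exact Measure.integrableOn_of_bounded (HOPF_volR hhi).ne hΨ.meas.aestronglyMeasurable (M := C)
    (ae_of_all _ fun z => hC z.1 z.2)

lemma HOPF_fub (gG : ℝ → ℝ) (hc : Continuous gG) (hlo : ∀ x, x < gG x)
    (hhi : ∀ x, gG x < x + 2 * π) {Ψ : ℝ → ℝ → ℝ} (hΨ : HOPF_Nice Ψ) :
    (∫ x in (0 : ℝ)..(2 * π), ∫ y in x..(gG x), Ψ x y) = ∫ z in HOPF_R gG, Ψ z.1 z.2 := by
  have hR := HOPF_measR gG hc
  have h1 : Integrable ((HOPF_R gG).indicator (fun z : ℝ × ℝ => Ψ z.1 z.2))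
      ((volume : Measure ℝ).prod volume) :=
    (integrable_indicator_iff hR).2 (HOPF_int hhi hΨ)
  rw [intervalIntegral.integral_of_le Real.two_pi_pos.le, ← integral_indicator measurableSet_Ioc,
    ← integral_indicator hR, Measure.volume_eq_prod, integral_prod _ h1]
  refine integral_congr_ae (ae_of_all _ fun x => ?_)
  show (Ioc 0 (2 * π)).indicator (fun x => ∫ y in x..(gG x), Ψ x y) x = _
  by_cases hx : x ∈ Ioc 0 (2 * π)
  · rw [indicator_of_mem hx, intervalIntegral.integral_of_le (hlo x).le,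
      integral_Ioc_eq_integral_Ioo, ← integral_indicator measurableSet_Ioo]
    refine integral_congr_ae (ae_of_all _ fun y => ?_)
    show (Ioo x (gG x)).indicator (fun y => Ψ x y) y =
      (HOPF_R gG).indicator (fun z : ℝ × ℝ => Ψ z.1 z.2) (x, y)
    by_cases hy : y ∈ Ioo x (gG x)
    · rw [indicator_of_mem hy, indicator_of_mem (show (x, y) ∈ HOPF_R gG from ⟨hx, hy⟩)]
    · rw [indicator_of_notMem hy, indicator_of_notMem
        (show (x, y) ∉ HOPF_R gG from fun h => hy h.2)]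
  · rw [indicator_of_notMem hx, eq_comm]
    refine integral_eq_zero_of_ae (ae_of_all _ fun y => ?_)
    exact indicator_of_notMem (show (x, y) ∉ HOPF_R gG from fun h => hx h.1) _

lemma HOPF_add3 {μ : Measure (ℝ × ℝ)} {f g k : ℝ × ℝ → ℝ} (hf : Integrable f μ)
    (hg : Integrable g μ) (hk : Integrable k μ) :
    ∫ z, (f z + g z + k z) ∂μ = ∫ z, f z ∂μ + ∫ z, g z ∂μ + ∫ z, k z ∂μ := by
  have h1 := integral_add (hf.add hg) hk
  have h2 := integral_add hf hg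
  simp only [Pi.add_apply] at h1
  rw [h1, h2]

lemma HOPF_int3 {μ : Measure (ℝ × ℝ)} {f g k : ℝ × ℝ → ℝ} (hf : Integrable f μ)
    (hg : Integrable g μ) (hk : Integrable k μ) :
    Integrable (fun z => f z + g z + k z) μ := (hf.add hg).add hk

/-- the weighted integral -/
def HOPF_J (ρ gG : ℝ → ℝ) (Φ : ℝ → ℝ → ℝ) : ℝ :=
  ∫ x in (0 : ℝ)..(2 * π), ∫ y in x..(gG x), Φ x y * S12 ρ x y

/-! ### pulling back along the billiard map -/

open Classical in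
def HOPF_pull (gG : ℝ → ℝ) (T2 : ℝ → ℝ → ℝ) (Φ : ℝ → ℝ → ℝ) (x y : ℝ) : ℝ :=
  if x < y ∧ y < gG x then Φ y (T2 x y) else 0

lemma HOPF_pull_nice {h k ρ gG : ℝ → ℝ} {T2 : ℝ → ℝ → ℝ} (H : Sup h k ρ) (HG : Circ h k gG)
    (hT : IsT h k T2)
    (hTc : ContinuousOn (Function.uncurry T2) {z | z.1 < z.2 ∧ z.2 < z.1 + 2 * π})
    {Φ : ℝ → ℝ → ℝ} (hΦ : HOPF_Nice Φ) : HOPF_Nice (HOPF_pull gG T2 Φ) where
  meas := by
    classical
    have hO : MeasurableSet {z : ℝ × ℝ | z.1 < z.2 ∧ z.2 < gG z.1} := by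
      have := HG.cont
      exact (IsOpen.inter (isOpen_lt continuous_fst continuous_snd)
        (isOpen_lt continuous_snd (by fun_prop))).measurableSet
    have hs : {z : ℝ × ℝ | z.1 < z.2 ∧ z.2 < gG z.1} ⊆ {z | z.1 < z.2 ∧ z.2 < z.1 + 2 * π} :=
      fun z hz => ⟨hz.1, hz.2.trans (HG.hi z.1)⟩
    have hT' : Measurable ({z : ℝ × ℝ | z.1 < z.2 ∧ z.2 < gG z.1}.piecewise
        (fun z => (z.2, T2 z.1 z.2)) (fun _ => ((0 : ℝ), (0 : ℝ)))) :=
      ContinuousOn.measurable_piecewise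
        (continuous_snd.continuousOn.prodMk (hTc.mono hs)) continuousOn_const hO
    have h2 : Function.uncurry (HOPF_pull gG T2 Φ) =
        {z : ℝ × ℝ | z.1 < z.2 ∧ z.2 < gG z.1}.indicator (Function.uncurry Φ ∘
          ({z : ℝ × ℝ | z.1 < z.2 ∧ z.2 < gG z.1}.piecewise
        (fun z => (z.2, T2 z.1 z.2)) (fun _ => ((0 : ℝ), (0 : ℝ))))) := by
      ext ⟨x, y⟩
      by_cases hz : x < y ∧ y < gG x
      · rw [indicator_of_mem (show (x, y) ∈ {z : ℝ × ℝ | z.1 < z.2 ∧ z.2 < gG z.1} from hz)]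
        simp only [Function.comp]
        rw [piecewise_eq_of_mem _ _ _
          (show (x, y) ∈ {z : ℝ × ℝ | z.1 < z.2 ∧ z.2 < gG z.1} from hz)]
        simp [Function.uncurry, HOPF_pull, hz]
      · rw [indicator_of_notMem (show (x, y) ∉ {z : ℝ × ℝ | z.1 < z.2 ∧ z.2 < gG z.1} from hz)]
        simp [Function.uncurry, HOPF_pull, hz]
    rw [h2]
    exact (hΦ.meas.comp hT').indicator hO
  bdd := by
    obtain ⟨C, hC⟩ := hΦ.bdd
    refine ⟨C, fun x y => ?_⟩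
    unfold HOPF_pull
    split_ifs
    · exact hC _ _
    · rw [abs_zero]
      exact (abs_nonneg _).trans (hC 0 0)
  per := fun x y => by
    unfold HOPF_pull
    rw [HG.per]
    by_cases hz : x < y ∧ y < gG x
    · have hz' : x + 2 * π < y + 2 * π ∧ y + 2 * π < gG x + 2 * π :=
        ⟨by linarith [hz.1], by linarith [hz.2]⟩
      rw [if_pos hz, if_pos hz']
      have h1 := hT.1 x y hz.1 (hz.2.trans (HG.hi x))
      have h2 := hT.2 (x + 2 * π) (y + 2 * π) (T2 x y + 2 * π) hz'.1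
        (by linarith [hz.2, HG.hi x]) (by linarith [h1.1]) (by linarith [h1.2.1])
        (by rw [(HOPF_Am H).per, (HOPF_Bm H).per]; exact h1.2.2)
      rw [← h2, hΦ.per]
    · have hz' : ¬ (x + 2 * π < y + 2 * π ∧ y + 2 * π < gG x + 2 * π) := fun h =>
        hz ⟨by linarith [h.1], by linarith [h.2]⟩
      rw [if_neg hz, if_neg hz']

lemma HOPF_pull_J {h k ρ gG : ℝ → ℝ} {T2 : ℝ → ℝ → ℝ} (HG : Circ h k gG)
    (hTi : ∀ Φ : ℝ → ℝ → ℝ, Measurable (Function.uncurry Φ) → (∃ C, ∀ x y, |Φ x y| ≤ C) →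
    (∀ x y, Φ (x + 2 * π) (y + 2 * π) = Φ x y) →
    (∫ x in (0 : ℝ)..(2 * π), ∫ y in x..(gG x), Φ y (T2 x y) * S12 ρ x y)
      = ∫ x in (0 : ℝ)..(2 * π), ∫ y in x..(gG x), Φ x y * S12 ρ x y)
    {Φ : ℝ → ℝ → ℝ} (hΦ : HOPF_Nice Φ) :
    HOPF_J ρ gG (HOPF_pull gG T2 Φ) = HOPF_J ρ gG Φ := by
  rw [HOPF_J, HOPF_J, ← hTi Φ hΦ.meas hΦ.bdd hΦ.per]
  congr 1
  ext x
  rw [intervalIntegral.integral_of_le (HG.lo x).le, intervalIntegral.integral_of_le (HG.lo x).le,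
    integral_Ioc_eq_integral_Ioo, integral_Ioc_eq_integral_Ioo]
  refine setIntegral_congr_fun measurableSet_Ioo fun y hy => ?_
  show HOPF_pull gG T2 Φ x y * S12 ρ x y = _
  rw [HOPF_pull, if_pos ⟨hy.1, hy.2⟩]

lemma HOPF_pull_orb {h k gG g : ℝ → ℝ} {T2 : ℝ → ℝ → ℝ} (HG : Circ h k gG) (Hg : Circ h k g)
    (hT : IsT h k T2) (hTr : ∀ x y, x < y → y < gG x → T2 x y < gG y) (Φ : ℝ → ℝ → ℝ) (n : ℕ) :
    ∀ x y, x < y → y < gG x → g x = y →
      (HOPF_pull gG T2)^[n] Φ x y = Φ (g^[n] x) (g^[n + 1] x) := by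
  induction n with
  | zero =>
    intro x y _ _ e
    simp [e]
  | succ n ih =>
    intro x y hx hy e
    have e1 : T2 x y = g y := by
      refine (hT.2 x y (g y) hx (hy.trans (HG.hi x)) (Hg.lo y) (Hg.hi y) ?_).symm
      have := Hg.st x
      rw [e] at this
      exact this.symm
    rw [Function.iterate_succ_apply']
    show (if x < y ∧ y < gG x then (HOPF_pull gG T2)^[n] Φ y (T2 x y) else 0) = _
    rw [if_pos ⟨hx, hy⟩, ih y (T2 x y) (by rw [e1]; exact Hg.lo y) (hTr x y hx hy) e1.symm, ← e]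
    rfl

/-! ### the weights -/

/-- the weight -/
def HOPF_chi (M : ℕ) (n : ℕ) : ℝ := min (n : ℝ) (2 * M - n)

lemma HOPF_chi_lip (M n : ℕ) : (HOPF_chi M (n + 1) - HOPF_chi M n) ^ 2 ≤ 1 := by
  have h1 : |HOPF_chi M (n + 1) - HOPF_chi M n| ≤ 1 := by
    unfold HOPF_chi
    refine (abs_min_sub_min_le_max _ _ _ _).trans ?_
    push_cast
    rw [max_le_iff]
    constructor
    · rw [show (n : ℝ) + 1 - n = 1 by ring, abs_one]
    · rw [show 2 * (M : ℝ) - (n + 1) - (2 * M - n) = -1 by ring, abs_neg, abs_one]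
  rw [← sq_abs]
  exact pow_le_one₀ (abs_nonneg _) h1

lemma HOPF_chi_sum (M : ℕ) (hM : 0 < M) :
    (∑ n ∈ Finset.range (2 * M), HOPF_chi M (n + 1) ^ 2 =
      ∑ n ∈ Finset.range (2 * M), HOPF_chi M n ^ 2) ∧
    ((M : ℝ) ^ 2 ≤ ∑ n ∈ Finset.range (2 * M), HOPF_chi M n ^ 2) ∧
    (0 ≤ ∑ n ∈ Finset.range (2 * M), HOPF_chi M n ^ 2 -
      ∑ n ∈ Finset.range (2 * M), HOPF_chi M n * HOPF_chi M (n + 1)) ∧
    (∑ n ∈ Finset.range (2 * M), HOPF_chi M n ^ 2 -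
      ∑ n ∈ Finset.range (2 * M), HOPF_chi M n * HOPF_chi M (n + 1) ≤ M) := by
  have h0 : HOPF_chi M 0 = 0 := by simp [HOPF_chi]
  have h1 : HOPF_chi M (2 * M) = 0 := by simp [HOPF_chi]
  have e1 : ∑ n ∈ Finset.range (2 * M), HOPF_chi M (n + 1) ^ 2 =
      ∑ n ∈ Finset.range (2 * M), HOPF_chi M n ^ 2 := by
    have a := Finset.sum_range_succ (fun n => HOPF_chi M n ^ 2) (2 * M)
    have b := Finset.sum_range_succ' (fun n => HOPF_chi M n ^ 2) (2 * M)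
    rw [h1] at a
    rw [h0] at b
    simp only [ne_eq, OfNat.ofNat_ne_zero, not_false_eq_true, zero_pow, add_zero] at a b
    rw [← a, b]
  have e2 : ∑ n ∈ Finset.range (2 * M), (HOPF_chi M (n + 1) - HOPF_chi M n) ^ 2 =
      2 * (∑ n ∈ Finset.range (2 * M), HOPF_chi M n ^ 2 -
      ∑ n ∈ Finset.range (2 * M), HOPF_chi M n * HOPF_chi M (n + 1)) := by
    have : ∑ n ∈ Finset.range (2 * M), (HOPF_chi M (n + 1) - HOPF_chi M n) ^ 2 =
        ∑ n ∈ Finset.range (2 * M), HOPF_chi M (n + 1) ^ 2 +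
        ∑ n ∈ Finset.range (2 * M), HOPF_chi M n ^ 2 -
        2 * ∑ n ∈ Finset.range (2 * M), HOPF_chi M n * HOPF_chi M (n + 1) := by
      rw [Finset.mul_sum, ← Finset.sum_add_distrib, ← Finset.sum_sub_distrib]
      exact Finset.sum_congr rfl fun n _ => by ring
    rw [this, e1]
    ring
  have e3 : ∑ n ∈ Finset.range (2 * M), (HOPF_chi M (n + 1) - HOPF_chi M n) ^ 2 ≤ 2 * M := by
    refine (Finset.sum_le_sum fun n _ => HOPF_chi_lip M n).trans ?_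
    simp
  have e4 : 0 ≤ ∑ n ∈ Finset.range (2 * M), (HOPF_chi M (n + 1) - HOPF_chi M n) ^ 2 :=
    Finset.sum_nonneg fun n _ => sq_nonneg _
  refine ⟨e1, ?_, by linarith, by linarith⟩
  have e5 : HOPF_chi M M = M := by
    unfold HOPF_chi
    rw [min_eq_left]
    linarith
  calc (M : ℝ) ^ 2 = HOPF_chi M M ^ 2 := by rw [e5]
    _ ≤ _ := Finset.single_le_sum (f := fun n => HOPF_chi M n ^ 2) (fun n _ => sq_nonneg _)
      (Finset.mem_range.2 (by omega))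

theorem t_HOPF (hSV : S_SV) (hTM : S_TM) (hINV : S_INV) : S_HOPF := by
  intro h k ρ gG H HG HC
  obtain ⟨T2, hT⟩ := hTM h k ρ H
  obtain ⟨hTc, hTr, hTi⟩ := hINV h k ρ gG T2 H HG hT
  have hlo := HG.lo
  have hhi := HG.hi
  -- iterates of the pull-back
  have hn : ∀ {Φ : ℝ → ℝ → ℝ}, HOPF_Nice Φ → ∀ n, HOPF_Nice ((HOPF_pull gG T2)^[n] Φ) := by
    intro Φ hΦ n
    induction n with
    | zero => exact hΦ
    | succ n ih =>
      rw [Function.iterate_succ_apply']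
      exact HOPF_pull_nice H HG hT hTc ih
  have hJ : ∀ {Φ : ℝ → ℝ → ℝ}, HOPF_Nice Φ → ∀ n,
      HOPF_J ρ gG ((HOPF_pull gG T2)^[n] Φ) = HOPF_J ρ gG Φ := by
    intro Φ hΦ n
    induction n with
    | zero => rfl
    | succ n ih =>
      rw [Function.iterate_succ_apply', HOPF_pull_J HG hTi (hn hΦ n), ih]
  have hS := HOPF_S12 H
  have hJR : ∀ {Φ : ℝ → ℝ → ℝ}, HOPF_Nice Φ →
      HOPF_J ρ gG Φ = ∫ z in HOPF_R gG, Φ z.1 z.2 * S12 ρ z.1 z.2 := fun hΦ =>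
    HOPF_fub gG HG.cont hlo hhi (hΦ.mul hS)
  have hI : ∀ {Φ : ℝ → ℝ → ℝ}, HOPF_Nice Φ →
      IntegrableOn (fun z : ℝ × ℝ => Φ z.1 z.2 * S12 ρ z.1 z.2) (HOPF_R gG) := fun hΦ =>
    HOPF_int hhi (hΦ.mul hS)
  have nA := HOPF_nFa H
  have nB := HOPF_nFb H
  have nC := HOPF_nFc H
  -- the value of the Hopf integral
  have hHI : HI h k ρ gG = HOPF_J ρ gG (HOPF_Fa h k ρ) + HOPF_J ρ gG (HOPF_Fb h k ρ) +
      HOPF_J ρ gG (HOPF_Fc h k ρ) := by
    have e : HI h k ρ gG = HOPF_J ρ gG (fun x y => HOPF_Fa h k ρ x y + HOPF_Fb h k ρ x y +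
      HOPF_Fc h k ρ x y) := rfl
    rw [e, hJR ((nA.add nB).add nC), hJR nA, hJR nB, hJR nC,
      ← HOPF_add3 (hI nA) (hI nB) (hI nC)]
    refine integral_congr_ae (ae_of_all _ fun z => ?_)
    show _ * _ = (_ * _ + _ * _) + _ * _
    ring
  -- the inequality for the weights
  have key : ∀ M : ℕ, HOPF_J ρ gG (HOPF_Fa h k ρ) * ∑ n ∈ Finset.range (2 * M), HOPF_chi M n ^ 2 +
      HOPF_J ρ gG (HOPF_Fb h k ρ) *
        ∑ n ∈ Finset.range (2 * M), HOPF_chi M n * HOPF_chi M (n + 1) +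
      HOPF_J ρ gG (HOPF_Fc h k ρ) *
        ∑ n ∈ Finset.range (2 * M), HOPF_chi M (n + 1) ^ 2 ≤ 0 := by
    intro M
    -- pointwise inequality
    have hpt : ∀ᵐ z : ℝ × ℝ ∂(volume.restrict (HOPF_R gG)),
        ∑ n ∈ Finset.range (2 * M),
          (HOPF_chi M n ^ 2 * ((HOPF_pull gG T2)^[n] (HOPF_Fa h k ρ) z.1 z.2 * S12 ρ z.1 z.2) +
          HOPF_chi M n * HOPF_chi M (n + 1) *
            ((HOPF_pull gG T2)^[n] (HOPF_Fb h k ρ) z.1 z.2 * S12 ρ z.1 z.2) +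
          HOPF_chi M (n + 1) ^ 2 *
            ((HOPF_pull gG T2)^[n] (HOPF_Fc h k ρ) z.1 z.2 * S12 ρ z.1 z.2)) ≤ 0 := by
      have hC' : ∀ᵐ z : ℝ × ℝ ∂(volume.restrict (HOPF_R gG)), z.1 < z.2 → z.2 < gG z.1 →
          ∃ g, Circ h k g ∧ g z.1 = z.2 := ae_restrict_of_ae HC
      filter_upwards [hC', ae_restrict_mem (HOPF_measR gG HG.cont)] with z hz hzR
      obtain ⟨x, y⟩ := z
      have hx : x < y := hzR.2.1
      have hy : y < gG x := hzR.2.2
      obtain ⟨g, Hg, e⟩ := hz hx hy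
      simp only at e
      have hs : 0 < S12 ρ x y := by
        unfold S12
        refine mul_pos (half_pos (H.pos _)) (Real.sin_pos_of_pos_of_lt_pi (by linarith) ?_)
        have := hhi x
        linarith
      have hsv := hSV h k ρ g H Hg x (2 * M) (fun n => HOPF_chi M n * Am h k (g^[n] x) (g^[n + 1] x))
        (by simp [HOPF_chi]) (by simp [HOPF_chi])
      have e2 : ∑ n ∈ Finset.range (2 * M),
          (HOPF_chi M n ^ 2 * ((HOPF_pull gG T2)^[n] (HOPF_Fa h k ρ) x y * S12 ρ x y) +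
          HOPF_chi M n * HOPF_chi M (n + 1) *
            ((HOPF_pull gG T2)^[n] (HOPF_Fb h k ρ) x y * S12 ρ x y) +
          HOPF_chi M (n + 1) ^ 2 *
            ((HOPF_pull gG T2)^[n] (HOPF_Fc h k ρ) x y * S12 ρ x y)) =
          (∑ n ∈ Finset.range (2 * M), (S11 h k ρ (g^[n] x) (g^[n + 1] x) *
            (HOPF_chi M n * Am h k (g^[n] x) (g^[n + 1] x)) ^ 2
          + 2 * S12 ρ (g^[n] x) (g^[n + 1] x) * (HOPF_chi M n * Am h k (g^[n] x) (g^[n + 1] x)) *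
            (HOPF_chi M (n + 1) * Am h k (g^[n + 1] x) (g^[n + 1 + 1] x))
          + S22 h k ρ (g^[n] x) (g^[n + 1] x) *
            (HOPF_chi M (n + 1) * Am h k (g^[n + 1] x) (g^[n + 1 + 1] x)) ^ 2)) * S12 ρ x y := by
        rw [Finset.sum_mul]
        refine Finset.sum_congr rfl fun n _ => ?_
        rw [HOPF_pull_orb HG Hg hT hTr _ n x y hx hy e, HOPF_pull_orb HG Hg hT hTr _ n x y hx hy e,
          HOPF_pull_orb HG Hg hT hTr _ n x y hx hy e]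
        have e3 : Am h k (g^[n + 1] x) (g^[n + 1 + 1] x) = Bm h k (g^[n] x) (g^[n + 1] x) := by
          have := Hg.st (g^[n] x)
          rw [Function.iterate_succ_apply' g (n + 1), Function.iterate_succ_apply' g n]
          exact this.symm
        rw [e3]
        unfold HOPF_Fa HOPF_Fb HOPF_Fc
        ring
      rw [e2]
      exact mul_nonpos_of_nonpos_of_nonneg hsv hs.le
    have h1 := integral_nonpos_of_ae hpt
    have e1 : (∫ z in HOPF_R gG, ∑ n ∈ Finset.range (2 * M),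
          (HOPF_chi M n ^ 2 * ((HOPF_pull gG T2)^[n] (HOPF_Fa h k ρ) z.1 z.2 * S12 ρ z.1 z.2) +
          HOPF_chi M n * HOPF_chi M (n + 1) *
            ((HOPF_pull gG T2)^[n] (HOPF_Fb h k ρ) z.1 z.2 * S12 ρ z.1 z.2) +
          HOPF_chi M (n + 1) ^ 2 *
            ((HOPF_pull gG T2)^[n] (HOPF_Fc h k ρ) z.1 z.2 * S12 ρ z.1 z.2))) =
        ∑ n ∈ Finset.range (2 * M), (HOPF_chi M n ^ 2 * HOPF_J ρ gG (HOPF_Fa h k ρ) +
          HOPF_chi M n * HOPF_chi M (n + 1) * HOPF_J ρ gG (HOPF_Fb h k ρ) +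
          HOPF_chi M (n + 1) ^ 2 * HOPF_J ρ gG (HOPF_Fc h k ρ)) := by
      have i1 : ∀ n, Integrable (fun z : ℝ × ℝ => HOPF_chi M n ^ 2 *
          ((HOPF_pull gG T2)^[n] (HOPF_Fa h k ρ) z.1 z.2 * S12 ρ z.1 z.2))
          (volume.restrict (HOPF_R gG)) := fun n => (hI (hn nA n)).const_mul _
      have i2 : ∀ n, Integrable (fun z : ℝ × ℝ => HOPF_chi M n * HOPF_chi M (n + 1) *
          ((HOPF_pull gG T2)^[n] (HOPF_Fb h k ρ) z.1 z.2 * S12 ρ z.1 z.2))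
          (volume.restrict (HOPF_R gG)) := fun n => (hI (hn nB n)).const_mul _
      have i3 : ∀ n, Integrable (fun z : ℝ × ℝ => HOPF_chi M (n + 1) ^ 2 *
          ((HOPF_pull gG T2)^[n] (HOPF_Fc h k ρ) z.1 z.2 * S12 ρ z.1 z.2))
          (volume.restrict (HOPF_R gG)) := fun n => (hI (hn nC n)).const_mul _
      rw [integral_finsetSum _ fun n _ => HOPF_int3 (i1 n) (i2 n) (i3 n)]
      refine Finset.sum_congr rfl fun n _ => ?_
      rw [HOPF_add3 (i1 n) (i2 n) (i3 n),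
        integral_const_mul, integral_const_mul, integral_const_mul, ← hJR (hn nA n),
        ← hJR (hn nB n), ← hJR (hn nC n), hJ nA, hJ nB, hJ nC]
    rw [e1] at h1
    refine le_of_eq_of_le ?_ h1
    rw [Finset.mul_sum, Finset.mul_sum, Finset.mul_sum, ← Finset.sum_add_distrib,
      ← Finset.sum_add_distrib]
    exact Finset.sum_congr rfl fun n _ => by ring
  -- conclusion
  by_contra hneg
  rw [not_le] at hneg
  obtain ⟨M, hM⟩ := exists_nat_gt (|HOPF_J ρ gG (HOPF_Fb h k ρ)| / HI h k ρ gG)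
  have hM0 : 0 < M := by
    have : (0 : ℝ) < M := lt_of_le_of_lt (div_nonneg (abs_nonneg _) hneg.le) hM
    exact_mod_cast this
  have hMr : (0 : ℝ) < M := by exact_mod_cast hM0
  obtain ⟨s1, s2, s3, s4⟩ := HOPF_chi_sum M hM0
  have hk := key M
  rw [s1] at hk
  set σ := ∑ n ∈ Finset.range (2 * M), HOPF_chi M n ^ 2
  set τ := ∑ n ∈ Finset.range (2 * M), HOPF_chi M n * HOPF_chi M (n + 1)
  set a := HOPF_J ρ gG (HOPF_Fa h k ρ)
  set b := HOPF_J ρ gG (HOPF_Fb h k ρ)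
  set d := HOPF_J ρ gG (HOPF_Fc h k ρ)
  have h1 : HI h k ρ gG * σ ≤ b * (σ - τ) := by
    rw [hHI]
    nlinarith
  have h2 : b * (σ - τ) ≤ |b| * M :=
    (mul_le_mul_of_nonneg_right (le_abs_self b) s3).trans
      (mul_le_mul_of_nonneg_left s4 (abs_nonneg b))
  have h3 : HI h k ρ gG * (M : ℝ) ^ 2 ≤ HI h k ρ gG * σ := mul_le_mul_of_nonneg_left s2 hneg.le
  have h4 : |b| < M * HI h k ρ gG := (div_lt_iff₀ hneg).1 hM
  have h5 : |b| * M < M * HI h k ρ gG * M := mul_lt_mul_of_pos_right h4 hMr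
  nlinarith

end

end Pool.Agent.H283R2.BK
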