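import Pool.Agent.H283R2.BK.Defs

open Real Complex Set MeasureTheory

namespace Pool.Agent.H283R2.BK

noncomputable section

lemma INV_S12pos {h k ρ : ℝ → ℝ} (hS : Sup h k ρ) {x y : ℝ} (h1 : x < y) (h2 : y < x + 2 * π) :
    0 < S12 ρ x y := by
  unfold S12
  have := hS.pos ((x + y) / 2)
  have hs : 0 < Real.sin ((y - x) / 2) := Real.sin_pos_of_pos_of_lt_pi (by linarith) (by linarith)
  positivity

lemma INV_A_anti (hDER : S_DER) {h k ρ : ℝ → ℝ} (hS : Sup h k ρ) (y : ℝ) :
    StrictAntiOn (fun z => Am h k y z) (Icc y (y + 2 * π)) := by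
  refine strictAntiOn_of_deriv_neg (convex_Icc _ _) ?_ ?_
  · exact fun z _ => ((hDER h k ρ hS y z).2.2.2.1).continuousAt.continuousWithinAt
  · intro z hz
    rw [interior_Icc] at hz
    rw [((hDER h k ρ hS y z).2.2.2.1).deriv]
    have := INV_S12pos hS hz.1 hz.2
    linarith

lemma INV_B_mono (hDER : S_DER) {h k ρ : ℝ → ℝ} (hS : Sup h k ρ) (y : ℝ) :
    StrictMonoOn (fun x => Bm h k x y) (Icc (y - 2 * π) y) := by
  refine strictMonoOn_of_deriv_pos (convex_Icc _ _) ?_ ?_
  · exact fun x _ => ((hDER h k ρ hS x y).2.2.2.2.1).continuousAt.continuousWithinAt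
  · intro x hx
    rw [interior_Icc] at hx
    rw [((hDER h k ρ hS x y).2.2.2.2.1).deriv]
    exact INV_S12pos hS hx.2 (by linarith [hx.1])

lemma INV_cA {h k ρ : ℝ → ℝ} (hS : Sup h k ρ) : Continuous (fun z : ℝ × ℝ => Am h k z.1 z.2) := by
  have h1 : Continuous h := continuous_iff_continuousAt.2 fun x => (hS.dh x).continuousAt
  have h2 : Continuous k := continuous_iff_continuousAt.2 fun x => (hS.dk x).continuousAt
  unfold Am
  fun_prop

lemma INV_cB {h k ρ : ℝ → ℝ} (hS : Sup h k ρ) : Continuous (fun z : ℝ × ℝ => Bm h k z.1 z.2) := by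
  have h1 : Continuous h := continuous_iff_continuousAt.2 fun x => (hS.dh x).continuousAt
  have h2 : Continuous k := continuous_iff_continuousAt.2 fun x => (hS.dk x).continuousAt
  unfold Bm
  fun_prop

/-- inverse of the circle map -/
lemma INV_inv {h k g : ℝ → ℝ} (hC : Circ h k g) (y : ℝ) :
    ∃ w, g w = y ∧ y - 2 * π < w ∧ w < y := by
  have hpi := Real.pi_pos
  have hmem : y ∈ Icc (g (y - 2 * π)) (g y) := by
    constructor
    · have := hC.hi (y - 2 * π)
      linarith
    · exact (hC.lo y).le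
  obtain ⟨w, _, hw⟩ := intermediate_value_Icc (by linarith : y - 2 * π ≤ y)
    hC.cont.continuousOn hmem
  refine ⟨w, hw, ?_, ?_⟩
  · have := hC.hi w
    linarith
  · have := hC.lo w
    linarith

/-- part 2 -/
lemma INV_2 (hDER : S_DER) {h k ρ gG : ℝ → ℝ} {T2 : ℝ → ℝ → ℝ} (hS : Sup h k ρ)
    (hC : Circ h k gG) (hT : IsT h k T2) (x y : ℝ) (h1 : x < y) (h2 : y < gG x) :
    T2 x y < gG y := by
  have hpi := Real.pi_pos
  obtain ⟨w, hw, hw1, hw2⟩ := INV_inv hC y
  have hwx : w < x := by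
    have : gG w < gG x := by rw [hw]; exact h2
    exact hC.mono.lt_iff_lt.1 this
  have h3 : y < x + 2 * π := h2.trans (hC.hi x)
  obtain ⟨t1, t2, t3⟩ := hT.1 x y h1 h3
  have hB := INV_B_mono hDER hS y ⟨hw1.le, hw2.le⟩ ⟨by linarith, h1.le⟩ hwx
  have hst := hC.st w
  rw [hw] at hst
  simp only at hB
  by_contra hcon
  push Not at hcon
  rcases hcon.lt_or_eq with hlt | heq
  · have hA := INV_A_anti hDER hS y ⟨(hC.lo y).le, (hC.hi y).le⟩ ⟨t1.le, t2.le⟩ hlt
    simp only at hA
    linarith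
  · rw [← heq] at t3
    linarith

/-- part 1 -/
lemma INV_1 (hDER : S_DER) {h k ρ : ℝ → ℝ} {T2 : ℝ → ℝ → ℝ} (hS : Sup h k ρ)
    (hT : IsT h k T2) :
    ContinuousOn (Function.uncurry T2) {z | z.1 < z.2 ∧ z.2 < z.1 + 2 * π} := by
  have hpi := Real.pi_pos
  rintro ⟨x0, y0⟩ ⟨h1, h2⟩
  simp only at h1 h2
  apply ContinuousAt.continuousWithinAt
  obtain ⟨t1, t2, t3⟩ := hT.1 x0 y0 h1 h2
  rw [ContinuousAt, tendsto_order]
  have hcA := INV_cA hS
  have hcB := INV_cB hS
  have hU : ∀ᶠ z : ℝ × ℝ in nhds (x0, y0), z.1 < z.2 ∧ z.2 < z.1 + 2 * π := by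
    refine Filter.Eventually.and ?_ ?_
    · exact (continuous_fst.continuousAt.eventually_lt continuous_snd.continuousAt h1)
    · exact (continuous_snd.continuousAt.eventually_lt
        (continuous_fst.add continuous_const).continuousAt h2)
  constructor
  · intro a ha
    simp only [Function.uncurry] at ha
    -- choose z1 with max a y0 < z1 < T2 x0 y0
    obtain ⟨z1, hz1, hz2⟩ := exists_between (max_lt ha t1)
    have hz3 : a < z1 := (le_max_left _ _).trans_lt hz1
    have hz4 : y0 < z1 := (le_max_right _ _).trans_lt hz1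
    have hA := INV_A_anti hDER hS y0 ⟨hz4.le, by linarith⟩ ⟨t1.le, t2.le⟩ hz2
    simp only at hA
    rw [t3] at hA
    have e1 : ∀ᶠ z : ℝ × ℝ in nhds (x0, y0), Bm h k z.1 z.2 < Am h k z.2 z1 := by
      refine ContinuousAt.eventually_lt (f := fun z : ℝ × ℝ => Bm h k z.1 z.2)
        (g := fun z : ℝ × ℝ => Am h k z.2 z1) hcB.continuousAt ?_ hA
      exact (hcA.comp (continuous_snd.prodMk continuous_const)).continuousAt
    have e2 : ∀ᶠ z : ℝ × ℝ in nhds (x0, y0), z.2 < z1 :=
      continuous_snd.continuousAt.eventually_lt continuousAt_const hz4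
    have e3 : ∀ᶠ z : ℝ × ℝ in nhds (x0, y0), z1 < z.2 + 2 * π :=
      continuousAt_const.eventually_lt (continuous_snd.add continuous_const).continuousAt
        (by simp only; linarith)
    filter_upwards [hU, e1, e2, e3] with z g1 g2 g3 g4
    obtain ⟨s1, s2, s3⟩ := hT.1 z.1 z.2 g1.1 g1.2
    have : z1 < T2 z.1 z.2 := by
      by_contra hcon
      push Not at hcon
      have hA2 := (INV_A_anti hDER hS z.2).antitoneOn ⟨s1.le, s2.le⟩ ⟨g3.le, g4.le⟩ hcon
      rw [s3] at hA2
      linarith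
    exact hz3.trans this
  · intro a ha
    simp only [Function.uncurry] at ha
    obtain ⟨z1, hz1, hz2⟩ := exists_between (lt_min ha t2)
    have hz3 : z1 < a := hz2.trans_le (min_le_left _ _)
    have hz4 : z1 < y0 + 2 * π := hz2.trans_le (min_le_right _ _)
    have hA := INV_A_anti hDER hS y0 ⟨t1.le, t2.le⟩ ⟨by linarith, hz4.le⟩ hz1
    simp only at hA
    rw [t3] at hA
    have e1 : ∀ᶠ z : ℝ × ℝ in nhds (x0, y0), Am h k z.2 z1 < Bm h k z.1 z.2 := by
      refine ContinuousAt.eventually_lt (g := fun z : ℝ × ℝ => Bm h k z.1 z.2)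
        (f := fun z : ℝ × ℝ => Am h k z.2 z1) ?_ hcB.continuousAt hA
      exact (hcA.comp (continuous_snd.prodMk continuous_const)).continuousAt
    have e2 : ∀ᶠ z : ℝ × ℝ in nhds (x0, y0), z.2 < z1 :=
      continuous_snd.continuousAt.eventually_lt continuousAt_const (by simp only; linarith)
    have e3 : ∀ᶠ z : ℝ × ℝ in nhds (x0, y0), z1 < z.2 + 2 * π :=
      continuousAt_const.eventually_lt (continuous_snd.add continuous_const).continuousAt
        (by simp only; linarith)
    filter_upwards [hU, e1, e2, e3] with z g1 g2 g3 g4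
    obtain ⟨s1, s2, s3⟩ := hT.1 z.1 z.2 g1.1 g1.2
    have : T2 z.1 z.2 < z1 := by
      by_contra hcon
      push Not at hcon
      have hA2 := (INV_A_anti hDER hS z.2).antitoneOn ⟨g3.le, g4.le⟩ ⟨s1.le, s2.le⟩ hcon
      rw [s3] at hA2
      linarith
    exact this.trans hz3

lemma INV_Bdiag (h k : ℝ → ℝ) (y : ℝ) : Bm h k y y = Am h k y y := by
  simp [Bm, Am]

/-- one dimensional change of variables -/
lemma INV_cv (hDER : S_DER) {h k ρ gG : ℝ → ℝ} {T2 : ℝ → ℝ → ℝ} (hS : Sup h k ρ)
    (hC : Circ h k gG) (hT : IsT h k T2) (y w : ℝ) (hw : gG w = y) (Φ1 : ℝ → ℝ) :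
    ∫ x in Ioo w y, Φ1 (T2 x y) * S12 ρ x y = ∫ z in Ioo y (gG y), Φ1 z * S12 ρ y z := by
  have hpi := Real.pi_pos
  have hw2 : w < y := by have := hC.lo w; linarith
  have hw1 : y - 2 * π < w := by have := hC.hi w; linarith
  have hst := hC.st w
  rw [hw] at hst
  set s : Set ℝ := Ioo y (gG y) with hs
  set t : Set ℝ := Ioo w y with ht
  set a : ℝ → ℝ := fun z => Am h k y z with ha
  set b : ℝ → ℝ := fun x => Bm h k x y with hb
  have hsub_s : s ⊆ Icc y (y + 2 * π) := fun z hz => ⟨hz.1.le, (hz.2.trans (hC.hi y)).le⟩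
  have hsub_t : t ⊆ Icc (y - 2 * π) y := fun x hx => ⟨(hw1.trans hx.1).le, hx.2.le⟩
  have hanti := INV_A_anti hDER hS y
  have hmono := INV_B_mono hDER hS y
  have hainj : InjOn a s := hanti.injOn.mono hsub_s
  have hbinj : InjOn b t := hmono.injOn.mono hsub_t
  have hTs : ∀ x ∈ t, T2 x y ∈ s ∧ a (T2 x y) = b x := by
    intro x hx
    have h3 : y < x + 2 * π := by linarith [hx.1]
    obtain ⟨t1, t2, t3⟩ := hT.1 x y hx.2 h3
    have : y < gG x := by
      have := hC.mono hx.1
      rw [hw] at this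
      exact this
    exact ⟨⟨t1, INV_2 hDER hS hC hT x y hx.2 this⟩, t3⟩
  have himg : a '' s = b '' t := by
    apply Subset.antisymm
    · rintro _ ⟨z, hz, rfl⟩
      have hA1 : a (gG y) < a z := hanti (hsub_s hz) ⟨(hC.lo y).le, (hC.hi y).le⟩ hz.2
      have hA2 : a z < a y := hanti ⟨le_rfl, by linarith⟩ (hsub_s hz) hz.1
      have hbw : b w = a (gG y) := hst
      have hby : b y = a y := INV_Bdiag h k y
      have hbc : ContinuousOn b (Icc w y) := fun x _ =>
        ((hDER h k ρ hS x y).2.2.2.2.1).continuousAt.continuousWithinAt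
      obtain ⟨x, hx, hxe⟩ := intermediate_value_Ioo hw2.le hbc
        (⟨by rw [hbw]; exact hA1, by rw [hby]; exact hA2⟩ : a z ∈ Ioo (b w) (b y))
      exact ⟨x, hx, hxe⟩
    · rintro _ ⟨x, hx, rfl⟩
      exact ⟨T2 x y, (hTs x hx).1, (hTs x hx).2⟩
  have hI1 := integral_image_eq_integral_abs_deriv_smul (s := s) (f := a)
    (f' := fun z => -(S12 ρ y z)) measurableSet_Ioo
    (fun z _ => ((hDER h k ρ hS y z).2.2.2.1).hasDerivWithinAt) hainj
    (fun u => Φ1 (Function.invFunOn a s u))
  have hI2 := integral_image_eq_integral_abs_deriv_smul (s := t) (f := b)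
    (f' := fun x => S12 ρ x y) measurableSet_Ioo
    (fun x _ => ((hDER h k ρ hS x y).2.2.2.2.1).hasDerivWithinAt) hbinj
    (fun u => Φ1 (Function.invFunOn a s u))
  have hinv : ∀ z ∈ s, Function.invFunOn a s (a z) = z := hainj.leftInvOn_invFunOn
  have e1 : ∫ z in s, |-(S12 ρ y z)| • Φ1 (Function.invFunOn a s (a z))
      = ∫ z in s, Φ1 z * S12 ρ y z := by
    refine setIntegral_congr_fun measurableSet_Ioo ?_
    intro z hz
    have hp := INV_S12pos hS hz.1 (hz.2.trans (hC.hi y))
    simp only [smul_eq_mul]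
    rw [hinv z hz, abs_neg, abs_of_pos hp, mul_comm]
  have e2 : ∫ x in t, |S12 ρ x y| • Φ1 (Function.invFunOn a s (b x))
      = ∫ x in t, Φ1 (T2 x y) * S12 ρ x y := by
    refine setIntegral_congr_fun measurableSet_Ioo ?_
    intro x hx
    have hp := INV_S12pos hS hx.2 (by linarith [hx.1] : y < x + 2 * π)
    simp only [smul_eq_mul]
    rw [← (hTs x hx).2, hinv _ (hTs x hx).1, abs_of_pos hp, mul_comm]
  rw [← e2, ← e1, ← hI2, ← hI1, himg]

lemma INV_int {G : ℝ × ℝ → ℝ} (hm : Measurable G) {C : ℝ} (hb : ∀ z, |G z| ≤ C) (a b c d : ℝ) :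
    IntegrableOn G (uIoc a b ×ˢ uIoc c d) := by
  refine Measure.integrableOn_of_bounded (M := C) ?_ hm.aestronglyMeasurable ?_
  · rw [Measure.volume_eq_prod, Measure.prod_prod]
    simp [uIoc, ENNReal.mul_ne_top]
  · exact Filter.Eventually.of_forall fun z => by rw [Real.norm_eq_abs]; exact hb z

/-- switching the fundamental domain -/
lemma INV_swap (F : ℝ → ℝ → ℝ) (hm : Measurable (Function.uncurry F))
    (hb : ∃ C, ∀ x y, |F x y| ≤ C) (hp : ∀ x y, F (x + 2 * π) (y + 2 * π) = F x y) :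
    ∫ x in (0 : ℝ)..(2 * π), ∫ y in x..(x + 2 * π), F x y
      = ∫ y in (0 : ℝ)..(2 * π), ∫ x in (y - 2 * π)..y, F x y := by
  obtain ⟨C, hC⟩ := hb
  have e1 : ∀ x : ℝ, ∫ y in x..(x + 2 * π), F x y = ∫ d in (0 : ℝ)..(2 * π), F x (x + d) := by
    intro x
    rw [intervalIntegral.integral_comp_add_left (fun y => F x y) x, add_zero]
  have e2 : ∀ y : ℝ, ∫ x in (y - 2 * π)..y, F x y = ∫ d in (0 : ℝ)..(2 * π), F (y - d) y := by
    intro y
    rw [intervalIntegral.integral_comp_sub_left (fun x => F x y) y, sub_zero]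
  have e3 : ∀ d : ℝ, ∫ x in (0 : ℝ)..(2 * π), F x (x + d)
      = ∫ y in (0 : ℝ)..(2 * π), F (y - d) y := by
    intro d
    have hper : Function.Periodic (fun x => F x (x + d)) (2 * π) := by
      intro x
      simp only
      rw [show x + 2 * π + d = (x + d) + 2 * π by ring]
      exact hp x (x + d)
    have h1 := hper.intervalIntegral_add_eq 0 (0 - d)
    rw [zero_add] at h1
    rw [h1]
    have h2 := intervalIntegral.integral_comp_sub_right (a := 0) (b := 2 * π)
      (fun x => F x (x + d)) d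
    rw [show 0 - d + 2 * π = 2 * π - d by ring, ← h2]
    refine intervalIntegral.integral_congr fun y _ => ?_
    rw [sub_add_cancel]
  simp_rw [e1, e2]
  rw [intervalIntegral_intervalIntegral_swap (F := fun x d => F x (x + d))]
  · simp_rw [e3]
    rw [intervalIntegral_intervalIntegral_swap (F := fun d y => F (y - d) y)]
    refine INV_int (C := C) ?_ (fun z => hC _ _) _ _ _ _
    exact hm.comp ((measurable_snd.sub measurable_fst).prodMk measurable_snd)
  · refine INV_int (C := C) ?_ (fun z => hC _ _) _ _ _ _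
    exact hm.comp (measurable_fst.prodMk (measurable_fst.add measurable_snd))

lemma INV_S12c {h k ρ : ℝ → ℝ} (hS : Sup h k ρ) : Continuous (fun z : ℝ × ℝ => S12 ρ z.1 z.2) := by
  have h1 := hS.cr
  unfold S12
  fun_prop

lemma INV_S12b {h k ρ : ℝ → ℝ} (hS : Sup h k ρ) : ∃ C, ∀ x y, |S12 ρ x y| ≤ C := by
  have hper : Function.Periodic ρ (2 * π) := hS.pr
  have hb : ∃ C, ∀ x, |ρ x| ≤ C := by
    have hpi := Real.pi_pos
    obtain ⟨C, hC⟩ := (isCompact_Icc (a := (0 : ℝ)) (b := 2 * π)).exists_bound_of_continuousOn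
      hS.cr.continuousOn
    refine ⟨C, fun x => ?_⟩
    obtain ⟨y, hy, hxy⟩ := hper.exists_mem_Ico₀ (by positivity) x
    rw [hxy, ← Real.norm_eq_abs]
    exact hC y ⟨hy.1, hy.2.le⟩
  obtain ⟨C, hC⟩ := hb
  refine ⟨C / 2, fun x y => ?_⟩
  unfold S12
  rw [abs_mul, abs_div, abs_two]
  have h1 := hC ((x + y) / 2)
  have h2 := Real.abs_sin_le_one ((y - x) / 2)
  have h3 : 0 ≤ |ρ ((x + y) / 2)| / 2 := by positivity
  nlinarith

/-- equivariance of `T2` -/
lemma INV_Tper {h k ρ : ℝ → ℝ} {T2 : ℝ → ℝ → ℝ} (hS : Sup h k ρ)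
    (hT : IsT h k T2) (x y : ℝ) (h1 : x < y) (h2 : y < x + 2 * π) :
    T2 (x + 2 * π) (y + 2 * π) = T2 x y + 2 * π := by
  obtain ⟨t1, t2, t3⟩ := hT.1 x y h1 h2
  symm
  apply hT.2 (x + 2 * π) (y + 2 * π) (T2 x y + 2 * π) (by linarith) (by linarith) (by linarith)
    (by linarith)
  unfold Am Bm at *
  rw [show (y + 2 * π + (T2 x y + 2 * π)) / 2 = (y + T2 x y) / 2 + 2 * π by ring,
    show (T2 x y + 2 * π - (y + 2 * π)) / 2 = (T2 x y - y) / 2 by ring,
    show (x + 2 * π + (y + 2 * π)) / 2 = (x + y) / 2 + 2 * π by ring,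
    show (y + 2 * π - (x + 2 * π)) / 2 = (y - x) / 2 by ring, hS.ph, hS.pk, hS.ph, hS.pk]
  exact t3

/-- part 3 -/
lemma INV_3 (hDER : S_DER) {h k ρ gG : ℝ → ℝ} {T2 : ℝ → ℝ → ℝ} (hS : Sup h k ρ)
    (hC : Circ h k gG) (hT : IsT h k T2) (Φ : ℝ → ℝ → ℝ) (hm : Measurable (Function.uncurry Φ))
    (hb : ∃ C, ∀ x y, |Φ x y| ≤ C) (hp : ∀ x y, Φ (x + 2 * π) (y + 2 * π) = Φ x y) :
    (∫ x in (0 : ℝ)..(2 * π), ∫ y in x..(gG x), Φ y (T2 x y) * S12 ρ x y)
      = ∫ x in (0 : ℝ)..(2 * π), ∫ y in x..(gG x), Φ x y * S12 ρ x y := by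
  classical
  have hpi := Real.pi_pos
  set U : Set (ℝ × ℝ) := {z | z.1 < z.2 ∧ z.2 < z.1 + 2 * π} with hU
  set Om : Set (ℝ × ℝ) := {z | z.1 < z.2 ∧ z.2 < gG z.1} with hOm
  have hUm : MeasurableSet U := by
    refine MeasurableSet.inter ?_ ?_
    · exact measurableSet_lt measurable_fst measurable_snd
    · exact measurableSet_lt measurable_snd (measurable_fst.add_const _)
  have hOmm : MeasurableSet Om := by
    refine MeasurableSet.inter ?_ ?_
    · exact measurableSet_lt measurable_fst measurable_snd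
    · exact measurableSet_lt measurable_snd (hC.cont.measurable.comp measurable_fst)
  have hsub : Om ⊆ U := fun z hz => ⟨hz.1, hz.2.trans (hC.hi z.1)⟩
  -- the measurable version of T2
  set TT : ℝ × ℝ → ℝ := U.piecewise (Function.uncurry T2) (fun _ => 0) with hTT
  have hTTm : Measurable TT :=
    (INV_1 hDER hS hT).measurable_piecewise continuousOn_const hUm
  have hTTe : ∀ z ∈ U, TT z = T2 z.1 z.2 := fun z hz => by
    rw [hTT, piecewise_eq_of_mem _ _ _ hz]; rfl
  set F : ℝ → ℝ → ℝ := fun x y =>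
    Om.indicator (fun z : ℝ × ℝ => Φ z.2 (TT z) * S12 ρ z.1 z.2) (x, y) with hF
  have hFm : Measurable (Function.uncurry F) := by
    have : Function.uncurry F = Om.indicator (fun z : ℝ × ℝ => Φ z.2 (TT z) * S12 ρ z.1 z.2) := by
      funext z
      rfl
    rw [this]
    refine Measurable.indicator ?_ hOmm
    exact (hm.comp (measurable_snd.prodMk hTTm)).mul (INV_S12c hS).measurable
  have hFb : ∃ C, ∀ x y, |F x y| ≤ C := by
    obtain ⟨C1, hC1⟩ := hb
    obtain ⟨C2, hC2⟩ := INV_S12b hS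
    have hC1p : 0 ≤ C1 := (abs_nonneg _).trans (hC1 0 0)
    have hC2p : 0 ≤ C2 := (abs_nonneg _).trans (hC2 0 0)
    refine ⟨C1 * C2, fun x y => ?_⟩
    by_cases hz : (x, y) ∈ Om
    · simp only [hF]
      rw [indicator_of_mem hz, abs_mul]
      exact mul_le_mul (hC1 _ _) (hC2 _ _) (abs_nonneg _) hC1p
    · simp only [hF]
      rw [indicator_of_notMem hz, abs_zero]
      positivity
  have hS12p : ∀ x y, S12 ρ (x + 2 * π) (y + 2 * π) = S12 ρ x y := by
    intro x y
    unfold S12
    rw [show (x + 2 * π + (y + 2 * π)) / 2 = (x + y) / 2 + 2 * π by ring,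
      show (y + 2 * π - (x + 2 * π)) / 2 = (y - x) / 2 by ring, hS.pr]
  have hFp : ∀ x y, F (x + 2 * π) (y + 2 * π) = F x y := by
    intro x y
    by_cases hz : (x, y) ∈ Om
    · have hz' : (x + 2 * π, y + 2 * π) ∈ Om := by
        refine ⟨?_, ?_⟩
        · have := hz.1
          simp only at this ⊢
          linarith
        · have := hz.2
          simp only at this ⊢
          rw [hC.per]
          linarith
      simp only [hF]
      rw [indicator_of_mem hz, indicator_of_mem hz', hTTe _ (hsub hz), hTTe _ (hsub hz')]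
      simp only
      rw [INV_Tper hS hT x y (hsub hz).1 (hsub hz).2, hp, hS12p]
    · have hz' : (x + 2 * π, y + 2 * π) ∉ Om := by
        intro hz'
        apply hz
        refine ⟨?_, ?_⟩
        · have := hz'.1
          simp only at this ⊢
          linarith
        · have := hz'.2
          simp only at this ⊢
          rw [hC.per] at this
          linarith
      simp only [hF]
      rw [indicator_of_notMem hz, indicator_of_notMem hz']
  -- inner integrals
  have i1 : ∀ x : ℝ, ∫ y in x..(gG x), Φ y (T2 x y) * S12 ρ x y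
      = ∫ y in x..(x + 2 * π), F x y := by
    intro x
    have h1 := hC.lo x
    have h2 := hC.hi x
    rw [intervalIntegral.integral_of_le h1.le, intervalIntegral.integral_of_le (by linarith),
      integral_Ioc_eq_integral_Ioo]
    have e : ∀ y, F x y = (Ioo x (gG x)).indicator (fun y => Φ y (T2 x y) * S12 ρ x y) y := by
      intro y
      by_cases hy : y ∈ Ioo x (gG x)
      · have hz : (x, y) ∈ Om := hy
        rw [indicator_of_mem hy]
        simp only [hF]
        rw [indicator_of_mem hz, hTTe _ (hsub hz)]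
      · have hz : (x, y) ∉ Om := hy
        rw [indicator_of_notMem hy]
        simp only [hF]
        rw [indicator_of_notMem hz]
    simp_rw [e]
    rw [setIntegral_indicator measurableSet_Ioo]
    congr 2
    ext y
    constructor
    · intro hy
      exact ⟨⟨hy.1, (hy.2.trans h2).le⟩, hy⟩
    · intro hy
      exact hy.2
  have i2 : ∀ y : ℝ, ∫ x in (y - 2 * π)..y, F x y
      = ∫ z in y..(gG y), Φ y z * S12 ρ y z := by
    intro y
    obtain ⟨w, hw, hw1, hw2⟩ := INV_inv hC y
    have h1 := hC.lo y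
    rw [intervalIntegral.integral_of_le (by linarith), intervalIntegral.integral_of_le h1.le,
      integral_Ioc_eq_integral_Ioo (x := y) (y := gG y), ← INV_cv hDER hS hC hT y w hw (Φ y)]
    have e : ∀ x, F x y = (Ioo w y).indicator (fun x => Φ y (T2 x y) * S12 ρ x y) x := by
      intro x
      by_cases hx : x ∈ Ioo w y
      · have hz : (x, y) ∈ Om := by
          refine ⟨hx.2, ?_⟩
          have := hC.mono hx.1
          rw [hw] at this
          exact this
        rw [indicator_of_mem hx]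
        simp only [hF]
        rw [indicator_of_mem hz, hTTe _ (hsub hz)]
      · have hz : (x, y) ∉ Om := by
          intro hz
          apply hx
          refine ⟨?_, hz.1⟩
          have := hz.2
          simp only at this
          rw [← hw] at this
          exact hC.mono.lt_iff_lt.1 this
        rw [indicator_of_notMem hx]
        simp only [hF]
        rw [indicator_of_notMem hz]
    simp_rw [e]
    rw [setIntegral_indicator measurableSet_Ioo]
    congr 2
    ext x
    constructor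
    · intro hx
      exact hx.2
    · intro hx
      exact ⟨⟨hw1.trans hx.1, hx.2.le⟩, hx⟩
  simp_rw [i1]
  rw [INV_swap F hFm hFb hFp]
  simp_rw [i2]

/-- invariance of the measure -/
theorem t_INV (hDER : S_DER) : S_INV := by
  intro h k ρ gG T2 hS hC hT
  exact ⟨INV_1 hDER hS hT, INV_2 hDER hS hC hT, INV_3 hDER hS hC hT⟩

end

end Pool.Agent.H283R2.BK
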