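import Pool.Agent.H283R2.BK.Defs

/-!
# IX: the index lemma for the comparison system
-/

open Real Complex Set MeasureTheory

namespace Pool.Agent.H283R2.BK

noncomputable section

/-- `Mt` is real linear in the last argument -/
theorem IX_Mt_add (c : ℝ → ℂ) (s r : ℝ) (V W : ℂ) : Mt c s r (V + W) = Mt c s r V + Mt c s r W := by
  unfold Mt
  rw [← add_div]
  congr 1
  simp only [map_add]
  ring

theorem IX_Mt_smul (c : ℝ → ℂ) (s r : ℝ) (x : ℝ) (V : ℂ) :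
    Mt c s r ((x : ℂ) * V) = (x : ℂ) * Mt c s r V := by
  unfold Mt
  rw [← mul_div_assoc]
  congr 1
  simp only [map_mul, Complex.conj_ofReal]
  ring

/-- the evaluation map -/
def IX_ev (c Z0 Z1 Z2 : ℝ → ℂ) (t : ℝ) : (ℝ × ℝ × ℝ × ℂ × ℂ) →ₗ[ℝ] ℂ where
  toFun p := (p.1 : ℂ) * Z0 t + p.2.1 * Z1 t + p.2.2.1 * Z2 t + I * Mt c 0 t p.2.2.2.1 + p.2.2.2.2
  map_add' p q := by
    simp only [Prod.fst_add, Prod.snd_add, Complex.ofReal_add, IX_Mt_add]
    ring
  map_smul' x p := by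
    simp only [Prod.smul_fst, Prod.smul_snd, Complex.real_smul, smul_eq_mul, Complex.ofReal_mul,
      IX_Mt_smul, RingHom.id_apply]
    ring

theorem IX_loop {Z0 Z0' Z1 Z1' Z2 Z2' : ℝ → ℂ} (h0 : IsLoop Z0 Z0') (h1 : IsLoop Z1 Z1')
    (h2 : IsLoop Z2 Z2') (a b d : ℝ) :
    IsLoop (fun t => a * Z0 t + b * Z1 t + d * Z2 t) (fun t => a * Z0' t + b * Z1' t + d * Z2' t) where
  d t := ((h0.d t).const_mul (a : ℂ)).add ((h1.d t).const_mul (b : ℂ)) |>.add
    ((h2.d t).const_mul (d : ℂ))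
  c := ((continuous_const.mul h0.c).add (continuous_const.mul h1.c)).add
    (continuous_const.mul h2.c)
  per t := by simp only [h0.per, h1.per, h2.per]

theorem IX_cont {c c' : ℝ → ℂ} (hG : Good c c') {Y Y' : ℝ → ℂ} (hY : IsLoop Y Y') :
    Continuous (fun t => Qp (c t) (c' t) (Y' t) - cr (Y t) (Y' t)) := by
  have hc : Continuous c := continuous_iff_continuousAt.2 fun t => (hG.d t).continuousAt
  have hYc : Continuous Y := continuous_iff_continuousAt.2 fun t => (hY.d t).continuousAt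
  have hc' := hG.cc
  have hY' := hY.c
  have hne : ∀ t, (ca (c t) (c' t)) ^ 2 - normSq (cb (c t) (c' t)) ≠ 0 := by
    intro t
    have h1 := hG.pos t
    have h2 : normSq (cb (c t) (c' t)) = ‖cb (c t) (c' t)‖ ^ 2 := Complex.normSq_eq_norm_sq _
    rw [h2]
    have h3 := norm_nonneg (cb (c t) (c' t))
    nlinarith
  have hca : Continuous fun t => ca (c t) (c' t) := by
    unfold ca
    fun_prop
  have hcb : Continuous fun t => cb (c t) (c' t) := by
    unfold cb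
    fun_prop
  refine Continuous.sub ?_ ?_
  · unfold Qp
    refine Continuous.div ?_ ?_ hne
    · fun_prop
    · fun_prop
  · unfold cr
    fun_prop

theorem t_IX (hMT : S_MT) (hAP : S_AP) (hSEL : S_SEL) (hNUL : S_NUL) : S_IX := by
  intro c c' hG Z0 Z0' Z1 Z1' Z2 Z2' h0 h1 h2 H
  by_contra hcon
  push Not at hcon
  obtain ⟨s1, s2, hs1, hs12, hs2, hD0, hD1, hD2⟩ := hSEL c c' hG
  obtain ⟨-, hid, hper, hcoc, -, hfix⟩ := hMT c c' hG
  let f : (ℝ × ℝ × ℝ × ℂ × ℂ) →ₗ[ℝ] ℂ × ℂ × ℂ :=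
    (IX_ev c Z0 Z1 Z2 0).prod ((IX_ev c Z0 Z1 Z2 s1).prod (IX_ev c Z0 Z1 Z2 s2))
  have hrank : Module.finrank ℝ (ℂ × ℂ × ℂ) < Module.finrank ℝ (ℝ × ℝ × ℝ × ℂ × ℂ) := by
    simp only [Module.finrank_prod, Complex.finrank_real_complex, Module.finrank_self]
    norm_num
  have hker := LinearMap.ker_ne_bot_of_finrank_lt (f := f) hrank
  obtain ⟨p, hp, hp0⟩ := Submodule.exists_mem_ne_zero_of_ne_bot hker
  obtain ⟨a, b, d, u0, k0⟩ := p
  rw [LinearMap.mem_ker] at hp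
  have e0 : (a : ℂ) * Z0 0 + b * Z1 0 + d * Z2 0 + I * Mt c 0 0 u0 + k0 = 0 :=
    congrArg Prod.fst hp
  have e1 : (a : ℂ) * Z0 s1 + b * Z1 s1 + d * Z2 s1 + I * Mt c 0 s1 u0 + k0 = 0 :=
    congrArg (fun x => x.2.1) hp
  have e2 : (a : ℂ) * Z0 s2 + b * Z1 s2 + d * Z2 s2 + I * Mt c 0 s2 u0 + k0 = 0 :=
    congrArg (fun x => x.2.2) hp
  obtain ⟨hYL, hYF⟩ := hNUL c c' (fun t => a * Z0 t + b * Z1 t + d * Z2 t)
    (fun t => a * Z0' t + b * Z1' t + d * Z2' t) hG (IX_loop h0 h1 h2 a b d) u0 k0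
  set Y : ℝ → ℂ := fun t => (a : ℂ) * Z0 t + b * Z1 t + d * Z2 t + I * Mt c 0 t u0 + k0 with hYdef
  set Y' : ℝ → ℂ := fun t => (a : ℂ) * Z0' t + b * Z1' t + d * Z2' t
    - PP (c t) (c' t) (Mt c 0 t u0) with hY'def
  have y0 : Y 0 = 0 := e0
  have y1 : Y s1 = 0 := e1
  have y2 : Y s2 = 0 := e2
  have y3 : Y (2 * π) = 0 := by
    have := hYL.per 0
    rw [zero_add] at this
    rw [this, y0]
  have F1 : 0 ≤ Fc c c' Y Y' 0 s1 := hAP c c' hG 0 s1 hs1 hD0 Y Y' hYL.d hYL.c y0 y1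
  have F2 : 0 ≤ Fc c c' Y Y' s1 s2 := hAP c c' hG s1 s2 hs12 hD1 Y Y' hYL.d hYL.c y1 y2
  have F3 : 0 ≤ Fc c c' Y Y' s2 (2 * π) :=
    hAP c c' hG s2 (2 * π) hs2 (fun r hr => hD2 r ⟨hr.1, hr.2.le⟩) Y Y' hYL.d hYL.c y2 y3
  have hcont := IX_cont hG hYL
  have hsum : Fc c c' Y Y' 0 (2 * π) = Fc c c' Y Y' 0 s1 + Fc c c' Y Y' s1 s2
      + Fc c c' Y Y' s2 (2 * π) := by
    unfold Fc
    rw [intervalIntegral.integral_add_adjacent_intervals (hcont.intervalIntegrable _ _)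
      (hcont.intervalIntegrable _ _), intervalIntegral.integral_add_adjacent_intervals
      (hcont.intervalIntegrable _ _) (hcont.intervalIntegrable _ _)]
  have habd : a = 0 ∧ b = 0 ∧ d = 0 := by
    by_contra hne
    have hne' : a ≠ 0 ∨ b ≠ 0 ∨ d ≠ 0 := by
      by_contra h
      push Not at h
      exact hne h
    rcases H a b d with h | h
    · rw [hsum] at hYF
      linarith
    · obtain ⟨t, ht⟩ := hcon a b d hne'
      exact ht (h t)
  obtain ⟨rfl, rfl, rfl⟩ := habd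
  have v0 : I * u0 + k0 = 0 := by
    have := y0
    simp only [hYdef, hid] at this
    simpa using this
  have v2 : I * Mt c 0 s2 u0 + k0 = 0 := by
    have := y2
    simp only [hYdef] at this
    simpa using this
  have w2 : Mt c 0 s2 u0 = u0 := by
    have h : I * Mt c 0 s2 u0 = I * u0 := by
      linear_combination v2 - v0
    exact mul_left_cancel₀ Complex.I_ne_zero h
  have w3 : Mt c 0 (2 * π) u0 = u0 := by
    have := hper 0 u0
    rwa [zero_add] at this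
  have w4 : Mt c s2 (2 * π) u0 = u0 := by
    have := hcoc 0 s2 (2 * π) u0
    rw [w2, w3] at this
    exact this
  have hu : u0 = 0 := hfix s2 (2 * π) (hD2 _ ⟨hs2, le_refl _⟩) u0 w4
  have hk : k0 = 0 := by
    rw [hu] at v0
    simpa using v0
  apply hp0
  rw [hu, hk]
  rfl

end

end Pool.Agent.H283R2.BK
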