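import Pool.Agent.H283R2.BK.Defs

/-! LIM: pointwise limits of invariant circles (helper844). -/

open Real Complex Set MeasureTheory Filter Topology

namespace Pool.Agent.H283R2.BK

noncomputable section

theorem LIM_hk (h k ρ : ℝ → ℝ) (hS : Sup h k ρ) : Continuous h ∧ Continuous k :=
  ⟨continuous_iff_continuousAt.2 fun x => (hS.dh x).continuousAt,
    continuous_iff_continuousAt.2 fun x => (hS.dk x).continuousAt⟩

theorem LIM_contA (h k ρ : ℝ → ℝ) (hS : Sup h k ρ) :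
    Continuous (fun p : ℝ × ℝ => Am h k p.1 p.2) := by
  obtain ⟨h1, h2⟩ := LIM_hk h k ρ hS
  unfold Am
  fun_prop

theorem LIM_contB (h k ρ : ℝ → ℝ) (hS : Sup h k ρ) :
    Continuous (fun p : ℝ × ℝ => Bm h k p.1 p.2) := by
  obtain ⟨h1, h2⟩ := LIM_hk h k ρ hS
  unfold Bm
  fun_prop

theorem LIM_S12 (h k ρ : ℝ → ℝ) (hS : Sup h k ρ) (x y : ℝ) (h1 : x < y) (h2 : y < x + 2 * π) :
    0 < S12 ρ x y := by
  unfold S12
  have h3 := hS.pos ((x + y) / 2)
  have h4 : 0 < Real.sin ((y - x) / 2) :=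
    Real.sin_pos_of_pos_of_lt_pi (by linarith) (by linarith)
  positivity

theorem LIM_antiA (hD : S_DER) (h k ρ : ℝ → ℝ) (hS : Sup h k ρ) (x : ℝ) :
    StrictAntiOn (fun t => Am h k x t) (Icc x (x + 2 * π)) := by
  refine strictAntiOn_of_deriv_neg (convex_Icc _ _) ?_ fun s hs => ?_
  · exact ((LIM_contA h k ρ hS).comp (Continuous.prodMk continuous_const continuous_id)).continuousOn
  · rw [interior_Icc] at hs
    rw [(hD h k ρ hS x s).2.2.2.1.deriv]
    have := LIM_S12 h k ρ hS x s hs.1 hs.2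
    linarith

theorem LIM_monoB (hD : S_DER) (h k ρ : ℝ → ℝ) (hS : Sup h k ρ) (y : ℝ) :
    StrictMonoOn (fun t => Bm h k t y) (Icc (y - 2 * π) y) := by
  refine strictMonoOn_of_deriv_pos (convex_Icc _ _) ?_ fun s hs => ?_
  · exact ((LIM_contB h k ρ hS).comp (Continuous.prodMk continuous_id continuous_const)).continuousOn
  · rw [interior_Icc] at hs
    rw [(hD h k ρ hS s y).2.2.2.2.1.deriv]
    exact LIM_S12 h k ρ hS s y hs.2 (by linarith [hs.1])

theorem LIM_surj (h k G : ℝ → ℝ) (hG : Circ h k G) (x : ℝ) : ∃ u, x - 2 * π ≤ u ∧ u ≤ x ∧ G u = x := by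
  have h1 : G (x - 2 * π) ≤ x := by
    have := hG.hi (x - 2 * π)
    linarith
  have h2 : x ≤ G x := (hG.lo x).le
  have h3 : x ∈ Icc (G (x - 2 * π)) (G x) := ⟨h1, h2⟩
  obtain ⟨u, hu, hu'⟩ := intermediate_value_Icc (by linarith [Real.pi_pos]) hG.cont.continuousOn h3
  exact ⟨u, hu.1, hu.2, hu'⟩

/-- key inequality for a circle -/
theorem LIM_key (hD : S_DER) (h k ρ G : ℝ → ℝ) (hS : Sup h k ρ) (hG : Circ h k G) (x x' : ℝ)
    (hx : x < x') (hx' : G x' ≤ x + 2 * π) :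
    ∃ u, x - 2 * π ≤ u ∧ u ≤ x ∧ Am h k x (G x) + (Bm h k u x' - Bm h k u x) ≤ Am h k x' (G x') := by
  obtain ⟨u, hu1, hu2, hu3⟩ := LIM_surj h k G hG x
  obtain ⟨u', hu1', hu2', hu3'⟩ := LIM_surj h k G hG x'
  refine ⟨u, hu1, hu2, ?_⟩
  have hlt : u < u' := by
    rw [← hG.mono.lt_iff_lt, hu3, hu3']
    exact hx
  have hm : x' - 2 * π ≤ u := by
    rw [← hG.mono.le_iff_le, hu3]
    have := hG.per (x' - 2 * π)
    rw [sub_add_cancel] at this
    linarith
  have h1 := (LIM_monoB hD h k ρ hS x') ⟨hm, by linarith⟩ ⟨hu1', hu2'⟩ hlt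
  have h2 := hG.st u
  have h3 := hG.st u'
  rw [hu3] at h2
  rw [hu3'] at h3
  have h1' : Bm h k u x' < Bm h k u' x' := h1
  linarith

/-- key inequality in the limit -/
theorem LIM_key2 (hD : S_DER) (h k ρ : ℝ → ℝ) (hS : Sup h k ρ) (G : ℕ → ℝ → ℝ) (g : ℝ → ℝ)
    (hG : ∀ n, Circ h k (G n)) (hlim : ∀ x, Tendsto (fun n => G n x) atTop (𝓝 (g x)))
    (x0 ε : ℝ) (hε : 0 < ε) : ∃ δ > 0, ∀ x x', x < x' → |x - x0| < δ → |x' - x0| < δ →
      g x' < x + 2 * π → Am h k x (g x) - ε ≤ Am h k x' (g x') := by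
  have hK : IsCompact ((Icc (x0 - 20) (x0 + 20)) ×ˢ (Icc (x0 - 20) (x0 + 20)) : Set (ℝ × ℝ)) :=
    isCompact_Icc.prod isCompact_Icc
  have hu := hK.uniformContinuousOn_of_continuous (LIM_contB h k ρ hS).continuousOn
  rw [Metric.uniformContinuousOn_iff] at hu
  obtain ⟨δ, hδ, hδ'⟩ := hu ε hε
  refine ⟨min 1 (δ / 2), by positivity, fun x x' hxx hx hx' hg => ?_⟩
  have hx1 : |x - x0| < 1 := lt_of_lt_of_le hx (min_le_left _ _)
  have hx1' : |x' - x0| < 1 := lt_of_lt_of_le hx' (min_le_left _ _)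
  have hx2 : |x - x0| < δ / 2 := lt_of_lt_of_le hx (min_le_right _ _)
  have hx2' : |x' - x0| < δ / 2 := lt_of_lt_of_le hx' (min_le_right _ _)
  rw [abs_lt] at hx1 hx1' hx2 hx2'
  have hpi := Real.pi_lt_four
  have hev : ∀ᶠ n in atTop, Am h k x (G n x) - ε ≤ Am h k x' (G n x') := by
    filter_upwards [(hlim x').eventually (gt_mem_nhds hg)] with n hn
    obtain ⟨u, hu1, hu2, hu3⟩ := LIM_key hD h k ρ (G n) hS (hG n) x x' hxx hn.le
    have h1 := hδ' (u, x') ⟨⟨by linarith [hx1.1], by linarith [hx1.2]⟩,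
      ⟨by linarith [hx1'.1], by linarith [hx1'.2]⟩⟩ (u, x) ⟨⟨by linarith [hx1.1], by linarith [hx1.2]⟩,
      ⟨by linarith [hx1.1], by linarith [hx1.2]⟩⟩ (by
        rw [Prod.dist_eq, dist_self, Real.dist_eq]
        refine max_lt hδ ?_
        rw [abs_lt]
        constructor <;> linarith [hx2.1, hx2.2, hx2'.1, hx2'.2])
    rw [Real.dist_eq, abs_lt] at h1
    have h2 : -ε < Bm h k u x' - Bm h k u x := h1.1
    linarith
  have hA1 : Tendsto (fun n => Am h k x (G n x) - ε) atTop (𝓝 (Am h k x (g x) - ε)) := by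
    have h1 : Tendsto (fun n => ((x, G n x) : ℝ × ℝ)) atTop (𝓝 (x, g x)) :=
      tendsto_const_nhds.prodMk_nhds (hlim x)
    exact (((LIM_contA h k ρ hS).tendsto (x, g x)).comp h1).sub_const ε
  have hA2 : Tendsto (fun n => Am h k x' (G n x')) atTop (𝓝 (Am h k x' (g x'))) := by
    have h1 : Tendsto (fun n => ((x', G n x') : ℝ × ℝ)) atTop (𝓝 (x', g x')) :=
      tendsto_const_nhds.prodMk_nhds (hlim x')
    exact ((LIM_contA h k ρ hS).tendsto (x', g x')).comp h1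
  exact le_of_tendsto_of_tendsto hA1 hA2 hev

theorem t_LIM (hD : S_DER) : S_LIM := by
  intro h k ρ hS G g hG hlim ⟨g1, hg1, hle1⟩ ⟨g2, hg2, hle2⟩
  have hmono : Monotone g := by
    intro x y hxy
    exact le_of_tendsto_of_tendsto' (hlim x) (hlim y) fun n => (hG n).mono.monotone hxy
  have hlo : ∀ x, x < g x := fun x => (hg1.lo x).trans_le (hle1 x)
  have hhi : ∀ x, g x < x + 2 * π := fun x => (hle2 x).trans_lt (hg2.hi x)
  have hper : ∀ x, g (x + 2 * π) = g x + 2 * π := by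
    intro x
    refine tendsto_nhds_unique (hlim (x + 2 * π)) ?_
    have h1 : (fun n => G n (x + 2 * π)) = fun n => G n x + 2 * π := by
      funext n
      exact (hG n).per x
    rw [h1]
    exact (hlim x).add_const _
  have hcont : Continuous g := by
    rw [continuous_iff_continuousAt]
    intro x0
    rw [hmono.continuousAt_iff_leftLim_eq_rightLim]
    set L := Function.leftLim g x0 with hL
    set R := Function.rightLim g x0 with hR
    have hLt : Tendsto g (𝓝[<] x0) (𝓝 L) := hmono.tendsto_leftLim x0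
    have hRt : Tendsto g (𝓝[>] x0) (𝓝 R) := hmono.tendsto_rightLim x0
    have hLR : L ≤ R := hmono.leftLim_le_rightLim (le_refl x0)
    have hL1 : x0 ≤ L := by
      have h1 : Tendsto g1 (𝓝[<] x0) (𝓝 (g1 x0)) := hg1.cont.continuousAt.continuousWithinAt
      have h2 : g1 x0 ≤ L := le_of_tendsto_of_tendsto' h1 hLt hle1
      exact (hg1.lo x0).le.trans h2
    have hR1 : R ≤ x0 + 2 * π := by
      have h1 : Tendsto g2 (𝓝[>] x0) (𝓝 (g2 x0)) := hg2.cont.continuousAt.continuousWithinAt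
      have h2 : R ≤ g2 x0 := le_of_tendsto_of_tendsto' hRt h1 hle2
      exact h2.trans (hg2.hi x0).le
    have hA : ∀ ε > 0, Am h k x0 L - ε ≤ Am h k x0 R := by
      intro ε hε
      obtain ⟨δ, hδ, hkey⟩ := LIM_key2 hD h k ρ hS G g hG hlim x0 ε hε
      have hF1 : Tendsto (fun p : ℝ × ℝ => Am h k p.1 (g p.1) - ε) (𝓝[<] x0 ×ˢ 𝓝[>] x0)
          (𝓝 (Am h k x0 L - ε)) := by
        have h1 : Tendsto (fun x : ℝ => ((x, g x) : ℝ × ℝ)) (𝓝[<] x0) (𝓝 (x0, L)) :=
          (tendsto_nhdsWithin_of_tendsto_nhds tendsto_id).prodMk_nhds hLt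
        exact ((((LIM_contA h k ρ hS).tendsto (x0, L)).comp h1).comp tendsto_fst).sub_const ε
      have hF2 : Tendsto (fun p : ℝ × ℝ => Am h k p.2 (g p.2)) (𝓝[<] x0 ×ˢ 𝓝[>] x0)
          (𝓝 (Am h k x0 R)) := by
        have h1 : Tendsto (fun x : ℝ => ((x, g x) : ℝ × ℝ)) (𝓝[>] x0) (𝓝 (x0, R)) :=
          (tendsto_nhdsWithin_of_tendsto_nhds tendsto_id).prodMk_nhds hRt
        exact (((LIM_contA h k ρ hS).tendsto (x0, R)).comp h1).comp tendsto_snd
      refine le_of_tendsto_of_tendsto hF1 hF2 ?_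
      have e0 : ∀ᶠ x in 𝓝 x0, |x - x0| < δ := Metric.ball_mem_nhds x0 hδ
      have e1 : ∀ᶠ x in 𝓝[<] x0, x < x0 ∧ |x - x0| < δ := by
        have h1 : ∀ᶠ x in 𝓝[<] x0, x < x0 := self_mem_nhdsWithin
        exact h1.and (e0.filter_mono nhdsWithin_le_nhds)
      have e2 : ∀ᶠ x in 𝓝[>] x0, x0 < x ∧ |x - x0| < δ := by
        have h1 : ∀ᶠ x in 𝓝[>] x0, x0 < x := self_mem_nhdsWithin
        exact h1.and (e0.filter_mono nhdsWithin_le_nhds)
      have e3 : ∀ᶠ p : ℝ × ℝ in 𝓝[<] x0 ×ˢ 𝓝[>] x0, g2 p.2 < p.1 + 2 * π := by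
        have h1 : Tendsto (fun p : ℝ × ℝ => g2 p.2) (𝓝[<] x0 ×ˢ 𝓝[>] x0) (𝓝 (g2 x0)) := by
          have h2 : Tendsto g2 (𝓝[>] x0) (𝓝 (g2 x0)) := hg2.cont.continuousAt.continuousWithinAt
          exact h2.comp tendsto_snd
        have h3 : Tendsto (fun p : ℝ × ℝ => p.1 + 2 * π) (𝓝[<] x0 ×ˢ 𝓝[>] x0)
            (𝓝 (x0 + 2 * π)) := by
          have h2 : Tendsto (fun x : ℝ => x + 2 * π) (𝓝[<] x0) (𝓝 (x0 + 2 * π)) :=
            (tendsto_nhdsWithin_of_tendsto_nhds tendsto_id).add_const _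
          exact h2.comp tendsto_fst
        exact h1.eventually_lt h3 (hg2.hi x0)
      filter_upwards [tendsto_fst.eventually e1, tendsto_snd.eventually e2, e3] with p h1 h2 h3
      exact hkey p.1 p.2 (h1.1.trans h2.1) h1.2 h2.2 ((hle2 p.2).trans_lt h3)
    have hA' : Am h k x0 L ≤ Am h k x0 R := by
      refine le_of_forall_pos_le_add fun ε hε => ?_
      have := hA ε hε
      linarith
    by_contra hne
    have hlt : L < R := lt_of_le_of_ne hLR hne
    have := (LIM_antiA hD h k ρ hS x0) ⟨hL1, hLR.trans hR1⟩ ⟨hL1.trans hLR, hR1⟩ hlt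
    exact absurd hA' (not_le.2 this)
  have hst : ∀ x, Bm h k x (g x) = Am h k (g x) (g (g x)) := by
    intro x
    have h1 : Tendsto (fun n => G n (G n x)) atTop (𝓝 (g (g x))) := by
      rw [tendsto_order]
      constructor
      · intro a ha
        have h2 : ∀ᶠ y in 𝓝 (g x), a < g y := hcont.continuousAt.eventually (lt_mem_nhds ha)
        obtain ⟨y, hy1, hy2⟩ : ∃ y, y < g x ∧ a < g y := by
          have h3 : ∀ᶠ y in 𝓝[<] (g x), a < g y := h2.filter_mono nhdsWithin_le_nhds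
          have h4 : ∀ᶠ y in 𝓝[<] (g x), y < g x := self_mem_nhdsWithin
          obtain ⟨y, hy⟩ := (h4.and h3).exists
          exact ⟨y, hy⟩
        filter_upwards [(hlim x).eventually (lt_mem_nhds hy1), (hlim y).eventually (lt_mem_nhds hy2)]
          with n hn1 hn2
        exact hn2.trans ((hG n).mono hn1)
      · intro a ha
        have h2 : ∀ᶠ y in 𝓝 (g x), g y < a := hcont.continuousAt.eventually (gt_mem_nhds ha)
        obtain ⟨y, hy1, hy2⟩ : ∃ y, g x < y ∧ g y < a := by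
          have h3 : ∀ᶠ y in 𝓝[>] (g x), g y < a := h2.filter_mono nhdsWithin_le_nhds
          have h4 : ∀ᶠ y in 𝓝[>] (g x), g x < y := self_mem_nhdsWithin
          obtain ⟨y, hy⟩ := (h4.and h3).exists
          exact ⟨y, hy⟩
        filter_upwards [(hlim x).eventually (gt_mem_nhds hy1), (hlim y).eventually (gt_mem_nhds hy2)]
          with n hn1 hn2
        exact ((hG n).mono hn1).trans hn2
    have h2 : Tendsto (fun n => Bm h k x (G n x)) atTop (𝓝 (Bm h k x (g x))) :=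
      ((LIM_contB h k ρ hS).tendsto (x, g x)).comp (tendsto_const_nhds.prodMk_nhds (hlim x))
    have h3 : Tendsto (fun n => Am h k (G n x) (G n (G n x))) atTop
        (𝓝 (Am h k (g x) (g (g x)))) :=
      ((LIM_contA h k ρ hS).tendsto (g x, g (g x))).comp ((hlim x).prodMk_nhds h1)
    have h4 : (fun n => Bm h k x (G n x)) = fun n => Am h k (G n x) (G n (G n x)) := by
      funext n
      exact (hG n).st x
    rw [h4] at h2
    exact tendsto_nhds_unique h2 h3
  refine ⟨hcont, ?_, hper, hlo, hhi, hst⟩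
  intro x x' hxx
  refine lt_of_le_of_ne (hmono hxx.le) fun he => ?_
  have h1 := hst x
  have h2 := hst x'
  rw [← he] at h2
  have h3 : Bm h k x (g x) = Bm h k x' (g x) := h1.trans h2.symm
  have h4 := hhi x
  have h5 := hlo x'
  rw [← he] at h5
  have h6 := (LIM_monoB hD h k ρ hS (g x)) ⟨by linarith, (hlo x).le⟩ ⟨by linarith, h5.le⟩ hxx
  exact absurd h3 (ne_of_lt h6)

end

end Pool.Agent.H283R2.BK
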