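import Pool.Agent.H283R2.BK.Defs

/-!
LIX: index lemma for a family of triangles.
-/

set_option autoImplicit false

open Real Complex Set MeasureTheory

namespace Pool.Agent.H283R2.BK

noncomputable section

lemma LIX_comb {Z0 Z0' Z1 Z1' Z2 Z2' : ℝ → ℂ} (h0 : IsLoop Z0 Z0') (h1 : IsLoop Z1 Z1')
    (h2 : IsLoop Z2 Z2') (a b d : ℝ) :
    IsLoop (fun t => a * Z0 t + b * Z1 t + d * Z2 t)
      (fun t => a * Z0' t + b * Z1' t + d * Z2' t) where
  d t := (((h0.d t).const_mul (a : ℂ)).add ((h1.d t).const_mul (b : ℂ))).add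
    ((h2.d t).const_mul (d : ℂ))
  c := ((continuous_const.mul h0.c).add (continuous_const.mul h1.c)).add
    (continuous_const.mul h2.c)
  per t := by simp only [h0.per t, h1.per t, h2.per t]

lemma LIX_per {Z Z' : ℝ → ℂ} (h : IsLoop Z Z') : Function.Periodic Z' (2 * π) := by
  intro t
  have h1 : HasDerivAt (fun s => Z (s + 2 * π)) (Z' (t + 2 * π)) t :=
    (h.d (t + 2 * π)).comp_add_const t (2 * π)
  have h2 : (fun s => Z (s + 2 * π)) = Z := funext h.per
  rw [h2] at h1
  exact h1.unique (h.d t)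

lemma LIX_p (D : TD) (hD : IsTri D) (t : ℝ) : D.p1 t + D.p2 t + D.p3 t = 1 := by
  have h3 : HasDerivAt (fun s => D.f1 s + D.f2 s + D.f3 s) (D.p1 t + D.p2 t + D.p3 t) t :=
    ((hD.d1 t).add (hD.d2 t)).add (hD.d3 t)
  have h2 : (fun s => D.f1 s + D.f2 s + D.f3 s) = fun s => s := funext hD.sum
  rw [h2] at h3
  exact h3.unique (hasDerivAt_id t)

lemma LIX_en : Continuous en := by
  unfold en
  fun_prop

lemma LIX_el : Continuous el := by
  unfold el
  fun_prop

lemma LIX_cr {Z W : ℝ → ℂ} (hZ : Continuous Z) (hW : Continuous W) :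
    Continuous (fun t => cr (Z t) (W t)) := by
  unfold cr
  exact ((continuous_re.comp hZ).mul (continuous_im.comp hW)).sub
    ((continuous_im.comp hZ).mul (continuous_re.comp hW))

lemma LIX_term {A w u : ℝ → ℝ} (hA : Continuous A) (hw : Continuous w) (hw0 : ∀ t, w t ≠ 0)
    (hu : Continuous u) {W : ℝ → ℂ} (hW : Continuous W) :
    Continuous (fun t => el (A t) / (2 * w t) * (ip (W t) (en (u t))) ^ 2) := by
  have h1 : Continuous fun t => el (A t) := LIX_el.comp hA
  have h2 : Continuous fun t => en (u t) := LIX_en.comp hu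
  have h3 : Continuous fun t => ip (W t) (en (u t)) := by
    unfold ip
    exact ((continuous_re.comp hW).mul (continuous_re.comp h2)).add
      ((continuous_im.comp hW).mul (continuous_im.comp h2))
  exact (h1.div (continuous_const.mul hw) (fun t => mul_ne_zero two_ne_zero (hw0 t))).mul (h3.pow 2)

lemma LIX_G (D : TD) (hD : IsTri D) {W : ℝ → ℂ} (hW : Continuous W) :
    Continuous (fun t => D.G t (W t)) := by
  have f1 : Continuous D.f1 := continuous_iff_continuousAt.2 fun t => (hD.d1 t).continuousAt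
  have f2 : Continuous D.f2 := continuous_iff_continuousAt.2 fun t => (hD.d2 t).continuousAt
  have f3 : Continuous D.f3 := continuous_iff_continuousAt.2 fun t => (hD.d3 t).continuousAt
  have p1 := hD.c1
  have p2 := hD.c2
  have p3 := hD.c3
  unfold TD.G
  refine ((LIX_term ?_ ?_ ?_ ?_ hW).add (LIX_term ?_ ?_ ?_ ?_ hW)).add (LIX_term ?_ ?_ ?_ ?_ hW)
  · unfold TD.A1
    fun_prop
  · unfold TD.w1
    fun_prop
  · intro t
    have := LIX_p D hD t
    have := hD.q2 t
    have := hD.q3 t
    unfold TD.w1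
    linarith
  · unfold TD.u1
    fun_prop
  · unfold TD.A2
    fun_prop
  · unfold TD.w2
    fun_prop
  · intro t
    have := LIX_p D hD t
    have := hD.q1 t
    have := hD.q3 t
    unfold TD.w2
    linarith
  · unfold TD.u2
    fun_prop
  · unfold TD.A3
    fun_prop
  · unfold TD.w3
    fun_prop
  · intro t
    have := LIX_p D hD t
    have := hD.q1 t
    have := hD.q2 t
    unfold TD.w3
    linarith
  · unfold TD.u3
    fun_prop

lemma LIX_Qp {c c' : ℝ → ℂ} (hc : Good c c') {W : ℝ → ℂ} (hW : Continuous W) :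
    Continuous (fun t => Qp (c t) (c' t) (W t)) := by
  have h1 : Continuous c := continuous_iff_continuousAt.2 fun t => (hc.d t).continuousAt
  have h2 := hc.cc
  have h3 : Continuous fun t => ca (c t) (c' t) := by
    unfold ca
    exact (continuous_const.mul (continuous_const.add (continuous_normSq.comp h1))).add
      (continuous_im.comp (h1.mul (continuous_conj.comp h2)))
  have h4 : Continuous fun t => cb (c t) (c' t) := by
    unfold cb
    exact (continuous_const.mul h1).add (continuous_const.mul h2)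
  have hne : ∀ t, (ca (c t) (c' t)) ^ 2 - normSq (cb (c t) (c' t)) ≠ 0 := by
    intro t
    have h5 := hc.pos t
    have h6 : normSq (cb (c t) (c' t)) = ‖cb (c t) (c' t)‖ ^ 2 := (Complex.sq_norm _).symm
    have h7 := norm_nonneg (cb (c t) (c' t))
    rw [h6]
    nlinarith
  unfold Qp
  refine Continuous.div ?_ ((h3.pow 2).sub (continuous_normSq.comp h4)) hne
  exact (continuous_const.sub (continuous_normSq.comp h1)).mul
    ((h3.mul (continuous_normSq.comp hW)).add
      (continuous_re.comp ((continuous_conj.comp h4).mul (hW.pow 2))))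

lemma LIX_Qp0 (c c' : ℂ) : Qp c c' 0 = 0 := by
  unfold Qp
  simp

lemma LIX_G0 (D : TD) (t : ℝ) : D.G t 0 = 0 := by
  unfold TD.G ip
  simp

theorem t_LIX (hIX : S_IX) (hCG : S_CG) : S_LIX := by
  intro D hD Z0 Z0' Z1 Z1' Z2 Z2' h0 h1 h2 hF
  obtain ⟨c, c', hg, hQ⟩ := hCG D hD
  refine hIX c c' hg Z0 Z0' Z1 Z1' Z2 Z2' h0 h1 h2 fun a b d => ?_
  by_cases hz : ∀ t, (a : ℂ) * Z0' t + b * Z1' t + d * Z2' t = 0
  · exact Or.inr hz
  · left
    push Not at hz
    obtain ⟨t0, ht0⟩ := hz
    have hL := LIX_comb h0 h1 h2 a b d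
    refine lt_of_lt_of_le ?_ (hF a b d)
    have hLc : Continuous (fun t => (a : ℂ) * Z0 t + b * Z1 t + d * Z2 t) :=
      continuous_iff_continuousAt.2 fun t => (hL.d t).continuousAt
    have hcr := LIX_cr hLc hL.c
    unfold Fc TD.F
    refine intervalIntegral.integral_lt_integral_of_continuousOn_of_le_of_exists_lt
      (by positivity) ((LIX_Qp hg hL.c).sub hcr).continuousOn
      ((LIX_G D hD hL.c).sub hcr).continuousOn ?_ ?_
    · intro t _
      refine sub_le_sub_right ?_ _
      by_cases hw : (a : ℂ) * Z0' t + b * Z1' t + d * Z2' t = 0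
      · simp only [hw]
        rw [LIX_Qp0, LIX_G0]
      · exact (hQ t _ hw).le
    · obtain ⟨y, hy, hyt⟩ := (LIX_per hL).exists_mem_Ico₀ (by positivity) t0
      refine ⟨y, ⟨hy.1, hy.2.le⟩, sub_lt_sub_right ?_ _⟩
      exact hQ y _ (fun hcon => ht0 (hyt.trans hcon))

end

end Pool.Agent.H283R2.BK
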