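import Pool.Agent.H283R2.BK.Defs

/-! task NUL -/

open Real Complex Set MeasureTheory

namespace Pool.Agent.H283R2.BK

theorem NUL_re {f : ℝ → ℂ} {f' : ℂ} {t : ℝ} (h : HasDerivAt f f' t) :
    HasDerivAt (fun s => (f s).re) f'.re t :=
  (Complex.reCLM.hasFDerivAt (x := f t)).comp_hasDerivAt t h

theorem NUL_im {f : ℝ → ℂ} {f' : ℂ} {t : ℝ} (h : HasDerivAt f f' t) :
    HasDerivAt (fun s => (f s).im) f'.im t :=
  (Complex.imCLM.hasFDerivAt (x := f t)).comp_hasDerivAt t h

theorem NUL_cr {f g : ℝ → ℂ} {f' g' : ℂ} {t : ℝ} (h : HasDerivAt f f' t) (h' : HasDerivAt g g' t) :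
    HasDerivAt (fun s => cr (f s) (g s)) (cr f' (g t) + cr (f t) g') t := by
  have e := ((NUL_re h).mul (NUL_im h')).sub ((NUL_im h).mul (NUL_re h'))
  refine e.congr_deriv ?_
  unfold cr
  ring

theorem NUL_alg (α b1 b2 n w1 w2 V1 V2 D : ℝ) (hD : D ≠ 0) (hn : 1 - n ≠ 0)
    (hDe : D = α * α - (b1 * b1 + b2 * b2)) :
    (1 - n) *
        (α *
            ((w1 - (α * V1 - (b1 * V1 + b2 * V2)) / (1 - n)) * (w1 - (α * V1 - (b1 * V1 + b2 * V2)) / (1 - n)) +
              (w2 - (α * V2 - (b2 * V1 - b1 * V2)) / (1 - n)) * (w2 - (α * V2 - (b2 * V1 - b1 * V2)) / (1 - n))) +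
          (b1 *
              ((w1 - (α * V1 - (b1 * V1 + b2 * V2)) / (1 - n)) * (w1 - (α * V1 - (b1 * V1 + b2 * V2)) / (1 - n)) -
                (w2 - (α * V2 - (b2 * V1 - b1 * V2)) / (1 - n)) * (w2 - (α * V2 - (b2 * V1 - b1 * V2)) / (1 - n))) -
            -b2 *
              ((w1 - (α * V1 - (b1 * V1 + b2 * V2)) / (1 - n)) * (w2 - (α * V2 - (b2 * V1 - b1 * V2)) / (1 - n)) +
                (w2 - (α * V2 - (b2 * V1 - b1 * V2)) / (1 - n)) * (w1 - (α * V1 - (b1 * V1 + b2 * V2)) / (1 - n))))) /
      D =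
    (1 - n) * (α * (w1 * w1 + w2 * w2) + (b1 * (w1 * w1 - w2 * w2) - -b2 * (w1 * w2 + w2 * w1))) /
          D -
        2 * (w1 * V1 + w2 * V2) +
      ((α * V1 - (b1 * V1 + b2 * V2)) / (1 - n) * V1 + (α * V2 - (b2 * V1 - b1 * V2)) / (1 - n) * V2) := by
  field_simp
  subst hDe
  ring

/-- completing the square -/
theorem NUL_Qp (c c' w V : ℂ) (h1 : normSq c < 1) (h2 : ‖cb c c'‖ < ca c c') :
    Qp c c' (w - PP c c' V) = Qp c c' w - 2 * ip w V + ip (PP c c' V) V := by
  have hD : (ca c c') ^ 2 - normSq (cb c c') ≠ 0 := by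
    have h3 : normSq (cb c c') = ‖cb c c'‖ ^ 2 := Complex.normSq_eq_norm_sq _
    have h4 : 0 ≤ ‖cb c c'‖ := norm_nonneg _
    have : 0 < (ca c c') ^ 2 - normSq (cb c c') := by
      rw [h3]
      nlinarith
    exact this.ne'
  have hn : (1 - normSq c : ℝ) ≠ 0 := by linarith
  have e1 : PP c c' V = ⟨(ca c c' * V.re - ((cb c c').re * V.re + (cb c c').im * V.im)) /
      (1 - normSq c), (ca c c' * V.im - ((cb c c').im * V.re - (cb c c').re * V.im)) /
      (1 - normSq c)⟩ := by
    unfold PP
    apply Complex.ext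
    · rw [Complex.div_ofReal_re]
      simp only [sub_re, mul_re, ofReal_re, ofReal_im, conj_re, conj_im]
      ring
    · rw [Complex.div_ofReal_im]
      simp only [sub_im, mul_im, ofReal_re, ofReal_im, conj_re, conj_im]
      ring
  rw [e1]
  unfold Qp ip
  generalize ca c c' = α at *
  generalize cb c c' = β at *
  rw [Complex.normSq_apply β] at *
  simp only [Complex.normSq_apply w, Complex.normSq_apply (w - _), sub_re, sub_im, mul_re, mul_im,
    conj_re, conj_im, pow_two]
  generalize normSq c = n at *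
  rw [pow_two] at hD
  generalize hw1 : w.re = w1
  generalize hw2 : w.im = w2
  generalize hV1 : V.re = V1
  generalize hV2 : V.im = V2
  generalize β.re = b1 at *
  generalize β.im = b2 at *
  exact NUL_alg α b1 b2 n w1 w2 V1 V2 _ hD hn rfl

theorem t_NUL (hMT : S_MT) : S_NUL := by
  intro c c' Z Z' hG hZ u0 k0
  obtain ⟨m1, m2, m3, m4, -, -⟩ := hMT c c' hG
  let V : ℝ → ℂ := fun t => Mt c 0 t u0
  have hV : ∀ t, HasDerivAt V (I * PP (c t) (c' t) (V t)) t := fun t => m1 0 t u0
  have hVc : Continuous V := continuous_iff_continuousAt.2 (fun t => (hV t).continuousAt)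
  have hcc : Continuous c := continuous_iff_continuousAt.2 (fun t => (hG.d t).continuousAt)
  have hZc : Continuous Z := continuous_iff_continuousAt.2 (fun t => (hZ.d t).continuousAt)
  have hVp : ∀ t, V (t + 2 * π) = V t := by
    intro t
    have := m4 0 t (t + 2 * π) u0
    rw [m3] at this
    exact this.symm
  have hn : ∀ t, ((1 - normSq (c t) : ℝ) : ℂ) ≠ 0 := fun t => by
    have := hG.lt t
    exact_mod_cast (by linarith : (1 - normSq (c t) : ℝ) ≠ 0)
  have hca : Continuous fun t => ca (c t) (c' t) := by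
    unfold ca
    have := hG.cc
    have h2 : Continuous fun t => normSq (c t) := Complex.continuous_normSq.comp hcc
    have h3 : Continuous fun t => (c t * (starRingEnd ℂ) (c' t)).im :=
      Complex.continuous_im.comp (hcc.mul (Complex.continuous_conj.comp hG.cc))
    fun_prop
  have hcb : Continuous fun t => cb (c t) (c' t) := by
    unfold cb
    have := hG.cc
    fun_prop
  have hPc : Continuous fun t => PP (c t) (c' t) (V t) := by
    unfold PP
    refine Continuous.div ?_ ?_ hn
    · exact ((Complex.continuous_ofReal.comp hca).mul hVc).sub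
        (hcb.mul (Complex.continuous_conj.comp hVc))
    · exact Complex.continuous_ofReal.comp
        (continuous_const.sub (Complex.continuous_normSq.comp hcc))
  have hW : ∀ t, HasDerivAt (fun t => I * V t) (-PP (c t) (c' t) (V t)) t := by
    intro t
    refine ((hV t).const_mul I).congr_deriv ?_
    rw [← mul_assoc, Complex.I_mul_I]
    ring
  refine ⟨⟨fun t => ?_, ?_, fun t => ?_⟩, ?_⟩
  · have := ((hZ.d t).add (hW t)).add_const k0
    exact this.congr_deriv (by ring)
  · exact hZ.c.sub hPc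
  · change Z (t + 2 * π) + I * V (t + 2 * π) + k0 = Z t + I * V t + k0
    rw [hZ.per, hVp]
  · let Ψ : ℝ → ℝ := fun t => cr (Z t) (I * V t) + cr k0 (Z t + I * V t)
    let ψ : ℝ → ℝ := fun t => (cr (Z' t) (I * V t) + cr (Z t) (-PP (c t) (c' t) (V t))) +
      (cr 0 (Z t + I * V t) + cr k0 (Z' t + -PP (c t) (c' t) (V t)))
    have hΨ : ∀ t, HasDerivAt Ψ (ψ t) t := fun t =>
      (NUL_cr (hZ.d t) (hW t)).add (NUL_cr (hasDerivAt_const t k0) ((hZ.d t).add (hW t)))
    have hcr : ∀ f g : ℝ → ℂ, Continuous f → Continuous g → Continuous fun t => cr (f t) (g t) := by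
      intro f g hf hg
      unfold cr
      exact ((Complex.continuous_re.comp hf).mul (Complex.continuous_im.comp hg)).sub
        ((Complex.continuous_im.comp hf).mul (Complex.continuous_re.comp hg))
    have hIV : Continuous fun t => I * V t := continuous_const.mul hVc
    have hψc : Continuous ψ :=
      ((hcr _ _ hZ.c hIV).add (hcr _ _ hZc hPc.neg)).add
        ((hcr _ _ continuous_const (hZc.add hIV)).add (hcr _ _ continuous_const (hZ.c.add hPc.neg)))
    have hint : ∫ t in (0 : ℝ)..(2 * π), ψ t = 0 := by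
      rw [intervalIntegral.integral_eq_sub_of_hasDerivAt (fun t _ => hΨ t)
        (hψc.intervalIntegrable _ _)]
      have h1 := hZ.per 0
      have h2 := hVp 0
      rw [zero_add] at h1 h2
      simp only [Ψ]
      rw [h1, h2]
      ring
    have hQc : Continuous fun t => Qp (c t) (c' t) (Z' t) := by
      unfold Qp
      refine Continuous.div ?_ ?_ ?_
      · have h2 : Continuous fun t => normSq (c t) := Complex.continuous_normSq.comp hcc
        have h3 : Continuous fun t => normSq (Z' t) := Complex.continuous_normSq.comp hZ.c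
        have h4 : Continuous fun t => ((starRingEnd ℂ) (cb (c t) (c' t)) * Z' t ^ 2).re :=
          Complex.continuous_re.comp ((Complex.continuous_conj.comp hcb).mul (hZ.c.pow 2))
        exact (continuous_const.sub h2).mul ((hca.mul h3).add h4)
      · exact (hca.pow 2).sub (Complex.continuous_normSq.comp hcb)
      · intro t
        have h3 : normSq (cb (c t) (c' t)) = ‖cb (c t) (c' t)‖ ^ 2 := Complex.normSq_eq_norm_sq _
        have h4 : 0 ≤ ‖cb (c t) (c' t)‖ := norm_nonneg _
        have h5 := hG.pos t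
        have : 0 < (ca (c t) (c' t)) ^ 2 - normSq (cb (c t) (c' t)) := by
          rw [h3]
          nlinarith
        exact this.ne'
    have hold : Continuous fun t => Qp (c t) (c' t) (Z' t) - cr (Z t) (Z' t) :=
      hQc.sub (hcr _ _ hZc hZ.c)
    have hpt : ∀ t, Qp (c t) (c' t) (Z' t - PP (c t) (c' t) (V t)) -
        cr (Z t + I * V t + k0) (Z' t - PP (c t) (c' t) (V t)) =
        (Qp (c t) (c' t) (Z' t) - cr (Z t) (Z' t)) - ψ t := by
      intro t
      rw [NUL_Qp _ _ _ _ (hG.lt t) (hG.pos t)]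
      simp only [ψ]
      generalize PP (c t) (c' t) (V t) = P
      generalize V t = v
      unfold ip cr
      simp only [add_re, add_im, sub_re, sub_im, neg_re, neg_im, mul_re, mul_im, I_re, I_im,
        zero_re, zero_im]
      ring
    unfold Fc
    calc (∫ t in (0 : ℝ)..(2 * π), (Qp (c t) (c' t) (Z' t - PP (c t) (c' t) (V t)) -
        cr (Z t + I * V t + k0) (Z' t - PP (c t) (c' t) (V t))))
        = ∫ t in (0 : ℝ)..(2 * π), ((Qp (c t) (c' t) (Z' t) - cr (Z t) (Z' t)) - ψ t) := by
          congr 1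
          funext t
          exact hpt t
      _ = (∫ t in (0 : ℝ)..(2 * π), (Qp (c t) (c' t) (Z' t) - cr (Z t) (Z' t))) -
          ∫ t in (0 : ℝ)..(2 * π), ψ t :=
          intervalIntegral.integral_sub (hold.intervalIntegrable _ _) (hψc.intervalIntegrable _ _)
      _ = _ := by rw [hint, sub_zero]

end Pool.Agent.H283R2.BK
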