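import Pool.Agent.H283R2.BK.Defs

/-! OV: from the curve to its support function (helper844). -/

open Real Complex Set MeasureTheory

namespace Pool.Agent.H283R2.BK

noncomputable section

theorem OV_re (a b θ : ℝ) : ((((a : ℝ) : ℂ) + (b : ℝ) * I) * cexp ((θ : ℝ) * I)).re =
    a * Real.cos θ - b * Real.sin θ := by
  rw [Complex.exp_mul_I, ← Complex.ofReal_cos, ← Complex.ofReal_sin]
  simp only [Complex.mul_re, Complex.add_re, Complex.add_im, Complex.ofReal_re, Complex.ofReal_im,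
    Complex.mul_im, Complex.I_re, Complex.I_im]
  ring

/-- the function `f_x(s) = Re (γ(s) e^{-ix})` -/
theorem OV_deriv (γ : ℝ → ℂ) (ρ : ℝ → ℝ) (hγ : IsOval γ ρ) (x s : ℝ) :
    HasDerivAt (fun s => (γ s * cexp (-(x * I))).re) (ρ s * Real.sin (x - s)) s := by
  have h1 : HasDerivAt (fun s => γ s * cexp (-(x * I)))
      ((ρ s : ℂ) * I * cexp (s * I) * cexp (-(x * I))) s := (hγ.2.2.2 s).mul_const _
  have h2 := Complex.reCLM.hasFDerivAt.comp_hasDerivAt s h1
  have h3 : (Complex.reCLM ((ρ s : ℂ) * I * cexp (s * I) * cexp (-(x * I)))) =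
      ρ s * Real.sin (x - s) := by
    have h4 : (ρ s : ℂ) * I * cexp (s * I) * cexp (-(x * I)) =
        (((0 : ℝ) : ℂ) + (ρ s : ℝ) * I) * cexp (((s - x : ℝ) : ℂ) * I) := by
      rw [mul_assoc, ← Complex.exp_add]
      push_cast
      rw [zero_add]
      congr 2
      ring
    rw [Complex.reCLM_apply, h4, OV_re, ← neg_sub x s, Real.sin_neg]
    ring
  rw [h3] at h2
  exact h2

theorem OV_lt (γ : ℝ → ℂ) (ρ : ℝ → ℝ) (hγ : IsOval γ ρ) (x y : ℝ) (h1 : x - π ≤ y)
    (h2 : y ≤ x + π) (h3 : y ≠ x) :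
    (γ y * cexp (-(x * I))).re < (γ x * cexp (-(x * I))).re := by
  have hc : Continuous (fun s => (γ s * cexp (-(x * I))).re) :=
    continuous_iff_continuousAt.2 fun s => (OV_deriv γ ρ hγ x s).continuousAt
  rcases lt_or_gt_of_ne h3 with h | h
  · have hm : StrictMonoOn (fun s => (γ s * cexp (-(x * I))).re) (Icc (x - π) x) := by
      refine strictMonoOn_of_deriv_pos (convex_Icc _ _) hc.continuousOn fun s hs => ?_
      rw [interior_Icc] at hs
      rw [(OV_deriv γ ρ hγ x s).deriv]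
      exact mul_pos (hγ.2.2.1 s) (Real.sin_pos_of_pos_of_lt_pi (by linarith [hs.2])
        (by linarith [hs.1]))
    exact hm ⟨h1, h.le⟩ ⟨by linarith [Real.pi_pos], le_refl _⟩ h
  · have hm : StrictAntiOn (fun s => (γ s * cexp (-(x * I))).re) (Icc x (x + π)) := by
      refine strictAntiOn_of_deriv_neg (convex_Icc _ _) hc.continuousOn fun s hs => ?_
      rw [interior_Icc] at hs
      rw [(OV_deriv γ ρ hγ x s).deriv]
      have h4 : Real.sin (x - s) < 0 := Real.sin_neg_of_neg_of_neg_pi_lt (by linarith [hs.1])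
        (by linarith [hs.2])
      have h5 := hγ.2.2.1 s
      nlinarith
    exact hm ⟨le_refl _, by linarith [Real.pi_pos]⟩ ⟨h.le, h2⟩ h

theorem OV_per (γ : ℝ → ℂ) (h : ∀ s, γ (s + 2 * π) = γ s) (s : ℝ) (m : ℤ) :
    γ (s + m * (2 * π)) = γ s := by
  have h1 : Function.Periodic γ (2 * π) := h
  have h2 := h1.int_mul m s
  exact h2

theorem OV_le (γ : ℝ → ℂ) (ρ : ℝ → ℝ) (hγ : IsOval γ ρ) (x y : ℝ)
    (h : ∀ m : ℤ, y + m * (2 * π) ≠ x) :
    (γ y * cexp (-(x * I))).re < (γ x * cexp (-(x * I))).re := by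
  obtain ⟨m, hm, -⟩ := existsUnique_add_zsmul_mem_Ico (a := 2 * π) (by positivity) y (x - π)
  rw [zsmul_eq_mul] at hm
  have h1 := OV_lt γ ρ hγ x (y + m * (2 * π)) hm.1 (by linarith [hm.2]) (h m)
  rwa [OV_per γ hγ.1] at h1

theorem OV_le' (γ : ℝ → ℂ) (ρ : ℝ → ℝ) (hγ : IsOval γ ρ) (x y : ℝ) :
    (γ y * cexp (-(x * I))).re ≤ (γ x * cexp (-(x * I))).re := by
  by_cases h : ∀ m : ℤ, y + m * (2 * π) ≠ x
  · exact (OV_le γ ρ hγ x y h).le
  · push Not at h
    obtain ⟨m, hm⟩ := h
    rw [← hm, OV_per γ hγ.1]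

theorem t_OV : S_OV := by
  intro γ ρ hγ
  set o : ℂ := (γ 0 + γ π) / 2 with ho
  set w : ℝ → ℂ := fun x => (γ x - o) * cexp (-(x * I)) with hw
  have hwd : ∀ x, HasDerivAt w ((ρ x : ℂ) * I - I * w x) x := by
    intro x
    have h1 : HasDerivAt (fun x => γ x - o) ((ρ x : ℂ) * I * cexp (x * I)) x :=
      (hγ.2.2.2 x).sub_const _
    have h2 : HasDerivAt (fun x : ℝ => cexp (-((x : ℂ) * I))) (cexp (-((x : ℂ) * I)) * (-(1 * I)))
        x := by
      have h3 : HasDerivAt (fun x : ℝ => -((x : ℂ) * I)) (-(1 * I)) x :=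
        ((Complex.ofRealCLM.hasDerivAt (x := x)).mul_const I).neg
      exact h3.cexp
    have h4 := h1.mul h2
    have h5 : (ρ x : ℂ) * I * cexp (x * I) * cexp (-((x : ℂ) * I)) +
        (γ x - o) * (cexp (-((x : ℂ) * I)) * (-(1 * I))) = (ρ x : ℂ) * I - I * w x := by
      rw [mul_assoc, ← Complex.exp_add, add_neg_cancel, Complex.exp_zero, hw]
      ring
    rw [h5] at h4
    exact h4
  have hre : ∀ x, HasDerivAt (fun x => (w x).re) ((w x).im) x := by
    intro x
    have h2 := Complex.reCLM.hasFDerivAt.comp_hasDerivAt x (hwd x)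
    have h3 : Complex.reCLM ((ρ x : ℂ) * I - I * w x) = (w x).im := by
      simp
    rw [h3] at h2
    exact h2
  have him : ∀ x, HasDerivAt (fun x => (w x).im) (ρ x - (w x).re) x := by
    intro x
    have h2 := Complex.imCLM.hasFDerivAt.comp_hasDerivAt x (hwd x)
    have h3 : Complex.imCLM ((ρ x : ℂ) * I - I * w x) = ρ x - (w x).re := by
      simp
    rw [h3] at h2
    exact h2
  have hwp : ∀ x, w (x + 2 * π) = w x := by
    intro x
    rw [hw]
    simp only []
    rw [hγ.1]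
    congr 1
    rw [Complex.exp_eq_exp_iff_exists_int]
    refine ⟨-1, ?_⟩
    push_cast
    ring
  have hrep : ∀ x, γ x = o + (((w x).re : ℂ) + (w x).im * I) * cexp (x * I) := by
    intro x
    rw [Complex.re_add_im, hw]
    simp only []
    rw [mul_assoc, ← Complex.exp_add, neg_add_cancel, Complex.exp_zero]
    ring
  have hsup : Sup (fun x => (w x).re) (fun x => (w x).im) ρ := by
    refine ⟨hre, him, hγ.2.1, hγ.2.2.1, fun x => ?_, fun x => ?_, fun x => ?_⟩
    · change (w (x + 2 * π)).re = (w x).re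
      rw [hwp]
    · change (w (x + 2 * π)).im = (w x).im
      rw [hwp]
    · have h1 : HasDerivAt (fun x => (w (x + 2 * π)).im) (ρ (x + 2 * π) - (w (x + 2 * π)).re) x :=
        (him (x + 2 * π)).comp_add_const x (2 * π)
      have h2 : (fun x => (w (x + 2 * π)).im) = fun x => (w x).im := by
        funext x
        rw [hwp]
      rw [h2, hwp] at h1
      have h3 := h1.unique (him x)
      linarith
  have hpos : ∀ x, 0 < (w x).re := by
    intro x
    have h1 : (w x).re = (((γ x * cexp (-(x * I))).re - (γ 0 * cexp (-(x * I))).re) +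
        ((γ x * cexp (-(x * I))).re - (γ π * cexp (-(x * I))).re)) / 2 := by
      have h2 : w x = (((γ x * cexp (-(x * I))) - (γ 0 * cexp (-(x * I)))) +
        ((γ x * cexp (-(x * I))) - (γ π * cexp (-(x * I))))) / 2 := by
        rw [hw, ho]
        ring
      rw [h2]
      simp
    rw [h1]
    have h3 := OV_le' γ ρ hγ x 0
    have h4 := OV_le' γ ρ hγ x π
    by_cases h0 : ∀ m : ℤ, (0 : ℝ) + m * (2 * π) ≠ x
    · have h5 := OV_le γ ρ hγ x 0 h0
      linarith
    · push Not at h0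
      obtain ⟨m, hm⟩ := h0
      have h5 : ∀ n : ℤ, π + n * (2 * π) ≠ x := by
        intro n hn
        have h6 : (1 : ℝ) + 2 * n = 2 * m := by
          have hpi := Real.pi_pos
          have h7 : π * (1 + 2 * n) = π * (2 * m) := by linarith
          exact mul_left_cancel₀ hpi.ne' h7
        have h8 : (1 : ℤ) + 2 * n = 2 * m := by exact_mod_cast h6
        omega
      have h6 := OV_le γ ρ hγ x π h5
      linarith
  have hsupp : ∀ ψ y : ℝ, support (γ ψ) y = (o * cexp (-(y * I))).re +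
      ((w ψ).re * Real.cos (ψ - y) - (w ψ).im * Real.sin (ψ - y)) := by
    intro ψ y
    unfold support
    have h1 : γ ψ * cexp (-(y * I)) = o * cexp (-(y * I)) +
        ((((w ψ).re : ℝ) : ℂ) + ((w ψ).im : ℝ) * I) * cexp (((ψ - y : ℝ) : ℂ) * I) := by
      conv_lhs => rw [hrep ψ]
      rw [add_mul, mul_assoc _ (cexp (ψ * I)), ← Complex.exp_add]
      congr 3
      push_cast
      ring
    rw [h1, Complex.add_re, OV_re]
  have hst : ∀ x y z : ℝ, (support (γ ((x + y) / 2)) y = support (γ ((y + z) / 2)) y) ↔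
      (Bm (fun x => (w x).re) (fun x => (w x).im) x y =
        Am (fun x => (w x).re) (fun x => (w x).im) y z) := by
    intro x y z
    rw [hsupp, hsupp]
    unfold Bm Am
    have e1 : (x + y) / 2 - y = -((y - x) / 2) := by ring
    have e2 : (y + z) / 2 - y = (z - y) / 2 := by ring
    rw [e1, e2, Real.cos_neg, Real.sin_neg]
    simp only []
    constructor
    · intro h
      linarith
    · intro h
      linarith
  refine ⟨o, fun x => (w x).re, fun x => (w x).im, hsup, hpos, hrep, ?_, ?_⟩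
  · rintro g ⟨h1, h2, h3, h4, h5⟩
    exact ⟨h1, h2, h3, fun x => (h4 x).1, fun x => (h4 x).2, fun x => (hst _ _ _).1 (h5 x)⟩
  · intro g hg
    exact ⟨hg.cont, hg.mono, hg.per, fun x => ⟨hg.lo x, hg.hi x⟩, fun x => (hst _ _ _).2 (hg.st x)⟩

end

end Pool.Agent.H283R2.BK
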