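import Pool.Agent.H283R2.BK.Defs

/-!
# Task PAR: parametrisation of the triangles by the sum of the angles
-/

open Real Set Filter Topology

namespace Pool.Agent.H283R2.BK

noncomputable section

theorem t_PAR : S_PAR := by
  intro g g' hg cg pg per per3 lo hi
  have gc : Continuous g := continuous_iff_continuousAt.2 (fun x => (hg x).continuousAt)
  obtain ⟨T, hTdef⟩ : ∃ T : ℝ → ℝ, ∀ x, T x = x + g x + g (g x) := ⟨_, fun x => rfl⟩
  obtain ⟨T', hT'def⟩ : ∃ T' : ℝ → ℝ, ∀ x, T' x = 1 + g' x + g' (g x) * g' x := ⟨_, fun x => rfl⟩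
  have hT : ∀ x, HasDerivAt T (T' x) x := by
    intro x
    have h1 : HasDerivAt (fun x => x + g x + g (g x)) (1 + g' x + g' (g x) * g' x) x :=
      ((hasDerivAt_id x).add (hg x)).add ((hg (g x)).comp x (hg x))
    have h2 : T = fun x => x + g x + g (g x) := funext hTdef
    rw [h2, hT'def]
    exact h1
  have hT'pos : ∀ x, 0 < T' x := by
    intro x
    rw [hT'def]
    have h1 := pg x
    have h2 := pg (g x)
    positivity
  have cT' : Continuous T' := by
    have h2 : T' = fun x => 1 + g' x + g' (g x) * g' x := funext hT'def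
    rw [h2]
    exact (continuous_const.add cg).add ((cg.comp gc).mul cg)
  have cT : Continuous T := continuous_iff_continuousAt.2 (fun x => (hT x).continuousAt)
  have mT : StrictMono T := strictMono_of_hasDerivAt_pos hT hT'pos
  have tT : Tendsto T atTop atTop := by
    refine tendsto_atTop_mono (f := fun x : ℝ => 3 * x) (fun x => ?_)
      (tendsto_id.const_mul_atTop (show (0 : ℝ) < 3 by norm_num))
    rw [hTdef]
    have h1 := lo x
    have h2 := lo (g x)
    linarith
  have bT : Tendsto T atBot atBot := by
    refine tendsto_atBot_mono (f := fun x : ℝ => 3 * x + 3 * π) (fun x => ?_)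
      (tendsto_atBot_add_const_right _ _
        (tendsto_id.const_mul_atBot (show (0 : ℝ) < 3 by norm_num)))
    rw [hTdef]
    have h1 := hi x
    have h2 := hi (g x)
    linarith
  have sT : Function.Surjective T := cT.surjective tT bT
  set e : ℝ ≃o ℝ := StrictMono.orderIsoOfSurjective T mT sT with he
  obtain ⟨X, hXdef⟩ : ∃ X : ℝ → ℝ, X = e.symm := ⟨_, rfl⟩
  have cX : Continuous X := by
    rw [hXdef]
    exact e.symm.continuous
  have TX : ∀ t, T (X t) = t := by
    intro t
    rw [hXdef]
    exact e.apply_symm_apply t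
  have dX : ∀ t, HasDerivAt X (T' (X t))⁻¹ t := fun t =>
    HasDerivAt.of_local_left_inverse cX.continuousAt (hT (X t)) (hT'pos (X t)).ne'
      (Eventually.of_forall TX)
  have hs : ∀ t, X (t + 2 * π) = g (X t) := by
    intro t
    apply mT.injective
    rw [TX]
    have h1 := hTdef (g (X t))
    have h2 := hTdef (X t)
    have h3 := TX t
    have h4 := per3 (X t)
    linarith
  refine ⟨⟨X, fun t => g (X t), fun t => g (g (X t)), fun t => (T' (X t))⁻¹,
    fun t => g' (X t) * (T' (X t))⁻¹, fun t => g' (g (X t)) * (g' (X t) * (T' (X t))⁻¹)⟩, ?_, ?_⟩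
  · have cp1 : Continuous (fun t => (T' (X t))⁻¹) :=
      (cT'.comp cX).inv₀ (fun t => (hT'pos (X t)).ne')
    have cp2 : Continuous (fun t => g' (X t) * (T' (X t))⁻¹) := (cg.comp cX).mul cp1
    constructor
    · exact dX
    · intro t
      exact (hg (X t)).comp t (dX t)
    · intro t
      have h1 : HasDerivAt (fun t => g (X t)) (g' (X t) * (T' (X t))⁻¹) t :=
        (hg (X t)).comp t (dX t)
      exact HasDerivAt.comp (h₂ := g) t (hg (g (X t))) h1
    · exact cp1
    · exact cp2
    · exact (cg.comp (gc.comp cX)).mul cp2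
    · intro t
      exact inv_pos.2 (hT'pos (X t))
    · intro t
      exact mul_pos (pg _) (inv_pos.2 (hT'pos (X t)))
    · intro t
      exact mul_pos (pg _) (mul_pos (pg _) (inv_pos.2 (hT'pos (X t))))
    · intro t
      have h2 := hTdef (X t)
      have h3 := TX t
      show X t + g (X t) + g (g (X t)) = t
      linarith
    · intro t
      exact lo _
    · intro t
      exact lo _
    · intro t
      show g (g (X t)) < X t + 2 * π
      rw [← per3 (X t)]
      exact lo _
    · intro t
      exact hi _
    · intro t
      exact hi _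
    · intro t
      show X t + 2 * π < g (g (X t)) + π
      rw [← per3 (X t)]
      exact hi _
    · exact hs
    · intro t
      show g (X (t + 2 * π)) = g (g (X t))
      rw [hs]
    · intro t
      show g (g (X (t + 2 * π))) = X t + 2 * π
      rw [hs, per3]
  · intro t
    exact ⟨rfl, rfl, per3 (X t)⟩

end

end Pool.Agent.H283R2.BK
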