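import Pool.Agent.H283R2.BK.Defs

/-! PW: the pointwise inequality. -/

open Real Complex Set MeasureTheory

namespace Pool.Agent.H283R2.BK

noncomputable section

lemma PW_en_re (x : ℝ) : (en x).re = Real.cos x := by
  simp [en, Complex.exp_ofReal_mul_I_re]

lemma PW_en_im (x : ℝ) : (en x).im = Real.sin x := by
  simp [en, Complex.exp_ofReal_mul_I_im]

lemma PW_cr_en (x y : ℝ) : cr (en x) (en y) = Real.sin (y - x) := by
  simp only [cr, PW_en_re, PW_en_im, Real.sin_sub]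
  ring

lemma PW_ip_PP (c c' y : ℂ) : ip y (PP c c' y) =
    (ca c c' * normSq y - (cb c c' * ((starRingEnd ℂ) y) ^ 2).re) / (1 - normSq c) := by
  unfold PP ip
  rw [Complex.div_ofReal_re, Complex.div_ofReal_im, mul_div_assoc', mul_div_assoc', ← add_div]
  congr 1
  simp only [Complex.sub_re, Complex.sub_im, Complex.mul_re, Complex.mul_im, Complex.ofReal_re,
    Complex.ofReal_im, Complex.conj_re, Complex.conj_im, pow_two, Complex.normSq_apply]
  ring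

/-- the inverse of `P'` -/
def PWinv (c c' w : ℂ) : ℂ :=
  (((1 - normSq c) / ((ca c c') ^ 2 - normSq (cb c c')) : ℝ) : ℂ) *
    ((ca c c' : ℂ) * w + cb c c' * (starRingEnd ℂ) w)

lemma PW_ip_inv (c c' w : ℂ) : ip w (PWinv c c' w) = Qp c c' w := by
  unfold PWinv Qp ip
  rw [Complex.re_ofReal_mul, Complex.im_ofReal_mul]
  simp only [Complex.add_re, Complex.add_im, Complex.mul_re, Complex.mul_im, Complex.ofReal_re,
    Complex.ofReal_im, Complex.conj_re, Complex.conj_im, pow_two, Complex.normSq_apply]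
  ring

lemma PW_PP_inv (c c' w : ℂ) (h1 : normSq c < 1) (h2 : ‖cb c c'‖ < ca c c') :
    PP c c' (PWinv c c' w) = w := by
  have h3 : normSq (cb c c') < ca c c' ^ 2 := by
    rw [Complex.normSq_eq_norm_sq]
    exact pow_lt_pow_left₀ h2 (norm_nonneg _) two_ne_zero
  have h4 : (((1 - normSq c : ℝ)) : ℂ) ≠ 0 := by
    rw [Complex.ofReal_ne_zero]; linarith
  have h6 : (starRingEnd ℂ) (cb c c') * cb c c' = ((normSq (cb c c') : ℝ) : ℂ) := by
    rw [mul_comm, Complex.mul_conj]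
  have h7 : (ca c c' : ℂ) * (ca c c' * w + cb c c' * (starRingEnd ℂ) w)
      - cb c c' * (ca c c' * (starRingEnd ℂ) w + (starRingEnd ℂ) (cb c c') * w) =
      w * ((ca c c' ^ 2 - normSq (cb c c') : ℝ) : ℂ) := by
    rw [Complex.ofReal_sub, Complex.ofReal_pow, ← h6]; ring
  have h8 : (((1 - normSq c) / ((ca c c') ^ 2 - normSq (cb c c')) : ℝ) : ℂ) *
      ((ca c c' ^ 2 - normSq (cb c c') : ℝ) : ℂ) = ((1 - normSq c : ℝ) : ℂ) := by
    rw [← Complex.ofReal_mul, div_mul_cancel₀ _ (by linarith)]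
  unfold PP PWinv
  rw [map_mul, Complex.conj_ofReal, map_add, map_mul, map_mul, Complex.conj_conj,
    Complex.conj_ofReal, div_eq_iff h4, ← h8]
  linear_combination (((1 - normSq c) / ((ca c c') ^ 2 - normSq (cb c c')) : ℝ) : ℂ) * h7

lemma PW_sin_sum (s2 s3 g1 g2 g3 : ℝ) (n1 n2 n3 y : ℂ) (s1 : ℝ) (hs3 : 0 < s3)
    (h12 : cr n1 n2 = -s3) (h13 : cr n1 n3 = s2) (h23 : cr n2 n3 = -s1)
    (e1 : cr n1 y = s2 * s3 * (g3 - g2)) (e2 : cr n2 y = s1 * s3 * (g1 - g3)) (w : ℂ) :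
    s1 * g1 * ip w n1 + s2 * g2 * ip w n2 + s3 * g3 * ip w n3 = ip w y := by
  have hx : cr n1 ⟨s1 * g1 * n1.re + s2 * g2 * n2.re + s3 * g3 * n3.re - y.re,
      s1 * g1 * n1.im + s2 * g2 * n2.im + s3 * g3 * n3.im - y.im⟩ = 0 := by
    simp only [cr] at h12 h13 h23 e1 e2 ⊢
    linear_combination s2 * g2 * h12 + s3 * g3 * h13 - e1
  have hy : cr n2 ⟨s1 * g1 * n1.re + s2 * g2 * n2.re + s3 * g3 * n3.re - y.re,
      s1 * g1 * n1.im + s2 * g2 * n2.im + s3 * g3 * n3.im - y.im⟩ = 0 := by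
    simp only [cr] at h12 h13 h23 e1 e2 ⊢
    linear_combination (-(s1 * g1)) * h12 + s3 * g3 * h23 - e2
  simp only [cr] at h12 hx hy
  set X := s1 * g1 * n1.re + s2 * g2 * n2.re + s3 * g3 * n3.re - y.re with hX
  set Y := s1 * g1 * n1.im + s2 * g2 * n2.im + s3 * g3 * n3.im - y.im with hY
  have h0 : X = 0 := by
    have : s3 * X = 0 := by linear_combination X * h12 + n1.re * hy - n2.re * hx
    exact (mul_eq_zero.mp this).resolve_left hs3.ne'
  have h0' : Y = 0 := by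
    have : s3 * Y = 0 := by linear_combination Y * h12 + n1.im * hy - n2.im * hx
    exact (mul_eq_zero.mp this).resolve_left hs3.ne'
  simp only [ip]
  linear_combination w.re * h0 + w.im * h0'

/-- Cauchy-Schwarz for one term -/
lemma PW_amgm {l w t c : ℝ} (hl : 0 < l) (hw : 0 < w) :
    2 * (t * c) - 2 * w * c ^ 2 / l ≤ l / (2 * w) * t ^ 2 := by
  have h : l / (2 * w) * t ^ 2 - (2 * (t * c) - 2 * w * c ^ 2 / l) =
      l / (2 * w) * (t - 2 * w * c / l) ^ 2 := by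
    field_simp
    ring
  have h2 : 0 ≤ l / (2 * w) * (t - 2 * w * c / l) ^ 2 := by positivity
  linarith

lemma PW_core (h1 : S_EL) (h2 : S_V3) (h3 : S_PW1) (h4 : S_PW2)
    (A1 A2 A3 u1 u2 u3 w1 w2 w3 : ℝ) (hA1 : 0 < A1) (hA2 : 0 < A2) (hA3 : 0 < A3)
    (hA : A1 + A2 + A3 = π) (hu12 : u1 - u2 = π - A3) (hu23 : u2 - u3 = π - A1)
    (hw : w1 + w2 + w3 = 2) (hw1 : w1 < 1) (hw2 : w2 < 1) (hw3 : w3 < 1) (y : ℂ) (hy : y ≠ 0) :
    ∃ g1 g2 g3 : ℝ,
      cr (en u1) y = Real.sin A2 * Real.sin A3 * (g3 - g2) ∧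
      cr (en u2) y = Real.sin A1 * Real.sin A3 * (g1 - g3) ∧
      2 * w1 * (Real.sin A1 * g1) ^ 2 / el A1 + 2 * w2 * (Real.sin A2 * g2) ^ 2 / el A2
        + 2 * w3 * (Real.sin A3 * g3) ^ 2 / el A3 <
      ip y (PP (cen A1 A2 A3 u1 u2 u3) (cend A1 A2 A3 u1 u2 u3 w1 w2 w3) y) := by
  have hs1 : 0 < Real.sin A1 := Real.sin_pos_of_pos_of_lt_pi hA1 (by linarith)
  have hs2 : 0 < Real.sin A2 := Real.sin_pos_of_pos_of_lt_pi hA2 (by linarith)
  have hs3 : 0 < Real.sin A3 := Real.sin_pos_of_pos_of_lt_pi hA3 (by linarith)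
  have hl1 : 0 < el A1 := (h1.1 A1 hA1 (by linarith)).1
  have hl2 : 0 < el A2 := (h1.1 A2 hA2 (by linarith)).1
  have hl3 : 0 < el A3 := (h1.1 A3 hA3 (by linarith)).1
  have ha1 : 0 < aa A1 := by unfold aa; positivity
  have ha2 : 0 < aa A2 := by unfold aa; positivity
  have ha3 : 0 < aa A3 := by unfold aa; positivity
  set z1 := cr (en u1) y / (Real.sin A2 * Real.sin A3) with hz1
  set z2 := cr (en u2) y / (Real.sin A1 * Real.sin A3) with hz2
  set z3 := cr (en u3) y / (Real.sin A1 * Real.sin A2) with hz3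
  obtain ⟨hz, hN, -, hP⟩ := h3 A1 A2 A3 u1 u2 u3 w1 w2 w3 z1 z2 z3 y hA1 hA2 hA3 hA hu12 hu23 hw
    hz1 hz2 hz3
  rw [h4 A1 A2 A3 w1 w2 w3 z1 z2 z3 hA1 hA2 hA3 hA hw hz] at hP
  have hNp : 0 < Nz A1 A2 A3 z1 z2 z3 := by rw [hN]; exact Complex.normSq_pos.mpr hy
  have hne : ¬ (z1 = 0 ∧ z2 = 0 ∧ z3 = 0) := by
    rintro ⟨e1, e2, e3⟩
    rw [e1, e2, e3] at hNp
    simp [Nz] at hNp
  have v3 : 0 < V3 A1 A2 A3 z1 z2 z3 := h2 A1 A2 A3 z1 z2 z3 hA1 hA2 hA3 hA hz (by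
    by_contra hcon
    push Not at hcon
    exact hne ⟨hcon.1, hcon.2, by linarith [hcon.1, hcon.2]⟩)
  have v1 : 0 < V3 A2 A3 A1 z2 z3 z1 := h2 A2 A3 A1 z2 z3 z1 hA2 hA3 hA1 (by linarith)
    (by linarith) (by
    by_contra hcon
    push Not at hcon
    exact hne ⟨by linarith [hcon.1, hcon.2], hcon.1, hcon.2⟩)
  have v2 : 0 < V3 A3 A1 A2 z3 z1 z2 := h2 A3 A1 A2 z3 z1 z2 hA3 hA1 hA2 (by linarith)
    (by linarith) (by
    by_contra hcon
    push Not at hcon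
    exact hne ⟨hcon.2, by linarith [hcon.1, hcon.2], hcon.1⟩)
  set T := aa A1 * aa A2 + aa A2 * aa A3 + aa A1 * aa A3 with hT
  have hTp : 0 < T := by positivity
  have hrest : 0 < (1 - w1) * V3 A2 A3 A1 z2 z3 z1 + (1 - w2) * V3 A3 A1 A2 z3 z1 z2
      + (1 - w3) * V3 A1 A2 A3 z1 z2 z3 := by
    have i1 := mul_pos (by linarith : 0 < 1 - w1) v1
    have i2 := mul_pos (by linarith : 0 < 1 - w2) v2
    have i3 := mul_pos (by linarith : 0 < 1 - w3) v3
    linarith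
  refine ⟨aa A1 * (aa A2 * z2 - aa A3 * z3) / T, aa A2 * (aa A3 * z3 - aa A1 * z1) / T,
    aa A3 * (aa A1 * z1 - aa A2 * z2) / T, ?_, ?_, ?_⟩
  · have e : aa A3 * (aa A1 * z1 - aa A2 * z2) / T - aa A2 * (aa A3 * z3 - aa A1 * z1) / T = z1 := by
      rw [← sub_div, div_eq_iff hTp.ne', hT]
      linear_combination (-(aa A2 * aa A3)) * hz
    rw [e, hz1]
    field_simp
  · have e : aa A1 * (aa A2 * z2 - aa A3 * z3) / T - aa A3 * (aa A1 * z1 - aa A2 * z2) / T = z2 := by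
      rw [← sub_div, div_eq_iff hTp.ne', hT]
      linear_combination (-(aa A1 * aa A3)) * hz
    rw [e, hz2]
    field_simp
  · have k1 : ∀ A : ℝ, 0 < Real.sin A → 0 < el A → ∀ w q : ℝ,
        2 * w * (Real.sin A * (aa A * q / T)) ^ 2 / el A = 2 / T ^ 2 * (w * aa A * q ^ 2) := by
      intro A hA hl w q
      unfold aa
      field_simp
    rw [k1 A1 hs1 hl1, k1 A2 hs2 hl2, k1 A3 hs3 hl3]
    have hfin : ip y (PP (cen A1 A2 A3 u1 u2 u3) (cend A1 A2 A3 u1 u2 u3 w1 w2 w3) y) =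
        2 / T ^ 2 * (w1 * aa A1 * (aa A2 * z2 - aa A3 * z3) ^ 2 + w2 * aa A2 *
          (aa A3 * z3 - aa A1 * z1) ^ 2 + w3 * aa A3 * (aa A1 * z1 - aa A2 * z2) ^ 2)
        + ((1 - w1) * V3 A2 A3 A1 z2 z3 z1 + (1 - w2) * V3 A3 A1 A2 z3 z1 z2
      + (1 - w3) * V3 A1 A2 A3 z1 z2 z3) / T := by
      rw [← eq_div_iff hTp.ne'] at hP
      rw [hP]
      field_simp
      ring
    rw [hfin]
    have := div_pos hrest hTp
    linarith

theorem t_PW (h1 : S_EL) (h2 : S_V3) (h3 : S_PW1) (h4 : S_PW2) : S_PW := by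
  intro A1 A2 A3 u1 u2 u3 w1 w2 w3 hA1 hA2 hA3 hA hu12 hu23 hw hw1 hw1' hw2 hw2' hw3 hw3'
  have hs3 : 0 < Real.sin A3 := Real.sin_pos_of_pos_of_lt_pi hA3 (by linarith)
  have hl1 : 0 < el A1 := (h1.1 A1 hA1 (by linarith)).1
  have hl2 : 0 < el A2 := (h1.1 A2 hA2 (by linarith)).1
  have hl3 : 0 < el A3 := (h1.1 A3 hA3 (by linarith)).1
  have hc : normSq (cen A1 A2 A3 u1 u2 u3) < 1 :=
    (h3 A1 A2 A3 u1 u2 u3 w1 w2 w3 _ _ _ 1 hA1 hA2 hA3 hA hu12 hu23 hw rfl rfl rfl).2.2.1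
  have core := PW_core h1 h2 h3 h4 A1 A2 A3 u1 u2 u3 w1 w2 w3 hA1 hA2 hA3 hA hu12 hu23 hw hw1'
    hw2' hw3'
  set c := cen A1 A2 A3 u1 u2 u3 with hcdef
  set c' := cend A1 A2 A3 u1 u2 u3 w1 w2 w3 with hc'def
  have hposd : ∀ y : ℂ, y ≠ 0 → 0 < ip y (PP c c' y) := by
    intro y hy
    obtain ⟨g1, g2, g3, -, -, h⟩ := core y hy
    refine lt_of_le_of_lt ?_ h
    positivity
  have hpos2 : ∀ y : ℂ, y ≠ 0 → 0 < ca c c' * normSq y - (cb c c' * ((starRingEnd ℂ) y) ^ 2).re := by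
    intro y hy
    have := hposd y hy
    rw [PW_ip_PP] at this
    rcases (div_pos_iff.mp this) with h | h
    · exact h.1
    · linarith [h.2]
  have hcab : ‖cb c c'‖ < ca c c' := by
    by_cases h0 : cb c c' = 0
    · have := hpos2 1 one_ne_zero
      rw [h0] at this ⊢
      simpa using this
    · obtain ⟨y, hy⟩ := IsAlgClosed.exists_pow_nat_eq (cb c c') (n := 2) (by norm_num)
      have hy0 : y ≠ 0 := by
        rintro rfl
        apply h0
        rw [← hy]; simp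
      have h5 := hpos2 y hy0
      have hn : normSq y = ‖cb c c'‖ := by
        rw [← hy, norm_pow, Complex.normSq_eq_norm_sq]
      have hr : (cb c c' * ((starRingEnd ℂ) y) ^ 2).re = ‖cb c c'‖ ^ 2 := by
        rw [← map_pow, hy, Complex.mul_conj, Complex.ofReal_re, Complex.normSq_eq_norm_sq]
      rw [hn, hr] at h5
      have h6 : 0 < ‖cb c c'‖ := norm_pos_iff.mpr h0
      have h7 : 0 < (ca c c' - ‖cb c c'‖) * ‖cb c c'‖ := by nlinarith
      have := (pos_iff_pos_of_mul_pos h7).mpr h6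
      linarith
  refine ⟨hc, hcab, ?_⟩
  intro w hw0
  have hPy := PW_PP_inv c c' w hc hcab
  set y := PWinv c c' w with hy
  have hy0 : y ≠ 0 := by
    intro h
    rw [h] at hPy
    apply hw0
    rw [← hPy]
    simp [PP]
  obtain ⟨g1, g2, g3, e1, e2, hlt⟩ := core y hy0
  rw [hPy] at hlt
  have hcomm : ip y w = ip w y := by simp only [ip]; ring
  have hQ : ip w y = Qp c c' w := PW_ip_inv c c' w
  rw [hcomm, hQ] at hlt
  have h12 : cr (en u1) (en u2) = -Real.sin A3 := by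
    rw [PW_cr_en, show u2 - u1 = -(π - A3) by linarith, Real.sin_neg, Real.sin_pi_sub]
  have h23 : cr (en u2) (en u3) = -Real.sin A1 := by
    rw [PW_cr_en, show u3 - u2 = -(π - A1) by linarith, Real.sin_neg, Real.sin_pi_sub]
  have h13 : cr (en u1) (en u3) = Real.sin A2 := by
    rw [PW_cr_en, show u3 - u1 = -(A2 + π) by linarith, Real.sin_neg, Real.sin_add_pi, neg_neg]
  have hsum := PW_sin_sum (Real.sin A2) (Real.sin A3) g1 g2 g3 (en u1) (en u2) (en u3) y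
    (Real.sin A1) hs3 h12 h13 h23 e1 e2 w
  rw [hQ] at hsum
  have i1 := PW_amgm (t := ip w (en u1)) (c := Real.sin A1 * g1) hl1 hw1
  have i2 := PW_amgm (t := ip w (en u2)) (c := Real.sin A2 * g2) hl2 hw2
  have i3 := PW_amgm (t := ip w (en u3)) (c := Real.sin A3 * g3) hl3 hw3
  linarith

end

end Pool.Agent.H283R2.BK
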