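import Pool.Agent.H283R2.BK.Defs

/-!
# PW1: the identity for `⟨y, P' y⟩`
-/

open Real Complex Set MeasureTheory

namespace Pool.Agent.H283R2.BK

noncomputable section

theorem PW1_en_re (x : ℝ) : (en x).re = Real.cos x := by
  unfold en
  rw [Complex.exp_ofReal_mul_I_re]

theorem PW1_en_im (x : ℝ) : (en x).im = Real.sin x := by
  unfold en
  rw [Complex.exp_ofReal_mul_I_im]

/-- numerator of `⟨y, P' y⟩` -/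
theorem PW1_ip (c c' y : ℂ) :
    ip y (PP c c' y) = ((2 * (1 + (c.re ^ 2 + c.im ^ 2)) + (c.im * c'.re - c.re * c'.im)) *
      (y.re ^ 2 + y.im ^ 2) - (4 * c.re - c'.im) * (y.re ^ 2 - y.im ^ 2)
      - 2 * (4 * c.im + c'.re) * (y.re * y.im)) / (1 - (c.re ^ 2 + c.im ^ 2)) := by
  have h1 : normSq c = c.re ^ 2 + c.im ^ 2 := by rw [normSq_apply]; ring
  have hre : (PP c c' y).re = (ca c c' * y.re - ((4 * c.re - c'.im) * y.re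
      + (4 * c.im + c'.re) * y.im)) / (1 - normSq c) := by
    unfold PP
    rw [Complex.div_ofReal_re]
    congr 1
    unfold cb
    simp
    exact Or.inl (by ring)
  have him : (PP c c' y).im = (ca c c' * y.im - ((4 * c.im + c'.re) * y.re
      - (4 * c.re - c'.im) * y.im)) / (1 - normSq c) := by
    unfold PP
    rw [Complex.div_ofReal_im]
    congr 1
    unfold cb
    simp
    ring
  have hca : ca c c' = 2 * (1 + (c.re ^ 2 + c.im ^ 2)) + (c.im * c'.re - c.re * c'.im) := by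
    unfold ca
    rw [h1]
    simp
    ring
  unfold ip
  rw [hre, him, hca, h1]
  ring

/-- the polynomial identity -/
theorem PW1_pol (P1 Q1 P2 Q2 P3 Q3 l1 l2 l3 m1 m2 m3 w1 w2 w3 S1 S2 S3 C1 C2 C3 x1 x2 x3 e1 e2 e3
    Y1 Y2 : ℝ) (hw : w1 + w2 + w3 = 2)
    (h1 : P1 ^ 2 + Q1 ^ 2 = 1) (h2 : P2 ^ 2 + Q2 ^ 2 = 1) (h3 : P3 ^ 2 + Q3 ^ 2 = 1)
    (r12 : P1 * P2 + Q1 * Q2 = 1 - 2 * S3 ^ 2) (r23 : P2 * P3 + Q2 * Q3 = 1 - 2 * S1 ^ 2)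
    (r31 : P3 * P1 + Q3 * Q1 = 1 - 2 * S2 ^ 2)
    (i12 : Q1 * P2 - P1 * Q2 = -(2 * S3 * C3)) (i23 : Q2 * P3 - P2 * Q3 = -(2 * S1 * C1))
    (i31 : Q3 * P1 - P3 * Q1 = -(2 * S2 * C2))
    (a1 : P1 * (Y1 ^ 2 - Y2 ^ 2) + 2 * Q1 * (Y1 * Y2) = (Y1 ^ 2 + Y2 ^ 2) - 2 * x1 ^ 2)
    (a2 : P2 * (Y1 ^ 2 - Y2 ^ 2) + 2 * Q2 * (Y1 * Y2) = (Y1 ^ 2 + Y2 ^ 2) - 2 * x2 ^ 2)
    (a3 : P3 * (Y1 ^ 2 - Y2 ^ 2) + 2 * Q3 * (Y1 * Y2) = (Y1 ^ 2 + Y2 ^ 2) - 2 * x3 ^ 2)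
    (b1 : Q1 * (Y1 ^ 2 - Y2 ^ 2) - 2 * P1 * (Y1 * Y2) = -(2 * e1))
    (b2 : Q2 * (Y1 ^ 2 - Y2 ^ 2) - 2 * P2 * (Y1 * Y2) = -(2 * e2))
    (b3 : Q3 * (Y1 ^ 2 - Y2 ^ 2) - 2 * P3 * (Y1 * Y2) = -(2 * e3))
    (t12 : (Y1 ^ 2 + Y2 ^ 2) * (S3 * C3) - (e1 - e2) = -(2 * S3 * x1 * x2))
    (t23 : (Y1 ^ 2 + Y2 ^ 2) * (S1 * C1) - (e2 - e3) = -(2 * S1 * x2 * x3))
    (t31 : (Y1 ^ 2 + Y2 ^ 2) * (S2 * C2) - (e3 - e1) = -(2 * S2 * x3 * x1)) :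
    2 * ((l1 + l2 + l3) ^ 2 + (l1 * P1 + l2 * P2 + l3 * P3) ^ 2
        + (l1 * Q1 + l2 * Q2 + l3 * Q3) ^ 2) * (Y1 ^ 2 + Y2 ^ 2)
      + ((l1 * Q1 + l2 * Q2 + l3 * Q3) * ((m1 * P1 - 2 * w1 * l1 * Q1)
          + (m2 * P2 - 2 * w2 * l2 * Q2) + (m3 * P3 - 2 * w3 * l3 * Q3))
        - (l1 * P1 + l2 * P2 + l3 * P3) * ((m1 * Q1 + 2 * w1 * l1 * P1)
          + (m2 * Q2 + 2 * w2 * l2 * P2) + (m3 * Q3 + 2 * w3 * l3 * P3))) * (Y1 ^ 2 + Y2 ^ 2)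
      - (l1 + l2 + l3) * 4 * ((l1 * P1 + l2 * P2 + l3 * P3) * (Y1 ^ 2 - Y2 ^ 2)
        + 2 * (l1 * Q1 + l2 * Q2 + l3 * Q3) * (Y1 * Y2))
      + (l1 + l2 + l3) * (((m1 * Q1 + 2 * w1 * l1 * P1)
          + (m2 * Q2 + 2 * w2 * l2 * P2) + (m3 * Q3 + 2 * w3 * l3 * P3)) * (Y1 ^ 2 - Y2 ^ 2)
        - 2 * ((m1 * P1 - 2 * w1 * l1 * Q1)
          + (m2 * P2 - 2 * w2 * l2 * Q2) + (m3 * P3 - 2 * w3 * l3 * Q3)) * (Y1 * Y2))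
      - (m1 + m2 + m3) * ((l1 * Q1 + l2 * Q2 + l3 * Q3) * (Y1 ^ 2 - Y2 ^ 2)
        - 2 * (l1 * P1 + l2 * P2 + l3 * P3) * (Y1 * Y2))
    = 4 * ((l1 + l2 + l3) * ((2 - w1) * l1 * x1 ^ 2 + (2 - w2) * l2 * x2 ^ 2
        + (2 - w3) * l3 * x3 ^ 2)
      - (w1 * (l2 * l3 * S1 ^ 2) + w2 * (l1 * l3 * S2 ^ 2) + w3 * (l1 * l2 * S3 ^ 2))
        * (Y1 ^ 2 + Y2 ^ 2)
      - ((m1 * l2 - l1 * m2) * (S3 * x1 * x2) + (m2 * l3 - l2 * m3) * (S1 * x2 * x3)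
        + (m3 * l1 - l3 * m1) * (S2 * x3 * x1))) := by
  linear_combination (2 * l1 ^ 2 - 2 * w1 * l1 ^ 2) * (Y1 ^ 2 + Y2 ^ 2) * h1
    + (2 * l2 ^ 2 - 2 * w2 * l2 ^ 2) * (Y1 ^ 2 + Y2 ^ 2) * h2
    + (2 * l3 ^ 2 - 2 * w3 * l3 ^ 2) * (Y1 ^ 2 + Y2 ^ 2) * h3
    + (4 * l1 * l2 - 2 * (w1 + w2) * l1 * l2) * (Y1 ^ 2 + Y2 ^ 2) * r12
    + (4 * l2 * l3 - 2 * (w2 + w3) * l2 * l3) * (Y1 ^ 2 + Y2 ^ 2) * r23
    + (4 * l3 * l1 - 2 * (w3 + w1) * l3 * l1) * (Y1 ^ 2 + Y2 ^ 2) * r31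
    + (l1 * m2 - l2 * m1) * (Y1 ^ 2 + Y2 ^ 2) * i12
    + (l2 * m3 - l3 * m2) * (Y1 ^ 2 + Y2 ^ 2) * i23
    + (l3 * m1 - l1 * m3) * (Y1 ^ 2 + Y2 ^ 2) * i31
    + ((l1 + l2 + l3) * (2 * w1 * l1 - 4 * l1)) * a1
    + ((l1 + l2 + l3) * (2 * w2 * l2 - 4 * l2)) * a2
    + ((l1 + l2 + l3) * (2 * w3 * l3 - 4 * l3)) * a3
    + ((l1 + l2 + l3) * m1 - (m1 + m2 + m3) * l1) * b1
    + ((l1 + l2 + l3) * m2 - (m1 + m2 + m3) * l2) * b2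
    + ((l1 + l2 + l3) * m3 - (m1 + m2 + m3) * l3) * b3
    + 2 * (m1 * l2 - l1 * m2) * t12 + 2 * (m2 * l3 - l2 * m3) * t23
    + 2 * (m3 * l1 - l3 * m1) * t31
    + 4 * (Y1 ^ 2 + Y2 ^ 2) * (l1 * l2 * S3 ^ 2 + l2 * l3 * S1 ^ 2 + l3 * l1 * S2 ^ 2) * hw

theorem PW1_cen_re (A1 A2 A3 u1 u2 u3 : ℝ) : (cen A1 A2 A3 u1 u2 u3).re =
    (el A1 * Real.cos (2 * u1) + el A2 * Real.cos (2 * u2) + el A3 * Real.cos (2 * u3))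
      / (el A1 + el A2 + el A3) := by
  unfold cen
  rw [Complex.div_ofReal_re, Complex.add_re, Complex.add_re, Complex.re_ofReal_mul,
    Complex.re_ofReal_mul, Complex.re_ofReal_mul, PW1_en_re, PW1_en_re, PW1_en_re]

theorem PW1_cen_im (A1 A2 A3 u1 u2 u3 : ℝ) : (cen A1 A2 A3 u1 u2 u3).im =
    (el A1 * Real.sin (2 * u1) + el A2 * Real.sin (2 * u2) + el A3 * Real.sin (2 * u3))
      / (el A1 + el A2 + el A3) := by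
  unfold cen
  rw [Complex.div_ofReal_im, Complex.add_im, Complex.add_im, Complex.im_ofReal_mul,
    Complex.im_ofReal_mul, Complex.im_ofReal_mul, PW1_en_im, PW1_en_im, PW1_en_im]

theorem PW1_tm_re (m w l u : ℝ) : (((m : ℂ) + 2 * I * w * l) * en u).re =
    m * Real.cos u - 2 * w * l * Real.sin u := by
  rw [Complex.mul_re, PW1_en_re, PW1_en_im]
  simp

theorem PW1_tm_im (m w l u : ℝ) : (((m : ℂ) + 2 * I * w * l) * en u).im =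
    m * Real.sin u + 2 * w * l * Real.cos u := by
  rw [Complex.mul_im, PW1_en_re, PW1_en_im]
  simp

theorem PW1_cend_re (A1 A2 A3 u1 u2 u3 w1 w2 w3 : ℝ) :
    (cend A1 A2 A3 u1 u2 u3 w1 w2 w3).re =
    ((eld A1 (w3 - w2) * Real.cos (2 * u1) - 2 * w1 * el A1 * Real.sin (2 * u1))
      + (eld A2 (w1 - w3) * Real.cos (2 * u2) - 2 * w2 * el A2 * Real.sin (2 * u2))
      + (eld A3 (w2 - w1) * Real.cos (2 * u3) - 2 * w3 * el A3 * Real.sin (2 * u3)))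
      / (el A1 + el A2 + el A3)
    - (eld A1 (w3 - w2) + eld A2 (w1 - w3) + eld A3 (w2 - w1)) / (el A1 + el A2 + el A3)
      * (cen A1 A2 A3 u1 u2 u3).re := by
  unfold cend
  rw [Complex.sub_re, Complex.div_ofReal_re, Complex.add_re, Complex.add_re, PW1_tm_re,
    PW1_tm_re, PW1_tm_re, ← Complex.ofReal_div, Complex.re_ofReal_mul]

theorem PW1_cend_im (A1 A2 A3 u1 u2 u3 w1 w2 w3 : ℝ) :
    (cend A1 A2 A3 u1 u2 u3 w1 w2 w3).im =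
    ((eld A1 (w3 - w2) * Real.sin (2 * u1) + 2 * w1 * el A1 * Real.cos (2 * u1))
      + (eld A2 (w1 - w3) * Real.sin (2 * u2) + 2 * w2 * el A2 * Real.cos (2 * u2))
      + (eld A3 (w2 - w1) * Real.sin (2 * u3) + 2 * w3 * el A3 * Real.cos (2 * u3)))
      / (el A1 + el A2 + el A3)
    - (eld A1 (w3 - w2) + eld A2 (w1 - w3) + eld A3 (w2 - w1)) / (el A1 + el A2 + el A3)
      * (cen A1 A2 A3 u1 u2 u3).im := by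
  unfold cend
  rw [Complex.sub_im, Complex.div_ofReal_im, Complex.add_im, Complex.add_im, PW1_tm_im,
    PW1_tm_im, PW1_tm_im, ← Complex.ofReal_div, Complex.im_ofReal_mul]

/-- `ν SC - (d x - d' x') = - 2 S x x'` -/
theorem PW1_t (p q p' q' Y1 Y2 : ℝ) (h : p ^ 2 + q ^ 2 = 1) (h' : p' ^ 2 + q' ^ 2 = 1) :
    (Y1 ^ 2 + Y2 ^ 2) * ((q * p' - p * q') * (-(p * p' + q * q')))
      - ((p * Y1 + q * Y2) * (p * Y2 - q * Y1) - (p' * Y1 + q' * Y2) * (p' * Y2 - q' * Y1))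
      = -(2 * (q * p' - p * q') * (p * Y2 - q * Y1) * (p' * Y2 - q' * Y1)) := by
  linear_combination ((p * Y1 + q * Y2) * (p * Y2 - q * Y1)) * h'
    - ((p' * Y1 + q' * Y2) * (p' * Y2 - q' * Y1)) * h

theorem t_PW1 (h1 : S_EL) : S_PW1 := by
  intro A1 A2 A3 u1 u2 u3 w1 w2 w3 z1 z2 z3 y hA1 hA2 hA3 hs h12 h23 hw hz1 hz2 hz3
  obtain ⟨hel, -⟩ := h1
  have hA1' : A1 < π := by linarith
  have hA2' : A2 < π := by linarith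
  have hA3' : A3 < π := by linarith
  have hl1 := (hel A1 hA1 hA1').1
  have hl2 := (hel A2 hA2 hA2').1
  have hl3 := (hel A3 hA3 hA3').1
  have hS1 : 0 < Real.sin A1 := Real.sin_pos_of_pos_of_lt_pi hA1 hA1'
  have hS2 : 0 < Real.sin A2 := Real.sin_pos_of_pos_of_lt_pi hA2 hA2'
  have hS3 : 0 < Real.sin A3 := Real.sin_pos_of_pos_of_lt_pi hA3 hA3'
  have e3 : A3 = π - (u1 - u2) := by linarith
  have e1 : A1 = π - (u2 - u3) := by linarith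
  have e2 : A2 = (u1 - u3) - π := by linarith
  have s3 : Real.sin A3 = Real.sin u1 * Real.cos u2 - Real.cos u1 * Real.sin u2 := by
    rw [e3, Real.sin_pi_sub, Real.sin_sub]
  have s1 : Real.sin A1 = Real.sin u2 * Real.cos u3 - Real.cos u2 * Real.sin u3 := by
    rw [e1, Real.sin_pi_sub, Real.sin_sub]
  have s2 : Real.sin A2 = Real.sin u3 * Real.cos u1 - Real.cos u3 * Real.sin u1 := by
    rw [e2, Real.sin_sub_pi, Real.sin_sub]; ring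
  have q1 := Real.cos_sq_add_sin_sq u1
  have q2 := Real.cos_sq_add_sin_sq u2
  have q3 := Real.cos_sq_add_sin_sq u3
  have hcr : ∀ u : ℝ, cr (en u) y = Real.cos u * y.im - Real.sin u * y.re := by
    intro u
    unfold cr
    rw [PW1_en_re, PW1_en_im]
  have hd1 : Real.cos (2 * u1) = Real.cos u1 ^ 2 - Real.sin u1 ^ 2 := Real.cos_two_mul' u1
  have hd2 : Real.cos (2 * u2) = Real.cos u2 ^ 2 - Real.sin u2 ^ 2 := Real.cos_two_mul' u2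
  have hd3 : Real.cos (2 * u3) = Real.cos u3 ^ 2 - Real.sin u3 ^ 2 := Real.cos_two_mul' u3
  have hf1 : Real.sin (2 * u1) = 2 * Real.sin u1 * Real.cos u1 := Real.sin_two_mul u1
  have hf2 : Real.sin (2 * u2) = 2 * Real.sin u2 * Real.cos u2 := Real.sin_two_mul u2
  have hf3 : Real.sin (2 * u3) = 2 * Real.sin u3 * Real.cos u3 := Real.sin_two_mul u3
  have hcre := PW1_cen_re A1 A2 A3 u1 u2 u3
  have hcim := PW1_cen_im A1 A2 A3 u1 u2 u3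
  have hdre := PW1_cend_re A1 A2 A3 u1 u2 u3 w1 w2 w3
  have hdim := PW1_cend_im A1 A2 A3 u1 u2 u3 w1 w2 w3
  have hip := PW1_ip (cen A1 A2 A3 u1 u2 u3) (cend A1 A2 A3 u1 u2 u3 w1 w2 w3) y
  rw [hcr] at hz1 hz2 hz3
  have hns : normSq y = y.re ^ 2 + y.im ^ 2 := by rw [normSq_apply]; ring
  have hnc : normSq (cen A1 A2 A3 u1 u2 u3) = (cen A1 A2 A3 u1 u2 u3).re ^ 2
      + (cen A1 A2 A3 u1 u2 u3).im ^ 2 := by rw [normSq_apply]; ring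
  rw [hns, hnc]
  unfold aa eld at *
  generalize (cen A1 A2 A3 u1 u2 u3).re = X at *
  generalize (cen A1 A2 A3 u1 u2 u3).im = Z at *
  generalize (cend A1 A2 A3 u1 u2 u3 w1 w2 w3).re = X' at *
  generalize (cend A1 A2 A3 u1 u2 u3 w1 w2 w3).im = Z' at *
  rw [hip]
  clear hip hel hns hnc h12 h23 hs hA1' hA2' hA3' hA1 hA2 hA3 e1 e2 e3
  have hpi : (π : ℝ) ≠ 0 := Real.pi_ne_zero
  generalize el A1 = l1 at *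
  generalize el A2 = l2 at *
  generalize el A3 = l3 at *
  generalize y.re = Y1 at *
  generalize y.im = Y2 at *
  unfold Nz
  generalize Real.sin A1 = S1 at *
  generalize Real.sin A2 = S2 at *
  generalize Real.sin A3 = S3 at *
  rw [hd1, hd2, hd3] at hcre
  rw [hf1, hf2, hf3] at hcim
  rw [hd1, hd2, hd3, hf1, hf2, hf3] at hdre hdim
  clear hd1 hd2 hd3 hf1 hf2 hf3
  generalize Real.cos u1 = p1 at *
  generalize Real.cos u2 = p2 at *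
  generalize Real.cos u3 = p3 at *
  generalize Real.sin u1 = r1 at *
  generalize Real.sin u2 = r2 at *
  generalize Real.sin u3 = r3 at *
  set x1 := p1 * Y2 - r1 * Y1 with hx1
  set x2 := p2 * Y2 - r2 * Y1 with hx2
  set x3 := p3 * Y2 - r3 * Y1 with hx3
  have hlin : S1 * x1 + S2 * x2 + S3 * x3 = 0 := by
    rw [s1, s2, s3, hx1, hx2, hx3]; ring
  have hquad : S1 * x2 * x3 + S2 * x1 * x3 + S3 * x1 * x2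
      = -(S1 * S2 * S3) * (Y1 ^ 2 + Y2 ^ 2) := by
    rw [s1, s2, s3, hx1, hx2, hx3]
    linear_combination
      (-((r2 * p3 - p2 * r3) * (p2 * Y2 - r2 * Y1) * (p3 * Y2 - r3 * Y1))) * q1
      - ((r3 * p1 - p3 * r1) * (p1 * Y2 - r1 * Y1) * (p3 * Y2 - r3 * Y1)) * q2
      - ((r1 * p2 - p1 * r2) * (p1 * Y2 - r1 * Y1) * (p2 * Y2 - r2 * Y1)) * q3
  have hL : 0 < l1 + l2 + l3 := by positivity
  have k1 : (p1 ^ 2 - r1 ^ 2) ^ 2 + (2 * r1 * p1) ^ 2 = 1 := by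
    linear_combination (p1 ^ 2 + r1 ^ 2 + 1) * q1
  have k2 : (p2 ^ 2 - r2 ^ 2) ^ 2 + (2 * r2 * p2) ^ 2 = 1 := by
    linear_combination (p2 ^ 2 + r2 ^ 2 + 1) * q2
  have k3 : (p3 ^ 2 - r3 ^ 2) ^ 2 + (2 * r3 * p3) ^ 2 = 1 := by
    linear_combination (p3 ^ 2 + r3 ^ 2 + 1) * q3
  have r12 : (p1 ^ 2 - r1 ^ 2) * (p2 ^ 2 - r2 ^ 2) + (2 * r1 * p1) * (2 * r2 * p2)
      = 1 - 2 * S3 ^ 2 := by
    rw [s3]; linear_combination (p2 ^ 2 + r2 ^ 2) * q1 + q2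
  have r23 : (p2 ^ 2 - r2 ^ 2) * (p3 ^ 2 - r3 ^ 2) + (2 * r2 * p2) * (2 * r3 * p3)
      = 1 - 2 * S1 ^ 2 := by
    rw [s1]; linear_combination (p3 ^ 2 + r3 ^ 2) * q2 + q3
  have r31 : (p3 ^ 2 - r3 ^ 2) * (p1 ^ 2 - r1 ^ 2) + (2 * r3 * p3) * (2 * r1 * p1)
      = 1 - 2 * S2 ^ 2 := by
    rw [s2]; linear_combination (p1 ^ 2 + r1 ^ 2) * q3 + q1
  have i12 : (2 * r1 * p1) * (p2 ^ 2 - r2 ^ 2) - (p1 ^ 2 - r1 ^ 2) * (2 * r2 * p2)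
      = -(2 * S3 * (-(p1 * p2 + r1 * r2))) := by
    rw [s3]; ring
  have i23 : (2 * r2 * p2) * (p3 ^ 2 - r3 ^ 2) - (p2 ^ 2 - r2 ^ 2) * (2 * r3 * p3)
      = -(2 * S1 * (-(p2 * p3 + r2 * r3))) := by
    rw [s1]; ring
  have i31 : (2 * r3 * p3) * (p1 ^ 2 - r1 ^ 2) - (p3 ^ 2 - r3 ^ 2) * (2 * r1 * p1)
      = -(2 * S2 * (-(p3 * p1 + r3 * r1))) := by
    rw [s2]; ring
  have a1 : (p1 ^ 2 - r1 ^ 2) * (Y1 ^ 2 - Y2 ^ 2) + 2 * (2 * r1 * p1) * (Y1 * Y2)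
      = (Y1 ^ 2 + Y2 ^ 2) - 2 * x1 ^ 2 := by
    rw [hx1]; linear_combination (Y1 ^ 2 + Y2 ^ 2) * q1
  have a2 : (p2 ^ 2 - r2 ^ 2) * (Y1 ^ 2 - Y2 ^ 2) + 2 * (2 * r2 * p2) * (Y1 * Y2)
      = (Y1 ^ 2 + Y2 ^ 2) - 2 * x2 ^ 2 := by
    rw [hx2]; linear_combination (Y1 ^ 2 + Y2 ^ 2) * q2
  have a3 : (p3 ^ 2 - r3 ^ 2) * (Y1 ^ 2 - Y2 ^ 2) + 2 * (2 * r3 * p3) * (Y1 * Y2)
      = (Y1 ^ 2 + Y2 ^ 2) - 2 * x3 ^ 2 := by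
    rw [hx3]; linear_combination (Y1 ^ 2 + Y2 ^ 2) * q3
  have b1 : (2 * r1 * p1) * (Y1 ^ 2 - Y2 ^ 2) - 2 * (p1 ^ 2 - r1 ^ 2) * (Y1 * Y2)
      = -(2 * ((p1 * Y1 + r1 * Y2) * x1)) := by
    rw [hx1]; ring
  have b2 : (2 * r2 * p2) * (Y1 ^ 2 - Y2 ^ 2) - 2 * (p2 ^ 2 - r2 ^ 2) * (Y1 * Y2)
      = -(2 * ((p2 * Y1 + r2 * Y2) * x2)) := by
    rw [hx2]; ring
  have b3 : (2 * r3 * p3) * (Y1 ^ 2 - Y2 ^ 2) - 2 * (p3 ^ 2 - r3 ^ 2) * (Y1 * Y2)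
      = -(2 * ((p3 * Y1 + r3 * Y2) * x3)) := by
    rw [hx3]; ring
  have t12 : (Y1 ^ 2 + Y2 ^ 2) * (S3 * (-(p1 * p2 + r1 * r2)))
      - ((p1 * Y1 + r1 * Y2) * x1 - (p2 * Y1 + r2 * Y2) * x2) = -(2 * S3 * x1 * x2) := by
    rw [s3, hx1, hx2]; exact PW1_t p1 r1 p2 r2 Y1 Y2 q1 q2
  have t23 : (Y1 ^ 2 + Y2 ^ 2) * (S1 * (-(p2 * p3 + r2 * r3)))
      - ((p2 * Y1 + r2 * Y2) * x2 - (p3 * Y1 + r3 * Y2) * x3) = -(2 * S1 * x2 * x3) := by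
    rw [s1, hx2, hx3]; exact PW1_t p2 r2 p3 r3 Y1 Y2 q2 q3
  have t31 : (Y1 ^ 2 + Y2 ^ 2) * (S2 * (-(p3 * p1 + r3 * r1)))
      - ((p3 * Y1 + r3 * Y2) * x3 - (p1 * Y1 + r1 * Y2) * x1) = -(2 * S2 * x3 * x1) := by
    rw [s2, hx3, hx1]; exact PW1_t p3 r3 p1 r1 Y1 Y2 q3 q1
  have hpol := PW1_pol (p1 ^ 2 - r1 ^ 2) (2 * r1 * p1) (p2 ^ 2 - r2 ^ 2) (2 * r2 * p2)
    (p3 ^ 2 - r3 ^ 2) (2 * r3 * p3) l1 l2 l3 (-(2 / π) * S1 ^ 2 * (w3 - w2))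
    (-(2 / π) * S2 ^ 2 * (w1 - w3)) (-(2 / π) * S3 ^ 2 * (w2 - w1)) w1 w2 w3 S1 S2 S3 _ _ _
    x1 x2 x3 _ _ _ Y1 Y2 hw k1 k2 k3 r12 r23 r31 i12 i23 i31 a1 a2 a3 b1 b2 b3 t12 t23 t31
  have hD : (l1 + l2 + l3) ^ 2 - (l1 * (p1 ^ 2 - r1 ^ 2) + l2 * (p2 ^ 2 - r2 ^ 2)
      + l3 * (p3 ^ 2 - r3 ^ 2)) ^ 2 - (l1 * (2 * r1 * p1) + l2 * (2 * r2 * p2)
      + l3 * (2 * r3 * p3)) ^ 2 = 4 * (l1 * l2 * S3 ^ 2 + l2 * l3 * S1 ^ 2 + l3 * l1 * S2 ^ 2) := by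
    linear_combination (-l1 ^ 2) * k1 - l2 ^ 2 * k2 - l3 ^ 2 * k3 - 2 * l1 * l2 * r12
      - 2 * l2 * l3 * r23 - 2 * l3 * l1 * r31
  have hDpos : 0 < l1 * l2 * S3 ^ 2 + l2 * l3 * S1 ^ 2 + l3 * l1 * S2 ^ 2 := by positivity
  have hden : 1 - (X ^ 2 + Z ^ 2) =
      4 * (l1 * l2 * S3 ^ 2 + l2 * l3 * S1 ^ 2 + l3 * l1 * S2 ^ 2) / (l1 + l2 + l3) ^ 2 := by
    rw [← hD, hcre, hcim]
    field_simp
    ring
  have hN : ((2 * (1 + (X ^ 2 + Z ^ 2)) + (Z * X' - X * Z')) * (Y1 ^ 2 + Y2 ^ 2)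
      - (4 * X - Z') * (Y1 ^ 2 - Y2 ^ 2) - 2 * (4 * Z + X') * (Y1 * Y2)) =
      (4 * ((l1 + l2 + l3) * ((2 - w1) * l1 * x1 ^ 2 + (2 - w2) * l2 * x2 ^ 2
        + (2 - w3) * l3 * x3 ^ 2)
      - (w1 * (l2 * l3 * S1 ^ 2) + w2 * (l1 * l3 * S2 ^ 2) + w3 * (l1 * l2 * S3 ^ 2))
        * (Y1 ^ 2 + Y2 ^ 2)
      - ((-(2 / π) * S1 ^ 2 * (w3 - w2) * l2 - l1 * (-(2 / π) * S2 ^ 2 * (w1 - w3)))
          * (S3 * x1 * x2)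
        + (-(2 / π) * S2 ^ 2 * (w1 - w3) * l3 - l2 * (-(2 / π) * S3 ^ 2 * (w2 - w1)))
          * (S1 * x2 * x3)
        + (-(2 / π) * S3 ^ 2 * (w2 - w1) * l1 - l3 * (-(2 / π) * S1 ^ 2 * (w3 - w2)))
          * (S2 * x3 * x1)))) / (l1 + l2 + l3) ^ 2 := by
    rw [← hpol, hdre, hdim, hcre, hcim]
    clear hpol hdre hdim hcre hcim hden hD
    generalize (-(2 / π) * S1 ^ 2 * (w3 - w2)) = m1
    generalize (-(2 / π) * S2 ^ 2 * (w1 - w3)) = m2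
    generalize (-(2 / π) * S3 ^ 2 * (w2 - w1)) = m3
    field_simp
    ring
  have hNz : -(S1 ^ 2 * (z2 * z3) + S2 ^ 2 * (z1 * z3) + S3 ^ 2 * (z1 * z2))
      = Y1 ^ 2 + Y2 ^ 2 := by
    rw [hz1, hz2, hz3]
    field_simp
    linear_combination -hquad
  refine ⟨?_, hNz, ?_, ?_⟩
  · rw [hz1, hz2, hz3]
    field_simp
    linear_combination hlin
  · have : 0 < 1 - (X ^ 2 + Z ^ 2) := by rw [hden]; positivity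
    linarith
  · rw [hden, hN, hNz]
    have hsum : l1 / S1 ^ 2 * (l2 / S2 ^ 2) + l2 / S2 ^ 2 * (l3 / S3 ^ 2)
        + l1 / S1 ^ 2 * (l3 / S3 ^ 2)
        = (l1 * l2 * S3 ^ 2 + l2 * l3 * S1 ^ 2 + l3 * l1 * S2 ^ 2) / (S1 * S2 * S3) ^ 2 := by
      field_simp
    rw [hsum]
    have hquot : ∀ T D : ℝ, D ≠ 0 → (4 * T) / (l1 + l2 + l3) ^ 2
        / (4 * D / (l1 + l2 + l3) ^ 2) * (D / (S1 * S2 * S3) ^ 2) = T / (S1 * S2 * S3) ^ 2 := by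
      intro T D hD0
      field_simp
    rw [hquot _ _ hDpos.ne']
    clear hN hpol hdre hdim hcre hcim hden hD hNz hquot hsum
    rw [hz1, hz2, hz3]
    clear_value x1 x2 x3
    field_simp
    ring

end

end Pool.Agent.H283R2.BK
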