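import Mathlib

/-!
# Birkhoff's conjecture up to the invariant circle of rotation number 1/3: definitions and tasks
-/

open Real Complex Set MeasureTheory

namespace Pool.Agent.H283R2.BK

noncomputable section

/-- support function `h`, its derivative `k`, radius of curvature `ρ = h + h''`. -/
structure Sup (h k ρ : ℝ → ℝ) : Prop where
  dh : ∀ x, HasDerivAt h (k x) x
  dk : ∀ x, HasDerivAt k (ρ x - h x) x
  cr : Continuous ρ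
  pos : ∀ x, 0 < ρ x
  ph : ∀ x, h (x + 2 * π) = h x
  pk : ∀ x, k (x + 2 * π) = k x
  pr : ∀ x, ρ (x + 2 * π) = ρ x

/-- generating function -/
def Sg (h : ℝ → ℝ) (x y : ℝ) : ℝ := 2 * h ((x + y) / 2) * Real.sin ((y - x) / 2)
/-- support coordinate of the line with normal angle `x` through the boundary point `(x+y)/2`:
`A = - ∂S/∂x`. -/
def Am (h k : ℝ → ℝ) (x y : ℝ) : ℝ :=
  h ((x + y) / 2) * Real.cos ((y - x) / 2) - k ((x + y) / 2) * Real.sin ((y - x) / 2)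
/-- support coordinate of the line with normal angle `y` through the boundary point `(x+y)/2`:
`B = ∂S/∂y`. -/
def Bm (h k : ℝ → ℝ) (x y : ℝ) : ℝ :=
  h ((x + y) / 2) * Real.cos ((y - x) / 2) + k ((x + y) / 2) * Real.sin ((y - x) / 2)
def S11 (h k ρ : ℝ → ℝ) (x y : ℝ) : ℝ :=
  (ρ ((x + y) / 2) - 2 * h ((x + y) / 2)) / 2 * Real.sin ((y - x) / 2)
    - k ((x + y) / 2) * Real.cos ((y - x) / 2)
def S12 (ρ : ℝ → ℝ) (x y : ℝ) : ℝ := ρ ((x + y) / 2) / 2 * Real.sin ((y - x) / 2)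
def S22 (h k ρ : ℝ → ℝ) (x y : ℝ) : ℝ :=
  (ρ ((x + y) / 2) - 2 * h ((x + y) / 2)) / 2 * Real.sin ((y - x) / 2)
    + k ((x + y) / 2) * Real.cos ((y - x) / 2)

/-- invariant circle (graph form, line coordinates) -/
structure Circ (h k : ℝ → ℝ) (g : ℝ → ℝ) : Prop where
  cont : Continuous g
  mono : StrictMono g
  per : ∀ x, g (x + 2 * π) = g x + 2 * π
  lo : ∀ x, x < g x
  hi : ∀ x, g x < x + 2 * π
  st : ∀ x, Bm h k x (g x) = Am h k (g x) (g (g x))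

/-- integrand of the second variation of the test field `X = A` -/
def Qd (h k ρ : ℝ → ℝ) (x y : ℝ) : ℝ :=
  S11 h k ρ x y * (Am h k x y) ^ 2 + 2 * S12 ρ x y * Am h k x y * Bm h k x y
    + S22 h k ρ x y * (Bm h k x y) ^ 2

/-- the Hopf integral over the region between the boundary and the circle `g` -/
def HI (h k ρ g : ℝ → ℝ) : ℝ :=
  ∫ x in (0 : ℝ)..(2 * π), ∫ y in x..(g x), Qd h k ρ x y * S12 ρ x y

/-- almost every phase point between the boundary and the circle `gG` lies on an invariant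
circle -/
def Cov (h k gG : ℝ → ℝ) : Prop :=
  ∀ᵐ z : ℝ × ℝ, z.1 < z.2 → z.2 < gG z.1 → ∃ g, Circ h k g ∧ g z.1 = z.2

/-! ## Part 1: calibration, second variation, Hopf integral -/

def S_DER : Prop := ∀ h k ρ : ℝ → ℝ, Sup h k ρ → ∀ x y : ℝ,
  HasDerivAt (fun t => Sg h t y) (-(Am h k x y)) x ∧ HasDerivAt (fun t => Sg h x t) (Bm h k x y) y ∧
  HasDerivAt (fun t => Am h k t y) (-(S11 h k ρ x y)) x ∧
  HasDerivAt (fun t => Am h k x t) (-(S12 ρ x y)) y ∧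
  HasDerivAt (fun t => Bm h k t y) (S12 ρ x y) x ∧
  HasDerivAt (fun t => Bm h k x t) (S22 h k ρ x y) y

def S_CAL : Prop := ∀ h k ρ g : ℝ → ℝ, Sup h k ρ → Circ h k g →
  ∃ (u : ℝ → ℝ) (c : ℝ), (∀ x, HasDerivAt u (Am h k x (g x)) x) ∧
    (∀ x, Sg h x (g x) + u x - u (g x) = c) ∧
    (∀ x y, x ≤ y → y ≤ x + 2 * π → Sg h x y + u x - u y ≤ c) ∧
    ∀ x y, x ≤ y → y ≤ x + 2 * π → Sg h x y + u x - u y = c → y = g x

def S_SV : Prop := ∀ h k ρ g : ℝ → ℝ, Sup h k ρ → Circ h k g → ∀ (x : ℝ) (N : ℕ) (ξ : ℕ → ℝ),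
  ξ 0 = 0 → ξ N = 0 →
  ∑ n ∈ Finset.range N, (S11 h k ρ (g^[n] x) (g^[n + 1] x) * (ξ n) ^ 2
    + 2 * S12 ρ (g^[n] x) (g^[n + 1] x) * ξ n * ξ (n + 1)
    + S22 h k ρ (g^[n] x) (g^[n + 1] x) * (ξ (n + 1)) ^ 2) ≤ 0

/-- the billiard map in the variables `(x, y)` = consecutive normal angles -/
def IsT (h k : ℝ → ℝ) (T2 : ℝ → ℝ → ℝ) : Prop :=
  (∀ x y, x < y → y < x + 2 * π → y < T2 x y ∧ T2 x y < y + 2 * π ∧
    Am h k y (T2 x y) = Bm h k x y) ∧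
  (∀ x y z, x < y → y < x + 2 * π → y < z → z < y + 2 * π → Am h k y z = Bm h k x y →
    z = T2 x y)

def S_TM : Prop := ∀ h k ρ : ℝ → ℝ, Sup h k ρ → ∃ T2 : ℝ → ℝ → ℝ, IsT h k T2

/-- invariance of the measure `S12 dx dy` on the region below an invariant circle -/
def S_INV : Prop := ∀ h k ρ gG : ℝ → ℝ, ∀ T2 : ℝ → ℝ → ℝ, Sup h k ρ → Circ h k gG → IsT h k T2 →
  ContinuousOn (Function.uncurry T2) {z | z.1 < z.2 ∧ z.2 < z.1 + 2 * π} ∧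
  (∀ x y, x < y → y < gG x → T2 x y < gG y) ∧
  ∀ Φ : ℝ → ℝ → ℝ, Measurable (Function.uncurry Φ) → (∃ C, ∀ x y, |Φ x y| ≤ C) →
    (∀ x y, Φ (x + 2 * π) (y + 2 * π) = Φ x y) →
    (∫ x in (0 : ℝ)..(2 * π), ∫ y in x..(gG x), Φ y (T2 x y) * S12 ρ x y)
      = ∫ x in (0 : ℝ)..(2 * π), ∫ y in x..(gG x), Φ x y * S12 ρ x y

def S_HOPF : Prop := ∀ h k ρ gG : ℝ → ℝ, Sup h k ρ → Circ h k gG → Cov h k gG →
  HI h k ρ gG ≤ 0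

/-! ## Part 2: the circle of rotation number 1/3 -/

def S_REG : Prop := ∀ h k ρ g : ℝ → ℝ, Sup h k ρ → Circ h k g → (∀ x, g (g (g x)) = x + 2 * π) →
  ∃ g' : ℝ → ℝ, (∀ x, HasDerivAt g (g' x) x) ∧ Continuous g' ∧ ∀ x, 0 < g' x

def S_GAP : Prop := ∀ h k ρ g : ℝ → ℝ, Sup h k ρ → Circ h k g → (∀ x, g (g (g x)) = x + 2 * π) →
  ∀ x, g x < x + π

/-- data of a one-parameter family of triangles: normal angles `f1, f2, f3` of the sides and their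
velocities -/
structure TD where
  f1 : ℝ → ℝ
  f2 : ℝ → ℝ
  f3 : ℝ → ℝ
  p1 : ℝ → ℝ
  p2 : ℝ → ℝ
  p3 : ℝ → ℝ

structure IsTri (D : TD) : Prop where
  d1 : ∀ t, HasDerivAt D.f1 (D.p1 t) t
  d2 : ∀ t, HasDerivAt D.f2 (D.p2 t) t
  d3 : ∀ t, HasDerivAt D.f3 (D.p3 t) t
  c1 : Continuous D.p1
  c2 : Continuous D.p2
  c3 : Continuous D.p3
  q1 : ∀ t, 0 < D.p1 t
  q2 : ∀ t, 0 < D.p2 t
  q3 : ∀ t, 0 < D.p3 t
  sum : ∀ t, D.f1 t + D.f2 t + D.f3 t = t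
  o12 : ∀ t, D.f1 t < D.f2 t
  o23 : ∀ t, D.f2 t < D.f3 t
  o31 : ∀ t, D.f3 t < D.f1 t + 2 * π
  g12 : ∀ t, D.f2 t < D.f1 t + π
  g23 : ∀ t, D.f3 t < D.f2 t + π
  g31 : ∀ t, D.f1 t + 2 * π < D.f3 t + π
  s1 : ∀ t, D.f1 (t + 2 * π) = D.f2 t
  s2 : ∀ t, D.f2 (t + 2 * π) = D.f3 t
  s3 : ∀ t, D.f3 (t + 2 * π) = D.f1 t + 2 * π

/-- the triangles of `D` are the trajectories on the circle `g` -/
def On (g : ℝ → ℝ) (D : TD) : Prop :=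
  ∀ t, g (D.f1 t) = D.f2 t ∧ g (D.f2 t) = D.f3 t ∧ g (D.f3 t) = D.f1 t + 2 * π

def S_PAR : Prop := ∀ g g' : ℝ → ℝ, (∀ x, HasDerivAt g (g' x) x) → Continuous g' →
  (∀ x, 0 < g' x) → (∀ x, g (x + 2 * π) = g x + 2 * π) → (∀ x, g (g (g x)) = x + 2 * π) →
  (∀ x, x < g x) → (∀ x, g x < x + π) → ∃ D : TD, IsTri D ∧ On g D

namespace TD
variable (D : TD)
/-- interior angles of the triangle (vertex `i` is opposite to side `i`) -/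
def A1 (t : ℝ) : ℝ := π - (D.f3 t - D.f2 t)
def A2 (t : ℝ) : ℝ := D.f3 t - D.f1 t - π
def A3 (t : ℝ) : ℝ := π - (D.f2 t - D.f1 t)
/-- angles of the unit vectors `n_i = e^{2 i psi_i}` -/
def u1 (t : ℝ) : ℝ := t - D.f1 t
def u2 (t : ℝ) : ℝ := t - D.f2 t
def u3 (t : ℝ) : ℝ := t - D.f3 t
def w1 (t : ℝ) : ℝ := 1 - D.p1 t
def w2 (t : ℝ) : ℝ := 1 - D.p2 t
def w3 (t : ℝ) : ℝ := 1 - D.p3 t
/-- normal angles of the boundary at the vertices -/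
def b1 (t : ℝ) : ℝ := (D.f2 t + D.f3 t) / 2
def b2 (t : ℝ) : ℝ := (D.f3 t + D.f1 t + 2 * π) / 2
def b3 (t : ℝ) : ℝ := (D.f1 t + D.f2 t) / 2
end TD

/-- unit vector of angle `x` -/
def en (x : ℝ) : ℂ := cexp ((x : ℂ) * I)
def ip (z w : ℂ) : ℝ := z.re * w.re + z.im * w.im
def cr (z w : ℂ) : ℝ := z.re * w.im - z.im * w.re
def el (A : ℝ) : ℝ := 1 - (A - Real.sin A * Real.cos A) / π

/-- the quadratic form of the leaf in the velocity -/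
def TD.G (D : TD) (t : ℝ) (w : ℂ) : ℝ :=
  el (D.A1 t) / (2 * D.w1 t) * (ip w (en (D.u1 t))) ^ 2
  + el (D.A2 t) / (2 * D.w2 t) * (ip w (en (D.u2 t))) ^ 2
  + el (D.A3 t) / (2 * D.w3 t) * (ip w (en (D.u3 t))) ^ 2

def TD.F (D : TD) (Z Z' : ℝ → ℂ) : ℝ :=
  ∫ t in (0 : ℝ)..(2 * π), (D.G t (Z' t) - cr (Z t) (Z' t))

structure IsLoop (Z Z' : ℝ → ℂ) : Prop where
  d : ∀ t, HasDerivAt Z (Z' t) t
  c : Continuous Z'
  per : ∀ t, Z (t + 2 * π) = Z t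

/-- a function `v` on the circle, closed on the triangles, is given by a loop `Z` -/
def S_Z : Prop := ∀ (D : TD) (v v' : ℝ → ℝ), IsTri D → (∀ x, HasDerivAt v (v' x) x) →
  Continuous v' → (∀ x, v (x + 2 * π) = v x) →
  (∀ t, Real.sin (D.A1 t) * v (D.b1 t) + Real.sin (D.A2 t) * v (D.b2 t)
    + Real.sin (D.A3 t) * v (D.b3 t) = 0) →
  ∃ Z Z' : ℝ → ℂ, IsLoop Z Z' ∧ ∀ t, ip (Z t) (en (D.u1 t)) = v (D.b1 t) ∧
    ip (Z t) (en (D.u2 t)) = v (D.b2 t) ∧ ip (Z t) (en (D.u3 t)) = v (D.b3 t)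

/-- closure on the triangles for `2 h k` -/
def S_CL : Prop := ∀ (h k ρ g : ℝ → ℝ) (D : TD), Sup h k ρ → Circ h k g → IsTri D → On g D →
  ∀ t, Real.sin (D.A1 t) * (2 * h (D.b1 t) * k (D.b1 t))
    + Real.sin (D.A2 t) * (2 * h (D.b2 t) * k (D.b2 t))
    + Real.sin (D.A3 t) * (2 * h (D.b3 t) * k (D.b3 t)) = 0

/-- change of variables, general lemma -/
def S_CV : Prop := ∀ (F : ℝ → ℝ → ℝ) (g g' : ℝ → ℝ), Continuous (Function.uncurry F) →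
  (∀ x d, F (x + 2 * π) d = F x d) → (∀ x, HasDerivAt g (g' x) x) → Continuous g' →
  (∀ x, g (x + 2 * π) = g x + 2 * π) → (∀ x, x ≤ g x) →
  (∫ x in (0 : ℝ)..(2 * π), ∫ y in x..(g x), F ((x + y) / 2) ((y - x) / 2))
    = ∫ x in (0 : ℝ)..(2 * π), (∫ d in (0 : ℝ)..((g x - x) / 2), F ((x + g x) / 2) d) * (1 + g' x)

/-- primitive in `δ` of the Hopf integrand -/
def Pf (h k ρ : ℝ → ℝ) (x d : ℝ) : ℝ :=
  h x * ρ x * ((h x * (ρ x - h x) + 3 * (k x) ^ 2) * ((d / 2 - Real.sin (4 * d) / 8) / 4)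
    - (k x) ^ 2 * (d / 2 - Real.sin (2 * d) / 4))

/-- the Hopf integral as a single integral over the family of triangles (uses `S_CV`) -/
def S_H1 : Prop := ∀ (h k ρ g : ℝ → ℝ) (D : TD), Sup h k ρ → Circ h k g → IsTri D → On g D →
  HI h k ρ g = ∫ t in (0 : ℝ)..(2 * π),
    (Pf h k ρ (D.b1 t) ((π - D.A1 t) / 2) * D.w1 t
    + Pf h k ρ (D.b2 t) ((π - D.A2 t) / 2) * D.w2 t
    + Pf h k ρ (D.b3 t) ((π - D.A3 t) / 2) * D.w3 t)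

/-- the main identity on the leaf -/
def S_H2 : Prop := ∀ (h k ρ g : ℝ → ℝ) (D : TD) (Z Z' : ℝ → ℂ), Sup h k ρ → Circ h k g →
  IsTri D → On g D → IsLoop Z Z' →
  (∀ t, ip (Z t) (en (D.u1 t)) = 2 * h (D.b1 t) * k (D.b1 t) ∧
    ip (Z t) (en (D.u2 t)) = 2 * h (D.b2 t) * k (D.b2 t) ∧
    ip (Z t) (en (D.u3 t)) = 2 * h (D.b3 t) * k (D.b3 t)) →
  (∫ t in (0 : ℝ)..(2 * π), (Pf h k ρ (D.b1 t) ((π - D.A1 t) / 2) * D.w1 t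
    + Pf h k ρ (D.b2 t) ((π - D.A2 t) / 2) * D.w2 t
    + Pf h k ρ (D.b3 t) ((π - D.A3 t) / 2) * D.w3 t)) = π / 8 * D.F Z Z'

/-! ## Part 3: the index lemma: comparison system -/

def ca (c c' : ℂ) : ℝ := 2 * (1 + normSq c) + (c * (starRingEnd ℂ) c').im
def cb (c c' : ℂ) : ℂ := 4 * c + I * c'
/-- the comparison Hamiltonian `P'` (real linear in `y`) -/
def PP (c c' y : ℂ) : ℂ :=
  ((ca c c' : ℂ) * y - cb c c' * (starRingEnd ℂ) y) / ((1 - normSq c : ℝ) : ℂ)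
/-- `Qp c c' w = ⟨w, P'⁻¹ w⟩` -/
def Qp (c c' w : ℂ) : ℝ :=
  (1 - normSq c) * (ca c c' * normSq w + ((starRingEnd ℂ) (cb c c') * w ^ 2).re)
    / ((ca c c') ^ 2 - normSq (cb c c'))
def Fc (c c' : ℝ → ℂ) (Z Z' : ℝ → ℂ) (a b : ℝ) : ℝ :=
  ∫ t in a..b, (Qp (c t) (c' t) (Z' t) - cr (Z t) (Z' t))

structure Good (c c' : ℝ → ℂ) : Prop where
  d : ∀ t, HasDerivAt c (c' t) t
  cc : Continuous c'
  per : ∀ t, c (t + 2 * π) = c t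
  lt : ∀ t, normSq (c t) < 1
  pos : ∀ t, ‖cb (c t) (c' t)‖ < ca (c t) (c' t)

def rh (z : ℂ) : ℝ := Real.sqrt (1 - normSq z)

/-- the solution operator from time `s` to time `r` of `V' = i P' V`: in the frame of centre `c`
it is the rotation by `2 (r - s)` -/
def Mt (c : ℝ → ℂ) (s r : ℝ) (V : ℂ) : ℂ :=
  (en (2 * (r - s)) * (V - c s * (starRingEnd ℂ) V)
    + c r * en (-(2 * (r - s))) * ((starRingEnd ℂ) V - (starRingEnd ℂ) (c s) * V))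
    / ((rh (c r) * rh (c s) : ℝ) : ℂ)

/-- `det (M - 1) = 2 - trace M` -/
def Dt (c : ℝ → ℂ) (s r : ℝ) : ℝ :=
  2 - 2 * (en (2 * (r - s)) - c r * (starRingEnd ℂ) (c s) * en (-(2 * (r - s)))).re
    / (rh (c r) * rh (c s))

def S_MT : Prop := ∀ c c' : ℝ → ℂ, Good c c' →
  (∀ s r V, HasDerivAt (fun t => Mt c s t V) (I * PP (c r) (c' r) (Mt c s r V)) r) ∧
  (∀ s V, Mt c s s V = V) ∧ (∀ s V, Mt c s (s + 2 * π) V = V) ∧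
  (∀ s r u V, Mt c r u (Mt c s r V) = Mt c s u V) ∧
  (∀ s r V W, cr (Mt c s r V) (Mt c s r W) = cr V W) ∧
  (∀ s r, Dt c s r ≠ 0 → ∀ V, Mt c s r V = V → V = 0)

/-- positivity of the comparison form on an arc without closed solutions -/
def S_AP : Prop := ∀ c c' : ℝ → ℂ, Good c c' → ∀ s u : ℝ, s < u →
  (∀ r ∈ Ioo s u, Dt c s r ≠ 0) → ∀ Y Y' : ℝ → ℂ, (∀ t, HasDerivAt Y (Y' t) t) →
  Continuous Y' → Y s = 0 → Y u = 0 → 0 ≤ Fc c c' Y Y' s u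

/-- choice of three arcs -/
def S_SEL : Prop := ∀ c c' : ℝ → ℂ, Good c c' → ∃ s1 s2 : ℝ, 0 < s1 ∧ s1 < s2 ∧ s2 < 2 * π ∧
  (∀ r ∈ Ioo 0 s1, Dt c 0 r ≠ 0) ∧ (∀ r ∈ Ioo s1 s2, Dt c s1 r ≠ 0) ∧
  (∀ r ∈ Ioc s2 (2 * π), Dt c s2 r ≠ 0)

def S_NUL : Prop := ∀ c c' Z Z' : ℝ → ℂ, Good c c' → IsLoop Z Z' → ∀ u0 k0 : ℂ,
  IsLoop (fun t => Z t + I * Mt c 0 t u0 + k0)
    (fun t => Z' t - PP (c t) (c' t) (Mt c 0 t u0)) ∧
  Fc c c' (fun t => Z t + I * Mt c 0 t u0 + k0)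
    (fun t => Z' t - PP (c t) (c' t) (Mt c 0 t u0)) 0 (2 * π) = Fc c c' Z Z' 0 (2 * π)

/-- index lemma for the comparison system -/
def S_IX : Prop := ∀ c c' : ℝ → ℂ, Good c c' → ∀ Z0 Z0' Z1 Z1' Z2 Z2' : ℝ → ℂ,
  IsLoop Z0 Z0' → IsLoop Z1 Z1' → IsLoop Z2 Z2' →
  (∀ a b d : ℝ, Fc c c' (fun t => a * Z0 t + b * Z1 t + d * Z2 t)
      (fun t => a * Z0' t + b * Z1' t + d * Z2' t) 0 (2 * π) < 0 ∨
    ∀ t, (a : ℂ) * Z0' t + b * Z1' t + d * Z2' t = 0) →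
  ∃ a b d : ℝ, (a ≠ 0 ∨ b ≠ 0 ∨ d ≠ 0) ∧ ∀ t, (a : ℂ) * Z0' t + b * Z1' t + d * Z2' t = 0

/-! ## Part 4: the pointwise inequality -/

/-- (C3) -/
def S_C3 : Prop := ∀ A1 A2 A3 : ℝ, 0 < A1 → 0 < A2 → 0 < A3 → A1 + A2 + A3 = π →
  Real.sin A3 ^ 4 * (el A1 * Real.sin A2 ^ 2 - el A2 * Real.sin A1 ^ 2) ^ 2 <
  π * el A3 * (el A1 * Real.sin A2 ^ 2 + el A2 * Real.sin A1 ^ 2) *
    (π * el A3 * (el A1 * Real.sin A2 ^ 2 + el A2 * Real.sin A1 ^ 2)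
      + 2 * el A3 * (Real.sin A1 * Real.sin A2 * Real.sin A3)
      + Real.sin A3 ^ 2 * (el A1 * Real.sin (2 * A2) + el A2 * Real.sin (2 * A1)))

/-- positivity and the sum of the weights -/
def S_EL : Prop := (∀ A : ℝ, 0 < A → A < π → 0 < el A ∧ el A < 1 ∧
    HasDerivAt el (-(2 / π) * Real.sin A ^ 2) A) ∧
  ∀ A1 A2 A3 : ℝ, A1 + A2 + A3 = π →
    el A1 + el A2 + el A3 = 2 + 2 / π * (Real.sin A1 * Real.sin A2 * Real.sin A3)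

/-- `a_i = l_i / sin^2 A_i` -/
def aa (A : ℝ) : ℝ := el A / Real.sin A ^ 2

/-- `|e|^2` in the coordinates `z`, `z1 + z2 + z3 = 0` -/
def Nz (A1 A2 A3 z1 z2 z3 : ℝ) : ℝ :=
  -(Real.sin A1 ^ 2 * (z2 * z3) + Real.sin A2 ^ 2 * (z1 * z3) + Real.sin A3 ^ 2 * (z1 * z2))

/-- the value at the vertex `p = e_3` -/
def V3 (A1 A2 A3 z1 z2 z3 : ℝ) : ℝ :=
  2 * (Real.sin A1 * Real.sin A2 * Real.sin A3) / π *
      ((z1 - z2) * (aa A1 * z1 - aa A2 * z2) + aa A3 * z3 ^ 2)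
    + aa A3 * (2 * z3 ^ 2 - (aa A1 + aa A2) * Nz A1 A2 A3 z1 z2 z3
      + 2 / (aa A1 * aa A2 + aa A2 * aa A3 + aa A1 * aa A3) * (aa A1 * z1 - aa A2 * z2) ^ 2)

def S_V3 : Prop := ∀ A1 A2 A3 z1 z2 z3 : ℝ, 0 < A1 → 0 < A2 → 0 < A3 → A1 + A2 + A3 = π →
  z1 + z2 + z3 = 0 → (z1 ≠ 0 ∨ z2 ≠ 0) → 0 < V3 A1 A2 A3 z1 z2 z3

/-- centre of the frame -/
def cen (A1 A2 A3 u1 u2 u3 : ℝ) : ℂ :=
  ((el A1 : ℂ) * en (2 * u1) + el A2 * en (2 * u2) + el A3 * en (2 * u3))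
    / ((el A1 + el A2 + el A3 : ℝ) : ℂ)
/-- derivative of `el` along the motion with velocity `a'` of the angle `A` -/
def eld (A a' : ℝ) : ℝ := -(2 / π) * Real.sin A ^ 2 * a'
/-- its velocity; `A1' = w3 - w2`, `A2' = w1 - w3`, `A3' = w2 - w1`, `u_i' = w_i`. -/
def cend (A1 A2 A3 u1 u2 u3 w1 w2 w3 : ℝ) : ℂ :=
  (((eld A1 (w3 - w2) : ℂ) + 2 * I * w1 * el A1) * en (2 * u1)
    + ((eld A2 (w1 - w3) : ℂ) + 2 * I * w2 * el A2) * en (2 * u2)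
    + ((eld A3 (w2 - w1) : ℂ) + 2 * I * w3 * el A3) * en (2 * u3))
    / ((el A1 + el A2 + el A3 : ℝ) : ℂ)
  - ((eld A1 (w3 - w2) + eld A2 (w1 - w3) + eld A3 (w2 - w1) : ℝ) : ℂ)
    / ((el A1 + el A2 + el A3 : ℝ) : ℂ) * cen A1 A2 A3 u1 u2 u3

/-- `⟨y, P' y⟩` in the coordinates `z_1 = sin A1 (n_1 × y) / (sin A1 sin A2 sin A3)` etc. -/
def S_PW1 : Prop := ∀ A1 A2 A3 u1 u2 u3 w1 w2 w3 z1 z2 z3 : ℝ, ∀ y : ℂ, 0 < A1 → 0 < A2 → 0 < A3 →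
  A1 + A2 + A3 = π → u1 - u2 = π - A3 → u2 - u3 = π - A1 → w1 + w2 + w3 = 2 →
  z1 = cr (en u1) y / (Real.sin A2 * Real.sin A3) →
  z2 = cr (en u2) y / (Real.sin A1 * Real.sin A3) →
  z3 = cr (en u3) y / (Real.sin A1 * Real.sin A2) →
  z1 + z2 + z3 = 0 ∧ Nz A1 A2 A3 z1 z2 z3 = normSq y ∧
  normSq (cen A1 A2 A3 u1 u2 u3) < 1 ∧
  ip y (PP (cen A1 A2 A3 u1 u2 u3) (cend A1 A2 A3 u1 u2 u3 w1 w2 w3) y)
      * (aa A1 * aa A2 + aa A2 * aa A3 + aa A1 * aa A3)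
    = (el A1 + el A2 + el A3) * ((2 - w1) * aa A1 * z1 ^ 2 + (2 - w2) * aa A2 * z2 ^ 2
        + (2 - w3) * aa A3 * z3 ^ 2)
      - (w1 * aa A2 * aa A3 + w2 * aa A1 * aa A3 + w3 * aa A1 * aa A2) * Nz A1 A2 A3 z1 z2 z3
      + 2 / π * (Real.sin A1 * Real.sin A2 * Real.sin A3) *
        (((w3 - w2) * aa A2 - aa A1 * (w1 - w3)) * (z1 * z2)
        + ((w1 - w3) * aa A3 - aa A2 * (w2 - w1)) * (z2 * z3)
        + ((w2 - w1) * aa A1 - aa A3 * (w3 - w2)) * (z3 * z1))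

/-- convex combination of the three vertex values -/
def S_PW2 : Prop := ∀ A1 A2 A3 w1 w2 w3 z1 z2 z3 : ℝ, 0 < A1 → 0 < A2 → 0 < A3 →
  A1 + A2 + A3 = π → w1 + w2 + w3 = 2 → z1 + z2 + z3 = 0 →
  (el A1 + el A2 + el A3) * ((2 - w1) * aa A1 * z1 ^ 2 + (2 - w2) * aa A2 * z2 ^ 2
        + (2 - w3) * aa A3 * z3 ^ 2)
      - (w1 * aa A2 * aa A3 + w2 * aa A1 * aa A3 + w3 * aa A1 * aa A2) * Nz A1 A2 A3 z1 z2 z3
      + 2 / π * (Real.sin A1 * Real.sin A2 * Real.sin A3) *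
        (((w3 - w2) * aa A2 - aa A1 * (w1 - w3)) * (z1 * z2)
        + ((w1 - w3) * aa A3 - aa A2 * (w2 - w1)) * (z2 * z3)
        + ((w2 - w1) * aa A1 - aa A3 * (w3 - w2)) * (z3 * z1))
  = 2 / (aa A1 * aa A2 + aa A2 * aa A3 + aa A1 * aa A3) *
      (w1 * aa A1 * (aa A2 * z2 - aa A3 * z3) ^ 2 + w2 * aa A2 * (aa A3 * z3 - aa A1 * z1) ^ 2
        + w3 * aa A3 * (aa A1 * z1 - aa A2 * z2) ^ 2)
    + (1 - w1) * V3 A2 A3 A1 z2 z3 z1 + (1 - w2) * V3 A3 A1 A2 z3 z1 z2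
    + (1 - w3) * V3 A1 A2 A3 z1 z2 z3

/-- the pointwise inequality -/
def S_PW : Prop := ∀ A1 A2 A3 u1 u2 u3 w1 w2 w3 : ℝ, 0 < A1 → 0 < A2 → 0 < A3 →
  A1 + A2 + A3 = π → u1 - u2 = π - A3 → u2 - u3 = π - A1 → w1 + w2 + w3 = 2 →
  0 < w1 → w1 < 1 → 0 < w2 → w2 < 1 → 0 < w3 → w3 < 1 →
  normSq (cen A1 A2 A3 u1 u2 u3) < 1 ∧
  ‖cb (cen A1 A2 A3 u1 u2 u3) (cend A1 A2 A3 u1 u2 u3 w1 w2 w3)‖
    < ca (cen A1 A2 A3 u1 u2 u3) (cend A1 A2 A3 u1 u2 u3 w1 w2 w3) ∧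
  ∀ w : ℂ, w ≠ 0 → Qp (cen A1 A2 A3 u1 u2 u3) (cend A1 A2 A3 u1 u2 u3 w1 w2 w3) w
    < el A1 / (2 * w1) * (ip w (en u1)) ^ 2 + el A2 / (2 * w2) * (ip w (en u2)) ^ 2
      + el A3 / (2 * w3) * (ip w (en u3)) ^ 2

def S_CG : Prop := ∀ D : TD, IsTri D → ∃ c c' : ℝ → ℂ, Good c c' ∧
  ∀ t w, w ≠ 0 → Qp (c t) (c' t) w < D.G t w

/-- index lemma for a family of triangles -/
def S_LIX : Prop := ∀ D : TD, IsTri D → ∀ Z0 Z0' Z1 Z1' Z2 Z2' : ℝ → ℂ,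
  IsLoop Z0 Z0' → IsLoop Z1 Z1' → IsLoop Z2 Z2' →
  (∀ a b d : ℝ, D.F (fun t => a * Z0 t + b * Z1 t + d * Z2 t)
      (fun t => a * Z0' t + b * Z1' t + d * Z2' t) ≤ 0) →
  ∃ a b d : ℝ, (a ≠ 0 ∨ b ≠ 0 ∨ d ≠ 0) ∧ ∀ t, (a : ℂ) * Z0' t + b * Z1' t + d * Z2' t = 0

/-! ## Part 5: conclusion -/

/-- translation of the origin -/
def hs (h : ℝ → ℝ) (a b : ℝ) (x : ℝ) : ℝ := h x - a * Real.cos x - b * Real.sin x
def ks (k : ℝ → ℝ) (a b : ℝ) (x : ℝ) : ℝ := k x + a * Real.sin x - b * Real.cos x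

def S_SH : Prop := ∀ h k ρ : ℝ → ℝ, Sup h k ρ → ∀ a b : ℝ, Sup (hs h a b) (ks k a b) ρ ∧
  ∀ g : ℝ → ℝ, Circ h k g → Circ (hs h a b) (ks k a b) g

/-- conclusion in terms of the support function -/
def EllS (h : ℝ → ℝ) : Prop := ∃ a b α β γ : ℝ, ∀ x, (hs h a b x) ^ 2 =
  α * Real.cos x ^ 2 + 2 * β * (Real.cos x * Real.sin x) + γ * Real.sin x ^ 2

def S_E1 : Prop := ∀ h k ρ : ℝ → ℝ, Sup h k ρ → (∀ x, 0 < h x) → ∀ a b d : ℝ,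
  (a ≠ 0 ∨ b ≠ 0 ∨ d ≠ 0) → ∀ z : ℂ,
  (∀ x, a * (2 * h x * k x) + b * (2 * (k x * Real.cos x - h x * Real.sin x))
    + d * (2 * (k x * Real.sin x + h x * Real.cos x)) = ip z (en (2 * x))) → EllS h

/-- core theorem -/
def S_CORE : Prop := ∀ h k ρ g : ℝ → ℝ, Sup h k ρ → (∀ x, 0 < h x) → Circ h k g →
  (∀ x, g (g (g x)) = x + 2 * π) → Cov h k g → EllS h

/-- `γ` is a closed plane curve with positive continuous radius of curvature `ρ`, parametrised by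
its normal angle. -/
def IsOval (γ : ℝ → ℂ) (ρ : ℝ → ℝ) : Prop :=
  (∀ s, γ (s + 2 * Real.pi) = γ s) ∧ Continuous ρ ∧ (∀ s, 0 < ρ s) ∧
    ∀ s : ℝ, HasDerivAt γ ((ρ s : ℂ) * I * cexp (s * I)) s

def support (z : ℂ) (φ : ℝ) : ℝ := (z * cexp (-(φ * I))).re

/-- invariant circle of the billiard in `γ` -/
def InvCircle (γ : ℝ → ℂ) (g : ℝ → ℝ) : Prop :=
  Continuous g ∧ StrictMono g ∧ (∀ x, g (x + 2 * Real.pi) = g x + 2 * Real.pi) ∧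
    (∀ x, x < g x ∧ g x < x + 2 * Real.pi) ∧
    ∀ x, support (γ ((x + g x) / 2)) (g x) = support (γ ((g x + g (g x)) / 2)) (g x)

def IsEll (γ : ℝ → ℂ) : Prop := ∃ (c : ℂ) (a b d : ℝ), 0 < a ∧ 0 < a * d - b ^ 2 ∧
  Set.range γ = {x : ℂ | a * (x.re - c.re) ^ 2 + 2 * b * (x.re - c.re) * (x.im - c.im)
    + d * (x.im - c.im) ^ 2 = 1}

/-- from the curve to the support function (origin inside) -/
def S_OV : Prop := ∀ (γ : ℝ → ℂ) (ρ : ℝ → ℝ), IsOval γ ρ → ∃ (o : ℂ) (h k : ℝ → ℝ), Sup h k ρ ∧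
  (∀ x, 0 < h x) ∧ (∀ x, γ x = o + ((h x : ℂ) + k x * I) * cexp (x * I)) ∧
  (∀ g, InvCircle γ g → Circ h k g) ∧ (∀ g, Circ h k g → InvCircle γ g)

/-- ellipse from its support function -/
def S_E2 : Prop := ∀ (γ : ℝ → ℂ) (h k ρ : ℝ → ℝ) (o : ℂ), Sup h k ρ → (∀ x, 0 < h x) →
  (∀ x, γ x = o + ((h x : ℂ) + k x * I) * cexp (x * I)) → EllS h → IsEll γ

/-! ## Part 6: from rational circles to the covering -/

/-- monotone limits of invariant circles are invariant circles -/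
def S_LIM : Prop := ∀ h k ρ : ℝ → ℝ, Sup h k ρ → ∀ (G : ℕ → ℝ → ℝ) (g : ℝ → ℝ),
  (∀ n, Circ h k (G n)) → (∀ x, Filter.Tendsto (fun n => G n x) Filter.atTop (nhds (g x))) →
  (∃ g1, Circ h k g1 ∧ ∀ x, g1 x ≤ g x) → (∃ g2, Circ h k g2 ∧ ∀ x, g x ≤ g2 x) → Circ h k g

/-- two ordered invariant circles that are not equal but have the same rotation number, one of
which consists of periodic points, do not exist -/
def S_RGAP : Prop := ∀ h k ρ : ℝ → ℝ, Sup h k ρ → ∀ g1 g2 : ℝ → ℝ, Circ h k g1 → Circ h k g2 →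
  ∀ (p q : ℕ), 0 < q → (∀ x, g1^[q] x = x + 2 * π * p) → (∃ x, g2^[q] x = x + 2 * π * p) →
  g1 = g2

/-- an open gap between two ordered invariant circles whose endpoints are not periodic is
impossible (wandering domain of positive area) -/
def S_WAN : Prop := ∀ h k ρ : ℝ → ℝ, Sup h k ρ → ∀ g1 g2 : ℝ → ℝ, Circ h k g1 → Circ h k g2 →
  (∀ x, g1 x ≤ g2 x) → (∃ x, g1 x < g2 x) →
  ∃ (p q : ℕ) (x : ℝ), 0 < q ∧ (∃ y, g1^[q] y ≤ y + 2 * π * p) ∧ x + 2 * π * p ≤ g2^[q] x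

def S_RAT : Prop := ∀ h k ρ gG : ℝ → ℝ, Sup h k ρ →
  (∀ p q : ℕ, 0 < p → 3 * p ≤ q → Nat.Coprime p q →
    ∃ g, Circ h k g ∧ ∀ x, g^[q] x = x + 2 * π * p) →
  Circ h k gG → (∀ x, gG (gG (gG x)) = x + 2 * π) → Cov h k gG

end

end Pool.Agent.H283R2.BK
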