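-- hyps: S_EL
import Pool.Agent.H283R2.BK.Defs

/-!
# Convex combination of the three vertex values
-/

namespace Pool.Agent.H283R2.BK

open Real

theorem PW2_alg {a1 a2 a3 N E z1 z2 w1 w2 s : ℝ} (hs : s ≠ 0) (hs' : s = a1 * a2 + a2 * a3 + a1 * a3) :
    (2 + E) * ((2 - w1) * a1 * z1 ^ 2 + (2 - w2) * a2 * z2 ^ 2
        + (2 - (2 - w1 - w2)) * a3 * (-(z1 + z2)) ^ 2)
      - (w1 * a2 * a3 + w2 * a1 * a3 + (2 - w1 - w2) * a1 * a2) * N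
      + E *
        ((((2 - w1 - w2) - w2) * a2 - a1 * (w1 - (2 - w1 - w2))) * (z1 * z2)
        + ((w1 - (2 - w1 - w2)) * a3 - a2 * (w2 - w1)) * (z2 * (-(z1 + z2)))
        + ((w2 - w1) * a1 - a3 * ((2 - w1 - w2) - w2)) * ((-(z1 + z2)) * z1))
  = 2 / s *
      (w1 * a1 * (a2 * z2 - a3 * (-(z1 + z2))) ^ 2 + w2 * a2 * (a3 * (-(z1 + z2)) - a1 * z1) ^ 2
        + (2 - w1 - w2) * a3 * (a1 * z1 - a2 * z2) ^ 2)
    + (1 - w1) * (E * ((z2 - (-(z1 + z2))) * (a2 * z2 - a3 * (-(z1 + z2))) + a1 * z1 ^ 2)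
      + a1 * (2 * z1 ^ 2 - (a2 + a3) * N + 2 / s * (a2 * z2 - a3 * (-(z1 + z2))) ^ 2))
    + (1 - w2) * (E * (((-(z1 + z2)) - z1) * (a3 * (-(z1 + z2)) - a1 * z1) + a2 * z2 ^ 2)
      + a2 * (2 * z2 ^ 2 - (a3 + a1) * N + 2 / s * (a3 * (-(z1 + z2)) - a1 * z1) ^ 2))
    + (1 - (2 - w1 - w2)) * (E * ((z1 - z2) * (a1 * z1 - a2 * z2) + a3 * (-(z1 + z2)) ^ 2)
      + a3 * (2 * (-(z1 + z2)) ^ 2 - (a1 + a2) * N + 2 / s * (a1 * z1 - a2 * z2) ^ 2)) := by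
  field_simp
  rw [hs']
  ring

theorem PW2_pos (h1 : S_EL) {A : ℝ} (h0 : 0 < A) (hpi : A < π) : 0 < aa A := by
  unfold aa
  have := Real.sin_pos_of_pos_of_lt_pi h0 hpi
  exact div_pos (h1.1 A h0 hpi).1 (by positivity)

theorem t_PW2 (h1 : S_EL) : S_PW2 := by
  intro A1 A2 A3 w1 w2 w3 z1 z2 z3 hA1 hA2 hA3 hA hw hz
  have p1 : 0 < aa A1 := PW2_pos h1 hA1 (by linarith)
  have p2 : 0 < aa A2 := PW2_pos h1 hA2 (by linarith)
  have p3 : 0 < aa A3 := PW2_pos h1 hA3 (by linarith)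
  have hs : aa A1 * aa A2 + aa A2 * aa A3 + aa A1 * aa A3 ≠ 0 := by positivity
  have hw3 : w3 = 2 - w1 - w2 := by linarith
  have hz3 : z3 = -(z1 + z2) := by linarith
  have e1 : Nz A2 A3 A1 z2 z3 z1 = Nz A1 A2 A3 z1 z2 z3 := by unfold Nz; ring
  have e2 : Nz A3 A1 A2 z3 z1 z2 = Nz A1 A2 A3 z1 z2 z3 := by unfold Nz; ring
  have e3 : 2 * (Real.sin A1 * Real.sin A2 * Real.sin A3) / π =
      2 / π * (Real.sin A1 * Real.sin A2 * Real.sin A3) := by ring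
  have e4 : 2 * (Real.sin A2 * Real.sin A3 * Real.sin A1) / π =
      2 / π * (Real.sin A1 * Real.sin A2 * Real.sin A3) := by ring
  have e5 : 2 * (Real.sin A3 * Real.sin A1 * Real.sin A2) / π =
      2 / π * (Real.sin A1 * Real.sin A2 * Real.sin A3) := by ring
  have e6 : aa A2 * aa A3 + aa A3 * aa A1 + aa A2 * aa A1 =
      aa A1 * aa A2 + aa A2 * aa A3 + aa A1 * aa A3 := by ring
  have e7 : aa A3 * aa A1 + aa A1 * aa A2 + aa A3 * aa A2 =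
      aa A1 * aa A2 + aa A2 * aa A3 + aa A1 * aa A3 := by ring
  rw [h1.2 A1 A2 A3 hA]
  unfold V3
  rw [e1, e2, e3, e4, e5, e6, e7, hw3]
  generalize Nz A1 A2 A3 z1 z2 z3 = N
  rw [hz3]
  exact PW2_alg hs rfl

end Pool.Agent.H283R2.BK
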