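import Pool.Agent.H283R2.BK.Defs

open Real Complex Set MeasureTheory

namespace Pool.Agent.H283R2.BK

noncomputable section

theorem RAT_S12pos {h k ρ : ℝ → ℝ} (hS : Sup h k ρ) {x y : ℝ} (h1 : x < y) (h2 : y < x + 2 * π) :
    0 < S12 ρ x y := by
  unfold S12
  have := hS.pos ((x + y) / 2)
  have h3 : 0 < Real.sin ((y - x) / 2) := Real.sin_pos_of_pos_of_lt_pi (by linarith) (by linarith)
  positivity

theorem RAT_A {h k ρ : ℝ → ℝ} (hD : S_DER) (hS : Sup h k ρ) (y : ℝ) :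
    StrictAntiOn (fun t => Am h k y t) (Icc y (y + 2 * π)) := by
  have hd := fun t => (hD h k ρ hS y t).2.2.2.1
  apply strictAntiOn_of_deriv_neg (convex_Icc _ _)
  · exact fun t _ => (hd t).continuousAt.continuousWithinAt
  · intro t ht
    rw [interior_Icc] at ht
    rw [(hd t).deriv]
    have := RAT_S12pos hS ht.1 ht.2
    linarith

theorem RAT_B {h k ρ : ℝ → ℝ} (hD : S_DER) (hS : Sup h k ρ) (y : ℝ) :
    StrictMonoOn (fun t => Bm h k t y) (Icc (y - 2 * π) y) := by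
  have hd := fun t => (hD h k ρ hS t y).2.2.2.2.1
  apply strictMonoOn_of_deriv_pos (convex_Icc _ _)
  · exact fun t _ => (hd t).continuousAt.continuousWithinAt
  · intro t ht
    rw [interior_Icc] at ht
    rw [(hd t).deriv]
    exact RAT_S12pos hS ht.2 (by linarith [ht.1])

theorem RAT_surj {h k g : ℝ → ℝ} (hg : Circ h k g) : Function.Surjective g := by
  apply hg.cont.surjective
  · exact Filter.tendsto_atTop_mono (fun x => (hg.lo x).le) Filter.tendsto_id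
  · refine Filter.tendsto_atBot_mono (fun x => (hg.hi x).le) ?_
    exact Filter.tendsto_atBot_add_const_right _ _ Filter.tendsto_id

theorem RAT_T2 {h k g : ℝ → ℝ} {T2 : ℝ → ℝ → ℝ} (hT : IsT h k T2) (hg : Circ h k g) (x : ℝ) :
    g (g x) = T2 x (g x) :=
  hT.2 x (g x) (g (g x)) (hg.lo x) (hg.hi x) (hg.lo _) (hg.hi _) (hg.st x).symm

/-- a circle separates the phase space -/
theorem RAT_inv {h k ρ g : ℝ → ℝ} {T2 : ℝ → ℝ → ℝ} (hD : S_DER) (hS : Sup h k ρ)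
    (hT : IsT h k T2) (hg : Circ h k g) {x y : ℝ} (h1 : x < y) (h2 : y < x + 2 * π) :
    T2 x y < g y ↔ y < g x := by
  obtain ⟨x', hx'⟩ := RAT_surj hg y
  have e1 : x' < y := by rw [← hx']; exact hg.lo x'
  have e2 : y < x' + 2 * π := by rw [← hx']; exact hg.hi x'
  have e3 : Bm h k x' y = Am h k y (g y) := by
    have := hg.st x'
    rwa [hx'] at this
  obtain ⟨t1, t2, t3⟩ := hT.1 x y h1 h2
  have hA := RAT_A hD hS y
  have hB := RAT_B hD hS y
  have m1 : T2 x y ∈ Icc y (y + 2 * π) := ⟨t1.le, t2.le⟩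
  have m2 : g y ∈ Icc y (y + 2 * π) := ⟨(hg.lo y).le, (hg.hi y).le⟩
  have m3 : x ∈ Icc (y - 2 * π) y := ⟨by linarith, h1.le⟩
  have m4 : x' ∈ Icc (y - 2 * π) y := ⟨by linarith, e1.le⟩
  have q1 : T2 x y < g y ↔ Am h k y (g y) < Am h k y (T2 x y) := (hA.lt_iff_gt m2 m1).symm
  have q2 : Bm h k x' y < Bm h k x y ↔ x' < x := hB.lt_iff_lt m4 m3
  have q3 : y < g x ↔ x' < x := by
    conv_lhs => rw [← hx']
    exact hg.mono.lt_iff_lt
  rw [q1, t3, ← e3, q2, q3]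

theorem RAT_per {h k g : ℝ → ℝ} (hg : Circ h k g) (n p : ℕ) (x : ℝ) :
    g^[n] (x + 2 * π * p) = g^[n] x + 2 * π * p := by
  have h0 : ∀ (p : ℕ) (x : ℝ), g (x + 2 * π * p) = g x + 2 * π * p := by
    intro p
    induction p with
    | zero => intro x; simp
    | succ p ih =>
      intro x
      have : x + 2 * π * ((p + 1 : ℕ) : ℝ) = (x + 2 * π * p) + 2 * π := by push_cast; ring
      rw [this, hg.per, ih]
      push_cast
      ring
  induction n generalizing x with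
  | zero => simp
  | succ n ih => rw [Function.iterate_succ_apply, h0, ih, Function.iterate_succ_apply]

theorem RAT_le {h k g : ℝ → ℝ} (hg : Circ h k g) {p q : ℕ} {y : ℝ}
    (hy : g^[q] y ≤ y + 2 * π * p) (m : ℕ) : g^[q * m] y ≤ y + 2 * π * ((p * m : ℕ) : ℝ) := by
  induction m with
  | zero => simp
  | succ m ih =>
    rw [show q * (m + 1) = q * m + q from Nat.mul_succ q m, Function.iterate_add_apply]
    calc g^[q * m] (g^[q] y) ≤ g^[q * m] (y + 2 * π * p) :=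
          (hg.mono.monotone.iterate _) hy
      _ = g^[q * m] y + 2 * π * p := RAT_per hg _ _ _
      _ ≤ _ := by push_cast at ih ⊢; nlinarith

theorem RAT_ge {h k g : ℝ → ℝ} (hg : Circ h k g) {p q : ℕ} {y : ℝ}
    (hy : y + 2 * π * p ≤ g^[q] y) (m : ℕ) : y + 2 * π * ((p * m : ℕ) : ℝ) ≤ g^[q * m] y := by
  induction m with
  | zero => simp
  | succ m ih =>
    rw [show q * (m + 1) = q * m + q from Nat.mul_succ q m, Function.iterate_add_apply]
    calc g^[q * m] (g^[q] y) ≥ g^[q * m] (y + 2 * π * p) :=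
          (hg.mono.monotone.iterate _) hy
      _ = g^[q * m] y + 2 * π * p := RAT_per hg _ _ _
      _ ≥ _ := by push_cast at ih ⊢; nlinarith

theorem RAT_eq {h k g : ℝ → ℝ} (hg : Circ h k g) {p q : ℕ} {y : ℝ}
    (hy : g^[q] y = y + 2 * π * p) (m : ℕ) : g^[q * m] y = y + 2 * π * ((p * m : ℕ) : ℝ) :=
  le_antisymm (RAT_le hg hy.le m) (RAT_ge hg hy.ge m)

theorem RAT_itle {h k g g' : ℝ → ℝ} (hg : Circ h k g) (hle : ∀ x, g x ≤ g' x) (n : ℕ)
    (x : ℝ) : g^[n] x ≤ g'^[n] x :=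
  (hg.mono.monotone.iterate_le_of_le hle n) x

theorem RAT_pi {a b : ℕ} {y : ℝ} (h : y + 2 * π * (a : ℝ) ≤ y + 2 * π * (b : ℝ)) : a ≤ b := by
  have hp := Real.pi_pos
  have : (a : ℝ) ≤ b := by
    by_contra hc
    push Not at hc
    nlinarith
  exact_mod_cast this

/-- comparison of a lower and an upper rotation number -/
theorem RAT_cmp {h k g g' : ℝ → ℝ} (hg : Circ h k g) (hg' : Circ h k g')
    (hle : ∀ x, g x ≤ g' x) {a b p q : ℕ} {x y : ℝ} (h1 : x + 2 * π * a ≤ g^[b] x)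
    (h2 : g'^[q] y ≤ y + 2 * π * p) (hper : (∀ x, x + 2 * π * a ≤ g^[b] x) ∨
      (∀ y, g'^[q] y ≤ y + 2 * π * p)) : a * q ≤ p * b := by
  rcases hper with hp | hp
  · have e1 := RAT_ge hg (hp y) q
    have e2 := RAT_le hg' h2 b
    have e3 := RAT_itle hg hle (b * q) y
    rw [mul_comm q b] at e2
    exact RAT_pi (e1.trans (e3.trans e2))
  · have e1 := RAT_ge hg h1 q
    have e2 := RAT_le hg' (hp x) b
    have e3 := RAT_itle hg hle (b * q) x
    rw [mul_comm q b] at e2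
    exact RAT_pi (e1.trans (e3.trans e2))

/-- two circles with a common point have a common orbit -/
theorem RAT_orb {h k g g' : ℝ → ℝ} {T2 : ℝ → ℝ → ℝ} (hT : IsT h k T2) (hg : Circ h k g)
    (hg' : Circ h k g') {x : ℝ} (hx : g x = g' x) (n : ℕ) : g^[n] x = g'^[n] x := by
  have : ∀ n, g^[n] x = g'^[n] x ∧ g^[n + 1] x = g'^[n + 1] x := by
    intro n
    induction n with
    | zero => exact ⟨rfl, hx⟩
    | succ n ih =>
      refine ⟨ih.2, ?_⟩
      rw [Function.iterate_succ_apply', Function.iterate_succ_apply', RAT_T2 hT hg,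
        Function.iterate_succ_apply' g' (n + 1), Function.iterate_succ_apply' g' n,
        RAT_T2 hT hg', ← Function.iterate_succ_apply' g, ← Function.iterate_succ_apply' g',
        ih.1, ih.2]
  exact (this n).1

/-- circles with different rational rotation numbers are ordered -/
theorem RAT_lt {h k g g' : ℝ → ℝ} {T2 : ℝ → ℝ → ℝ} (hT : IsT h k T2) (hg : Circ h k g)
    (hg' : Circ h k g') {p q p' q' : ℕ} (hp : ∀ x, g^[q] x = x + 2 * π * p)
    (hp' : ∀ x, g'^[q'] x = x + 2 * π * p') (hlt : p * q' < p' * q) (x : ℝ) : g x < g' x := by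
  have hne : ∀ x, g x ≠ g' x := by
    intro x hx
    have e1 := RAT_eq hg (hp x) q'
    have e2 := RAT_eq hg' (hp' x) q
    rw [RAT_orb hT hg hg' hx, mul_comm q q', e2] at e1
    exact absurd (RAT_pi e1.le) (by omega)
  by_contra hc
  push Not at hc
  have hc' : g' x < g x := lt_of_le_of_ne hc (Ne.symm (hne x))
  have hall : ∀ y, g' y ≤ g y := by
    intro y
    by_contra hy
    push Not at hy
    have hcont : Continuous fun z => g' z - g z := hg'.cont.sub hg.cont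
    have : (0:ℝ) ∈ (fun z => g' z - g z) '' (Set.univ) := by
      apply (isPreconnected_univ).intermediate_value (mem_univ x) (mem_univ y)
        hcont.continuousOn
      exact ⟨by linarith, by linarith⟩
    obtain ⟨z, -, hz⟩ := this
    exact hne z (by simp only at hz; linarith)
  have := RAT_cmp hg' hg hall (x := 0) (y := 0) (hp' 0).ge (hp 0).le (Or.inl fun x => (hp' x).ge)
  omega

/-! ### rational circles -/

/-- `g` is a circle all of whose points are periodic, of rotation number `p / q` in `(0, 1/3]` -/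
def RAT_R (h k : ℝ → ℝ) (g : ℝ → ℝ) (p q : ℕ) : Prop :=
  Circ h k g ∧ 0 < p ∧ 3 * p ≤ q ∧ ∀ x, g^[q] x = x + 2 * π * p

theorem RAT_Rleg {h k ρ g g' : ℝ → ℝ} {T2 : ℝ → ℝ → ℝ} (hS : Sup h k ρ) (hR : S_RGAP)
    (hT : IsT h k T2) {p q p' q' : ℕ} (hg : RAT_R h k g p q) (hg' : RAT_R h k g' p' q')
    (hle : p * q' ≤ p' * q) (x : ℝ) : g x ≤ g' x := by
  rcases Nat.lt_or_eq_of_le hle with h1 | h1
  · exact (RAT_lt hT hg.1 hg'.1 hg.2.2.2 hg'.2.2.2 h1 x).le
  · have e1 : ∀ x, g^[q * q'] x = x + 2 * π * ((p * q' : ℕ) : ℝ) := fun x =>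
      RAT_eq hg.1 (hg.2.2.2 x) q'
    have e2 : g'^[q * q'] 0 = 0 + 2 * π * ((p * q' : ℕ) : ℝ) := by
      rw [h1, mul_comm q q']
      exact RAT_eq hg'.1 (hg'.2.2.2 0) q
    have hq : 0 < q := by have := hg.2.1; have := hg.2.2.1; omega
    have hq' : 0 < q' := by have := hg'.2.1; have := hg'.2.2.1; omega
    have := hR h k ρ hS g g' hg.1 hg'.1 (p * q') (q * q') (Nat.mul_pos hq hq') e1 ⟨0, e2⟩
    rw [this]

/-- comparison at one point is comparison everywhere -/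
theorem RAT_Rpt {h k ρ g g' : ℝ → ℝ} {T2 : ℝ → ℝ → ℝ} (hS : Sup h k ρ) (hR : S_RGAP)
    (hT : IsT h k T2) {p q p' q' : ℕ} (hg : RAT_R h k g p q) (hg' : RAT_R h k g' p' q')
    {x0 : ℝ} (h0 : g x0 ≤ g' x0) (x : ℝ) : g x ≤ g' x := by
  rcases Nat.lt_or_ge (p' * q) (p * q') with h1 | h1
  · exact absurd (RAT_lt hT hg'.1 hg.1 hg'.2.2.2 hg.2.2.2 h1 x0) (not_lt.2 h0)
  · exact RAT_Rleg hS hR hT hg hg' h1 x

/-- if a circle has no point with `g^q x = x + 2 pi p` and lies above, it is above with a gap -/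
theorem RAT_gap (f : ℝ → ℝ) (hf : Continuous f) (hper : ∀ x, f (x + 2 * π) = f x)
    (hpos : ∀ x, 0 < f x) : ∃ ε, 0 < ε ∧ ∀ x, ε ≤ f x := by
  obtain ⟨x0, -, hx0⟩ := (isCompact_Icc (a := (0 : ℝ)) (b := 2 * π)).exists_isMinOn
    ⟨0, by constructor <;> [exact le_rfl; positivity]⟩ hf.continuousOn
  refine ⟨f x0, hpos x0, fun x => ?_⟩
  obtain ⟨y, hy, hxy⟩ := Function.Periodic.exists_mem_Ico₀ (f := f) (c := 2 * π) hper
    (by positivity) x
  rw [hxy]
  exact hx0 (Ico_subset_Icc_self hy)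

theorem RAT_itcont {g : ℝ → ℝ} (hg : Continuous g) (n : ℕ) : Continuous g^[n] := hg.iterate n

theorem RAT_per1 {h k g : ℝ → ℝ} (hg : Circ h k g) (n : ℕ) (x : ℝ) :
    g^[n] (x + 2 * π) = g^[n] x + 2 * π := by
  have := RAT_per hg n 1 x
  simpa using this

/-- strictly above `p / q` everywhere: some iterate gains a full turn -/
theorem RAT_up {h k g : ℝ → ℝ} (hg : Circ h k g) {p q : ℕ}
    (hy : ∀ y, y + 2 * π * p < g^[q] y) :
    ∃ m : ℕ, ∀ m', m ≤ m' → ∀ y, y + 2 * π * ((p * m' + 1 : ℕ) : ℝ) ≤ g^[q * m'] y := by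
  obtain ⟨ε, hε, hle⟩ := RAT_gap (fun x => g^[q] x - x - 2 * π * p)
    (((RAT_itcont hg.cont q).sub continuous_id).sub continuous_const)
    (fun x => by simp only [RAT_per1 hg]; ring) (fun x => by have := hy x; linarith)
  have key : ∀ m : ℕ, ∀ y, y + 2 * π * ((p * m : ℕ) : ℝ) + ε * m ≤ g^[q * m] y := by
    intro m
    induction m with
    | zero => intro y; simp
    | succ m ih =>
      intro y
      rw [show q * (m + 1) = q * m + q from Nat.mul_succ q m, Function.iterate_add_apply]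
      have e1 : y + 2 * π * p + ε ≤ g^[q] y := by have := hle y; linarith
      have e2 := ih (g^[q] y)
      push_cast at e2 ⊢
      nlinarith
  obtain ⟨m, hm⟩ := exists_nat_ge (2 * π / ε)
  refine ⟨m, fun m' hm' y => ?_⟩
  have e1 := key m' y
  have e2 : 2 * π ≤ ε * m' := by
    have : 2 * π / ε ≤ m' := hm.trans (by exact_mod_cast hm')
    rw [div_le_iff₀ hε] at this
    linarith
  push_cast at e1 ⊢
  linarith

/-- strictly below `p / q` everywhere -/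
theorem RAT_down {h k g : ℝ → ℝ} (hg : Circ h k g) {p q : ℕ}
    (hy : ∀ y, g^[q] y < y + 2 * π * p) :
    ∃ m : ℕ, ∀ m', m ≤ m' → ∀ y, g^[q * m'] y + 2 * π ≤ y + 2 * π * ((p * m' : ℕ) : ℝ) := by
  obtain ⟨ε, hε, hle⟩ := RAT_gap (fun x => x + 2 * π * p - g^[q] x)
    ((continuous_id.add continuous_const).sub (RAT_itcont hg.cont q))
    (fun x => by simp only [RAT_per1 hg]; ring) (fun x => by have := hy x; linarith)
  have key : ∀ m : ℕ, ∀ y, g^[q * m] y + ε * m ≤ y + 2 * π * ((p * m : ℕ) : ℝ) := by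
    intro m
    induction m with
    | zero => intro y; simp
    | succ m ih =>
      intro y
      rw [show q * (m + 1) = q * m + q from Nat.mul_succ q m, Function.iterate_add_apply]
      have e1 : g^[q] y + ε ≤ y + 2 * π * p := by have := hle y; linarith
      have e2 := ih (g^[q] y)
      push_cast at e2 ⊢
      nlinarith
  obtain ⟨m, hm⟩ := exists_nat_ge (2 * π / ε)
  refine ⟨m, fun m' hm' y => ?_⟩
  have e1 := key m' y
  have e2 : 2 * π ≤ ε * m' := by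
    have : 2 * π / ε ≤ m' := hm.trans (by exact_mod_cast hm')
    rw [div_le_iff₀ hε] at this
    linarith
  linarith

/-- the limit of the rational circles below a point -/
theorem RAT_lower {h k ρ gG g0 : ℝ → ℝ} {T2 : ℝ → ℝ → ℝ} (hS : Sup h k ρ) (hLIM : S_LIM)
    (hR : S_RGAP) (hT : IsT h k T2) (hG : RAT_R h k gG 1 3) {x y : ℝ} {p0 q0 : ℕ}
    (hg0 : RAT_R h k g0 p0 q0) (h0 : g0 x ≤ y) :
    ∃ gm, Circ h k gm ∧ gm x ≤ y ∧ (∀ t, gm t ≤ gG t) ∧
      (∀ g p q, RAT_R h k g p q → g x ≤ y → ∀ t, g t ≤ gm t) ∧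
      (∀ g p q, RAT_R h k g p q → y < g x → ∀ t, gm t ≤ g t) := by
  set S : Set ℝ := {v | ∃ g p q, RAT_R h k g p q ∧ g x = v ∧ v ≤ y} with hSdef
  have hne : S.Nonempty := ⟨g0 x, g0, p0, q0, hg0, rfl, h0⟩
  have hbd : BddAbove S := ⟨y, by rintro v ⟨g, p, q, -, -, hv⟩; exact hv⟩
  obtain ⟨u, hu1, hu2, hu3⟩ := exists_seq_tendsto_sSup hne hbd
  choose H P Q hH1 hH2 hH3 using hu3
  have hmono : ∀ t, Monotone fun n => H n t := by
    intro t m n hmn
    refine RAT_Rpt hS hR hT (hH1 m) (hH1 n) (x0 := x) ?_ t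
    rw [hH2, hH2]
    exact hu1 hmn
  have hleG : ∀ g p q, RAT_R h k g p q → ∀ t, g t ≤ gG t := by
    intro g p q hg t
    refine RAT_Rleg hS hR hT hg hG ?_ t
    have := hg.2.2.1
    omega
  have hbdd : ∀ t, BddAbove (range fun n => H n t) := by
    intro t
    refine ⟨gG t, ?_⟩
    rintro _ ⟨n, rfl⟩
    exact hleG _ _ _ (hH1 n) t
  have hlim : ∀ t, Filter.Tendsto (fun n => H n t) Filter.atTop (nhds (⨆ n, H n t)) := fun t =>
    tendsto_atTop_ciSup (hmono t) (hbdd t)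
  have hge : ∀ n t, H n t ≤ ⨆ n, H n t := fun n t => le_ciSup (hbdd t) n
  have hle' : ∀ t, (⨆ n, H n t) ≤ gG t := fun t => ciSup_le fun n => hleG _ _ _ (hH1 n) t
  have hC : Circ h k (fun t => ⨆ n, H n t) :=
    hLIM h k ρ hS H _ (fun n => (hH1 n).1) hlim ⟨H 0, (hH1 0).1, hge 0⟩ ⟨gG, hG.1, hle'⟩
  have hval : (⨆ n, H n x) = sSup S := by
    refine tendsto_nhds_unique (hlim x) ?_
    simpa only [hH2] using hu2
  refine ⟨fun t => ⨆ n, H n t, hC, ?_, hle', ?_, ?_⟩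
  · simp only
    exact ciSup_le fun n => by rw [hH2]; exact hH3 n
  · intro g p q hg hgx t
    have e1 : g x ≤ ⨆ n, H n x := by
      rw [hval]
      exact le_csSup hbd ⟨g, p, q, hg, rfl, hgx⟩
    rcases lt_or_eq_of_le e1 with e2 | e2
    · obtain ⟨n, hn⟩ := exists_lt_of_lt_ciSup e2
      exact (RAT_Rpt hS hR hT hg (hH1 n) hn.le t).trans (hge n t)
    · have hq : 0 < q := by have := hg.2.1; have := hg.2.2.1; omega
      have e3 : (fun t => ⨆ n, H n t)^[q] x = x + 2 * π * p := by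
        rw [← RAT_orb hT hg.1 hC e2 q]
        exact hg.2.2.2 x
      have := hR h k ρ hS g _ hg.1 hC p q hq hg.2.2.2 ⟨x, e3⟩
      exact (congrFun this t).le
  · intro g p q hg hgx t
    refine ciSup_le fun n => RAT_Rpt hS hR hT (hH1 n) hg (x0 := x) ?_ t
    rw [hH2]
    exact (hH3 n).trans hgx.le

/-- the limit of the rational circles above a point -/
theorem RAT_upper {h k ρ gG g0 : ℝ → ℝ} {T2 : ℝ → ℝ → ℝ} (hS : Sup h k ρ) (hLIM : S_LIM)
    (hR : S_RGAP) (hT : IsT h k T2) (hG : RAT_R h k gG 1 3) {x y : ℝ} {p0 q0 : ℕ}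
    (hg0 : RAT_R h k g0 p0 q0) (h0 : g0 x ≤ y) (hy : y < gG x) :
    ∃ gm, Circ h k gm ∧ y ≤ gm x ∧ (∀ t, gm t ≤ gG t) ∧
      (∀ g p q, RAT_R h k g p q → y < g x → ∀ t, gm t ≤ g t) ∧
      (∀ g p q, RAT_R h k g p q → g x ≤ y → ∀ t, g t ≤ gm t) ∧
      (∀ g' : ℝ → ℝ, (∀ g p q, RAT_R h k g p q → y < g x → ∀ t, g' t ≤ g t) → ∀ t, g' t ≤ gm t) := by
  set S : Set ℝ := {v | ∃ g p q, RAT_R h k g p q ∧ g x = v ∧ y < v} with hSdef
  have hne : S.Nonempty := ⟨gG x, gG, 1, 3, hG, rfl, hy⟩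
  have hbd : BddBelow S := ⟨y, by rintro v ⟨g, p, q, -, -, hv⟩; exact hv.le⟩
  obtain ⟨u, hu1, hu2, hu3⟩ := exists_seq_tendsto_sInf hne hbd
  choose H P Q hH1 hH2 hH3 using hu3
  have hmono : ∀ t, Antitone fun n => H n t := by
    intro t m n hmn
    refine RAT_Rpt hS hR hT (hH1 n) (hH1 m) (x0 := x) ?_ t
    rw [hH2, hH2]
    exact hu1 hmn
  have hleG : ∀ g p q, RAT_R h k g p q → ∀ t, g t ≤ gG t := by
    intro g p q hg t
    refine RAT_Rleg hS hR hT hg hG ?_ t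
    have := hg.2.2.1
    omega
  have hbdd : ∀ t, BddBelow (range fun n => H n t) := by
    intro t
    refine ⟨g0 t, ?_⟩
    rintro _ ⟨n, rfl⟩
    refine RAT_Rpt hS hR hT hg0 (hH1 n) (x0 := x) ?_ t
    rw [hH2]
    exact h0.trans (hH3 n).le
  have hlim : ∀ t, Filter.Tendsto (fun n => H n t) Filter.atTop (nhds (⨅ n, H n t)) := fun t =>
    tendsto_atTop_ciInf (hmono t) (hbdd t)
  have hge : ∀ n t, (⨅ n, H n t) ≤ H n t := fun n t => ciInf_le (hbdd t) n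
  have hle' : ∀ t, g0 t ≤ (⨅ n, H n t) := fun t => le_ciInf fun n => by
    refine RAT_Rpt hS hR hT hg0 (hH1 n) (x0 := x) ?_ t
    rw [hH2]
    exact h0.trans (hH3 n).le
  have hC : Circ h k (fun t => ⨅ n, H n t) :=
    hLIM h k ρ hS H _ (fun n => (hH1 n).1) hlim ⟨g0, hg0.1, hle'⟩ ⟨H 0, (hH1 0).1, hge 0⟩
  have hval : (⨅ n, H n x) = sInf S := by
    refine tendsto_nhds_unique (hlim x) ?_
    simpa only [hH2] using hu2
  refine ⟨fun t => ⨅ n, H n t, hC, ?_, fun t => (hge 0 t).trans (hleG _ _ _ (hH1 0) t), ?_, ?_, ?_⟩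
  · simp only
    exact le_ciInf fun n => by rw [hH2]; exact (hH3 n).le
  · intro g p q hg hgx t
    have e1 : (⨅ n, H n x) ≤ g x := by
      rw [hval]
      exact csInf_le hbd ⟨g, p, q, hg, rfl, hgx⟩
    rcases lt_or_eq_of_le e1 with e2 | e2
    · obtain ⟨n, hn⟩ := exists_lt_of_ciInf_lt e2
      exact (hge n t).trans (RAT_Rpt hS hR hT (hH1 n) hg hn.le t)
    · have hq : 0 < q := by have := hg.2.1; have := hg.2.2.1; omega
      have e3 : (fun t => ⨅ n, H n t)^[q] x = x + 2 * π * p := by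
        rw [← RAT_orb hT hg.1 hC e2.symm q]
        exact hg.2.2.2 x
      have := hR h k ρ hS g _ hg.1 hC p q hq hg.2.2.2 ⟨x, e3⟩
      exact (congrFun this t).ge
  · intro g p q hg hgx t
    refine le_ciInf fun n => RAT_Rpt hS hR hT hg (hH1 n) (x0 := x) ?_ t
    rw [hH2]
    exact hgx.trans (hH3 n).le
  · intro g' hg' t
    refine le_ciInf fun n => hg' _ _ _ (hH1 n) ?_ t
    rw [hH2]
    exact hH3 n

/-- a point above some rational circle lies on a circle -/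
theorem RAT_cover {h k ρ gG g0 : ℝ → ℝ} {T2 : ℝ → ℝ → ℝ} (hS : Sup h k ρ) (hLIM : S_LIM)
    (hR : S_RGAP) (hW : S_WAN) (hT : IsT h k T2)
    (hrat : ∀ p q : ℕ, 0 < p → 3 * p ≤ q → ∃ g, RAT_R h k g p q)
    (hG : RAT_R h k gG 1 3) {x y : ℝ} {p0 q0 : ℕ}
    (hg0 : RAT_R h k g0 p0 q0) (h0 : g0 x ≤ y) (hy : y < gG x) :
    ∃ g, Circ h k g ∧ g x = y := by
  obtain ⟨g1, c1, a1, b1, l1, m1⟩ := RAT_lower hS hLIM hR hT hG hg0 h0
  obtain ⟨g2, c2, a2, b2, l2, m2, n2⟩ := RAT_upper hS hLIM hR hT hG hg0 h0 hy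
  by_contra hno
  push Not at hno
  have a1' : g1 x < y := lt_of_le_of_ne a1 (hno g1 c1)
  have a2' : y < g2 x := lt_of_le_of_ne a2 (Ne.symm (hno g2 c2))
  have h12 : ∀ t, g1 t ≤ g2 t := n2 g1 m1
  obtain ⟨p, q, x1, hq, ⟨y1, hy1⟩, hx1⟩ := hW h k ρ hS g1 g2 c1 c2 h12 ⟨x, a1'.trans a2'⟩
  have hp : 0 < p := by
    have e1 := RAT_cmp hg0.1 c1 (l1 _ _ _ hg0 h0) (x := 0) (hg0.2.2.2 0).ge hy1
      (Or.inl fun x => (hg0.2.2.2 x).ge)
    by_contra hc
    have : p = 0 := by omega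
    subst this
    have := Nat.mul_pos hg0.2.1 hq
    omega
  have hpq : 3 * p ≤ q := by
    have e1 := RAT_cmp c2 hG.1 b2 (y := 0) hx1 (hG.2.2.2 0).le
      (Or.inr fun x => (hG.2.2.2 x).le)
    omega
  obtain ⟨gρ, hgρ⟩ := hrat p q hp hpq
  rcases le_or_gt (gρ x) y with hc | hc
  · -- the circle is below the point
    have e1 : g1^[q] y1 = y1 + 2 * π * p := by
      refine le_antisymm hy1 ?_
      rw [← hgρ.2.2.2 y1]
      exact RAT_itle hgρ.1 (l1 _ _ _ hgρ hc) q y1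
    have e2 : gρ = g1 := hR h k ρ hS gρ g1 hgρ.1 c1 p q hq hgρ.2.2.2 ⟨y1, e1⟩
    have hlt : 3 * p < q := by
      refine lt_of_le_of_ne hpq fun he => ?_
      have := RAT_Rleg hS hR hT hG hgρ (by omega) x
      linarith
    by_cases hex : ∃ t, g2^[q] t = t + 2 * π * p
    · have e3 : gρ = g2 := hR h k ρ hS gρ g2 hgρ.1 c2 p q hq hgρ.2.2.2 hex
      rw [← e3, e2] at a2'
      linarith
    · push Not at hex
      have hup : ∀ t, t + 2 * π * p < g2^[q] t := by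
        intro t
        refine lt_of_le_of_ne ?_ (hex t).symm
        rw [← hgρ.2.2.2 t]
        exact RAT_itle hgρ.1 (fun t => by rw [e2]; exact h12 t) q t
      obtain ⟨m, hm⟩ := RAT_up c2 hup
      set m' := m + 2 with hm'
      have e4 := hm m' (by omega)
      have e5 : 3 * (2 * (p * m') + 1) ≤ 2 * (q * m') := by
        have : (3 * p + 1) * m' ≤ q * m' := Nat.mul_le_mul_right _ hlt
        have e6 : 3 * (p * m') + m' ≤ q * m' := by
          calc 3 * (p * m') + m' = (3 * p + 1) * m' := by ring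
            _ ≤ _ := this
        omega
      obtain ⟨gm, hgm⟩ := hrat (2 * (p * m') + 1) (2 * (q * m')) (by omega) e5
      rcases le_or_gt (gm x) y with hd | hd
      · have e7 := RAT_cmp hgm.1 hgρ.1 (fun t => by rw [e2]; exact l1 _ _ _ hgm hd t)
          (x := 0) (y := 0) (hgm.2.2.2 0).ge (hgρ.2.2.2 0).le
          (Or.inl fun x => (hgm.2.2.2 x).ge)
        have e8 : (2 * (p * m') + 1) * q = p * (2 * (q * m')) + q := by ring
        omega
      · have e7 := RAT_cmp c2 hgm.1 (l2 _ _ _ hgm hd)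
          (x := 0) (y := 0) (e4 0) (hgm.2.2.2 0).le
          (Or.inr fun x => (hgm.2.2.2 x).le)
        have e8 : (p * m' + 1) * (2 * (q * m')) = (2 * (p * m') + 1) * (q * m') + q * m' := by
          ring
        have : 0 < q * m' := Nat.mul_pos hq (by omega)
        omega
  · -- the circle is above the point
    have e1 : g2^[q] x1 = x1 + 2 * π * p := by
      refine le_antisymm ?_ hx1
      rw [← hgρ.2.2.2 x1]
      exact RAT_itle c2 (l2 _ _ _ hgρ hc) q x1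
    have e2 : gρ = g2 := hR h k ρ hS gρ g2 hgρ.1 c2 p q hq hgρ.2.2.2 ⟨x1, e1⟩
    by_cases hex : ∃ t, g1^[q] t = t + 2 * π * p
    · have e3 : gρ = g1 := hR h k ρ hS gρ g1 hgρ.1 c1 p q hq hgρ.2.2.2 hex
      rw [← e3, e2] at a1'
      linarith
    · push Not at hex
      have hdn : ∀ t, g1^[q] t < t + 2 * π * p := by
        intro t
        refine lt_of_le_of_ne ?_ (hex t)
        rw [← hgρ.2.2.2 t]
        exact RAT_itle c1 (fun t => by rw [e2]; exact h12 t) q t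
      obtain ⟨m, hm⟩ := RAT_down c1 hdn
      set m' := m + 1 with hm'
      have e4 := hm m' (by omega)
      have hpm : 0 < p * m' := Nat.mul_pos hp (by omega)
      obtain ⟨a, ha⟩ : ∃ a, p * m' = a + 1 := ⟨p * m' - 1, by omega⟩
      have e5 : 3 * (2 * a + 1) ≤ 2 * (q * m') := by
        have : (3 * p) * m' ≤ q * m' := Nat.mul_le_mul_right _ hpq
        have e6 : 3 * (p * m') ≤ q * m' := by
          calc 3 * (p * m') = (3 * p) * m' := by ring
            _ ≤ _ := this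
        omega
      obtain ⟨gm, hgm⟩ := hrat (2 * a + 1) (2 * (q * m')) (by omega) e5
      have e4' : g1^[q * m'] 0 ≤ 0 + 2 * π * (a : ℝ) := by
        have := e4 0
        rw [ha] at this
        push_cast at this
        linarith
      have e4'' : ∀ t, g1^[q * m'] t ≤ t + 2 * π * (a : ℝ) := by
        intro t
        have := e4 t
        rw [ha] at this
        push_cast at this
        linarith
      rcases le_or_gt (gm x) y with hd | hd
      · have e7 := RAT_cmp hgm.1 c1 (l1 _ _ _ hgm hd) (x := 0) (y := 0)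
          (hgm.2.2.2 0).ge e4' (Or.inr e4'')
        have e8 : (2 * a + 1) * (q * m') = a * (2 * (q * m')) + q * m' := by ring
        have : 0 < q * m' := Nat.mul_pos hq (by omega)
        omega
      · have e7 := RAT_cmp hgρ.1 hgm.1 (fun t => by rw [e2]; exact l2 _ _ _ hgm hd t)
          (x := 0) (y := 0) (hgρ.2.2.2 0).ge (hgm.2.2.2 0).le
          (Or.inr fun x => (hgm.2.2.2 x).le)
        have e8 : p * (2 * (q * m')) = (2 * a + 1) * q + q := by
          calc p * (2 * (q * m')) = 2 * (p * m') * q := by ring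
            _ = _ := by rw [ha]; ring
        omega

/-! ### the region below all rational circles is null -/

theorem RAT_perz {h k g : ℝ → ℝ} (hg : Circ h k g) (m : ℤ) (x : ℝ) :
    g (x + 2 * π * m) = g x + 2 * π * m := by
  have hp : Function.Periodic (fun x => g x - x) (2 * π) := fun x => by
    simp only [hg.per]; ring
  have : g (x + (m : ℝ) * (2 * π)) - (x + (m : ℝ) * (2 * π)) = g x - x := hp.int_mul m x
  have e : x + (m : ℝ) * (2 * π) = x + 2 * π * m := by ring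
  rw [e] at this
  linarith

/-- the region below `gG` over one period -/
def RAT_D (gG : ℝ → ℝ) : Set (ℝ × ℝ) :=
  {z | z.1 ∈ Ioc (0 : ℝ) (2 * π) ∧ z.2 ∈ Ioc z.1 (gG z.1)}

theorem RAT_Dm {h k gG : ℝ → ℝ} (hG : Circ h k gG) : MeasurableSet (RAT_D gG) := by
  have h1 : MeasurableSet {z : ℝ × ℝ | z.1 ∈ Ioc (0 : ℝ) (2 * π)} :=
    measurable_fst measurableSet_Ioc
  have h2 : MeasurableSet {z : ℝ × ℝ | z.1 < z.2} := measurableSet_lt measurable_fst measurable_snd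
  have h3 : MeasurableSet {z : ℝ × ℝ | z.2 ≤ gG z.1} :=
    measurableSet_le measurable_snd (hG.cont.measurable.comp measurable_fst)
  exact h1.inter (h2.inter h3)

theorem RAT_fub {h k ρ gG : ℝ → ℝ} (hS : Sup h k ρ) (hG : Circ h k gG) {f : ℝ × ℝ → ℝ}
    (hf : Measurable f) {C : ℝ} (hC : ∀ z, |f z| ≤ C) :
    IntegrableOn (fun z : ℝ × ℝ => f z * S12 ρ z.1 z.2) (RAT_D gG) ∧
    (∫ x in (0 : ℝ)..(2 * π), ∫ y in x..(gG x), f (x, y) * S12 ρ x y)
      = ∫ z in RAT_D gG, f z * S12 ρ z.1 z.2 := by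
  have hcS : Continuous (fun z : ℝ × ℝ => S12 ρ z.1 z.2) := by
    unfold S12
    have := hS.cr
    fun_prop
  have hDm : MeasurableSet (RAT_D gG) := RAT_Dm hG
  have hsub : RAT_D gG ⊆ Icc (0 : ℝ) (2 * π) ×ˢ Icc (0 : ℝ) (2 * π + 2 * π) := by
    rintro z ⟨⟨h1, h2⟩, h3, h4⟩
    have := hG.hi z.1
    exact ⟨⟨h1.le, h2⟩, ⟨by linarith, by linarith⟩⟩
  have hint : IntegrableOn (fun z : ℝ × ℝ => f z * S12 ρ z.1 z.2) (RAT_D gG) := by
    have h1 : IntegrableOn (fun z : ℝ × ℝ => S12 ρ z.1 z.2) (RAT_D gG) :=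
      (hcS.continuousOn.integrableOn_compact (isCompact_Icc.prod isCompact_Icc)).mono_set hsub
    exact Integrable.bdd_mul h1 hf.aestronglyMeasurable
      (Filter.Eventually.of_forall fun z => by rw [Real.norm_eq_abs]; exact hC z)
  refine ⟨hint, ?_⟩
  rw [← integral_indicator hDm, Measure.volume_eq_prod, integral_prod]
  · rw [intervalIntegral.integral_of_le (by positivity), ← integral_indicator measurableSet_Ioc]
    congr 1
    ext x
    by_cases hx : x ∈ Ioc (0 : ℝ) (2 * π)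
    · rw [indicator_of_mem hx, intervalIntegral.integral_of_le (hG.lo x).le,
        ← integral_indicator measurableSet_Ioc]
      congr 1
      ext y
      by_cases hy : y ∈ Ioc x (gG x)
      · rw [indicator_of_mem hy, indicator_of_mem (show (x, y) ∈ RAT_D gG from ⟨hx, hy⟩)]
      · rw [indicator_of_notMem hy,
          indicator_of_notMem (show (x, y) ∉ RAT_D gG from fun h => hy h.2)]
    · rw [indicator_of_notMem hx]
      symm
      have : (fun y => (RAT_D gG).indicator (fun z : ℝ × ℝ => f z * S12 ρ z.1 z.2) (x, y))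
          = fun _ => (0 : ℝ) := by
        ext y
        exact indicator_of_notMem (fun h => hx h.1) _
      rw [this, integral_zero]
  · rw [← Measure.volume_eq_prod]
    exact hint.integrable_indicator hDm

section null

variable (T : ℝ → ℝ → ℝ) (G : ℕ → ℝ → ℝ)

def RAT_F (z : ℝ × ℝ) : ℝ × ℝ := (z.2, T z.1 z.2)

def RAT_S : Set (ℝ × ℝ) := {z | z.1 < z.2 ∧ ∀ n, z.2 < G n z.1}

def RAT_P (M : ℕ) (z : ℝ × ℝ) : ℝ :=
  (RAT_S G).indicator (fun z => ((RAT_F T)^[M] z).1 - z.1) z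

end null

theorem RAT_FS {h k ρ : ℝ → ℝ} {T : ℝ → ℝ → ℝ} {G : ℕ → ℝ → ℝ} (hD : S_DER) (hS : Sup h k ρ)
    (hT : IsT h k T) (hGc : ∀ n, Circ h k (G n)) {z : ℝ × ℝ} (h1 : z.1 < z.2)
    (h2 : z.2 < z.1 + 2 * π) : RAT_F T z ∈ RAT_S G ↔ z ∈ RAT_S G := by
  unfold RAT_S RAT_F
  simp only [mem_ofPred_eq]
  have e1 : z.2 < T z.1 z.2 := (hT.1 _ _ h1 h2).1
  have e2 : ∀ n, (T z.1 z.2 < G n z.2 ↔ z.2 < G n z.1) := fun n =>
    RAT_inv hD hS hT (hGc n) h1 h2
  simp only [e1, h1, e2]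

theorem RAT_FS' {h k ρ : ℝ → ℝ} {T : ℝ → ℝ → ℝ} {G : ℕ → ℝ → ℝ} (hD : S_DER) (hS : Sup h k ρ)
    (hT : IsT h k T) (hGc : ∀ n, Circ h k (G n)) {z : ℝ × ℝ} (hz : z ∈ RAT_S G) :
    RAT_F T z ∈ RAT_S G :=
  (RAT_FS hD hS hT hGc hz.1 ((hz.2 0).trans ((hGc 0).hi z.1))).2 hz

theorem RAT_FSn {h k ρ : ℝ → ℝ} {T : ℝ → ℝ → ℝ} {G : ℕ → ℝ → ℝ} (hD : S_DER) (hS : Sup h k ρ)
    (hT : IsT h k T) (hGc : ∀ n, Circ h k (G n)) {z : ℝ × ℝ} (hz : z ∈ RAT_S G) (M : ℕ) :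
    (RAT_F T)^[M] z ∈ RAT_S G := by
  induction M with
  | zero => exact hz
  | succ M ih =>
    rw [Function.iterate_succ_apply']
    exact RAT_FS' hD hS hT hGc ih

theorem RAT_lb {h k ρ : ℝ → ℝ} {T : ℝ → ℝ → ℝ} {G : ℕ → ℝ → ℝ} (hD : S_DER) (hS : Sup h k ρ)
    (hT : IsT h k T) (hGc : ∀ n, Circ h k (G n)) {z : ℝ × ℝ} (hz : z ∈ RAT_S G) (M : ℕ) :
    z.1 ≤ ((RAT_F T)^[M] z).1 := by
  induction M with
  | zero => exact le_rfl
  | succ M ih =>
    rw [Function.iterate_succ_apply']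
    exact ih.trans (RAT_FSn hD hS hT hGc hz M).1.le

theorem RAT_ub {h k ρ : ℝ → ℝ} {T : ℝ → ℝ → ℝ} {G : ℕ → ℝ → ℝ} (hD : S_DER) (hS : Sup h k ρ)
    (hT : IsT h k T) (hGc : ∀ n, Circ h k (G n)) (n : ℕ) {z : ℝ × ℝ} (hz : z ∈ RAT_S G)
    (M : ℕ) : ((RAT_F T)^[M] z).1 ≤ (G n)^[M] z.1 := by
  induction M with
  | zero => exact le_rfl
  | succ M ih =>
    rw [Function.iterate_succ_apply', Function.iterate_succ_apply']
    exact ((RAT_FSn hD hS hT hGc hz M).2 n).le.trans ((hGc n).mono.monotone ih)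

theorem RAT_ub2 {h k ρ : ℝ → ℝ} {T : ℝ → ℝ → ℝ} {G : ℕ → ℝ → ℝ} (hD : S_DER) (hS : Sup h k ρ)
    (hT : IsT h k T) (hGc : ∀ n, Circ h k (G n)) (hGn : ∀ n x, (G n)^[n + 3] x = x + 2 * π)
    {z : ℝ × ℝ} (hz : z ∈ RAT_S G) (M : ℕ) : ((RAT_F T)^[M] z).1 ≤ z.1 + 2 * π := by
  refine (RAT_ub hD hS hT hGc M hz M).trans ?_
  rw [← hGn M z.1, Function.iterate_add_apply]
  refine ((hGc M).mono.monotone.iterate M) ?_
  have e1 := (hGc M).lo z.1
  have e2 := (hGc M).lo (G M z.1)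
  have e3 := (hGc M).lo (G M (G M z.1))
  show z.1 ≤ G M (G M (G M z.1))
  linarith

theorem RAT_Pnn {h k ρ : ℝ → ℝ} {T : ℝ → ℝ → ℝ} {G : ℕ → ℝ → ℝ} (hD : S_DER) (hS : Sup h k ρ)
    (hT : IsT h k T) (hGc : ∀ n, Circ h k (G n)) (M : ℕ) (z : ℝ × ℝ) : 0 ≤ RAT_P T G M z := by
  unfold RAT_P
  by_cases hz : z ∈ RAT_S G
  · rw [indicator_of_mem hz]
    have := RAT_lb hD hS hT hGc hz M
    linarith
  · rw [indicator_of_notMem hz]

theorem RAT_Ple {h k ρ : ℝ → ℝ} {T : ℝ → ℝ → ℝ} {G : ℕ → ℝ → ℝ} (hD : S_DER) (hS : Sup h k ρ)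
    (hT : IsT h k T) (hGc : ∀ n, Circ h k (G n)) (hGn : ∀ n x, (G n)^[n + 3] x = x + 2 * π)
    (M : ℕ) (z : ℝ × ℝ) : RAT_P T G M z ≤ 2 * π := by
  unfold RAT_P
  by_cases hz : z ∈ RAT_S G
  · rw [indicator_of_mem hz]
    have := RAT_ub2 hD hS hT hGc hGn hz M
    linarith
  · rw [indicator_of_notMem hz]
    positivity

theorem RAT_Sm {h k : ℝ → ℝ} {G : ℕ → ℝ → ℝ} (hGc : ∀ n, Circ h k (G n)) :
    MeasurableSet (RAT_S G) := by
  have h2 : MeasurableSet {z : ℝ × ℝ | z.1 < z.2} := measurableSet_lt measurable_fst measurable_snd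
  have h3 : MeasurableSet {z : ℝ × ℝ | ∀ n, z.2 < G n z.1} := by
    rw [ofPred_forall]
    exact MeasurableSet.iInter fun n =>
      measurableSet_lt measurable_snd ((hGc n).cont.measurable.comp measurable_fst)
  exact h2.inter h3

theorem RAT_Fm {T : ℝ → ℝ → ℝ} (hTm : Measurable (fun z : ℝ × ℝ => T z.1 z.2)) :
    Measurable (RAT_F T) := measurable_snd.prodMk hTm

theorem RAT_Pm {h k : ℝ → ℝ} {T : ℝ → ℝ → ℝ} {G : ℕ → ℝ → ℝ} (hGc : ∀ n, Circ h k (G n))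
    (hTm : Measurable (fun z : ℝ × ℝ => T z.1 z.2)) (M : ℕ) : Measurable (RAT_P T G M) :=
  (((RAT_Fm hTm).iterate M).fst.sub measurable_fst).indicator (RAT_Sm hGc)

theorem RAT_Sper {h k : ℝ → ℝ} {G : ℕ → ℝ → ℝ} (hGc : ∀ n, Circ h k (G n)) (m : ℤ) (z : ℝ × ℝ) :
    z + ((2 * π * m : ℝ), (2 * π * m : ℝ)) ∈ RAT_S G ↔ z ∈ RAT_S G := by
  unfold RAT_S
  simp only [mem_ofPred_eq, Prod.fst_add, Prod.snd_add, RAT_perz (hGc _), add_lt_add_iff_right]

theorem RAT_Fper {T : ℝ → ℝ → ℝ} (hTp : ∀ x y, T (x + 2 * π) (y + 2 * π) = T x y + 2 * π)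
    (M : ℕ) (z : ℝ × ℝ) : (RAT_F T)^[M] (z + (2 * π, 2 * π)) = (RAT_F T)^[M] z + (2 * π, 2 * π) := by
  induction M generalizing z with
  | zero => rfl
  | succ M ih =>
    rw [Function.iterate_succ_apply, Function.iterate_succ_apply, ← ih]
    congr 1
    unfold RAT_F
    ext
    · rfl
    · simp only [Prod.fst_add, Prod.snd_add]
      exact hTp _ _

theorem RAT_Pper {h k : ℝ → ℝ} {T : ℝ → ℝ → ℝ} {G : ℕ → ℝ → ℝ} (hGc : ∀ n, Circ h k (G n))
    (hTp : ∀ x y, T (x + 2 * π) (y + 2 * π) = T x y + 2 * π) (M : ℕ) (x y : ℝ) :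
    RAT_P T G M (x + 2 * π, y + 2 * π) = RAT_P T G M (x, y) := by
  have e : ((x + 2 * π, y + 2 * π) : ℝ × ℝ) = (x, y) + (2 * π, 2 * π) := rfl
  have hs := RAT_Sper hGc 1 (x, y)
  simp only [Int.cast_one, mul_one] at hs
  unfold RAT_P
  rw [e]
  by_cases hz : (x, y) ∈ RAT_S G
  · rw [indicator_of_mem hz, indicator_of_mem (hs.2 hz), RAT_Fper hTp]
    simp
  · rw [indicator_of_notMem hz, indicator_of_notMem (fun h => hz (hs.1 h))]

theorem RAT_Pstep {h k ρ gG : ℝ → ℝ} {T : ℝ → ℝ → ℝ} {G : ℕ → ℝ → ℝ} (hD : S_DER)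
    (hS : Sup h k ρ) (hT : IsT h k T) (hGc : ∀ n, Circ h k (G n)) (hG : Circ h k gG) (M : ℕ)
    {z : ℝ × ℝ} (hz : z ∈ RAT_D gG) :
    RAT_P T G M (RAT_F T z) = RAT_P T G (M + 1) z - RAT_P T G 1 z := by
  obtain ⟨h1, h2, h3⟩ := hz
  have hiff := RAT_FS hD hS hT hGc h2 (h3.trans_lt (hG.hi z.1))
  unfold RAT_P
  by_cases hz : z ∈ RAT_S G
  · rw [indicator_of_mem hz, indicator_of_mem hz, indicator_of_mem (hiff.2 hz),
      Function.iterate_succ_apply]
    simp only [Function.iterate_one]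
    ring
  · rw [indicator_of_notMem hz, indicator_of_notMem hz,
      indicator_of_notMem (fun h => hz (hiff.1 h))]
    ring

theorem RAT_J {h k ρ gG : ℝ → ℝ} {T : ℝ → ℝ → ℝ} {G : ℕ → ℝ → ℝ} (hD : S_DER) (hI : S_INV)
    (hS : Sup h k ρ) (hT : IsT h k T) (hTm : Measurable (fun z : ℝ × ℝ => T z.1 z.2))
    (hTp : ∀ x y, T (x + 2 * π) (y + 2 * π) = T x y + 2 * π)
    (hGc : ∀ n, Circ h k (G n)) (hGn : ∀ n x, (G n)^[n + 3] x = x + 2 * π)
    (hG : Circ h k gG) (M : ℕ) :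
    (∫ z in RAT_D gG, RAT_P T G (M + 1) z * S12 ρ z.1 z.2)
      = (∫ z in RAT_D gG, RAT_P T G M z * S12 ρ z.1 z.2)
        + ∫ z in RAT_D gG, RAT_P T G 1 z * S12 ρ z.1 z.2 := by
  have hb : ∀ M z, |RAT_P T G M z| ≤ 2 * π := fun M z => by
    rw [abs_of_nonneg (RAT_Pnn hD hS hT hGc M z)]
    exact RAT_Ple hD hS hT hGc hGn M z
  have hm := RAT_Pm (T := T) hGc hTm
  have i0 := (hI h k ρ gG T hS hG hT).2.2 (fun x y => RAT_P T G M (x, y)) (hm M)
    ⟨2 * π, fun x y => hb M (x, y)⟩ (RAT_Pper hGc hTp M)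
  have i1 := RAT_fub hS hG (f := fun z => RAT_P T G M (RAT_F T z)) ((hm M).comp (RAT_Fm hTm))
    (fun z => hb M _)
  have i2 := RAT_fub hS hG (hm M) (hb M)
  have i3 := (RAT_fub hS hG (hm (M + 1)) (hb (M + 1))).1
  have i4 := (RAT_fub hS hG (hm 1) (hb 1)).1
  have e1 : (∫ z in RAT_D gG, RAT_P T G M (RAT_F T z) * S12 ρ z.1 z.2)
      = ∫ z in RAT_D gG, RAT_P T G M z * S12 ρ z.1 z.2 := by
    rw [← i1.2, ← i2.2]
    exact i0
  have e2 : (∫ z in RAT_D gG, RAT_P T G M (RAT_F T z) * S12 ρ z.1 z.2)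
      = (∫ z in RAT_D gG, RAT_P T G (M + 1) z * S12 ρ z.1 z.2)
        - ∫ z in RAT_D gG, RAT_P T G 1 z * S12 ρ z.1 z.2 := by
    rw [← integral_sub i3 i4]
    refine setIntegral_congr_fun (RAT_Dm hG) fun z hz => ?_
    rw [RAT_Pstep hD hS hT hGc hG M hz]
    ring
  linarith

theorem RAT_J1 {h k ρ gG : ℝ → ℝ} {T : ℝ → ℝ → ℝ} {G : ℕ → ℝ → ℝ} (hD : S_DER) (hI : S_INV)
    (hS : Sup h k ρ) (hT : IsT h k T) (hTm : Measurable (fun z : ℝ × ℝ => T z.1 z.2))
    (hTp : ∀ x y, T (x + 2 * π) (y + 2 * π) = T x y + 2 * π)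
    (hGc : ∀ n, Circ h k (G n)) (hGn : ∀ n x, (G n)^[n + 3] x = x + 2 * π)
    (hG : Circ h k gG) : ∀ᵐ z : ℝ × ℝ, z ∈ RAT_D gG → z ∉ RAT_S G := by
  have hb : ∀ M z, |RAT_P T G M z| ≤ 2 * π := fun M z => by
    rw [abs_of_nonneg (RAT_Pnn hD hS hT hGc M z)]
    exact RAT_Ple hD hS hT hGc hGn M z
  have hm := RAT_Pm (T := T) hGc hTm
  have hSpos : ∀ z ∈ RAT_D gG, 0 < S12 ρ z.1 z.2 := by
    rintro z ⟨h1, h2, h3⟩
    exact RAT_S12pos hS h2 (h3.trans_lt (hG.hi z.1))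
  set J : ℕ → ℝ := fun M => ∫ z in RAT_D gG, RAT_P T G M z * S12 ρ z.1 z.2 with hJ
  have hstep : ∀ M, J (M + 1) = J M + J 1 := RAT_J hD hI hS hT hTm hTp hGc hGn hG
  have h0 : 0 ≤ J 0 := setIntegral_nonneg (RAT_Dm hG) fun z hz =>
    mul_nonneg (RAT_Pnn hD hS hT hGc _ z) (hSpos z hz).le
  have hlin : ∀ M : ℕ, (M : ℝ) * J 1 ≤ J M := by
    intro M
    induction M with
    | zero => simpa using h0
    | succ M ih => have := hstep M; push_cast; linarith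
  set K : ℝ := ∫ z in RAT_D gG, (2 * π) * S12 ρ z.1 z.2 with hK
  have hle : ∀ M, J M ≤ K := by
    intro M
    refine setIntegral_mono_on (RAT_fub hS hG (hm M) (hb M)).1
      (RAT_fub hS hG (f := fun _ => 2 * π) measurable_const (C := 2 * π)
        (fun z => (abs_of_pos (by positivity)).le)).1 (RAT_Dm hG) fun z hz => ?_
    exact mul_le_mul_of_nonneg_right (RAT_Ple hD hS hT hGc hGn M z) (hSpos z hz).le
  have h1 : J 1 = 0 := by
    have hge : 0 ≤ J 1 := setIntegral_nonneg (RAT_Dm hG) fun z hz =>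
      mul_nonneg (RAT_Pnn hD hS hT hGc _ z) (hSpos z hz).le
    by_contra hne
    have hpos : 0 < J 1 := lt_of_le_of_ne hge (Ne.symm hne)
    obtain ⟨M, hM⟩ := exists_nat_gt (K / J 1)
    rw [div_lt_iff₀ hpos] at hM
    have := hlin M
    have := hle M
    linarith
  have h2 := (setIntegral_eq_zero_iff_of_nonneg_ae
    ((ae_restrict_iff' (RAT_Dm hG)).2 (Filter.Eventually.of_forall fun z hz =>
      mul_nonneg (RAT_Pnn hD hS hT hGc 1 z) (hSpos z hz).le))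
    (RAT_fub hS hG (hm 1) (hb 1)).1).1 h1
  have h3 := (ae_restrict_iff' (RAT_Dm hG)).1 h2
  filter_upwards [h3] with z hz hzD hzS
  have e1 := hz hzD
  simp only [Pi.zero_apply] at e1
  have e2 : RAT_P T G 1 z = z.2 - z.1 := by
    unfold RAT_P
    rw [indicator_of_mem hzS]
    rfl
  rw [e2] at e1
  have := mul_pos (sub_pos.2 hzS.1) (hSpos z hzD)
  linarith

theorem RAT_null {h k ρ gG : ℝ → ℝ} {T : ℝ → ℝ → ℝ} {G : ℕ → ℝ → ℝ} (hD : S_DER) (hI : S_INV)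
    (hS : Sup h k ρ) (hT : IsT h k T) (hTm : Measurable (fun z : ℝ × ℝ => T z.1 z.2))
    (hTp : ∀ x y, T (x + 2 * π) (y + 2 * π) = T x y + 2 * π)
    (hGc : ∀ n, Circ h k (G n)) (hGn : ∀ n x, (G n)^[n + 3] x = x + 2 * π)
    (hG : Circ h k gG) (hG0 : G 0 = gG) : ∀ᵐ z : ℝ × ℝ, z ∉ RAT_S G := by
  have h1 := RAT_J1 hD hI hS hT hTm hTp hGc hGn hG
  have h2 : ∀ m : ℤ, ∀ᵐ z : ℝ × ℝ, z + ((2 * π * m : ℝ), (2 * π * m : ℝ)) ∈ RAT_D gG →
      z + ((2 * π * m : ℝ), (2 * π * m : ℝ)) ∉ RAT_S G := fun m =>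
    (measurePreserving_add_right (volume : Measure (ℝ × ℝ))
      ((2 * π * m : ℝ), (2 * π * m : ℝ))).quasiMeasurePreserving.ae h1
  filter_upwards [ae_all_iff.2 h2] with z hz hzS
  obtain ⟨m, hm, -⟩ := existsUnique_add_zsmul_mem_Ioc (show (0 : ℝ) < 2 * π by positivity) z.1 0
  have e1 : m • (2 * π) = 2 * π * (m : ℝ) := by rw [zsmul_eq_mul]; ring
  simp only [e1, zero_add] at hm
  have e2 := (RAT_Sper hGc m z).2 hzS
  refine hz m ⟨hm, e2.1, ?_⟩ e2
  rw [← hG0]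
  exact (e2.2 0).le

/-! ### assembly -/

/-- the billiard map, cut off outside of the phase space -/
def RAT_T (T2 : ℝ → ℝ → ℝ) (x y : ℝ) : ℝ := if x < y ∧ y < x + 2 * π then T2 x y else y

theorem RAT_TT {h k : ℝ → ℝ} {T2 : ℝ → ℝ → ℝ} (hT : IsT h k T2) : IsT h k (RAT_T T2) := by
  constructor
  · intro x y h1 h2
    unfold RAT_T
    rw [if_pos ⟨h1, h2⟩]
    exact hT.1 x y h1 h2
  · intro x y z h1 h2 h3 h4 h5
    unfold RAT_T
    rw [if_pos ⟨h1, h2⟩]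
    exact hT.2 x y z h1 h2 h3 h4 h5

theorem RAT_Tmeas {T2 : ℝ → ℝ → ℝ}
    (hc : ContinuousOn (Function.uncurry T2) {z | z.1 < z.2 ∧ z.2 < z.1 + 2 * π}) :
    Measurable (fun z : ℝ × ℝ => RAT_T T2 z.1 z.2) := by
  classical
  have hs : MeasurableSet {z : ℝ × ℝ | z.1 < z.2 ∧ z.2 < z.1 + 2 * π} :=
    (measurableSet_lt measurable_fst measurable_snd).inter
      (measurableSet_lt measurable_snd (measurable_fst.add_const _))
  have h1 := ContinuousOn.measurable_piecewise (f := Function.uncurry T2)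
    (g := fun z : ℝ × ℝ => z.2) hc continuous_snd.continuousOn hs
  convert h1 using 1
  ext z
  unfold RAT_T
  by_cases hz : z.1 < z.2 ∧ z.2 < z.1 + 2 * π
  · rw [if_pos hz, piecewise_eq_of_mem _ _ _ (show z ∈ {z : ℝ × ℝ | z.1 < z.2 ∧
      z.2 < z.1 + 2 * π} from hz)]
    rfl
  · rw [if_neg hz, piecewise_eq_of_notMem _ _ _ (show z ∉ {z : ℝ × ℝ | z.1 < z.2 ∧
      z.2 < z.1 + 2 * π} from hz)]

theorem RAT_Tper {h k ρ : ℝ → ℝ} {T2 : ℝ → ℝ → ℝ} (hS : Sup h k ρ) (hT : IsT h k T2)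
    (x y : ℝ) : RAT_T T2 (x + 2 * π) (y + 2 * π) = RAT_T T2 x y + 2 * π := by
  unfold RAT_T
  by_cases hxy : x < y ∧ y < x + 2 * π
  · have hxy' : x + 2 * π < y + 2 * π ∧ y + 2 * π < x + 2 * π + 2 * π :=
      ⟨by linarith [hxy.1], by linarith [hxy.2]⟩
    rw [if_pos hxy, if_pos hxy']
    obtain ⟨a1, a2, a3⟩ := hT.1 x y hxy.1 hxy.2
    symm
    refine hT.2 _ _ _ hxy'.1 hxy'.2 (by linarith) (by linarith) ?_
    unfold Am Bm at *
    rw [show (y + 2 * π + (T2 x y + 2 * π)) / 2 = (y + T2 x y) / 2 + 2 * π by ring,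
      show (x + 2 * π + (y + 2 * π)) / 2 = (x + y) / 2 + 2 * π by ring,
      show T2 x y + 2 * π - (y + 2 * π) = T2 x y - y by ring,
      show y + 2 * π - (x + 2 * π) = y - x by ring, hS.ph, hS.pk, hS.ph, hS.pk]
    exact a3
  · rw [if_neg hxy, if_neg]
    rintro ⟨h1, h2⟩
    exact hxy ⟨by linarith, by linarith⟩

theorem RAT_rat {h k : ℝ → ℝ} (hrat : ∀ p q : ℕ, 0 < p → 3 * p ≤ q → Nat.Coprime p q →
    ∃ g, Circ h k g ∧ ∀ x, g^[q] x = x + 2 * π * p) (p q : ℕ) (hp : 0 < p)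
    (hpq : 3 * p ≤ q) : ∃ g, RAT_R h k g p q := by
  obtain ⟨p0, q0, hco, e1, e2⟩ := Nat.exists_coprime p q
  have hd : 0 < Nat.gcd p q := Nat.gcd_pos_of_pos_left q hp
  generalize Nat.gcd p q = d at e1 e2 hd
  have hp0 : 0 < p0 := by
    rcases Nat.eq_zero_or_pos p0 with h0 | h0
    · rw [h0, zero_mul] at e1
      omega
    · exact h0
  have hq0 : 3 * p0 ≤ q0 := by
    have : (3 * p0) * d ≤ q0 * d := by
      calc (3 * p0) * d = 3 * (p0 * d) := by ring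
        _ = 3 * p := by rw [← e1]
        _ ≤ q := hpq
        _ = q0 * d := e2
    exact Nat.le_of_mul_le_mul_right this hd
  obtain ⟨g, hg, hgp⟩ := hrat p0 q0 hp0 hq0 hco
  refine ⟨g, hg, hp, hpq, fun x => ?_⟩
  rw [e1, e2]
  exact RAT_eq hg (hgp x) d

theorem t_RAT (hLIM : S_LIM) (hR : S_RGAP) (hW : S_WAN) (hD : S_DER) (hTM : S_TM)
    (hI : S_INV) : S_RAT := by
  intro h k ρ gG hS hrat0 hG h3
  have hrat := RAT_rat hrat0
  obtain ⟨T2, hT2⟩ := hTM h k ρ hS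
  have hT := RAT_TT hT2
  have hTm := RAT_Tmeas (hI h k ρ gG T2 hS hG hT2).1
  have hTp := RAT_Tper hS hT2
  have hGR : RAT_R h k gG 1 3 := ⟨hG, by norm_num, by norm_num, fun x => by simpa using h3 x⟩
  choose G hGR' using fun n : ℕ => hrat 1 (n + 3) (by norm_num) (by omega)
  have hGc := fun n => (hGR' n).1
  have hGn : ∀ n x, (G n)^[n + 3] x = x + 2 * π := fun n x => by
    have := (hGR' n).2.2.2 x
    rw [this]
    simp
  have hG0 : G 0 = gG := hR h k ρ hS (G 0) gG (hGc 0) hG 1 3 (by norm_num)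
    (fun x => (hGR' 0).2.2.2 x) ⟨0, hGR.2.2.2 0⟩
  unfold Cov
  filter_upwards [RAT_null hD hI hS hT hTm hTp hGc hGn hG hG0] with z hz h1 h2
  have : ∃ n, G n z.1 ≤ z.2 := by
    by_contra hc
    push Not at hc
    exact hz ⟨h1, hc⟩
  obtain ⟨n, hn⟩ := this
  exact RAT_cover hS hLIM hR hW hT hrat hGR (hGR' n) hn h2

end

end Pool.Agent.H283R2.BK
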