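import Pool.Agent.H283R2.BK.Defs

open Real Complex Set MeasureTheory

namespace Pool.Agent.H283R2.BK

noncomputable section

theorem reg_s12 {h k ρ : ℝ → ℝ} (hS : Sup h k ρ) {x y : ℝ} (h1 : x < y) (h2 : y < x + 2 * π) :
    0 < S12 ρ x y := by
  unfold S12
  have h3 := hS.pos ((x + y) / 2)
  have h4 := Real.sin_pos_of_pos_of_lt_pi (x := (y - x) / 2) (by linarith) (by linarith)
  positivity

/-- the block of the Hessian is invertible -/
theorem reg_det (hSV : S_SV) {h k ρ g : ℝ → ℝ} (hS : Sup h k ρ) (hg : Circ h k g) (x : ℝ) :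
    (S22 h k ρ x (g x) + S11 h k ρ (g x) (g (g x))) *
      (S22 h k ρ (g x) (g (g x)) + S11 h k ρ (g (g x)) (g (g (g x)))) -
      (S12 ρ (g x) (g (g x))) ^ 2 ≠ 0 := by
  intro h0
  obtain ⟨P, hP⟩ : ∃ P, P = S22 h k ρ x (g x) + S11 h k ρ (g x) (g (g x)) := ⟨_, rfl⟩
  obtain ⟨R, hR⟩ : ∃ R, R = S22 h k ρ (g x) (g (g x)) + S11 h k ρ (g (g x)) (g (g (g x))) :=
    ⟨_, rfl⟩
  obtain ⟨q, hq⟩ : ∃ q, q = S12 ρ (g x) (g (g x)) := ⟨_, rfl⟩
  obtain ⟨c, hc⟩ : ∃ c, c = 2 * S12 ρ (g (g x)) (g (g (g x))) * q := ⟨_, rfl⟩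
  obtain ⟨K, hK⟩ : ∃ K, K = S22 h k ρ (g (g x)) (g (g (g x))) +
    S11 h k ρ (g (g (g x))) (g (g (g (g x)))) := ⟨_, rfl⟩
  have hq0 : 0 < q := by rw [hq]; exact reg_s12 hS (hg.lo _) (hg.hi _)
  have hc0 : 0 < c := by
    have := reg_s12 hS (hg.lo (g (g x))) (hg.hi (g (g x)))
    rw [hc]
    positivity
  rw [← hP, ← hR, ← hq] at h0
  have key : ∀ s : ℝ, -c * s + K * s ^ 2 ≤ 0 := by
    intro s
    have hh := hSV h k ρ g hS hg x 4
      (fun n => match n with | 1 => R | 2 => -q | 3 => s | _ => 0) rfl rfl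
    rw [Finset.sum_range_succ, Finset.sum_range_succ, Finset.sum_range_succ,
      Finset.sum_range_succ, Finset.sum_range_zero] at hh
    change 0 + (S11 h k ρ x (g x) * (0 : ℝ) ^ 2 + 2 * S12 ρ x (g x) * 0 * R
        + S22 h k ρ x (g x) * R ^ 2)
      + (S11 h k ρ (g x) (g (g x)) * R ^ 2 + 2 * S12 ρ (g x) (g (g x)) * R * (-q)
        + S22 h k ρ (g x) (g (g x)) * (-q) ^ 2)
      + (S11 h k ρ (g (g x)) (g (g (g x))) * (-q) ^ 2
        + 2 * S12 ρ (g (g x)) (g (g (g x))) * (-q) * s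
        + S22 h k ρ (g (g x)) (g (g (g x))) * s ^ 2)
      + (S11 h k ρ (g (g (g x))) (g (g (g (g x)))) * s ^ 2
        + 2 * S12 ρ (g (g (g x))) (g (g (g (g x)))) * s * 0
        + S22 h k ρ (g (g (g x))) (g (g (g (g x)))) * (0 : ℝ) ^ 2) ≤ 0 at hh
    rw [← hq] at hh
    have e : -c * s + K * s ^ 2 + R * (P * R - q ^ 2) ≤ 0 := by
      refine le_trans (le_of_eq ?_) hh
      linear_combination (-s) * hc + s ^ 2 * hK + R ^ 2 * hP + q ^ 2 * hR
    rw [h0, mul_zero, add_zero] at e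
    exact e
  obtain ⟨t, ht⟩ : ∃ t, t = c / (2 * (|K| + 1)) := ⟨_, rfl⟩
  have hKa := abs_nonneg K
  have ht0 : 0 < t := by rw [ht]; positivity
  have h2 : (|K| + 1) * t = c / 2 := by
    rw [ht]
    field_simp
  have h3 : -|K| ≤ K := neg_abs_le K
  have h4 : 0 < c + K * t := by nlinarith
  have h5 := mul_pos ht0 h4
  have h6 := key (-t)
  nlinarith

theorem reg_kc {h k ρ : ℝ → ℝ} (hS : Sup h k ρ) : Continuous k :=
  continuous_iff_continuousAt.2 (fun x => (hS.dk x).continuousAt)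

theorem reg_hc {h k ρ : ℝ → ℝ} (hS : Sup h k ρ) : Continuous h :=
  continuous_iff_continuousAt.2 (fun x => (hS.dh x).continuousAt)

theorem reg_hst {h k ρ : ℝ → ℝ} (hS : Sup h k ρ) (x : ℝ) : HasStrictDerivAt h (k x) x :=
  hasStrictDerivAt_of_hasDerivAt_of_continuousAt (Filter.Eventually.of_forall hS.dh)
    (reg_kc hS).continuousAt

theorem reg_kst {h k ρ : ℝ → ℝ} (hS : Sup h k ρ) (x : ℝ) :
    HasStrictDerivAt k (ρ x - h x) x :=
  hasStrictDerivAt_of_hasDerivAt_of_continuousAt (f' := fun x => ρ x - h x)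
    (Filter.Eventually.of_forall hS.dk) (hS.cr.sub (reg_hc hS)).continuousAt

theorem reg_Am {E : Type} [NormedAddCommGroup E] [NormedSpace ℝ E] {h k ρ : ℝ → ℝ}
    (hS : Sup h k ρ) {u v : E → ℝ} {u' v' : E →L[ℝ] ℝ} {p : E} (hu : HasStrictFDerivAt u u' p)
    (hv : HasStrictFDerivAt v v' p) :
    HasStrictFDerivAt (fun p => Am h k (u p) (v p))
      (-(S11 h k ρ (u p) (v p)) • u' + -(S12 ρ (u p) (v p)) • v') p := by
  have hm : HasStrictFDerivAt (fun p => (u p + v p) / 2) ((1 / 2 : ℝ) • (u' + v')) p := by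
    have := (hu.add hv).const_mul (1 / 2 : ℝ)
    refine this.congr_of_eventuallyEq (Filter.Eventually.of_forall (fun p => ?_))
    simp only [Pi.add_apply]
    ring
  have hd : HasStrictFDerivAt (fun p => (v p - u p) / 2) ((1 / 2 : ℝ) • (v' - u')) p := by
    have := (hv.sub hu).const_mul (1 / 2 : ℝ)
    refine this.congr_of_eventuallyEq (Filter.Eventually.of_forall (fun p => ?_))
    simp only [Pi.sub_apply]
    ring
  have h1 := (reg_hst hS ((u p + v p) / 2)).comp_hasStrictFDerivAt p hm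
  have h2 := (reg_kst hS ((u p + v p) / 2)).comp_hasStrictFDerivAt p hm
  have h3 := (Real.hasStrictDerivAt_cos ((v p - u p) / 2)).comp_hasStrictFDerivAt p hd
  have h4 := (Real.hasStrictDerivAt_sin ((v p - u p) / 2)).comp_hasStrictFDerivAt p hd
  have h5 := (h1.mul h3).sub (h2.mul h4)
  have h6 : HasStrictFDerivAt (fun p => Am h k (u p) (v p)) _ p := h5
  refine h6.congr_fderiv ?_
  ext e
  simp [S11, S12]
  ring

theorem reg_Bm {E : Type} [NormedAddCommGroup E] [NormedSpace ℝ E] {h k ρ : ℝ → ℝ}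
    (hS : Sup h k ρ) {u v : E → ℝ} {u' v' : E →L[ℝ] ℝ} {p : E} (hu : HasStrictFDerivAt u u' p)
    (hv : HasStrictFDerivAt v v' p) :
    HasStrictFDerivAt (fun p => Bm h k (u p) (v p))
      ((S12 ρ (u p) (v p)) • u' + (S22 h k ρ (u p) (v p)) • v') p := by
  have hm : HasStrictFDerivAt (fun p => (u p + v p) / 2) ((1 / 2 : ℝ) • (u' + v')) p := by
    have := (hu.add hv).const_mul (1 / 2 : ℝ)
    refine this.congr_of_eventuallyEq (Filter.Eventually.of_forall (fun p => ?_))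
    simp only [Pi.add_apply]
    ring
  have hd : HasStrictFDerivAt (fun p => (v p - u p) / 2) ((1 / 2 : ℝ) • (v' - u')) p := by
    have := (hv.sub hu).const_mul (1 / 2 : ℝ)
    refine this.congr_of_eventuallyEq (Filter.Eventually.of_forall (fun p => ?_))
    simp only [Pi.sub_apply]
    ring
  have h1 := (reg_hst hS ((u p + v p) / 2)).comp_hasStrictFDerivAt p hm
  have h2 := (reg_kst hS ((u p + v p) / 2)).comp_hasStrictFDerivAt p hm
  have h3 := (Real.hasStrictDerivAt_cos ((v p - u p) / 2)).comp_hasStrictFDerivAt p hd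
  have h4 := (Real.hasStrictDerivAt_sin ((v p - u p) / 2)).comp_hasStrictFDerivAt p hd
  have h5 := (h1.mul h3).add (h2.mul h4)
  have h6 : HasStrictFDerivAt (fun p => Bm h k (u p) (v p)) _ p := h5
  refine h6.congr_fderiv ?_
  ext e
  simp [S12, S22]
  ring

/-- the system of the two equations along the curve -/
def reg_Phi (h k : ℝ → ℝ) : ℝ × ℝ × ℝ → ℝ × ℝ × ℝ := fun p =>
  (p.1, Am h k p.2.1 p.2.2 - Bm h k p.1 p.2.1, Am h k p.2.2 (p.1 + 2 * π) - Bm h k p.2.1 p.2.2)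

theorem reg_Phi_deriv {h k ρ : ℝ → ℝ} (hS : Sup h k ρ) (p : ℝ × ℝ × ℝ) :
    ∃ L : (ℝ × ℝ × ℝ) →L[ℝ] (ℝ × ℝ × ℝ), HasStrictFDerivAt (reg_Phi h k) L p ∧
      ∀ w : ℝ × ℝ × ℝ, L w = (w.1,
        -(S12 ρ p.1 p.2.1) * w.1 - (S22 h k ρ p.1 p.2.1 + S11 h k ρ p.2.1 p.2.2) * w.2.1
          - S12 ρ p.2.1 p.2.2 * w.2.2,
        -(S12 ρ p.2.2 (p.1 + 2 * π)) * w.1 - S12 ρ p.2.1 p.2.2 * w.2.1
          - (S22 h k ρ p.2.1 p.2.2 + S11 h k ρ p.2.2 (p.1 + 2 * π)) * w.2.2) := by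
  have hx : HasStrictFDerivAt (fun q : ℝ × ℝ × ℝ => q.1) (ContinuousLinearMap.fst ℝ ℝ (ℝ × ℝ)) p :=
    hasStrictFDerivAt_fst
  have hyz : HasStrictFDerivAt (fun q : ℝ × ℝ × ℝ => q.2) (ContinuousLinearMap.snd ℝ ℝ (ℝ × ℝ)) p :=
    hasStrictFDerivAt_snd
  have hy : HasStrictFDerivAt (fun q : ℝ × ℝ × ℝ => q.2.1)
      ((ContinuousLinearMap.fst ℝ ℝ ℝ).comp (ContinuousLinearMap.snd ℝ ℝ (ℝ × ℝ))) p :=
    hasStrictFDerivAt_fst.comp p hyz
  have hz : HasStrictFDerivAt (fun q : ℝ × ℝ × ℝ => q.2.2)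
      ((ContinuousLinearMap.snd ℝ ℝ ℝ).comp (ContinuousLinearMap.snd ℝ ℝ (ℝ × ℝ))) p :=
    hasStrictFDerivAt_snd.comp p hyz
  have hx2 : HasStrictFDerivAt (fun q : ℝ × ℝ × ℝ => q.1 + 2 * π)
      (ContinuousLinearMap.fst ℝ ℝ (ℝ × ℝ)) p := hx.add_const _
  have h1 := (reg_Am hS hy hz).sub (reg_Bm hS hx hy)
  have h2 := (reg_Am hS hz hx2).sub (reg_Bm hS hy hz)
  refine ⟨_, hx.prodMk (h1.prodMk h2), ?_⟩
  intro w
  ext
  · simp
  · simp
    ring
  · simp
    ring

theorem t_REG (hSV : S_SV) : S_REG := by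
  intro h k ρ g hS hg h3
  have hc := hg.cont
  -- the determinant
  set Dt0 : ℝ → ℝ := fun x => (S22 h k ρ x (g x) + S11 h k ρ (g x) (g (g x))) *
      (S22 h k ρ (g x) (g (g x)) + S11 h k ρ (g (g x)) (g (g (g x)))) -
      (S12 ρ (g x) (g (g x))) ^ 2 with hDt
  have hdet : ∀ x, Dt0 x ≠ 0 := fun x => reg_det hSV hS hg x
  have hh := reg_hc hS
  have hk := reg_kc hS
  have hr := hS.cr
  set g' : ℝ → ℝ := fun x => (S12 ρ (g x) (g (g x)) * S12 ρ (g (g x)) (g (g (g x))) -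
      (S22 h k ρ (g x) (g (g x)) + S11 h k ρ (g (g x)) (g (g (g x)))) * S12 ρ x (g x)) / Dt0 x
    with hg'
  have hgc : Continuous g' := by
    have hDc : Continuous Dt0 := by
      rw [hDt]
      unfold S22 S11 S12
      fun_prop
    refine Continuous.div ?_ hDc hdet
    unfold S22 S11 S12
    fun_prop
  have hder : ∀ x, HasDerivAt g (g' x) x := by
    intro x0
    set p0 : ℝ × ℝ × ℝ := (x0, g x0, g (g x0)) with hp0
    obtain ⟨L, hL, hLw⟩ := reg_Phi_deriv hS p0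
    have hinj : Function.Injective L.toLinearMap := by
      rw [← LinearMap.ker_eq_bot, LinearMap.ker_eq_bot']
      intro w hw
      have hw' : L w = 0 := hw
      rw [hLw w] at hw'
      have e1 : w.1 = 0 := congrArg Prod.fst hw'
      have e2 := congrArg (fun z => z.2.1) hw'
      have e3 := congrArg (fun z => z.2.2) hw'
      simp only [hp0, e1, mul_zero, Prod.fst_zero, Prod.snd_zero, ← h3 x0] at e2 e3
      have hd := hdet x0
      simp only [hDt] at hd
      have e4 : w.2.1 = 0 := by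
        refine (mul_eq_zero.1 (?_ : ((S22 h k ρ x0 (g x0) + S11 h k ρ (g x0) (g (g x0))) *
          (S22 h k ρ (g x0) (g (g x0)) + S11 h k ρ (g (g x0)) (g (g (g x0)))) -
          (S12 ρ (g x0) (g (g x0))) ^ 2) * w.2.1 = 0)).resolve_left hd
        linear_combination (-(S22 h k ρ (g x0) (g (g x0)) + S11 h k ρ (g (g x0)) (g (g (g x0))))) *
          e2 + (S12 ρ (g x0) (g (g x0))) * e3
      have e5 : w.2.2 = 0 := by
        refine (mul_eq_zero.1 (?_ : ((S22 h k ρ x0 (g x0) + S11 h k ρ (g x0) (g (g x0))) *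
          (S22 h k ρ (g x0) (g (g x0)) + S11 h k ρ (g (g x0)) (g (g (g x0)))) -
          (S12 ρ (g x0) (g (g x0))) ^ 2) * w.2.2 = 0)).resolve_left hd
        linear_combination (-(S22 h k ρ x0 (g x0) + S11 h k ρ (g x0) (g (g x0)))) *
          e3 + (S12 ρ (g x0) (g (g x0))) * e2
      exact Prod.ext e1 (Prod.ext e4 e5)
    let e : (ℝ × ℝ × ℝ) ≃L[ℝ] (ℝ × ℝ × ℝ) :=
      (LinearEquiv.ofInjectiveEndo L.toLinearMap hinj).toContinuousLinearEquiv
    have heL : (e : (ℝ × ℝ × ℝ) →L[ℝ] (ℝ × ℝ × ℝ)) = L := by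
      ext w <;> rfl
    have hst : HasStrictFDerivAt (reg_Phi h k) (e : (ℝ × ℝ × ℝ) →L[ℝ] (ℝ × ℝ × ℝ)) p0 := by
      rw [heL]
      exact hL
    set c : ℝ → ℝ × ℝ × ℝ := fun t => (t, g t, g (g t)) with hcdef
    have hcc : Continuous c := by
      rw [hcdef]
      fun_prop
    have hPhi : ∀ t, reg_Phi h k (c t) = (t, 0, 0) := by
      intro t
      simp only [reg_Phi, hcdef]
      have e1 := hg.st t
      have e2 := hg.st (g t)
      rw [h3 t] at e2
      rw [e1, e2]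
      simp
    have hleft := hst.eventually_left_inverse
    have hleft2 : ∀ᶠ t in nhds x0, hst.localInverse (reg_Phi h k) e p0 (t, 0, 0) = c t := by
      have hten : Filter.Tendsto c (nhds x0) (nhds p0) := hcc.continuousAt
      filter_upwards [hten.eventually hleft] with t ht
      rw [← hPhi t]
      exact ht
    have hinv := hst.to_localInverse
    have hp0e : reg_Phi h k p0 = (x0, 0, 0) := hPhi x0
    rw [hp0e] at hinv
    have hline : HasDerivAt (fun t : ℝ => ((t, (0 : ℝ), (0 : ℝ)) : ℝ × ℝ × ℝ))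
        ((1 : ℝ), (0 : ℝ), (0 : ℝ)) x0 :=
      (hasDerivAt_id x0).prodMk (hasDerivAt_const x0 ((0 : ℝ), (0 : ℝ)))
    have hcd : HasDerivAt c (e.symm (1, 0, 0)) x0 := by
      have := hinv.hasFDerivAt.comp_hasDerivAt x0 hline
      refine this.congr_of_eventuallyEq ?_
      filter_upwards [hleft2] with t ht
      exact ht.symm
    set w := e.symm (1, 0, 0) with hw
    have hgw : HasDerivAt g w.2.1 x0 := by
      have h5 : HasDerivAt (fun t => (c t).2) w.2 x0 := by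
        have := (hasFDerivAt_snd (𝕜 := ℝ) (E := ℝ) (F := ℝ × ℝ) (p := c x0)).comp_hasDerivAt x0 hcd
        exact this
      have h6 : HasDerivAt (fun t => (c t).2.1) w.2.1 x0 := by
        have := (hasFDerivAt_fst (𝕜 := ℝ) (E := ℝ) (F := ℝ) (p := (c x0).2)).comp_hasDerivAt x0 h5
        exact this
      exact h6
    have hew : L w = (1, 0, 0) := by
      have : e w = (1, 0, 0) := by rw [hw, ContinuousLinearEquiv.apply_symm_apply]
      exact this
    rw [hLw w] at hew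
    have e1 : w.1 = 1 := congrArg Prod.fst hew
    have e2 := congrArg (fun z => z.2.1) hew
    have e3 := congrArg (fun z => z.2.2) hew
    simp only [hp0, e1, mul_one, ← h3 x0] at e2 e3
    have hgw' : w.2.1 = g' x0 := by
      rw [hg']
      simp only
      rw [eq_div_iff (hdet x0)]
      simp only [hDt]
      linear_combination (-(S22 h k ρ (g x0) (g (g x0)) + S11 h k ρ (g (g x0)) (g (g (g x0))))) *
          e2 + (S12 ρ (g x0) (g (g x0))) * e3
    rw [← hgw']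
    exact hgw
  refine ⟨g', hder, hgc, ?_⟩
  intro x
  have hnn : 0 ≤ g' x := (hder x).nonneg_of_monotone hg.mono.monotone
  have hne : g' x ≠ 0 := by
    intro h0
    have h5 : HasDerivAt (fun t => g (g (g t))) (g' (g (g x)) * (g' (g x) * g' x)) x :=
      (hder (g (g x))).comp x ((hder (g x)).comp x (hder x))
    have h6 : HasDerivAt (fun t => g (g (g t))) 1 x := by
      have : (fun t => g (g (g t))) = fun t => t + 2 * π := by
        ext t
        exact h3 t
      rw [this]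
      exact (hasDerivAt_id x).add_const _
    have := h5.unique h6
    rw [h0, mul_zero, mul_zero] at this
    exact zero_ne_one this
  exact lt_of_le_of_ne hnn (Ne.symm hne)

end

end Pool.Agent.H283R2.BK
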