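import Pool.Agent.H283R2.BK.Defs

open Real Complex Set MeasureTheory

namespace Pool.Agent.H283R2.BK

theorem RGAP_per {h k ρ g u : ℝ → ℝ} (hs : Sup h k ρ) (hg : Circ h k g)
    (hu : ∀ x, HasDerivAt u (Am h k x (g x)) x) :
    ∃ m : ℝ, ∀ x, u (x + 2 * π) = u x + m := by
  have hA : ∀ x, Am h k (x + 2 * π) (g (x + 2 * π)) = Am h k x (g x) := by
    intro x
    unfold Am
    rw [hg.per]
    have e1 : ((x + 2 * π) + (g x + 2 * π)) / 2 = (x + g x) / 2 + 2 * π := by ring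
    have e2 : ((g x + 2 * π) - (x + 2 * π)) / 2 = (g x - x) / 2 := by ring
    rw [e1, e2, hs.ph, hs.pk]
  have hd : ∀ x, HasDerivAt (fun x => u (x + 2 * π) - u x) 0 x := by
    intro x
    have h1 : HasDerivAt (fun x => u (x + 2 * π)) (Am h k (x + 2 * π) (g (x + 2 * π))) x :=
      (hu (x + 2 * π)).comp_add_const x (2 * π)
    have h2 := h1.sub (hu x)
    rw [hA x, sub_self] at h2
    exact h2
  refine ⟨u (0 + 2 * π) - u 0, fun x => ?_⟩
  have hc := is_const_of_deriv_eq_zero (f := fun x => u (x + 2 * π) - u x)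
    (fun x => (hd x).differentiableAt) (fun x => (hd x).deriv) x 0
  linarith

theorem RGAP_mul {u : ℝ → ℝ} {m : ℝ} (hm : ∀ x, u (x + 2 * π) = u x + m) (x : ℝ) (n : ℕ) :
    u (x + 2 * π * n) = u x + n * m := by
  induction n with
  | zero => simp
  | succ n ih =>
    have e : x + 2 * π * ((n + 1 : ℕ) : ℝ) = x + 2 * π * n + 2 * π := by push_cast; ring
    rw [e, hm, ih]
    push_cast
    ring

theorem RGAP_sum (h : ℝ → ℝ) {u g : ℝ → ℝ} {m : ℝ} (hm : ∀ x, u (x + 2 * π) = u x + m)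
    {p q : ℕ} {x : ℝ} (hx : g^[q] x = x + 2 * π * p) :
    ∑ n ∈ Finset.range q, (Sg h (g^[n] x) (g^[n + 1] x) + u (g^[n] x) - u (g^[n + 1] x)) =
      ∑ n ∈ Finset.range q, Sg h (g^[n] x) (g^[n + 1] x) - p * m := by
  have h1 : ∑ n ∈ Finset.range q, (u (g^[n] x) - u (g^[n + 1] x)) = u (g^[0] x) - u (g^[q] x) :=
    Finset.sum_range_sub' (fun n => u (g^[n] x)) q
  have h2 : u (g^[q] x) = u x + p * m := by rw [hx, RGAP_mul hm]
  have h3 : ∀ n ∈ Finset.range q,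
      (Sg h (g^[n] x) (g^[n + 1] x) + u (g^[n] x) - u (g^[n + 1] x)) =
      Sg h (g^[n] x) (g^[n + 1] x) + (u (g^[n] x) - u (g^[n + 1] x)) := by
    intro n _
    ring
  rw [Finset.sum_congr rfl h3, Finset.sum_add_distrib, h1, h2, Function.iterate_zero_apply]
  ring

theorem t_RGAP (hCAL : S_CAL) : S_RGAP := by
  intro h k ρ hs g1 g2 hg1 hg2 p q hq h1 h2
  obtain ⟨u1, c1, d1, e1, l1, s1⟩ := hCAL h k ρ g1 hs hg1
  obtain ⟨u2, c2, d2, e2, l2, s2⟩ := hCAL h k ρ g2 hs hg2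
  obtain ⟨m1, hm1⟩ := RGAP_per hs hg1 d1
  obtain ⟨m2, hm2⟩ := RGAP_per hs hg2 d2
  -- upper bound and equality for orbits
  have up : ∀ (u : ℝ → ℝ) (c : ℝ), (∀ x y, x ≤ y → y ≤ x + 2 * π → Sg h x y + u x - u y ≤ c) →
      ∀ g : ℝ → ℝ, Circ h k g → ∀ (x : ℝ) (n : ℕ),
      Sg h (g^[n] x) (g^[n + 1] x) + u (g^[n] x) - u (g^[n + 1] x) ≤ c := by
    intro u c hl g hg x n
    rw [Function.iterate_succ_apply']
    exact hl _ _ (hg.lo _).le (hg.hi _).le
  have eq : ∀ (u : ℝ → ℝ) (c : ℝ) (g : ℝ → ℝ), (∀ x, Sg h x (g x) + u x - u (g x) = c) →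
      ∀ (x : ℝ) (n : ℕ),
      Sg h (g^[n] x) (g^[n + 1] x) + u (g^[n] x) - u (g^[n + 1] x) = c := by
    intro u c g he x n
    rw [Function.iterate_succ_apply']
    exact he _
  -- the orbit of `g1` through `x`
  have a1 : ∀ x, ∑ n ∈ Finset.range q, Sg h (g1^[n] x) (g1^[n + 1] x) = q * c1 + p * m1 := by
    intro x
    have t := RGAP_sum h hm1 (h1 x)
    rw [Finset.sum_congr rfl (fun n _ => eq u1 c1 g1 e1 x n), Finset.sum_const,
      Finset.card_range, nsmul_eq_mul] at t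
    linarith
  have a2 : ∀ x, ∑ n ∈ Finset.range q, Sg h (g1^[n] x) (g1^[n + 1] x) ≤ q * c2 + p * m2 := by
    intro x
    have t := RGAP_sum h hm2 (h1 x)
    have t2 : ∑ n ∈ Finset.range q, (Sg h (g1^[n] x) (g1^[n + 1] x) + u2 (g1^[n] x) -
        u2 (g1^[n + 1] x)) ≤ ∑ _n ∈ Finset.range q, c2 :=
      Finset.sum_le_sum fun n _ => up u2 c2 l2 g1 hg1 x n
    rw [Finset.sum_const, Finset.card_range, nsmul_eq_mul] at t2
    linarith
  obtain ⟨y, hy⟩ := h2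
  have b2 : ∑ n ∈ Finset.range q, Sg h (g2^[n] y) (g2^[n + 1] y) = q * c2 + p * m2 := by
    have t := RGAP_sum h hm2 hy
    rw [Finset.sum_congr rfl (fun n _ => eq u2 c2 g2 e2 y n), Finset.sum_const,
      Finset.card_range, nsmul_eq_mul] at t
    linarith
  have b1 : ∑ n ∈ Finset.range q, Sg h (g2^[n] y) (g2^[n + 1] y) ≤ q * c1 + p * m1 := by
    have t := RGAP_sum h hm1 hy
    have t2 : ∑ n ∈ Finset.range q, (Sg h (g2^[n] y) (g2^[n + 1] y) + u1 (g2^[n] y) -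
        u1 (g2^[n + 1] y)) ≤ ∑ _n ∈ Finset.range q, c1 :=
      Finset.sum_le_sum fun n _ => up u1 c1 l1 g2 hg2 y n
    rw [Finset.sum_const, Finset.card_range, nsmul_eq_mul] at t2
    linarith
  have key : (q : ℝ) * c1 + p * m1 = q * c2 + p * m2 := by
    have := a1 0
    have := a2 0
    linarith
  funext x
  have t := RGAP_sum h hm2 (h1 x)
  have t3 : ∑ n ∈ Finset.range q, (Sg h (g1^[n] x) (g1^[n + 1] x) + u2 (g1^[n] x) -
      u2 (g1^[n + 1] x)) = ∑ _n ∈ Finset.range q, c2 := by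
    rw [t, Finset.sum_const, Finset.card_range, nsmul_eq_mul, a1 x]
    linarith
  have t4 := (Finset.sum_eq_sum_iff_of_le (fun n _ => up u2 c2 l2 g1 hg1 x n)).1 t3 0
    (Finset.mem_range.2 hq)
  simp only [Function.iterate_zero_apply, zero_add, Function.iterate_one] at t4
  exact s2 x (g1 x) (hg1.lo x).le (hg1.hi x).le t4

end Pool.Agent.H283R2.BK
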