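import Pool.Agent.H283R2.BK.Defs

/-!
# Choice of three arcs (helper760)

The solutions of the comparison system have the angle `SEL_Th c t β`, where `β` is the frame angle at
time `0`. It is continuous, strictly increasing in both variables, commutes with `β ↦ β + π` and
increases by `4 π` over a period.
-/

open Real Complex Set MeasureTheory

namespace Pool.Agent.H283R2.BK

noncomputable section

/-! ### the abstract argument -/

theorem SEL_pin (Th : ℝ → ℝ → ℝ) (hp : ∀ t β, Th t (β + π) = Th t β + π) (n : ℤ) :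
    ∀ t β, Th t (β + n * π) = Th t β + n * π := by
  induction n using Int.induction_on with
  | zero => intro t β; simp
  | succ i ih =>
    intro t β
    have e : β + ((i : ℤ) + 1 : ℤ) * π = (β + ((i : ℤ) : ℝ) * π) + π := by push_cast; ring
    rw [e, hp, ih]; push_cast; ring
  | pred i ih =>
    intro t β
    have h1 := hp t (β + ((-(i : ℤ) - 1 : ℤ) : ℝ) * π)
    have e : β + ((-(i : ℤ) - 1 : ℤ) : ℝ) * π + π = β + ((-(i : ℤ) : ℤ) : ℝ) * π := by
      push_cast; ring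
    rw [e, ih] at h1
    have h2 : ((-(i : ℤ) - 1 : ℤ) : ℝ) * π = ((-(i : ℤ) : ℤ) : ℝ) * π - π := by push_cast; ring
    linarith

theorem SEL_gain (Th : ℝ → ℝ → ℝ) (hp : ∀ t β, Th t (β + π) = Th t β + π)
    (mb : ∀ t, StrictMono (Th t)) (s r β' : ℝ) (h : Th s β' + 2 * π ≤ Th r β') (β : ℝ) :
    Th s β + π < Th r β := by
  have hpi := Real.pi_pos
  obtain ⟨n, hn⟩ : ∃ n : ℤ, n = ⌊(β - β') / π⌋ := ⟨_, rfl⟩
  have h1 : (n : ℝ) ≤ (β - β') / π := by rw [hn]; exact Int.floor_le _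
  have h2 : (β - β') / π < n + 1 := by rw [hn]; exact Int.lt_floor_add_one _
  rw [le_div_iff₀ hpi] at h1
  rw [div_lt_iff₀ hpi] at h2
  have h3 : Th r (β' + n * π) ≤ Th r β := (mb r).monotone (by linarith)
  have h4 : Th s β < Th s (β' + n * π + π) := mb s (by linarith)
  rw [hp, SEL_pin Th hp] at h4
  rw [SEL_pin Th hp] at h3
  linarith

theorem SEL_first (Th : ℝ → ℝ → ℝ) (hc : Continuous (Function.uncurry Th))
    (hp : ∀ t β, Th t (β + π) = Th t β + π)
    (per : ∀ t β, Th (t + 2 * π) β = Th t β + 4 * π) (s : ℝ) :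
    ∃ r0 β0 : ℝ, s < r0 ∧ r0 < s + 2 * π ∧ Th r0 β0 = Th s β0 + 2 * π ∧
      (∀ r, s ≤ r → r < r0 → ∀ β, Th r β < Th s β + 2 * π) ∧
      (∀ β, Th r0 β ≤ Th s β + 2 * π) := by
  have hpi := Real.pi_pos
  have hct : ∀ β, Continuous (fun t => Th t β) := fun β =>
    hc.comp (Continuous.prodMk continuous_id continuous_const)
  have hcs : ∀ t, Continuous (fun β => Th t β) := fun t =>
    hc.comp (Continuous.prodMk continuous_const continuous_id)
  set K : Set (ℝ × ℝ) := (Icc s (s + 2 * π) ×ˢ Icc 0 π) ∩ {p | Th p.1 p.2 = Th s p.2 + 2 * π} with hK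
  have hcl : IsClosed {p : ℝ × ℝ | Th p.1 p.2 = Th s p.2 + 2 * π} :=
    isClosed_eq hc (((hcs s).comp continuous_snd).add continuous_const)
  have hKc : IsCompact K := (isCompact_Icc.prod isCompact_Icc).inter_right hcl
  have ivt : ∀ β r, s ≤ r → Th s β + 2 * π ≤ Th r β →
      ∃ r' ∈ Icc s r, Th r' β = Th s β + 2 * π := by
    intro β r hsr h
    have h1 := intermediate_value_Icc hsr (hct β).continuousOn
    exact h1 ⟨by linarith, h⟩
  have hKn : K.Nonempty := by
    obtain ⟨r', hr', h1⟩ := ivt 0 (s + 2 * π) (by linarith) (by rw [per]; linarith)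
    exact ⟨(r', 0), ⟨⟨hr', ⟨le_refl _, hpi.le⟩⟩, h1⟩⟩
  obtain ⟨⟨r0, β0⟩, hmem, hmin⟩ := hKc.exists_isMinOn hKn continuous_fst.continuousOn
  obtain ⟨⟨hr0, hβ0⟩, heq⟩ := hmem
  have heq : Th r0 β0 = Th s β0 + 2 * π := heq
  have hr0 : r0 ∈ Icc s (s + 2 * π) := hr0
  have hstrict : ∀ r, s ≤ r → r < r0 → ∀ β, Th r β < Th s β + 2 * π := by
    intro r hsr hr β
    by_contra hcon
    push Not at hcon
    obtain ⟨r', hr', h1⟩ := ivt β r hsr hcon
    obtain ⟨n, hn⟩ : ∃ n : ℤ, n = ⌊β / π⌋ := ⟨_, rfl⟩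
    have e1 : (n : ℝ) ≤ β / π := by rw [hn]; exact Int.floor_le _
    have e2 : β / π < n + 1 := by rw [hn]; exact Int.lt_floor_add_one _
    rw [le_div_iff₀ hpi] at e1
    rw [div_lt_iff₀ hpi] at e2
    have e3 := SEL_pin Th hp n r' (β - n * π)
    have e4 := SEL_pin Th hp n s (β - n * π)
    rw [sub_add_cancel] at e3 e4
    have h2 : (r', β - n * π) ∈ K := by
      refine ⟨⟨⟨hr'.1, by linarith [hr'.2, hr0.2]⟩, ⟨by linarith, by linarith⟩⟩, ?_⟩
      show Th r' (β - n * π) = Th s (β - n * π) + 2 * π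
      linarith
    have h3 := hmin h2
    have h4 : r0 ≤ r' := h3
    linarith [hr'.2]
  refine ⟨r0, β0, ?_, ?_, heq, hstrict, ?_⟩
  · rcases eq_or_lt_of_le hr0.1 with h | h
    · rw [← h] at heq; linarith
    · exact h
  · rcases eq_or_lt_of_le hr0.2 with h | h
    · rw [h, per] at heq; linarith
    · exact h
  · intro β
    by_contra hcon
    push Not at hcon
    obtain ⟨r', hr', h1⟩ := ivt β r0 hr0.1 hcon.le
    rcases eq_or_lt_of_le hr'.2 with h | h
    · rw [h] at h1; linarith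
    · have := hstrict r' hr'.1 h β
      linarith

theorem SEL_abs (Th : ℝ → ℝ → ℝ) (hc : Continuous (Function.uncurry Th))
    (hp : ∀ t β, Th t (β + π) = Th t β + π) (mt : ∀ β, StrictMono (fun t => Th t β))
    (mb : ∀ t, StrictMono (Th t))
    (per : ∀ t β, Th (t + 2 * π) β = Th t β + 4 * π) (D : ℝ → ℝ → ℝ)
    (hD : ∀ s r, s < r → D s r = 0 → ∃ β, Th s β + 2 * π ≤ Th r β) :
    ∃ s1 s2 : ℝ, 0 < s1 ∧ s1 < s2 ∧ s2 < 2 * π ∧
      (∀ r ∈ Ioo 0 s1, D 0 r ≠ 0) ∧ (∀ r ∈ Ioo s1 s2, D s1 r ≠ 0) ∧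
      (∀ r ∈ Ioc s2 (2 * π), D s2 r ≠ 0) := by
  have hpi := Real.pi_pos
  obtain ⟨s1, β0, h01, h12, heq0, hst0, _⟩ := SEL_first Th hc hp per 0
  obtain ⟨s2, β1, h1s2, hs2, heq1, hst1, hle1⟩ := SEL_first Th hc hp per s1
  rw [zero_add] at h12
  have A1 : ∀ r ∈ Ioo 0 s1, D 0 r ≠ 0 := by
    intro r hr h0
    obtain ⟨β, hβ⟩ := hD 0 r hr.1 h0
    have := hst0 r hr.1.le hr.2 β
    linarith
  have A2 : ∀ r ∈ Ioo s1 s2, D s1 r ≠ 0 := by
    intro r hr h0
    obtain ⟨β, hβ⟩ := hD s1 r hr.1 h0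
    have := hst1 r hr.1.le hr.2 β
    linarith
  by_cases hcase : s2 < 2 * π
  · refine ⟨s1, s2, h01, h1s2, hcase, A1, A2, ?_⟩
    intro r hr h0
    obtain ⟨β2, hβ2⟩ := hD s2 r hr.1 h0
    have g1 := SEL_gain Th hp mb s1 s2 β1 (le_of_eq heq1.symm) β0
    have g2 := SEL_gain Th hp mb s2 r β2 hβ2 β0
    have g3 : Th r β0 ≤ Th (2 * π) β0 := (mt β0).monotone hr.2
    have g4 := per 0 β0
    rw [zero_add] at g4
    linarith
  · push Not at hcase
    refine ⟨s1, (s1 + 2 * π) / 2, h01, by linarith, by linarith, A1, ?_, ?_⟩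
    · intro r hr
      exact A2 r ⟨hr.1, by linarith [hr.2]⟩
    · intro r hr h0
      obtain ⟨β2, hβ2⟩ := hD _ r hr.1 h0
      have g1 : Th s1 β2 < Th ((s1 + 2 * π) / 2) β2 := mt β2 (by linarith)
      rcases lt_or_eq_of_le (le_trans hr.2 hcase) with h | h
      · have := hst1 r (by linarith [hr.1]) h β2
        linarith
      · have := hle1 β2
        rw [← h] at this
        linarith

/-! ### the angle -/

theorem SEL_en_add (x y : ℝ) : en (x + y) = en x * en y := by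
  unfold en
  rw [← Complex.exp_add]
  congr 1
  push_cast
  ring

theorem SEL_norm_en (x : ℝ) : ‖en x‖ = 1 := Complex.norm_exp_ofReal_mul_I x

theorem SEL_en_neg (x : ℝ) : en (-x) = (starRingEnd ℂ) (en x) := by
  unfold en
  rw [← Complex.exp_conj]
  congr 1
  simp

theorem SEL_en_two_pi (n : ℤ) : en (n * (2 * π)) = 1 := by
  unfold en
  have : ((n * (2 * π) : ℝ) : ℂ) * I = n * (2 * π * I) := by push_cast; ring
  rw [this]
  exact Complex.exp_int_mul_two_pi_mul_I n

theorem SEL_hasDerivAt_en {f : ℝ → ℝ} {f' t : ℝ} (h : HasDerivAt f f' t) :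
    HasDerivAt (fun t => en (f t)) (en (f t) * ((f' : ℂ) * I)) t :=
  (h.ofReal_comp.mul_const I).cexp

/-- `q` -/
def SEL_q (c : ℝ → ℂ) (t β : ℝ) : ℂ := c t * en (-(2 * (2 * t + β)))

/-- the angle of the solution with frame angle `β` at time `0` -/
def SEL_Th (c : ℝ → ℂ) (t β : ℝ) : ℝ := 2 * t + β + (1 + SEL_q c t β).arg

theorem SEL_nq (c : ℝ → ℂ) (t β : ℝ) : normSq (SEL_q c t β) = normSq (c t) := by
  unfold SEL_q
  rw [normSq_mul, Complex.normSq_eq_norm_sq (en _), SEL_norm_en]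
  ring

theorem SEL_re_pos {q : ℂ} (h : normSq q < 1) : 0 < (1 + q).re := by
  rw [Complex.normSq_apply] at h
  simp only [Complex.add_re, Complex.one_re]
  nlinarith [sq_nonneg q.im, sq_nonneg (q.re - 1), sq_nonneg (q.re + 1)]

theorem SEL_slit {q : ℂ} (h : normSq q < 1) : (1 + q) ∈ slitPlane := Or.inl (SEL_re_pos h)

/-- monotonicity in time -/
theorem SEL_pos (q κ : ℂ) (h1 : normSq q < 1)
    (h2 : ‖4 * q + I * κ‖ < 2 * (1 + normSq q) + (q * (starRingEnd ℂ) κ).im) :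
    0 < 2 + ((κ - 4 * I * q) / (1 + q)).im := by
  have hz : 0 < normSq (1 + q) := by
    have := SEL_re_pos h1
    rw [Complex.normSq_apply]
    nlinarith [sq_nonneg (1 + q).im]
  have e1 : (1 - normSq q) * (2 * normSq (1 + q) + ((κ - 4 * I * q) * (starRingEnd ℂ) (1 + q)).im)
      = (2 * (1 + normSq q) + (q * (starRingEnd ℂ) κ).im) * normSq (1 + q)
        - ((4 * q + I * κ) * ((starRingEnd ℂ) (1 + q)) ^ 2).re := by
    simp [Complex.normSq_apply, pow_two]
    ring
  have e2 : ((4 * q + I * κ) * ((starRingEnd ℂ) (1 + q)) ^ 2).re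
      ≤ ‖4 * q + I * κ‖ * normSq (1 + q) := by
    refine (Complex.re_le_norm _).trans ?_
    rw [norm_mul, norm_pow, Complex.norm_conj, Complex.normSq_eq_norm_sq]
  have e3 : 0 < (1 - normSq q) *
      (2 * normSq (1 + q) + ((κ - 4 * I * q) * (starRingEnd ℂ) (1 + q)).im) := by
    rw [e1]
    nlinarith
  have e4 : 0 < 2 * normSq (1 + q) + ((κ - 4 * I * q) * (starRingEnd ℂ) (1 + q)).im :=
    (mul_pos_iff_of_pos_left (by linarith)).1 e3
  have e5 : ((κ - 4 * I * q) / (1 + q)).im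
      = ((κ - 4 * I * q) * (starRingEnd ℂ) (1 + q)).im / normSq (1 + q) := by
    rw [Complex.div_im, Complex.mul_im, Complex.conj_re, Complex.conj_im]
    field_simp
    ring
  rw [e5]
  have e6 : 2 + ((κ - 4 * I * q) * (starRingEnd ℂ) (1 + q)).im / normSq (1 + q)
      = (2 * normSq (1 + q) + ((κ - 4 * I * q) * (starRingEnd ℂ) (1 + q)).im) / normSq (1 + q) := by
    field_simp
  rw [e6]
  positivity

/-- monotonicity in the frame angle -/
theorem SEL_pos2 (q : ℂ) (h1 : normSq q < 1) :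
    0 < 1 + ((-(2 * I * q)) / (1 + q)).im := by
  have hz : 0 < normSq (1 + q) := by
    have := SEL_re_pos h1
    rw [Complex.normSq_apply]
    nlinarith [sq_nonneg (1 + q).im]
  have e1 : normSq (1 + q) + ((-(2 * I * q)) * (starRingEnd ℂ) (1 + q)).im = 1 - normSq q := by
    simp [Complex.normSq_apply]
    ring
  have e5 : ((-(2 * I * q)) / (1 + q)).im
      = ((-(2 * I * q)) * (starRingEnd ℂ) (1 + q)).im / normSq (1 + q) := by
    rw [Complex.div_im, Complex.mul_im, Complex.conj_re, Complex.conj_im]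
    field_simp
    ring
  rw [e5]
  have e6 : 1 + ((-(2 * I * q)) * (starRingEnd ℂ) (1 + q)).im / normSq (1 + q)
      = (normSq (1 + q) + ((-(2 * I * q)) * (starRingEnd ℂ) (1 + q)).im) / normSq (1 + q) := by
    field_simp
  rw [e6, e1]
  have : 0 < 1 - normSq q := by linarith
  positivity

theorem SEL_arg_deriv {z : ℝ → ℂ} {z' : ℂ} {t : ℝ} (h : HasDerivAt z z' t) (hs : z t ∈ slitPlane) :
    HasDerivAt (fun t => (z t).arg) ((z' / z t).im) t := by
  have h1 := h.clog_real hs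
  have h2 : HasDerivAt (fun t => Complex.imCLM (Complex.log (z t))) (Complex.imCLM (z' / z t)) t :=
    Complex.imCLM.hasFDerivAt.comp_hasDerivAt t h1
  have e : (fun t => (z t).arg) = fun t => Complex.imCLM (Complex.log (z t)) := by
    funext t
    rw [Complex.imCLM_apply, Complex.log_im]
  rw [e]
  exact h2

theorem SEL_mt {c c' : ℝ → ℂ} (h : Good c c') (β : ℝ) : StrictMono (fun t => SEL_Th c t β) := by
  have hd : ∀ t, HasDerivAt (fun t => SEL_Th c t β)
      (2 + ((c' t * en (-(2 * (2 * t + β))) - 4 * I * SEL_q c t β) / (1 + SEL_q c t β)).im) t := by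
    intro t
    have h1 : HasDerivAt (fun t : ℝ => -(2 * (2 * t + β))) (-4) t := by
      have := ((((hasDerivAt_id' t).const_mul 2).add_const β).const_mul 2).neg
      exact this.congr_deriv (by norm_num)
    have h2 : HasDerivAt (fun t => 1 + SEL_q c t β)
        (c' t * en (-(2 * (2 * t + β))) - 4 * I * SEL_q c t β) t := by
      have := (((h.d t).mul (SEL_hasDerivAt_en h1)).const_add 1)
      refine this.congr_deriv ?_
      unfold SEL_q
      push_cast
      ring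
    have h3 := SEL_arg_deriv h2 (SEL_slit (by rw [SEL_nq]; exact h.lt t))
    have h4 : HasDerivAt (fun t : ℝ => 2 * t + β) 2 t := by
      have := ((hasDerivAt_id' t).const_mul 2).add_const β
      exact this.congr_deriv (by norm_num)
    exact h4.add h3
  refine strictMono_of_hasDerivAt_pos hd (fun t => ?_)
  apply SEL_pos
  · rw [SEL_nq]; exact h.lt t
  · have h1 := h.pos t
    have e0 : en (-(2 * (2 * t + β))) * (starRingEnd ℂ) (en (-(2 * (2 * t + β)))) = 1 := by
      rw [Complex.mul_conj, Complex.normSq_eq_norm_sq, SEL_norm_en]; simp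
    have e1 : 4 * SEL_q c t β + I * (c' t * en (-(2 * (2 * t + β))))
        = cb (c t) (c' t) * en (-(2 * (2 * t + β))) := by
      unfold SEL_q cb; ring
    have e2 : SEL_q c t β * (starRingEnd ℂ) (c' t * en (-(2 * (2 * t + β))))
        = c t * (starRingEnd ℂ) (c' t) := by
      unfold SEL_q
      rw [map_mul]
      linear_combination (c t * (starRingEnd ℂ) (c' t)) * e0
    rw [e1, norm_mul, SEL_norm_en, mul_one, e2, SEL_nq]
    exact h1

theorem SEL_mb {c c' : ℝ → ℂ} (h : Good c c') (t : ℝ) : StrictMono (SEL_Th c t) := by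
  have hd : ∀ β, HasDerivAt (fun β => SEL_Th c t β)
      (1 + ((-(2 * I * SEL_q c t β)) / (1 + SEL_q c t β)).im) β := by
    intro β
    have h1 : HasDerivAt (fun β : ℝ => -(2 * (2 * t + β))) (-2) β := by
      have := (((hasDerivAt_id' β).const_add (2 * t)).const_mul 2).neg
      exact this.congr_deriv (by norm_num)
    have h2 : HasDerivAt (fun β => 1 + SEL_q c t β) (-(2 * I * SEL_q c t β)) β := by
      have := ((SEL_hasDerivAt_en h1).const_mul (c t)).const_add 1
      refine this.congr_deriv ?_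
      unfold SEL_q
      push_cast
      ring
    have h3 := SEL_arg_deriv h2 (SEL_slit (by rw [SEL_nq]; exact h.lt t))
    have h4 : HasDerivAt (fun β : ℝ => 2 * t + β) 1 β := (hasDerivAt_id β).const_add (2 * t)
    exact h4.add h3
  refine strictMono_of_hasDerivAt_pos hd (fun β => ?_)
  apply SEL_pos2
  rw [SEL_nq]; exact h.lt t

theorem SEL_cont {c c' : ℝ → ℂ} (h : Good c c') : Continuous (Function.uncurry (SEL_Th c)) := by
  have hcc : Continuous c := continuous_iff_continuousAt.2 fun t => (h.d t).continuousAt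
  have hq : Continuous (fun p : ℝ × ℝ => 1 + SEL_q c p.1 p.2) := by
    unfold SEL_q en
    fun_prop
  have h1 : Continuous (fun p : ℝ × ℝ => (1 + SEL_q c p.1 p.2).arg) := by
    rw [continuous_iff_continuousAt]
    intro p
    exact (Complex.continuousAt_arg (SEL_slit (by rw [SEL_nq]; exact h.lt p.1))).comp
      (f := fun p : ℝ × ℝ => 1 + SEL_q c p.1 p.2) hq.continuousAt
  have h2 : Continuous (fun p : ℝ × ℝ => 2 * p.1 + p.2) := by fun_prop
  exact h2.add h1

theorem SEL_pi (c : ℝ → ℂ) (t β : ℝ) : SEL_Th c t (β + π) = SEL_Th c t β + π := by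
  have e : SEL_q c t (β + π) = SEL_q c t β := by
    unfold SEL_q
    have : -(2 * (2 * t + (β + π))) = -(2 * (2 * t + β)) + ((-1 : ℤ) : ℝ) * (2 * π) := by
      push_cast; ring
    rw [this, SEL_en_add, SEL_en_two_pi, mul_one]
  unfold SEL_Th
  rw [e]
  ring

theorem SEL_per {c c' : ℝ → ℂ} (h : Good c c') (t β : ℝ) :
    SEL_Th c (t + 2 * π) β = SEL_Th c t β + 4 * π := by
  have e : SEL_q c (t + 2 * π) β = SEL_q c t β := by
    unfold SEL_q
    have : -(2 * (2 * (t + 2 * π) + β)) = -(2 * (2 * t + β)) + ((-4 : ℤ) : ℝ) * (2 * π) := by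
      push_cast; ring
    rw [this, SEL_en_add, SEL_en_two_pi, mul_one, h.per]
  unfold SEL_Th
  rw [e]
  ring

/-! ### fixed vectors -/

theorem SEL_sol (P Q : ℂ) (h : ‖P‖ = ‖Q‖) : ∃ β : ℝ, P * en β + Q * en (-β) = 0 := by
  refine ⟨(Q.arg - P.arg + π) / 2, ?_⟩
  have hP := Complex.norm_mul_exp_arg_mul_I P
  have hQ := Complex.norm_mul_exp_arg_mul_I Q
  have e1 : P * en ((Q.arg - P.arg + π) / 2) = ‖P‖ * en ((Q.arg + P.arg + π) / 2) := by
    have h3 : en P.arg * en ((Q.arg - P.arg + π) / 2) = en ((Q.arg + P.arg + π) / 2) := by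
      rw [← SEL_en_add]
      congr 1
      ring
    have h4 : (‖P‖ : ℂ) * en P.arg = P := hP
    rw [← h3, ← mul_assoc, h4]
  have e2 : Q * en (-((Q.arg - P.arg + π) / 2)) = ‖Q‖ * en ((Q.arg + P.arg + π) / 2 + -π) := by
    have h3 : en Q.arg * en (-((Q.arg - P.arg + π) / 2)) = en ((Q.arg + P.arg + π) / 2 + -π) := by
      rw [← SEL_en_add]
      congr 1
      ring
    have h4 : (‖Q‖ : ℂ) * en Q.arg = Q := hQ
    rw [← h3, ← mul_assoc, h4]
  have e3 : en (-π) = -1 := by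
    rw [SEL_en_neg]
    unfold en
    rw [Complex.exp_pi_mul_I]
    simp
  rw [e1, e2, SEL_en_add, e3, h]
  ring

theorem SEL_id (E F a b : ℂ) (ρ σ : ℝ) (hE : normSq E = 1) (hF : normSq F = 1)
    (hρ : ρ ^ 2 = 1 - normSq a) (hσ : σ ^ 2 = 1 - normSq b) (hρ0 : 0 < ρ) (hσ0 : 0 < σ) :
    normSq (E / ρ - F / σ) - normSq (a * (starRingEnd ℂ) E / ρ - b * (starRingEnd ℂ) F / σ)
      = 2 - 2 * (E * (starRingEnd ℂ) F - a * (starRingEnd ℂ) b * ((starRingEnd ℂ) E * F)).re / (ρ * σ) := by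
  have e1 : ∀ (z w : ℂ), ((z / ρ) * (starRingEnd ℂ) (w / σ)).re = (z * (starRingEnd ℂ) w).re / (ρ * σ) := by
    intro z w
    have : (z / ρ) * (starRingEnd ℂ) (w / σ) = (z * (starRingEnd ℂ) w) / ((ρ * σ : ℝ) : ℂ) := by
      rw [map_div₀, Complex.conj_ofReal]
      push_cast
      field_simp
    rw [this, Complex.div_ofReal_re]
  rw [Complex.normSq_sub, Complex.normSq_sub, e1, e1]
  simp only [normSq_div, normSq_mul, Complex.normSq_conj, Complex.normSq_ofReal, hE, hF]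
  have e2 : (E * (starRingEnd ℂ) F - a * (starRingEnd ℂ) b * ((starRingEnd ℂ) E * F)).re
      = (E * (starRingEnd ℂ) F).re
        - (a * (starRingEnd ℂ) E * (starRingEnd ℂ) (b * (starRingEnd ℂ) F)).re := by
    rw [Complex.sub_re]
    congr 2
    rw [map_mul, Complex.conj_conj]
    ring
  rw [e2]
  have e3 : normSq a = 1 - ρ ^ 2 := by linarith
  have e4 : normSq b = 1 - σ ^ 2 := by linarith
  rw [e3, e4]
  field_simp
  ring

theorem SEL_F6 {c c' : ℝ → ℂ} (h : Good c c') (s r : ℝ) (hD : Dt c s r = 0) :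
    ∃ β : ℝ, ∃ n : ℤ, SEL_Th c r β = SEL_Th c s β + n * (2 * π) := by
  have hρ0 : ∀ t, 0 < rh (c t) := fun t => Real.sqrt_pos.2 (by linarith [h.lt t])
  have hρ2 : ∀ t, rh (c t) ^ 2 = 1 - normSq (c t) := fun t =>
    Real.sq_sqrt (by linarith [h.lt t])
  have hn1 : ∀ x, normSq (en x) = 1 := fun x => by
    rw [Complex.normSq_eq_norm_sq, SEL_norm_en]; norm_num
  have hid := SEL_id (en (2 * r)) (en (2 * s)) (c r) (c s) (rh (c r)) (rh (c s)) (hn1 _) (hn1 _)
    (hρ2 r) (hρ2 s) (hρ0 r) (hρ0 s)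
  have e1 : en (2 * (r - s)) = en (2 * r) * (starRingEnd ℂ) (en (2 * s)) := by
    rw [← SEL_en_neg, ← SEL_en_add]
    congr 1
    ring
  have e2 : en (-(2 * (r - s))) = (starRingEnd ℂ) (en (2 * r)) * en (2 * s) := by
    rw [← SEL_en_neg, ← SEL_en_add]
    congr 1
    ring
  have e3 : 2 - 2 * (en (2 * r) * (starRingEnd ℂ) (en (2 * s)) - c r * (starRingEnd ℂ) (c s)
      * ((starRingEnd ℂ) (en (2 * r)) * en (2 * s))).re / (rh (c r) * rh (c s)) = 0 := by
    rw [← hD]
    unfold Dt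
    rw [e1, e2]
  rw [e3] at hid
  have hnorm : ‖en (2 * r) / (rh (c r) : ℂ) - en (2 * s) / (rh (c s) : ℂ)‖
      = ‖c r * (starRingEnd ℂ) (en (2 * r)) / (rh (c r) : ℂ)
        - c s * (starRingEnd ℂ) (en (2 * s)) / (rh (c s) : ℂ)‖ := by
    rw [Complex.normSq_eq_norm_sq, Complex.normSq_eq_norm_sq] at hid
    exact (sq_eq_sq₀ (norm_nonneg _) (norm_nonneg _)).1 (by linarith)
  obtain ⟨β, hβ⟩ := SEL_sol _ _ hnorm
  refine ⟨β, ?_⟩
  have key : ∀ t, (en (2 * t) * en β + c t * (starRingEnd ℂ) (en (2 * t)) * en (-β))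
      = ‖1 + SEL_q c t β‖ * en (SEL_Th c t β) := by
    intro t
    unfold SEL_Th
    rw [SEL_en_add]
    have h1 : en ((1 + SEL_q c t β).arg) * ‖1 + SEL_q c t β‖ = 1 + SEL_q c t β := by
      rw [mul_comm]
      exact Complex.norm_mul_exp_arg_mul_I _
    have h2 : ‖1 + SEL_q c t β‖ * (en (2 * t + β) * en ((1 + SEL_q c t β).arg))
        = en (2 * t + β) * (1 + SEL_q c t β) := by
      linear_combination (en (2 * t + β)) * h1
    rw [h2]
    unfold SEL_q
    have h3 : en (-(2 * (2 * t + β))) * en (2 * t + β) = (starRingEnd ℂ) (en (2 * t)) * en (-β) := by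
      rw [← SEL_en_neg, ← SEL_en_add, ← SEL_en_add]
      congr 1
      ring
    rw [mul_add, mul_one, ← SEL_en_add]
    linear_combination (-(c t)) * h3
  have hr0 : (rh (c r) : ℂ) ≠ 0 := by exact_mod_cast (hρ0 r).ne'
  have hs0 : (rh (c s) : ℂ) ≠ 0 := by exact_mod_cast (hρ0 s).ne'
  have k1 : ((‖1 + SEL_q c r β‖ / rh (c r) : ℝ) : ℂ) * en (SEL_Th c r β)
      = ((‖1 + SEL_q c s β‖ / rh (c s) : ℝ) : ℂ) * en (SEL_Th c s β) := by
    have a1 := key r
    have a2 := key s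
    push_cast
    rw [div_mul_eq_mul_div, div_mul_eq_mul_div, ← a1, ← a2]
    linear_combination hβ
  have hz : ∀ t, 0 < ‖1 + SEL_q c t β‖ / rh (c t) := by
    intro t
    have := SEL_re_pos (q := SEL_q c t β) (by rw [SEL_nq]; exact h.lt t)
    have h1 : 0 < ‖1 + SEL_q c t β‖ := by
      rw [norm_pos_iff]
      intro h0
      rw [h0] at this
      simp at this
    exact div_pos h1 (hρ0 t)
  have k2 : ‖1 + SEL_q c r β‖ / rh (c r) = ‖1 + SEL_q c s β‖ / rh (c s) := by
    have := congrArg norm k1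
    rw [norm_mul, norm_mul, SEL_norm_en, SEL_norm_en, mul_one, mul_one, Complex.norm_real,
      Complex.norm_real, Real.norm_of_nonneg (hz r).le, Real.norm_of_nonneg (hz s).le] at this
    exact this
  rw [k2] at k1
  have k3 : en (SEL_Th c r β) = en (SEL_Th c s β) := by
    have : ((‖1 + SEL_q c s β‖ / rh (c s) : ℝ) : ℂ) ≠ 0 := by exact_mod_cast (hz s).ne'
    exact mul_left_cancel₀ this k1
  unfold en at k3
  rw [Complex.exp_eq_exp_iff_exists_int] at k3
  obtain ⟨n, hn⟩ := k3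
  refine ⟨n, ?_⟩
  have h2 : ((SEL_Th c r β : ℝ) : ℂ) = ((SEL_Th c s β + n * (2 * π) : ℝ) : ℂ) := by
    have h3 : ((SEL_Th c r β : ℝ) : ℂ) * I = ((SEL_Th c s β + n * (2 * π) : ℝ) : ℂ) * I := by
      rw [hn]; push_cast; ring
    exact mul_right_cancel₀ Complex.I_ne_zero h3
  exact_mod_cast h2

theorem t_SEL : S_SEL := by
  intro c c' h
  refine SEL_abs (SEL_Th c) (SEL_cont h) (SEL_pi c) (SEL_mt h) (SEL_mb h) (SEL_per h) (Dt c) ?_
  intro s r hsr hD
  obtain ⟨β, n, hn⟩ := SEL_F6 h s r hD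
  refine ⟨β, ?_⟩
  have h1 : SEL_Th c s β < SEL_Th c r β := SEL_mt h β hsr
  have hpi := Real.pi_pos
  have h2 : (0 : ℝ) < n := by
    by_contra hcon
    push Not at hcon
    nlinarith
  have h3 : (1 : ℤ) ≤ n := by exact_mod_cast h2
  have h4 : (1 : ℝ) ≤ n := by exact_mod_cast h3
  nlinarith

end

end Pool.Agent.H283R2.BK
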