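-- hyps: none
import Pool.Agent.H283R2.BK.Defs

/-!
# Translation of the origin
-/

namespace Pool.Agent.H283R2.BK

open Real

theorem SH_bm (h k : ℝ → ℝ) (a b x y : ℝ) :
    Bm (hs h a b) (ks k a b) x y = Bm h k x y - a * Real.cos y - b * Real.sin y := by
  unfold Bm hs ks
  have e : y = (x + y) / 2 + (y - x) / 2 := by ring
  have h1 : Real.cos y = Real.cos ((x + y) / 2) * Real.cos ((y - x) / 2) -
      Real.sin ((x + y) / 2) * Real.sin ((y - x) / 2) := by
    nth_rewrite 1 [e]
    rw [Real.cos_add]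
  have h2 : Real.sin y = Real.sin ((x + y) / 2) * Real.cos ((y - x) / 2) +
      Real.cos ((x + y) / 2) * Real.sin ((y - x) / 2) := by
    nth_rewrite 1 [e]
    rw [Real.sin_add]
  rw [h1, h2]
  ring

theorem SH_am (h k : ℝ → ℝ) (a b x y : ℝ) :
    Am (hs h a b) (ks k a b) x y = Am h k x y - a * Real.cos x - b * Real.sin x := by
  unfold Am hs ks
  have e : x = (x + y) / 2 - (y - x) / 2 := by ring
  have h1 : Real.cos x = Real.cos ((x + y) / 2) * Real.cos ((y - x) / 2) +
      Real.sin ((x + y) / 2) * Real.sin ((y - x) / 2) := by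
    nth_rewrite 1 [e]
    rw [Real.cos_sub]
  have h2 : Real.sin x = Real.sin ((x + y) / 2) * Real.cos ((y - x) / 2) -
      Real.cos ((x + y) / 2) * Real.sin ((y - x) / 2) := by
    nth_rewrite 1 [e]
    rw [Real.sin_sub]
  rw [h1, h2]
  ring

theorem t_SH : S_SH := by
  intro h k ρ hS a b
  refine ⟨⟨fun x => ?_, fun x => ?_, hS.cr, hS.pos, fun x => ?_, fun x => ?_, hS.pr⟩, fun g hg =>
    ⟨hg.cont, hg.mono, hg.per, hg.lo, hg.hi, fun x => ?_⟩⟩
  · unfold hs ks
    have h1 := ((hS.dh x).sub ((Real.hasDerivAt_cos x).const_mul a)).sub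
      ((Real.hasDerivAt_sin x).const_mul b)
    exact h1.congr_deriv (by ring)
  · unfold hs ks
    have h1 := ((hS.dk x).add ((Real.hasDerivAt_sin x).const_mul a)).sub
      ((Real.hasDerivAt_cos x).const_mul b)
    exact h1.congr_deriv (by ring)
  · unfold hs
    rw [hS.ph, Real.cos_add_two_pi, Real.sin_add_two_pi]
  · unfold ks
    rw [hS.pk, Real.cos_add_two_pi, Real.sin_add_two_pi]
  · rw [SH_bm, SH_am, hg.st x]

end Pool.Agent.H283R2.BK
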