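import Pool.Agent.H283R2.BK.Defs

/-!
# The second variation along the orbits of an invariant circle is nonpositive
-/

open Real Complex Set MeasureTheory Filter Topology

namespace Pool.Agent.H283R2.BK

/-- second derivative test -/
theorem SV_test (f f1 f2 : ℝ → ℝ) (h1 : ∀ t, HasDerivAt f (f1 t) t)
    (h2 : ∀ t, HasDerivAt f1 (f2 t) t) (hmax : IsLocalMax f 0) : f2 0 ≤ 0 := by
  by_contra hcon
  push Not at hcon
  have hd1 : deriv f = f1 := funext fun t => (h1 t).deriv
  have hd2 : deriv (deriv f) 0 = f2 0 := by rw [hd1]; exact (h2 0).deriv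
  have hmin : IsLocalMin f 0 :=
    isLocalMin_of_deriv_deriv_pos (by rw [hd2]; exact hcon) hmax.deriv_eq_zero
      (h1 0).continuousAt
  have heq : f =ᶠ[𝓝 0] fun _ => f 0 := by
    filter_upwards [hmin, hmax] with t ha hb
    exact le_antisymm hb ha
  have h3 : deriv f =ᶠ[𝓝 0] deriv (fun _ : ℝ => f 0) := heq.deriv
  have h4 := h3.deriv_eq
  rw [hd2] at h4
  simp at h4
  linarith

/-- first derivative of `S` along a line -/
theorem SV_d1 {h k ρ : ℝ → ℝ} (hS : Sup h k ρ) (x y a b t : ℝ) :
    HasDerivAt (fun t => Sg h (x + t * a) (y + t * b))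
      (k ((x + t * a + (y + t * b)) / 2) * (a + b) * Real.sin ((y + t * b - (x + t * a)) / 2)
        + h ((x + t * a + (y + t * b)) / 2) * (b - a)
          * Real.cos ((y + t * b - (x + t * a)) / 2)) t := by
  have hx : HasDerivAt (fun t => x + t * a) a t := by
    simpa using ((hasDerivAt_id t).mul_const a).const_add x
  have hy : HasDerivAt (fun t => y + t * b) b t := by
    simpa using ((hasDerivAt_id t).mul_const b).const_add y
  have hM := (hx.add hy).div_const 2
  have hD := (hy.sub hx).div_const 2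
  have h1 := (hS.dh ((x + t * a + (y + t * b)) / 2)).comp t hM
  refine ((h1.const_mul 2).mul hD.sin).congr_deriv ?_
  simp only [Function.comp, Pi.add_apply, Pi.sub_apply]
  ring

/-- second derivative of `S` along a line -/
theorem SV_d2 {h k ρ : ℝ → ℝ} (hS : Sup h k ρ) (x y a b t : ℝ) :
    HasDerivAt (fun t => k ((x + t * a + (y + t * b)) / 2) * (a + b)
          * Real.sin ((y + t * b - (x + t * a)) / 2)
        + h ((x + t * a + (y + t * b)) / 2) * (b - a)
          * Real.cos ((y + t * b - (x + t * a)) / 2))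
      (S11 h k ρ (x + t * a) (y + t * b) * a ^ 2
        + 2 * S12 ρ (x + t * a) (y + t * b) * a * b
        + S22 h k ρ (x + t * a) (y + t * b) * b ^ 2) t := by
  have hx : HasDerivAt (fun t => x + t * a) a t := by
    simpa using ((hasDerivAt_id t).mul_const a).const_add x
  have hy : HasDerivAt (fun t => y + t * b) b t := by
    simpa using ((hasDerivAt_id t).mul_const b).const_add y
  have hM := (hx.add hy).div_const 2
  have hD := (hy.sub hx).div_const 2
  have h1 := (hS.dh ((x + t * a + (y + t * b)) / 2)).comp t hM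
  have h2 := (hS.dk ((x + t * a + (y + t * b)) / 2)).comp t hM
  refine (((h2.mul_const (a + b)).mul hD.sin).add
    ((h1.mul_const (b - a)).mul hD.cos)).congr_deriv ?_
  simp only [Function.comp, Pi.add_apply, Pi.sub_apply, S11, S12, S22]
  ring

theorem t_SV (h1 : S_CAL) : S_SV := by
  intro h k ρ g hS hg x N ξ h0 hN
  obtain ⟨u, c, -, hc, hle, -⟩ := h1 h k ρ g hS hg
  have key := SV_test
    (fun t => ∑ n ∈ Finset.range N, Sg h (g^[n] x + t * ξ n) (g^[n + 1] x + t * ξ (n + 1)))
    _ _
    (fun t => HasDerivAt.fun_sum fun n _ =>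
      SV_d1 hS (g^[n] x) (g^[n + 1] x) (ξ n) (ξ (n + 1)) t)
    (fun t => HasDerivAt.fun_sum fun n _ =>
      SV_d2 hS (g^[n] x) (g^[n + 1] x) (ξ n) (ξ (n + 1)) t) ?_
  · simp only [zero_mul, add_zero] at key
    exact key
  · -- local maximum
    have hadm : ∀ᶠ t : ℝ in 𝓝 0, ∀ n ∈ Finset.range N,
        g^[n] x + t * ξ n ≤ g^[n + 1] x + t * ξ (n + 1) ∧
        g^[n + 1] x + t * ξ (n + 1) ≤ g^[n] x + t * ξ n + 2 * π := by
      rw [Filter.eventually_all_finset]
      intro n _
      have hc1 : Continuous fun t : ℝ =>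
          (g^[n + 1] x + t * ξ (n + 1)) - (g^[n] x + t * ξ n) := by fun_prop
      have hs := Function.iterate_succ_apply' g n x
      have e1 := (hc1.tendsto 0).eventually (lt_mem_nhds (a := 0)
        (by
          have := hg.lo (g^[n] x)
          show 0 < (g^[n + 1] x + 0 * ξ (n + 1)) - (g^[n] x + 0 * ξ n)
          rw [hs]; linarith))
      have hlt : (g^[n + 1] x + 0 * ξ (n + 1)) - (g^[n] x + 0 * ξ n) < 2 * π := by
        have := hg.hi (g^[n] x)
        rw [hs]; linarith
      have e2 := (hc1.tendsto 0).eventually (gt_mem_nhds hlt)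
      filter_upwards [e1, e2] with t ht1 ht2
      constructor <;> linarith
    filter_upwards [hadm] with t ht
    have hub : ∑ n ∈ Finset.range N,
        Sg h (g^[n] x + t * ξ n) (g^[n + 1] x + t * ξ (n + 1)) ≤
        ∑ n ∈ Finset.range N, (c + (u (g^[n + 1] x + t * ξ (n + 1)) - u (g^[n] x + t * ξ n))) := by
      refine Finset.sum_le_sum fun n hn => ?_
      have := hle _ _ (ht n hn).1 (ht n hn).2
      linarith
    have hval : ∑ n ∈ Finset.range N,
        Sg h (g^[n] x + 0 * ξ n) (g^[n + 1] x + 0 * ξ (n + 1)) =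
        ∑ n ∈ Finset.range N, (c + (u (g^[n + 1] x) - u (g^[n] x))) := by
      refine Finset.sum_congr rfl fun n _ => ?_
      have := hc (g^[n] x)
      rw [Function.iterate_succ_apply', zero_mul, zero_mul, add_zero, add_zero]
      linarith
    rw [Finset.sum_add_distrib, Finset.sum_range_sub (fun n => u (g^[n] x + t * ξ n)) N,
      h0, hN] at hub
    rw [Finset.sum_add_distrib, Finset.sum_range_sub (fun n => u (g^[n] x)) N] at hval
    simp only [hval]
    simpa using hub

end Pool.Agent.H283R2.BK
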