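import Pool.Agent.H283R2.BK.Defs

/-!
Task TM of `h283b_tasks`: existence and uniqueness of the map `T2`.
-/

open Real Complex Set MeasureTheory

namespace Pool.Agent.H283R2.BK

theorem TM_S12_pos {h k ρ : ℝ → ℝ} (hs : Sup h k ρ) {x y : ℝ} (h1 : x < y)
    (h2 : y < x + 2 * π) : 0 < S12 ρ x y := by
  unfold S12
  have h3 := hs.pos ((x + y) / 2)
  have h4 : 0 < Real.sin ((y - x) / 2) :=
    Real.sin_pos_of_pos_of_lt_pi (by linarith) (by linarith)
  positivity

theorem TM_strictMonoOn (hD : S_DER) {h k ρ : ℝ → ℝ} (hs : Sup h k ρ) (y : ℝ) :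
    StrictMonoOn (fun t => Bm h k t y) (Icc (y - 2 * π) y) := by
  have hd : ∀ t, HasDerivAt (fun t => Bm h k t y) (S12 ρ t y) t := fun t =>
    (hD h k ρ hs t y).2.2.2.2.1
  refine strictMonoOn_of_deriv_pos (convex_Icc _ _)
    (fun t _ => (hd t).continuousAt.continuousWithinAt) ?_
  intro t ht
  rw [interior_Icc] at ht
  rw [(hd t).deriv]
  exact TM_S12_pos hs ht.2 (by linarith [ht.1])

theorem TM_strictAntiOn (hD : S_DER) {h k ρ : ℝ → ℝ} (hs : Sup h k ρ) (y : ℝ) :
    StrictAntiOn (fun t => Am h k y t) (Icc y (y + 2 * π)) := by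
  have hd : ∀ t, HasDerivAt (fun t => Am h k y t) (-(S12 ρ y t)) t := fun t =>
    (hD h k ρ hs y t).2.2.2.1
  refine strictAntiOn_of_deriv_neg (convex_Icc _ _)
    (fun t _ => (hd t).continuousAt.continuousWithinAt) ?_
  intro t ht
  rw [interior_Icc] at ht
  rw [(hd t).deriv]
  have := TM_S12_pos hs ht.1 ht.2
  linarith

theorem TM_exists (hD : S_DER) {h k ρ : ℝ → ℝ} (hs : Sup h k ρ) {x y : ℝ} (h1 : x < y)
    (h2 : y < x + 2 * π) : ∃ z, y < z ∧ z < y + 2 * π ∧ Am h k y z = Bm h k x y := by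
  have hpi := Real.pi_pos
  have hB := TM_strictMonoOn hD hs y
  have hBy : Bm h k y y = h y := by
    unfold Bm
    rw [sub_self, zero_div, Real.cos_zero, Real.sin_zero, show (y + y) / 2 = y by ring]
    ring
  have hBy' : Bm h k (y - 2 * π) y = -h (y + π) := by
    unfold Bm
    rw [show (y - (y - 2 * π)) / 2 = π by ring, Real.cos_pi, Real.sin_pi,
      show (y - 2 * π + y) / 2 = y - π by ring, show y + π = (y - π) + 2 * π by ring, hs.ph]
    ring
  have hAy : Am h k y y = h y := by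
    unfold Am
    rw [sub_self, zero_div, Real.cos_zero, Real.sin_zero, show (y + y) / 2 = y by ring]
    ring
  have hAy' : Am h k y (y + 2 * π) = -h (y + π) := by
    unfold Am
    rw [show (y + 2 * π - y) / 2 = π by ring, Real.cos_pi, Real.sin_pi,
      show (y + (y + 2 * π)) / 2 = y + π by ring]
    ring
  have hlt : Bm h k x y < h y := by
    rw [← hBy]
    exact hB ⟨by linarith, h1.le⟩ ⟨by linarith, le_rfl⟩ h1
  have hgt : -h (y + π) < Bm h k x y := by
    rw [← hBy']
    exact hB ⟨le_rfl, by linarith⟩ ⟨by linarith, h1.le⟩ (by linarith)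
  have hcont : ContinuousOn (fun t => Am h k y t) (Icc y (y + 2 * π)) := fun t _ =>
    ((hD h k ρ hs y t).2.2.2.1).continuousAt.continuousWithinAt
  obtain ⟨z, hz, hzB⟩ := intermediate_value_Icc' (by linarith : y ≤ y + 2 * π) hcont
    (show Bm h k x y ∈ Icc (Am h k y (y + 2 * π)) (Am h k y y) by
      rw [hAy, hAy']; exact ⟨hgt.le, hlt.le⟩)
  have hzB' : Am h k y z = Bm h k x y := hzB
  refine ⟨z, lt_of_le_of_ne hz.1 ?_, lt_of_le_of_ne hz.2 ?_, hzB'⟩
  · rintro rfl
    rw [hAy] at hzB'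
    linarith
  · rintro rfl
    rw [hAy'] at hzB'
    linarith

theorem t_TM (hD : S_DER) : S_TM := by
  classical
  intro h k ρ hs
  refine ⟨fun x y => if hz : ∃ z, y < z ∧ z < y + 2 * π ∧ Am h k y z = Bm h k x y then
    hz.choose else 0, ?_, ?_⟩
  · intro x y h1 h2
    have hz := TM_exists hD hs h1 h2
    simp only [dif_pos hz]
    exact hz.choose_spec
  · intro x y z h1 h2 h3 h4 h5
    have hz := TM_exists hD hs h1 h2
    simp only [dif_pos hz]
    obtain ⟨g1, g2, g3⟩ := hz.choose_spec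
    exact (TM_strictAntiOn hD hs y).injOn ⟨h3.le, h4.le⟩ ⟨g1.le, g2.le⟩
      (show Am h k y z = Am h k y hz.choose by rw [h5, g3])

end Pool.Agent.H283R2.BK
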