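import Pool.Agent.H283R2.BK.Defs2

/-!
# TW: the twist property of a strictly convex table (helper143)
-/

open Real Complex Set

namespace Pool.Agent.H283R2.BK

noncomputable section

theorem TW_sin (s : ℝ) : s / √(1 + s ^ 2) = Real.sin (Real.arctan s) := (Real.sin_arctan s).symm

theorem TW_phi : StrictMono (fun s : ℝ => s / √(1 + s ^ 2)) := by
  intro a b hab
  simp only [TW_sin]
  have h1 := Real.arctan_strictMono hab
  exact Real.strictMonoOn_sin ⟨(Real.neg_pi_div_two_lt_arctan a).le, (Real.arctan_lt_pi_div_two a).le⟩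
    ⟨(Real.neg_pi_div_two_lt_arctan b).le, (Real.arctan_lt_pi_div_two b).le⟩ h1

theorem TW_norm (z : ℂ) : ‖z‖ = √(z.re ^ 2 + z.im ^ 2) := by
  rw [Complex.norm_def, Complex.normSq_apply]
  congr 1
  ring

theorem TW_pos {z : ℂ} (h : 0 < z.im) : z.re / ‖z‖ = (z.re / z.im) / √(1 + (z.re / z.im) ^ 2) := by
  rw [TW_norm]
  have e : z.re ^ 2 + z.im ^ 2 = z.im ^ 2 * (1 + (z.re / z.im) ^ 2) := by
    field_simp
    ring
  rw [e, Real.sqrt_mul (by positivity), Real.sqrt_sq h.le]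
  rw [div_div]

theorem TW_neg {z : ℂ} (h : z.im < 0) : z.re / ‖z‖ = -((z.re / z.im) / √(1 + (z.re / z.im) ^ 2)) := by
  have h1 : 0 < (-z).im := by simpa using h
  have h2 := TW_pos h1
  rw [norm_neg, Complex.neg_re, Complex.neg_im, neg_div_neg_eq, neg_div] at h2
  linarith

/-- quotient of the coordinates -/
theorem TW_quot {n n' : ℝ → ℂ} {p q : ℝ} (hd : ∀ c ∈ Ioo p q, HasDerivAt n (n' c) c)
    (hy : ∀ c ∈ Ioo p q, (n c).im ≠ 0)
    (hr : ∀ c ∈ Ioo p q, 0 < ((starRingEnd ℂ) (n c) * n' c).im) :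
    StrictAntiOn (fun c => (n c).re / (n c).im) (Ioo p q) := by
  apply strictAntiOn_of_deriv_neg (convex_Ioo p q)
  · intro c hc
    have h1 := (hd c hc)
    have h2 : HasDerivAt (fun c => (n c).re) (n' c).re c := Complex.reCLM.hasFDerivAt.comp_hasDerivAt c h1
    have h3 : HasDerivAt (fun c => (n c).im) (n' c).im c := Complex.imCLM.hasFDerivAt.comp_hasDerivAt c h1
    exact (h2.div h3 (hy c hc)).continuousAt.continuousWithinAt
  · intro c hc
    rw [interior_Ioo] at hc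
    have h1 := (hd c hc)
    have h2 : HasDerivAt (fun c => (n c).re) (n' c).re c := Complex.reCLM.hasFDerivAt.comp_hasDerivAt c h1
    have h3 : HasDerivAt (fun c => (n c).im) (n' c).im c := Complex.imCLM.hasFDerivAt.comp_hasDerivAt c h1
    rw [(h2.fun_div h3 (hy c hc)).deriv]
    have h4 := hr c hc
    rw [Complex.mul_im, Complex.conj_re, Complex.conj_im] at h4
    apply div_neg_of_neg_of_pos
    · linarith
    · have := hy c hc
      positivity

theorem TW_anti {n n' : ℝ → ℂ} {p q : ℝ} (hd : ∀ c ∈ Ioo p q, HasDerivAt n (n' c) c)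
    (hy : ∀ c ∈ Ioo p q, 0 < (n c).im)
    (hr : ∀ c ∈ Ioo p q, 0 < ((starRingEnd ℂ) (n c) * n' c).im) :
    StrictAntiOn (fun c => (n c).re / ‖n c‖) (Ioo p q) := by
  have h1 := TW_quot hd (fun c hc => (hy c hc).ne') hr
  intro a ha b hb hab
  simp only
  rw [TW_pos (hy a ha), TW_pos (hy b hb)]
  exact TW_phi (h1 ha hb hab)

theorem TW_mono {n n' : ℝ → ℂ} {p q : ℝ} (hd : ∀ c ∈ Ioo p q, HasDerivAt n (n' c) c)
    (hy : ∀ c ∈ Ioo p q, (n c).im < 0)
    (hr : ∀ c ∈ Ioo p q, 0 < ((starRingEnd ℂ) (n c) * n' c).im) :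
    StrictMonoOn (fun c => (n c).re / ‖n c‖) (Ioo p q) := by
  have h1 := TW_quot hd (fun c hc => (hy c hc).ne) hr
  intro a ha b hb hab
  simp only
  rw [TW_neg (hy a ha), TW_neg (hy b hb)]
  exact neg_lt_neg (TW_phi (h1 ha hb hab))

theorem TW_abs {z : ℂ} (h : z.im ≠ 0) : |z.re / ‖z‖| < 1 := by
  have hz : 0 < ‖z‖ := norm_pos_iff.2 (fun h0 => h (by rw [h0]; rfl))
  rw [abs_div, abs_of_pos hz, div_lt_one hz]
  exact Complex.abs_re_lt_norm.2 h

theorem TW_deriv {γ : ℝ → ℂ} {L : ℝ} (h : Table γ L) (c : ℝ) : HasDerivAt γ (deriv γ c) c :=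
  (h.smooth.differentiable (by norm_num) c).hasDerivAt

theorem TW_unit {γ : ℝ → ℂ} {L : ℝ} (h : Table γ L) (b : ℝ) :
    deriv γ b * (starRingEnd ℂ) (deriv γ b) = 1 := by
  rw [Complex.mul_conj, Complex.normSq_eq_norm_sq, h.unit]
  norm_num

theorem TW_nn {γ : ℝ → ℂ} {L : ℝ} (h : Table γ L) (b : ℝ) (z : ℂ) :
    ‖(starRingEnd ℂ) (deriv γ b) * z‖ = ‖z‖ := by
  rw [norm_mul, RCLike.norm_conj, h.unit, one_mul]

theorem TW_flip (z w : ℂ) : ((starRingEnd ℂ) z * w).im = -((starRingEnd ℂ) w * z).im := by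
  rw [Complex.mul_im, Complex.mul_im, Complex.conj_re, Complex.conj_im, Complex.conj_re,
    Complex.conj_im]
  ring

/-- the twist property -/
theorem t_TW : S_TW := by
  intro γ L h b
  have h1 : ∀ c ∈ Ioo b (b + L), 0 < ((starRingEnd ℂ) (deriv γ b) * (γ c - γ b)).im :=
    fun c hc => h.conv b c hc.1 hc.2
  have h2 : ∀ a ∈ Ioo (b - L) b, ((starRingEnd ℂ) (deriv γ b) * (γ b - γ a)).im < 0 := by
    intro a ha
    have h3 := h.conv b (a + L) (by linarith [ha.1]) (by linarith [ha.2])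
    rw [h.per] at h3
    have e : (starRingEnd ℂ) (deriv γ b) * (γ b - γ a) =
        -((starRingEnd ℂ) (deriv γ b) * (γ a - γ b)) := by ring
    rw [e, Complex.neg_im]
    linarith
  have h3 : StrictAntiOn (fun c => ((starRingEnd ℂ) (deriv γ b) * (γ c - γ b)).re /
      ‖(starRingEnd ℂ) (deriv γ b) * (γ c - γ b)‖) (Ioo b (b + L)) := by
    refine TW_anti (n := fun c => (starRingEnd ℂ) (deriv γ b) * (γ c - γ b))
      (n' := fun c => (starRingEnd ℂ) (deriv γ b) * deriv γ c) ?_ h1 ?_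
    · intro c _
      exact ((TW_deriv h c).sub_const (γ b)).const_mul _
    · intro c hc
      have h4 := h.conv c (b + L) hc.2 (by linarith [hc.1])
      rw [h.per] at h4
      have e : (starRingEnd ℂ) ((starRingEnd ℂ) (deriv γ b) * (γ c - γ b)) *
          ((starRingEnd ℂ) (deriv γ b) * deriv γ c) = (starRingEnd ℂ) (γ c - γ b) * deriv γ c := by
        rw [map_mul, Complex.conj_conj]
        linear_combination ((starRingEnd ℂ) (γ c - γ b) * deriv γ c) * TW_unit h b
      show 0 < ((starRingEnd ℂ) ((starRingEnd ℂ) (deriv γ b) * (γ c - γ b)) *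
          ((starRingEnd ℂ) (deriv γ b) * deriv γ c)).im
      rw [e, TW_flip]
      have e2 : (starRingEnd ℂ) (deriv γ c) * (γ c - γ b) =
          -((starRingEnd ℂ) (deriv γ c) * (γ b - γ c)) := by ring
      rw [e2, Complex.neg_im, neg_neg]
      exact h4
  have h4 : StrictMonoOn (fun a => ((starRingEnd ℂ) (deriv γ b) * (γ b - γ a)).re /
      ‖(starRingEnd ℂ) (deriv γ b) * (γ b - γ a)‖) (Ioo (b - L) b) := by
    refine TW_mono (n := fun a => (starRingEnd ℂ) (deriv γ b) * (γ b - γ a))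
      (n' := fun a => (starRingEnd ℂ) (deriv γ b) * -(deriv γ a)) ?_ h2 ?_
    · intro a _
      exact ((TW_deriv h a).const_sub (γ b)).const_mul _
    · intro a ha
      have h4 := h.conv a b ha.2 (by linarith [ha.1])
      have e : (starRingEnd ℂ) ((starRingEnd ℂ) (deriv γ b) * (γ b - γ a)) *
          ((starRingEnd ℂ) (deriv γ b) * -(deriv γ a)) =
          -((starRingEnd ℂ) (γ b - γ a) * deriv γ a) := by
        rw [map_mul, Complex.conj_conj]
        linear_combination (-((starRingEnd ℂ) (γ b - γ a) * deriv γ a)) * TW_unit h b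
      show 0 < ((starRingEnd ℂ) ((starRingEnd ℂ) (deriv γ b) * (γ b - γ a)) *
          ((starRingEnd ℂ) (deriv γ b) * -(deriv γ a))).im
      rw [e, Complex.neg_im, TW_flip, neg_neg]
      exact h4
  simp only [TW_nn h b] at h3 h4
  refine ⟨h4, h3, ?_, ?_⟩
  · intro a ha
    have h5 := TW_abs (h2 a ha).ne
    rw [TW_nn h b] at h5
    exact abs_lt.1 h5
  · intro c hc
    have h5 := TW_abs (h1 c hc).ne'
    rw [TW_nn h b] at h5
    exact abs_lt.1 h5

end

end Pool.Agent.H283R2.BK
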