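import Pool.Agent.H283R2.BK.Defs

/-!
# Task V3: positivity of the value at the vertex `p = e_3`
-/

open Real Complex Set MeasureTheory

namespace Pool.Agent.H283R2.BK

noncomputable section

/-- the algebraic part: completion of the square. -/
theorem V3_alg (S1 S2 S3 a1 a2 a3 e z1 z2 z3 : ℝ) (hS3 : 0 < S3)
    (h1 : 0 < a1) (h2 : 0 < a2) (h3 : 0 < a3)
    (hEL : a1 * S1 ^ 2 + a2 * S2 ^ 2 + a3 * S3 ^ 2 = 2 + 2 * e)
    (hH : 4 * (S1 * S2 * S3) ^ 2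
      = 4 * (S1 * S2) ^ 2 - (S1 ^ 2 + S2 ^ 2 - S3 ^ 2) ^ 2)
    (hY : 0 < a3 ^ 2 * (a1 + a2) ^ 2 * (S1 * S2 * S3) ^ 2
      + 2 * e * a3 ^ 2 * (a1 + a2) * S3 ^ 2
      + e * a3 * (a1 + a2) * (S3 ^ 2 * (a1 + a2) + (a1 - a2) * (S1 ^ 2 - S2 ^ 2))
      - e ^ 2 * (a1 - a2) ^ 2)
    (hz : z1 + z2 + z3 = 0) (hne : z1 ≠ 0 ∨ z2 ≠ 0) :
    0 < 2 * e * ((z1 - z2) * (a1 * z1 - a2 * z2) + a3 * z3 ^ 2)
      + a3 * (2 * z3 ^ 2
        - (a1 + a2) * (-(S1 ^ 2 * (z2 * z3) + S2 ^ 2 * (z1 * z3) + S3 ^ 2 * (z1 * z2)))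
        + 2 / (a1 * a2 + a2 * a3 + a1 * a3) * (a1 * z1 - a2 * z2) ^ 2) := by
  obtain rfl : z3 = -(z1 + z2) := by linarith
  have hs2 : 0 < a1 * a2 + a2 * a3 + a1 * a3 := by positivity
  have hs : 0 < a1 + a2 := by positivity
  set V := 2 * e * ((z1 - z2) * (a1 * z1 - a2 * z2) + a3 * (-(z1 + z2)) ^ 2)
      + a3 * (2 * (-(z1 + z2)) ^ 2
        - (a1 + a2) * (-(S1 ^ 2 * (z2 * (-(z1 + z2))) + S2 ^ 2 * (z1 * (-(z1 + z2)))
          + S3 ^ 2 * (z1 * z2)))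
        + 2 / (a1 * a2 + a2 * a3 + a1 * a3) * (a1 * z1 - a2 * z2) ^ 2) with hVdef
  have hV : (a1 * a2 + a2 * a3 + a1 * a3) * V
      = (a1 * a2 + a2 * a3 + a1 * a3)
        * (2 * e * ((z1 - z2) * (a1 * z1 - a2 * z2) + a3 * (-(z1 + z2)) ^ 2)
        + a3 * (2 * (-(z1 + z2)) ^ 2
        - (a1 + a2) * (-(S1 ^ 2 * (z2 * (-(z1 + z2))) + S2 ^ 2 * (z1 * (-(z1 + z2)))
          + S3 ^ 2 * (z1 * z2)))))
        + a3 * 2 * (a1 * z1 - a2 * z2) ^ 2 := by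
    rw [hVdef]
    field_simp
    ring
  have key : 4 * (a3 * S3 ^ 2) * ((a1 + a2) * ((a1 * a2 + a2 * a3 + a1 * a3) * V))
      = (2 * (a3 * S3 ^ 2) * (a1 * a2 + a2 * a3 + a1 * a3) * (-(z1 + z2))
          + (2 * e * (a1 - a2) - a3 * ((S1 ^ 2 - S2 ^ 2) * (a1 + a2) + S3 ^ 2 * (a1 - a2)))
            * (a1 * z1 - a2 * z2)) ^ 2
        + 4 * (a3 ^ 2 * (a1 + a2) ^ 2 * (S1 * S2 * S3) ^ 2
          + 2 * e * a3 ^ 2 * (a1 + a2) * S3 ^ 2
          + e * a3 * (a1 + a2) * (S3 ^ 2 * (a1 + a2) + (a1 - a2) * (S1 ^ 2 - S2 ^ 2))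
          - e ^ 2 * (a1 - a2) ^ 2) * (a1 * z1 - a2 * z2) ^ 2 := by
    rw [hV]
    linear_combination (4 * (a3 * S3 ^ 2) * (-a3 * (z1 + z2) ^ 2 * (a1 + a2)
        * (a1 * a2 + a2 * a3 + a1 * a3))
        - 4 * a3 ^ 2 * S3 ^ 2 * (a1 + a2) * (a1 * z1 - a2 * z2) ^ 2) * hEL
      - a3 ^ 2 * (a1 + a2) ^ 2 * (a1 * z1 - a2 * z2) ^ 2 * hH
  have hpos : 0 < 4 * (a3 * S3 ^ 2) * ((a1 + a2) * ((a1 * a2 + a2 * a3 + a1 * a3) * V)) := by
    rw [key]
    by_cases hw : a1 * z1 - a2 * z2 = 0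
    · rw [hw]
      have hu : z1 + z2 ≠ 0 := by
        intro hu
        have hz1 : z1 = 0 := by
          have : (a1 + a2) * z1 = 0 := by linear_combination hw + a2 * hu
          rcases mul_eq_zero.1 this with h | h
          · exact absurd h hs.ne'
          · exact h
        have hz2 : z2 = 0 := by linarith
        rcases hne with h | h
        · exact h hz1
        · exact h hz2
      have : 2 * (a3 * S3 ^ 2) * (a1 * a2 + a2 * a3 + a1 * a3) * (-(z1 + z2)) ≠ 0 := by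
        apply mul_ne_zero
        · positivity
        · exact neg_ne_zero.2 hu
      have := sq_pos_of_ne_zero this
      simpa using this
    · exact add_pos_of_nonneg_of_pos (sq_nonneg _)
        (mul_pos (mul_pos four_pos hY) (sq_pos_of_ne_zero hw))
  have hc : 0 < 4 * (a3 * S3 ^ 2) := by positivity
  have h5 := (mul_pos_iff_of_pos_left hc).1 hpos
  have h6 := (mul_pos_iff_of_pos_left hs).1 h5
  exact (mul_pos_iff_of_pos_left hs2).1 h6

theorem t_V3 (hC3 : S_C3) (hEL : S_EL) : S_V3 := by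
  intro A1 A2 A3 z1 z2 z3 hA1 hA2 hA3 hA hz hne
  have hpi := Real.pi_pos
  have hA1' : A1 < π := by linarith
  have hA2' : A2 < π := by linarith
  have hA3' : A3 < π := by linarith
  have hS1 : 0 < Real.sin A1 := Real.sin_pos_of_pos_of_lt_pi hA1 hA1'
  have hS2 : 0 < Real.sin A2 := Real.sin_pos_of_pos_of_lt_pi hA2 hA2'
  have hS3 : 0 < Real.sin A3 := Real.sin_pos_of_pos_of_lt_pi hA3 hA3'
  have hl1 := (hEL.1 A1 hA1 hA1').1
  have hl2 := (hEL.1 A2 hA2 hA2').1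
  have hl3 := (hEL.1 A3 hA3 hA3').1
  have hsum := hEL.2 A1 A2 A3 hA
  have hc3 := hC3 A1 A2 A3 hA1 hA2 hA3 hA
  have e3 : Real.sin A3 = Real.sin A1 * Real.cos A2 + Real.cos A1 * Real.sin A2 := by
    have : A3 = π - (A1 + A2) := by linarith
    rw [this, Real.sin_pi_sub, Real.sin_add]
  have p1 := Real.sin_sq_add_cos_sq A1
  have p2 := Real.sin_sq_add_cos_sq A2
  rw [Real.sin_two_mul, Real.sin_two_mul] at hc3
  have ha1 : el A1 = aa A1 * Real.sin A1 ^ 2 := by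
    unfold aa; field_simp
  have ha2 : el A2 = aa A2 * Real.sin A2 ^ 2 := by
    unfold aa; field_simp
  have ha3 : el A3 = aa A3 * Real.sin A3 ^ 2 := by
    unfold aa; field_simp
  have hp1 : 0 < aa A1 := by unfold aa; positivity
  have hp2 : 0 < aa A2 := by unfold aa; positivity
  have hp3 : 0 < aa A3 := by unfold aa; positivity
  rw [ha1, ha2, ha3] at hc3 hsum
  have hx1 : 2 * Real.sin A1 * Real.sin A3 * Real.cos A2
      = Real.sin A3 ^ 2 + Real.sin A1 ^ 2 - Real.sin A2 ^ 2 := by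
    rw [e3]
    linear_combination Real.sin A1 ^ 2 * p2 - Real.sin A2 ^ 2 * p1
  have hx2 : 2 * Real.sin A2 * Real.sin A3 * Real.cos A1
      = Real.sin A3 ^ 2 + Real.sin A2 ^ 2 - Real.sin A1 ^ 2 := by
    rw [e3]
    linear_combination Real.sin A2 ^ 2 * p1 - Real.sin A1 ^ 2 * p2
  have hH : 4 * (Real.sin A1 * Real.sin A2 * Real.sin A3) ^ 2
      = 4 * (Real.sin A1 * Real.sin A2) ^ 2
        - (Real.sin A1 ^ 2 + Real.sin A2 ^ 2 - Real.sin A3 ^ 2) ^ 2 := by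
    have hq : Real.sin A1 ^ 2 + Real.sin A2 ^ 2 - Real.sin A3 ^ 2
        = 2 * Real.sin A1 * Real.sin A2
          * (Real.sin A1 * Real.sin A2 - Real.cos A1 * Real.cos A2) := by
      rw [e3]
      linear_combination -(Real.sin A1 ^ 2) * p2 - Real.sin A2 ^ 2 * p1
    have h1c : Real.sin A3 ^ 2
        + (Real.sin A1 * Real.sin A2 - Real.cos A1 * Real.cos A2) ^ 2 = 1 := by
      rw [e3]
      linear_combination (Real.sin A2 ^ 2 + Real.cos A2 ^ 2) * p1 + p2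
    rw [hq]
    linear_combination (4 * Real.sin A1 ^ 2 * Real.sin A2 ^ 2) * h1c
  have hmain := V3_alg (Real.sin A1) (Real.sin A2) (Real.sin A3) (aa A1) (aa A2) (aa A3)
    (Real.sin A1 * Real.sin A2 * Real.sin A3 / π) z1 z2 z3 hS3 hp1 hp2 hp3
    (by rw [hsum]; ring) hH ?_ hz hne
  · unfold V3 Nz
    have e1 : 2 * (Real.sin A1 * Real.sin A2 * Real.sin A3) / π
        = 2 * (Real.sin A1 * Real.sin A2 * Real.sin A3 / π) := by ring
    rw [e1]
    exact hmain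
  · have hP : 0 < π ^ 2 * (Real.sin A1 * Real.sin A2 * Real.sin A3) ^ 2 := by positivity
    refine (mul_pos_iff_of_pos_left hP).1 ?_
    have hid : π ^ 2 * (Real.sin A1 * Real.sin A2 * Real.sin A3) ^ 2
        * (aa A3 ^ 2 * (aa A1 + aa A2) ^ 2 * (Real.sin A1 * Real.sin A2 * Real.sin A3) ^ 2
          + 2 * (Real.sin A1 * Real.sin A2 * Real.sin A3 / π) * aa A3 ^ 2 * (aa A1 + aa A2)
            * Real.sin A3 ^ 2
          + (Real.sin A1 * Real.sin A2 * Real.sin A3 / π) * aa A3 * (aa A1 + aa A2)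
            * (Real.sin A3 ^ 2 * (aa A1 + aa A2)
              + (aa A1 - aa A2) * (Real.sin A1 ^ 2 - Real.sin A2 ^ 2))
          - (Real.sin A1 * Real.sin A2 * Real.sin A3 / π) ^ 2 * (aa A1 - aa A2) ^ 2)
        = (Real.sin A1 * Real.sin A2 * Real.sin A3) ^ 2
        * (π ^ 2 * aa A3 ^ 2 * (aa A1 + aa A2) ^ 2
            * (Real.sin A1 * Real.sin A2 * Real.sin A3) ^ 2
          + 2 * π * (Real.sin A1 * Real.sin A2 * Real.sin A3) * aa A3 ^ 2 * (aa A1 + aa A2)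
            * Real.sin A3 ^ 2
          + π * (Real.sin A1 * Real.sin A2 * Real.sin A3) * aa A3 * (aa A1 + aa A2)
            * (Real.sin A3 ^ 2 * (aa A1 + aa A2)
              + (aa A1 - aa A2) * (Real.sin A1 ^ 2 - Real.sin A2 ^ 2))
          - (Real.sin A1 * Real.sin A2 * Real.sin A3) ^ 2 * (aa A1 - aa A2) ^ 2) := by
      field_simp
    rw [hid]
    have h0 := sub_pos.2 hc3
    refine lt_of_lt_of_eq h0 ?_
    generalize aa A1 = a1 at *
    generalize aa A2 = a2 at *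
    generalize aa A3 = a3 at *
    clear hid hH hc3 h0 ha1 ha2 ha3 hsum hC3 hEL hp1 hp2 hp3 hP
    generalize Real.sin A1 = S1 at *
    generalize Real.sin A2 = S2 at *
    generalize Real.sin A3 = S3 at *
    generalize Real.cos A1 = C1 at *
    generalize Real.cos A2 = C2 at *
    linear_combination (π * (a3 * S3 ^ 2) * (a1 * S1 ^ 2 * S2 ^ 2 + a2 * S2 ^ 2 * S1 ^ 2)
        * a1 * (S1 * S2 * S3)) * hx1
      + (π * (a3 * S3 ^ 2) * (a1 * S1 ^ 2 * S2 ^ 2 + a2 * S2 ^ 2 * S1 ^ 2)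
        * a2 * (S1 * S2 * S3)) * hx2

end

end Pool.Agent.H283R2.BK
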