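import Pool.Agent.H283R2.BK.Defs

set_option autoImplicit false

open Real Complex Set MeasureTheory

namespace Pool.Agent.H283R2.BK

noncomputable section

theorem WAN_S12_pos {h k ρ : ℝ → ℝ} (hS : Sup h k ρ) {x y : ℝ} (h1 : x < y)
    (h2 : y < x + 2 * π) : 0 < S12 ρ x y := by
  unfold S12
  have h3 : 0 < Real.sin ((y - x) / 2) :=
    Real.sin_pos_of_pos_of_lt_pi (by linarith) (by linarith)
  have h4 := hS.pos ((x + y) / 2)
  positivity

theorem WAN_T {h k : ℝ → ℝ} {T2 : ℝ → ℝ → ℝ} (hT : IsT h k T2) {g : ℝ → ℝ}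
    (hg : Circ h k g) (x : ℝ) : T2 x (g x) = g (g x) :=
  (hT.2 x (g x) (g (g x)) (hg.lo x) (hg.hi x) (hg.lo _) (hg.hi _) (hg.st x).symm).symm

theorem WAN_surj {h k g : ℝ → ℝ} (hg : Circ h k g) (y : ℝ) : ∃ x, g x = y := by
  have h1 := hg.lo y
  have h2 := hg.hi (y - 2 * π)
  have h3 : y - 2 * π ≤ y := by linarith [Real.pi_pos]
  obtain ⟨x, -, hx⟩ := intermediate_value_Icc h3 hg.cont.continuousOn
    (show y ∈ Icc (g (y - 2 * π)) (g y) from ⟨by linarith, h1.le⟩)
  exact ⟨x, hx⟩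

theorem WAN_anti (DER : S_DER) {h k ρ : ℝ → ℝ} (hS : Sup h k ρ) {T2 : ℝ → ℝ → ℝ}
    (hT : IsT h k T2) {x x' y : ℝ} (h1 : x < x') (h2 : x' < y) (h3 : y < x + 2 * π) :
    T2 x' y < T2 x y := by
  obtain ⟨a1, a2, a3⟩ := hT.1 x y (h1.trans h2) h3
  obtain ⟨b1, b2, b3⟩ := hT.1 x' y h2 (by linarith)
  have hB : StrictMonoOn (fun t => Bm h k t y) (Ioo (y - 2 * π) y) := by
    apply strictMonoOn_of_deriv_pos (convex_Ioo _ _)
    · exact fun t _ => (DER h k ρ hS t y).2.2.2.2.1.continuousAt.continuousWithinAt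
    · intro t ht
      rw [interior_Ioo] at ht
      rw [(DER h k ρ hS t y).2.2.2.2.1.deriv]
      exact WAN_S12_pos hS ht.2 (by linarith [ht.1])
  have hA : StrictAntiOn (fun t => Am h k y t) (Ioo y (y + 2 * π)) := by
    apply strictAntiOn_of_deriv_neg (convex_Ioo _ _)
    · exact fun t _ => (DER h k ρ hS y t).2.2.2.1.continuousAt.continuousWithinAt
    · intro t ht
      rw [interior_Ioo] at ht
      rw [(DER h k ρ hS y t).2.2.2.1.deriv]
      have := WAN_S12_pos hS ht.1 ht.2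
      linarith
  have h4 : Bm h k x y < Bm h k x' y :=
    hB ⟨by linarith, by linarith⟩ ⟨by linarith, h2⟩ h1
  rw [← a3, ← b3] at h4
  by_contra hc
  have h5 := hA.antitoneOn ⟨a1, a2⟩ ⟨b1, b2⟩ (not_lt.1 hc)
  linarith

theorem WAN_strip (DER : S_DER) {h k ρ : ℝ → ℝ} (hS : Sup h k ρ) {T2 : ℝ → ℝ → ℝ}
    (hT : IsT h k T2) {g1 g2 : ℝ → ℝ} (hg1 : Circ h k g1) (hg2 : Circ h k g2) {x y : ℝ}
    (h1 : g1 x < y) (h2 : y < g2 x) : g1 y < T2 x y ∧ T2 x y < g2 y := by
  obtain ⟨x1, e1⟩ := WAN_surj hg1 y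
  obtain ⟨x2, e2⟩ := WAN_surj hg2 y
  have hxy : x < y := (hg1.lo x).trans h1
  have hyx : y < x + 2 * π := h2.trans (hg2.hi x)
  have l1 : x < x1 := hg1.mono.lt_iff_lt.1 (by rw [e1]; exact h1)
  have l2 : x2 < x := hg2.mono.lt_iff_lt.1 (by rw [e2]; exact h2)
  have t1 := WAN_T hT hg1 x1
  have t2 := WAN_T hT hg2 x2
  rw [e1] at t1
  rw [e2] at t2
  constructor
  · rw [← t1]
    exact WAN_anti DER hS hT l1 (by rw [← e1]; exact hg1.lo x1) hyx
  · rw [← t2]
    exact WAN_anti DER hS hT l2 hxy (by rw [← e2]; exact hg2.hi x2)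

theorem WAN_E {h k : ℝ → ℝ} {T2 : ℝ → ℝ → ℝ} (hT : IsT h k T2) {g1 g2 : ℝ → ℝ}
    (hg1 : Circ h k g1) (hg2 : Circ h k g2) {x : ℝ} (h1 : g1 x = g2 x) :
    g1 (g1 x) = g2 (g1 x) := by
  have t1 := WAN_T hT hg1 x
  have t2 := WAN_T hT hg2 x
  rw [← h1] at t2
  rw [← t1, ← t2]

theorem WAN_Ec (DER : S_DER) {h k ρ : ℝ → ℝ} (hS : Sup h k ρ) {T2 : ℝ → ℝ → ℝ}
    (hT : IsT h k T2) {g1 g2 : ℝ → ℝ} (hg1 : Circ h k g1) (hg2 : Circ h k g2) {x : ℝ}
    (h1 : g1 x < g2 x) : g1 (g1 x) < g2 (g1 x) := by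
  obtain ⟨x2, e2⟩ := WAN_surj hg2 (g1 x)
  have l2 : x2 < x := hg2.mono.lt_iff_lt.1 (by rw [e2]; exact h1)
  have t1 := WAN_T hT hg1 x
  have t2 := WAN_T hT hg2 x2
  rw [e2] at t2
  rw [← t1, ← t2]
  exact WAN_anti DER hS hT l2 (hg1.lo x) (by rw [← e2]; exact hg2.hi x2)

theorem WAN_int {g2 : ℝ → ℝ} (hc : Continuous g2) (hlo : ∀ x, x < g2 x)
    (hhi : ∀ x, g2 x < x + 2 * π) (H : ℝ → ℝ → ℝ) (Hm : ℝ × ℝ → ℝ) (hm : Measurable Hm)
    (he : ∀ x y, x < y → y ≤ g2 x → Hm (x, y) = H x y) (C : ℝ)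
    (hC : ∀ x y, x < y → y ≤ g2 x → |H x y| ≤ C) :
    (∀ x, IntervalIntegrable (H x) volume x (g2 x)) ∧
    IntervalIntegrable (fun x => ∫ y in x..(g2 x), H x y) volume 0 (2 * π) := by
  constructor
  · intro x
    rw [intervalIntegrable_iff_integrableOn_Ioc_of_le (hlo x).le]
    have h1 : IntegrableOn (fun y => Hm (x, y)) (Ioc x (g2 x)) := by
      apply Measure.integrableOn_of_bounded (M := C) (by simp)
      · exact (hm.comp measurable_prodMk_left).aestronglyMeasurable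
      · filter_upwards [ae_restrict_mem measurableSet_Ioc] with y hy
        rw [he x y hy.1 hy.2]
        exact hC x y hy.1 hy.2
    exact h1.congr_fun (fun y hy => he x y hy.1 hy.2) measurableSet_Ioc
  · have hC0 : 0 ≤ C := (abs_nonneg _).trans (hC 0 (g2 0) (hlo 0) le_rfl)
    set W : Set (ℝ × ℝ) := {z | z.1 < z.2 ∧ z.2 ≤ g2 z.1} with hWdef
    have hW : MeasurableSet W := (measurableSet_lt measurable_fst measurable_snd).inter
      (measurableSet_le measurable_snd (hc.measurable.comp measurable_fst))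
    have hK : StronglyMeasurable (W.indicator Hm) := (hm.indicator hW).stronglyMeasurable
    have hF := hK.integral_prod_right' (ν := (volume : Measure ℝ))
    have heq : (fun x => ∫ y in x..(g2 x), H x y) = fun x => ∫ y, W.indicator Hm (x, y) := by
      funext x
      rw [intervalIntegral.integral_of_le (hlo x).le, ← integral_indicator measurableSet_Ioc]
      refine integral_congr_ae (Filter.Eventually.of_forall fun y => ?_)
      by_cases hy : y ∈ Ioc x (g2 x)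
      · simp only
        rw [indicator_of_mem hy, indicator_of_mem (show (x, y) ∈ W from hy), he x y hy.1 hy.2]
      · simp only
        rw [indicator_of_notMem hy, indicator_of_notMem (show (x, y) ∉ W from hy)]
    rw [intervalIntegrable_iff_integrableOn_Ioc_of_le (by positivity)]
    apply Measure.integrableOn_of_bounded (M := C * (2 * π)) measure_Ioc_lt_top.ne
    · rw [heq]
      exact hF.aestronglyMeasurable
    · refine Filter.Eventually.of_forall fun x => ?_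
      have h1 := intervalIntegral.norm_integral_le_of_norm_le_const (a := x) (b := g2 x) (C := C)
        (f := H x) (by
          intro y hy
          rw [uIoc_of_le (hlo x).le] at hy
          exact hC x y hy.1 hy.2)
      refine h1.trans ?_
      rw [abs_of_pos (by linarith [hlo x])]
      have h2 := hhi x
      exact mul_le_mul_of_nonneg_left (by linarith) hC0

theorem WAN_bound {h k ρ : ℝ → ℝ} (hS : Sup h k ρ) : ∃ C, 0 ≤ C ∧ ∀ x y, |S12 ρ x y| ≤ C := by
  obtain ⟨C, hC⟩ := isCompact_Icc.exists_bound_of_continuousOn (s := Icc 0 (2 * π))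
    hS.cr.continuousOn
  have hb : ∀ x, |ρ x| ≤ C := by
    intro x
    have hp : Function.Periodic ρ (2 * π) := hS.pr
    obtain ⟨y, hy, hxy⟩ := hp.exists_mem_Ico₀ Real.two_pi_pos x
    rw [hxy]
    exact hC y ⟨hy.1, hy.2.le⟩
  have hC0 : 0 ≤ C := (abs_nonneg _).trans (hb 0)
  refine ⟨C, hC0, fun x y => ?_⟩
  unfold S12
  rw [abs_mul, abs_div, abs_two]
  have h1 := hb ((x + y) / 2)
  have h2 := Real.abs_sin_le_one ((y - x) / 2)
  have h3 := abs_nonneg (ρ ((x + y) / 2))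
  have h4 := abs_nonneg (Real.sin ((y - x) / 2))
  nlinarith

theorem WAN_area (INV : S_INV) {h k ρ : ℝ → ℝ} (hS : Sup h k ρ) {T2 : ℝ → ℝ → ℝ}
    (hT : IsT h k T2) {g1 g2 : ℝ → ℝ} (hg1 : Circ h k g1) (hg2 : Circ h k g2)
    (strip : ∀ x y, g1 x < y → y < g2 x → g1 y < T2 x y ∧ T2 x y < g2 y)
    (A A0 : Set ℝ) (hA : MeasurableSet A) (hA0 : IsOpen A0) (x0 : ℝ) (hx0 : x0 ∈ A0)
    (perA : ∀ x, x + 2 * π ∈ A ↔ x ∈ A) (perA0 : ∀ x, x + 2 * π ∈ A0 ↔ x ∈ A0)
    (lt0 : ∀ x ∈ A0, g1 x < g2 x) (dis : ∀ x ∈ A0, x ∉ A)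
    (map : ∀ x, (x ∈ A ∨ x ∈ A0) → ∀ y, g1 x < y → y < g2 x → y ∈ A) : False := by
  classical
  obtain ⟨hcT, -, hI⟩ := INV h k ρ g2 T2 hS hg2 hT
  obtain ⟨C, hC0, hC⟩ := WAN_bound hS
  have g1m : Measurable g1 := hg1.cont.measurable
  have g2m : Measurable g2 := hg2.cont.measurable
  set P : Set (ℝ × ℝ) := {z | z.1 ∈ A ∧ g1 z.1 < z.2 ∧ z.2 < g2 z.1} with hP
  have hPm : MeasurableSet P := (measurable_fst hA).inter
    ((measurableSet_lt (g1m.comp measurable_fst) measurable_snd).inter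
      (measurableSet_lt measurable_snd (g2m.comp measurable_fst)))
  set Φ : ℝ → ℝ → ℝ := fun x y => if (x, y) ∈ P then 1 else 0 with hΦ
  have hΦm : Measurable (Function.uncurry Φ) := by
    have : Function.uncurry Φ = fun z : ℝ × ℝ => if z ∈ P then (1 : ℝ) else 0 := by
      funext z
      rfl
    rw [this]
    exact Measurable.ite hPm measurable_const measurable_const
  have hΦ0 : ∀ x y, 0 ≤ Φ x y := by
    intro x y
    simp only [hΦ]
    split_ifs <;> norm_num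
  have hΦ1 : ∀ x y, Φ x y ≤ 1 := by
    intro x y
    simp only [hΦ]
    split_ifs <;> norm_num
  have hper : ∀ x y, Φ (x + 2 * π) (y + 2 * π) = Φ x y := by
    intro x y
    have : ((x + 2 * π, y + 2 * π) ∈ P) ↔ ((x, y) ∈ P) := by
      simp only [hP, mem_ofPred_eq, hg1.per, hg2.per, perA, add_lt_add_iff_right]
    simp only [hΦ, this]
  have hI' := hI Φ hΦm ⟨1, fun x y => by rw [abs_of_nonneg (hΦ0 x y)]; exact hΦ1 x y⟩ hper
  -- measurable versions
  set Dm : Set (ℝ × ℝ) := {z | z.1 < z.2 ∧ z.2 < z.1 + 2 * π} with hDm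
  have hDmm : MeasurableSet Dm := (measurableSet_lt measurable_fst measurable_snd).inter
      (measurableSet_lt measurable_snd (measurable_fst.add_const _))
  set M : ℝ × ℝ → ℝ := Dm.piecewise (Function.uncurry T2) (fun _ => 0) with hM
  have hMm : Measurable M := hcT.measurable_piecewise continuousOn_const hDmm
  have hSm : Measurable (fun z : ℝ × ℝ => S12 ρ z.1 z.2) := by
    unfold S12
    have := hS.cr
    exact Continuous.measurable (by fun_prop)
  have H1 := WAN_int hg2.cont hg2.lo hg2.hi (fun x y => Φ y (T2 x y) * S12 ρ x y)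
    (fun z => Function.uncurry Φ (z.2, M z) * S12 ρ z.1 z.2)
    ((hΦm.comp (measurable_snd.prodMk hMm)).mul hSm) (by
      intro x y h1 h2
      have : (x, y) ∈ Dm := ⟨h1, h2.trans_lt (hg2.hi x)⟩
      simp only [hM]
      rw [piecewise_eq_of_mem _ _ _ this]
      rfl) C (by
      intro x y h1 h2
      rw [abs_mul, abs_of_nonneg (hΦ0 _ _)]
      have := hΦ1 y (T2 x y)
      have h3 := hC x y
      have h4 := abs_nonneg (S12 ρ x y)
      have h5 := hΦ0 y (T2 x y)
      nlinarith)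
  have H2 := WAN_int hg2.cont hg2.lo hg2.hi (fun x y => Φ x y * S12 ρ x y)
    (fun z => Function.uncurry Φ z * S12 ρ z.1 z.2) (hΦm.mul hSm) (by
      intro x y h1 h2
      rfl) C (by
      intro x y h1 h2
      rw [abs_mul, abs_of_nonneg (hΦ0 _ _)]
      have := hΦ1 x y
      have h3 := hC x y
      have h4 := abs_nonneg (S12 ρ x y)
      have h5 := hΦ0 x y
      nlinarith)
  have hle : ∀ x y, x < y → y ≤ g2 x → 0 ≤ Φ y (T2 x y) * S12 ρ x y - Φ x y * S12 ρ x y := by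
    intro x y h1 h2
    have hpos := WAN_S12_pos hS h1 (h2.trans_lt (hg2.hi x))
    by_cases hz : (x, y) ∈ P
    · obtain ⟨a1, a2, a3⟩ := hz
      have b1 := strip x y a2 a3
      have hz' : (y, T2 x y) ∈ P := ⟨map x (Or.inl a1) y a2 a3, b1.1, b1.2⟩
      have e1 : Φ x y = 1 := if_pos ⟨a1, a2, a3⟩
      have e2 : Φ y (T2 x y) = 1 := if_pos hz'
      rw [e1, e2]
      linarith
    · have e1 : Φ x y = 0 := if_neg hz
      rw [e1]
      have := mul_nonneg (hΦ0 y (T2 x y)) hpos.le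
      linarith
  have hsub : ∀ x, (∫ y in x..(g2 x), Φ y (T2 x y) * S12 ρ x y)
      - (∫ y in x..(g2 x), Φ x y * S12 ρ x y)
      = ∫ y in x..(g2 x), (Φ y (T2 x y) * S12 ρ x y - Φ x y * S12 ρ x y) := fun x =>
    (intervalIntegral.integral_sub (H1.1 x) (H2.1 x)).symm
  have hzero : ∫ x in (0 : ℝ)..(2 * π), ((∫ y in x..(g2 x), Φ y (T2 x y) * S12 ρ x y)
      - (∫ y in x..(g2 x), Φ x y * S12 ρ x y)) = 0 := by
    rw [intervalIntegral.integral_sub H1.2 H2.2, hI', sub_self]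
  have hnn : ∀ x, 0 ≤ (∫ y in x..(g2 x), Φ y (T2 x y) * S12 ρ x y)
      - (∫ y in x..(g2 x), Φ x y * S12 ρ x y) := by
    intro x
    rw [hsub x, intervalIntegral.integral_of_le (hg2.lo x).le]
    exact setIntegral_nonneg measurableSet_Ioc fun y hy => hle x y hy.1 hy.2
  have hae := (intervalIntegral.integral_eq_zero_iff_of_le_of_nonneg_ae (by positivity)
    (Filter.Eventually.of_forall hnn) (H1.2.sub H2.2)).1 hzero
  rw [Filter.EventuallyEq, ae_restrict_iff' measurableSet_Ioc] at hae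
  have hpos : ∀ x ∈ A0, 0 < (∫ y in x..(g2 x), Φ y (T2 x y) * S12 ρ x y)
      - (∫ y in x..(g2 x), Φ x y * S12 ρ x y) := by
    intro x hx
    rw [hsub x]
    have hI3 := (H1.1 x).sub (H2.1 x)
    have hlt := lt0 x hx
    have hlo1 := hg1.lo x
    have s1 : IntervalIntegrable (fun y => Φ y (T2 x y) * S12 ρ x y - Φ x y * S12 ρ x y)
        volume x (g1 x) := hI3.mono_set (by
      rw [uIcc_of_le hlo1.le, uIcc_of_le (hg2.lo x).le]
      exact Icc_subset_Icc le_rfl hlt.le)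
    have s2 : IntervalIntegrable (fun y => Φ y (T2 x y) * S12 ρ x y - Φ x y * S12 ρ x y)
        volume (g1 x) (g2 x) := hI3.mono_set (by
      rw [uIcc_of_le hlt.le, uIcc_of_le (hg2.lo x).le]
      exact Icc_subset_Icc hlo1.le le_rfl)
    rw [← intervalIntegral.integral_add_adjacent_intervals s1 s2]
    have t1 : 0 ≤ ∫ y in x..(g1 x), (Φ y (T2 x y) * S12 ρ x y - Φ x y * S12 ρ x y) := by
      rw [intervalIntegral.integral_of_le hlo1.le]
      exact setIntegral_nonneg measurableSet_Ioc fun y hy => hle x y hy.1 (hy.2.trans hlt.le)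
    have t2 : 0 < ∫ y in (g1 x)..(g2 x), (Φ y (T2 x y) * S12 ρ x y - Φ x y * S12 ρ x y) := by
      apply intervalIntegral.intervalIntegral_pos_of_pos_on s2 _ hlt
      intro y hy
      have b1 := strip x y hy.1 hy.2
      have hz' : (y, T2 x y) ∈ P := ⟨map x (Or.inr hx) y hy.1 hy.2, b1.1, b1.2⟩
      have hz : (x, y) ∉ P := fun hz => dis x hx hz.1
      have e1 : Φ x y = 0 := if_neg hz
      have e2 : Φ y (T2 x y) = 1 := if_pos hz'
      rw [e1, e2]
      have hpos := WAN_S12_pos hS (hlo1.trans hy.1) (hy.2.trans (hg2.hi x))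
      linarith
    linarith
  have hper0 : Function.Periodic (fun x => x ∈ A0) (2 * π) := fun x => propext (perA0 x)
  obtain ⟨y0, hy0, hxy0⟩ := hper0.exists_mem_Ico₀ Real.two_pi_pos x0
  have hy0A : y0 ∈ A0 := by
    have : (x0 ∈ A0) = (y0 ∈ A0) := hxy0
    rw [← this]
    exact hx0
  have hne : (A0 ∩ Ioo 0 (2 * π)).Nonempty := by
    have : y0 ∈ closure (Ioo 0 (2 * π)) := by
      rw [closure_Ioo (by positivity)]
      exact ⟨hy0.1, hy0.2.le⟩
    exact mem_closure_iff.1 this A0 hA0 hy0A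
  have hm := (hA0.inter isOpen_Ioo).measure_pos volume hne
  have hm0 : volume (A0 ∩ Ioo 0 (2 * π)) = 0 := by
    refine measure_mono_null ?_ (ae_iff.1 hae)
    intro x hx hcon
    have h1 := hcon ⟨hx.2.1, hx.2.2.le⟩
    have h2 := hpos x hx.1
    simp only [Pi.zero_apply] at h1
    linarith
  rw [hm0] at hm
  exact lt_irrefl _ hm

theorem WAN_perz {g : ℝ → ℝ} (hp : ∀ x, g (x + 2 * π) = g x + 2 * π) (p : ℤ) (x : ℝ) :
    g (x + 2 * π * p) = g x + 2 * π * p := by
  have h1 : Function.Periodic (fun x => g x - x) (2 * π) := by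
    intro x
    simp only [hp]
    ring
  have h2 : g (x + p * (2 * π)) - (x + p * (2 * π)) = g x - x := h1.int_mul p x
  rw [mul_comm (p : ℝ)] at h2
  linarith

theorem WAN_min {f : ℝ → ℝ} (hf : Continuous f) (hp : ∀ x, f (x + 2 * π) = f x)
    (hpos : ∀ x, 0 < f x) : ∃ c > 0, ∀ x, c ≤ f x := by
  obtain ⟨y, -, hy⟩ := isCompact_Icc.exists_isMinOn (s := Icc 0 (2 * π))
    (nonempty_Icc.2 (by positivity)) hf.continuousOn
  refine ⟨f y, hpos y, fun x => ?_⟩
  have hp' : Function.Periodic f (2 * π) := hp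
  obtain ⟨z, hz, hxz⟩ := hp'.exists_mem_Ico₀ Real.two_pi_pos x
  rw [hxz]
  exact hy ⟨hz.1, hz.2.le⟩

theorem WAN_gap (DER : S_DER) (INV : S_INV) {h k ρ : ℝ → ℝ} (hS : Sup h k ρ)
    {T2 : ℝ → ℝ → ℝ} (hT : IsT h k T2) {g1 g2 : ℝ → ℝ} (hg1 : Circ h k g1) (hg2 : Circ h k g2)
    (hle : ∀ x, g1 x ≤ g2 x) (xs : ℝ) (hxs : g1 xs < g2 xs) (e : ℝ) (he : g1 e = g2 e)
    (hN : ∀ (p q : ℕ) (x : ℝ), 0 < q → g1^[q] x ≤ x + 2 * π * p → x + 2 * π * p ≤ g2^[q] x →
      False) : False := by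
  have hpz1 := WAN_perz hg1.per
  have hpz2 := WAN_perz hg2.per
  have hEz : ∀ (p : ℤ) (x : ℝ), g1 x = g2 x → g1 (x + 2 * π * p) = g2 (x + 2 * π * p) := by
    intro p x hx
    rw [hpz1, hpz2, hx]
  have hOz : ∀ (p : ℤ) (x : ℝ), g1 x < g2 x → g1 (x + 2 * π * p) < g2 (x + 2 * π * p) := by
    intro p x hx
    rw [hpz1, hpz2]
    linarith
  have hEc : IsClosed {t | g1 t = g2 t} := isClosed_eq hg1.cont hg2.cont
  -- left end
  obtain ⟨a, haE, hax, haO⟩ : ∃ a, g1 a = g2 a ∧ a < xs ∧ ∀ t, a < t → t ≤ xs → g1 t < g2 t := by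
    obtain ⟨n, hn⟩ := exists_int_lt ((xs - e) / (2 * π))
    have hn' : e + 2 * π * n ≤ xs := by
      rw [lt_div_iff₀ Real.two_pi_pos] at hn
      nlinarith
    have hcl : IsClosed ({t | g1 t = g2 t} ∩ Iic xs) := hEc.inter isClosed_Iic
    have hne : ({t | g1 t = g2 t} ∩ Iic xs).Nonempty := ⟨_, hEz n e he, hn'⟩
    have hbd : BddAbove ({t | g1 t = g2 t} ∩ Iic xs) := ⟨xs, fun t ht => ht.2⟩
    obtain ⟨h1, h2⟩ := hcl.csSup_mem hne hbd
    refine ⟨sSup ({t | g1 t = g2 t} ∩ Iic xs), h1, lt_of_le_of_ne h2 ?_, ?_⟩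
    · intro h3
      have h4 : g1 (sSup ({t | g1 t = g2 t} ∩ Iic xs)) = g2 (sSup ({t | g1 t = g2 t} ∩ Iic xs)) :=
        h1
      rw [h3] at h4
      linarith
    · intro t ht1 ht2
      refine lt_of_le_of_ne (hle t) fun h3 => ?_
      exact absurd (le_csSup hbd ⟨h3, ht2⟩) (not_le.2 ht1)
  obtain ⟨b, hbE, hxb, hbO⟩ : ∃ b, g1 b = g2 b ∧ xs < b ∧ ∀ t, xs ≤ t → t < b → g1 t < g2 t := by
    obtain ⟨n, hn⟩ := exists_int_gt ((xs - e) / (2 * π))
    have hn' : xs ≤ e + 2 * π * n := by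
      rw [div_lt_iff₀ Real.two_pi_pos] at hn
      nlinarith
    have hcl : IsClosed ({t | g1 t = g2 t} ∩ Ici xs) := hEc.inter isClosed_Ici
    have hne : ({t | g1 t = g2 t} ∩ Ici xs).Nonempty := ⟨_, hEz n e he, hn'⟩
    have hbd : BddBelow ({t | g1 t = g2 t} ∩ Ici xs) := ⟨xs, fun t ht => ht.2⟩
    obtain ⟨h1, h2⟩ := hcl.csInf_mem hne hbd
    refine ⟨sInf ({t | g1 t = g2 t} ∩ Ici xs), h1, lt_of_le_of_ne h2 ?_, ?_⟩
    · intro h3
      have h4 : g1 (sInf ({t | g1 t = g2 t} ∩ Ici xs)) = g2 (sInf ({t | g1 t = g2 t} ∩ Ici xs)) :=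
        h1
      rw [← h3] at h4
      linarith
    · intro t ht1 ht2
      refine lt_of_le_of_ne (hle t) fun h3 => ?_
      exact absurd (csInf_le hbd ⟨h3, ht1⟩) (not_le.2 ht2)
  have hab : ∀ t, a < t → t < b → g1 t < g2 t := by
    intro t h1 h2
    rcases le_total t xs with h3 | h3
    · exact haO t h1 h3
    · exact hbO t h3 h2
  -- iterates
  have hEn : ∀ c, g1 c = g2 c → ∀ n : ℕ, g1 (g1^[n] c) = g2 (g1^[n] c) := by
    intro c hc n
    induction n with
    | zero => exact hc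
    | succ n ih =>
      rw [Function.iterate_succ_apply']
      exact WAN_E hT hg1 hg2 ih
  have hOn : ∀ (n : ℕ) t, g1^[n] a < t → t < g1^[n] b → g1 t < g2 t := by
    intro n
    induction n with
    | zero => exact hab
    | succ n ih =>
      intro t h1 h2
      rw [Function.iterate_succ_apply'] at h1 h2
      obtain ⟨s, hs⟩ := WAN_surj hg1 t
      rw [← hs] at h1 h2 ⊢
      exact WAN_Ec DER hS hT hg1 hg2 (ih s (hg1.mono.lt_iff_lt.1 h1) (hg1.mono.lt_iff_lt.1 h2))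
  have hOnz : ∀ (n : ℕ) (p : ℤ) t, g1^[n] a + 2 * π * p < t → t < g1^[n] b + 2 * π * p →
      g1 t < g2 t := by
    intro n p t h1 h2
    have h3 := hOz p (t - 2 * π * p) (hOn n (t - 2 * π * p) (by linarith) (by linarith))
    rwa [sub_add_cancel] at h3
  have hmap : ∀ (n : ℕ) (p : ℤ) x y, g1^[n] a + 2 * π * p < x → x < g1^[n] b + 2 * π * p →
      g1 x < y → y < g2 x → g1^[n + 1] a + 2 * π * p < y ∧ y < g1^[n + 1] b + 2 * π * p := by
    intro n p x y h1 h2 h3 h4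
    have h5 := hg1.mono h1
    have h6 := hg2.mono h2
    rw [hpz1] at h5
    rw [hpz2, ← hEn b hbE n] at h6
    rw [Function.iterate_succ_apply', Function.iterate_succ_apply']
    exact ⟨h5.trans h3, h4.trans h6⟩
  have hlt : ∀ (n : ℕ) x, x < g1^[n + 1] x := by
    intro n
    induction n with
    | zero => exact hg1.lo
    | succ n ih =>
      intro x
      rw [Function.iterate_succ_apply']
      exact (ih x).trans (hg1.lo _)
  have hz1 : ∀ (p : ℤ) (x y : ℝ), (x + 2 * π < y + 2 * π * p ↔ x < y + 2 * π * (p - 1 : ℤ)) := by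
    intro p x y
    push_cast
    constructor <;> intro h <;> linarith
  have hz2 : ∀ (p : ℤ) (x y : ℝ), (y + 2 * π * p < x + 2 * π ↔ y + 2 * π * (p - 1 : ℤ) < x) := by
    intro p x y
    push_cast
    constructor <;> intro h <;> linarith
  refine WAN_area INV hS hT hg1 hg2 (fun x y => WAN_strip DER hS hT hg1 hg2)
    (⋃ n : ℕ, ⋃ p : ℤ, Ioo (g1^[n + 1] a + 2 * π * p) (g1^[n + 1] b + 2 * π * p))
    (⋃ p : ℤ, Ioo (a + 2 * π * p) (b + 2 * π * p))
    (isOpen_iUnion fun n => isOpen_iUnion fun p => isOpen_Ioo).measurableSet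
    (isOpen_iUnion fun p => isOpen_Ioo) xs ?_ ?_ ?_ ?_ ?_ ?_
  · refine mem_iUnion.2 ⟨0, ?_⟩
    simp only [Int.cast_zero, mul_zero, add_zero]
    exact ⟨hax, hxb⟩
  · intro x
    simp only [mem_iUnion, mem_Ioo]
    constructor
    · rintro ⟨n, p, h1, h2⟩
      exact ⟨n, p - 1, (hz2 p _ _).1 h1, (hz1 p _ _).1 h2⟩
    · rintro ⟨n, p, h1, h2⟩
      refine ⟨n, p + 1, (hz2 (p + 1) _ _).2 ?_, (hz1 (p + 1) _ _).2 ?_⟩ <;> simpa using by assumption
  · intro x
    simp only [mem_iUnion, mem_Ioo]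
    constructor
    · rintro ⟨p, h1, h2⟩
      exact ⟨p - 1, (hz2 p _ _).1 h1, (hz1 p _ _).1 h2⟩
    · rintro ⟨p, h1, h2⟩
      refine ⟨p + 1, (hz2 (p + 1) _ _).2 ?_, (hz1 (p + 1) _ _).2 ?_⟩ <;> simpa using by assumption
  · intro x hx
    obtain ⟨p, h1, h2⟩ := mem_iUnion.1 hx
    exact hOnz 0 p x h1 h2
  · intro x hx hx'
    obtain ⟨q, h1, h2⟩ := mem_iUnion.1 hx
    obtain ⟨n, hn⟩ := mem_iUnion.1 hx'
    obtain ⟨p, h3, h4⟩ := mem_iUnion.1 hn
    have e1 := hEz q a haE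
    have e2 := hEz p _ (hEn a haE (n + 1))
    have heq : g1^[n + 1] a + 2 * π * p = a + 2 * π * q := by
      rcases lt_trichotomy (g1^[n + 1] a + 2 * π * p) (a + 2 * π * q) with h5 | h5 | h5
      · have := hOnz (n + 1) p _ h5 (h1.trans h4)
        linarith
      · exact h5
      · have := hOnz 0 q _ h5 (h3.trans h2)
        linarith
    have h6 := hlt n a
    have h7 : (0 : ℝ) < ((q - p : ℤ) : ℝ) := by
      push_cast
      have h8 : 0 < 2 * π * ((q : ℝ) - p) := by linarith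
      exact (mul_pos_iff_of_pos_left (by positivity)).1 h8
    have h8 : 0 < q - p := by exact_mod_cast h7
    obtain ⟨P, hP⟩ := Int.eq_ofNat_of_zero_le h8.le
    have h9 : ((P : ℕ) : ℝ) = (q : ℝ) - p := by
      have : ((q - p : ℤ) : ℝ) = ((P : ℤ) : ℝ) := by rw [hP]
      push_cast at this
      linarith
    have h10 : g1^[n + 1] a = a + 2 * π * P := by
      rw [h9]
      linarith
    refine hN P (n + 1) a (Nat.succ_pos n) h10.le ?_
    rw [← h10]
    exact hg1.mono.monotone.iterate_le_of_le hle (n + 1) a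
  · rintro x (hx | hx) y h1 h2
    · obtain ⟨n, hn⟩ := mem_iUnion.1 hx
      obtain ⟨p, h3, h4⟩ := mem_iUnion.1 hn
      exact mem_iUnion.2 ⟨n + 1, mem_iUnion.2 ⟨p, hmap (n + 1) p x y h3 h4 h1 h2⟩⟩
    · obtain ⟨p, h3, h4⟩ := mem_iUnion.1 hx
      exact mem_iUnion.2 ⟨0, mem_iUnion.2 ⟨p, hmap 0 p x y h3 h4 h1 h2⟩⟩

theorem WAN_SA {h k : ℝ → ℝ} {g1 g2 : ℝ → ℝ} (hg1 : Circ h k g1) (hg2 : Circ h k g2)
    (hle : ∀ x, g1 x ≤ g2 x) {δ : ℝ} (hδ : ∀ x, g1 x + δ ≤ g2 x)
    (hN : ∀ (p q : ℕ) (x y : ℝ), 0 < q → g1^[q] y ≤ y + 2 * π * p → x + 2 * π * p ≤ g2^[q] x →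
      False) (P q : ℕ) (hq : 0 < q) (w : ℝ) (h1 : g1^[q] w ≤ w + 2 * π * P)
    (h2 : w + 2 * π * P - δ < g1^[q] w) : False := by
  refine hN P q w w hq h1 ?_
  obtain ⟨m, rfl⟩ : ∃ m, q = m + 1 := ⟨q - 1, by omega⟩
  rw [Function.iterate_succ_apply'] at h2 ⊢
  have h3 := hδ (g1^[m] w)
  have h4 : g1^[m] w ≤ g2^[m] w := hg1.mono.monotone.iterate_le_of_le hle m w
  have h5 := hg2.mono.monotone h4
  linarith

theorem WAN_all {h k : ℝ → ℝ} {g1 g2 : ℝ → ℝ} (hg1 : Circ h k g1) (hg2 : Circ h k g2)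
    (hlt : ∀ x, g1 x < g2 x)
    (hN : ∀ (p q : ℕ) (x y : ℝ), 0 < q → g1^[q] y ≤ y + 2 * π * p → x + 2 * π * p ≤ g2^[q] x →
      False) : False := by
  have hle : ∀ x, g1 x ≤ g2 x := fun x => (hlt x).le
  obtain ⟨δ, hδ, hδ'⟩ := WAN_min (f := fun x => g2 x - g1 x) (hg2.cont.sub hg1.cont)
    (by intro x; simp only [hg1.per, hg2.per]; ring) (fun x => sub_pos.2 (hlt x))
  have hδ2 : ∀ x, g1 x + δ ≤ g2 x := by
    intro x
    have := hδ' x
    linarith
  set η : ℝ := min δ π with hη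
  have hη0 : 0 < η := lt_min hδ Real.pi_pos
  have hηδ : η ≤ δ := min_le_left _ _
  have hηπ : η ≤ π := min_le_right _ _
  have hmle : ∀ (n : ℕ) x, g1^[n] x ≤ g2^[n] x := fun n x =>
    hg1.mono.monotone.iterate_le_of_le hle n x
  have hge : ∀ (n : ℕ) x, x ≤ g1^[n] x := by
    intro n
    induction n with
    | zero => exact fun x => le_rfl
    | succ n ih =>
      intro x
      rw [Function.iterate_succ_apply']
      exact (ih x).trans (hg1.lo _).le
  -- close return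
  obtain ⟨z, n, P, hn, hz1, hz2⟩ : ∃ (z : ℝ) (n P : ℕ), 0 < n ∧ g1^[n] z < z + 2 * π * P + η ∧
      z + 2 * π * P - η < g1^[n] z := by
    set u : ℕ → ℝ := fun j => Int.fract (g1^[j] 0 / (2 * π)) with hu
    obtain ⟨l, -, φ, hφ, hl⟩ := isCompact_Icc.tendsto_subseq (s := Icc (0 : ℝ) 1) (x := u)
      (fun j => ⟨Int.fract_nonneg _, (Int.fract_lt_one _).le⟩)
    have hε : 0 < η / (2 * π) / 2 := by positivity
    obtain ⟨N, hN'⟩ := Metric.tendsto_atTop.1 hl _ hε
    have h1 := hN' N le_rfl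
    have h2 := hN' (N + 1) (Nat.le_succ N)
    have h3 : |u (φ (N + 1)) - u (φ N)| < η / (2 * π) := by
      rw [Real.dist_eq] at h1 h2
      simp only [Function.comp] at h1 h2
      have := abs_lt.1 h1
      have := abs_lt.1 h2
      rw [abs_lt]
      constructor <;> linarith
    have h4 : φ N < φ (N + 1) := hφ (Nat.lt_succ_self N)
    set i := φ N
    set j := φ (N + 1)
    have e1 : g1^[j] 0 = g1^[j - i] (g1^[i] 0) := by
      rw [← Function.iterate_add_apply]
      congr 2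
      omega
    have h5 : ∀ m : ℕ, g1^[m] 0 = 2 * π * (⌊g1^[m] 0 / (2 * π)⌋ + u m) := by
      intro m
      simp only [hu]
      rw [Int.floor_add_fract]
      field_simp
    set p : ℤ := ⌊g1^[j] 0 / (2 * π)⌋ - ⌊g1^[i] 0 / (2 * π)⌋ with hp
    have h6 : g1^[j] 0 - g1^[i] 0 = 2 * π * p + 2 * π * (u j - u i) := by
      have a1 := h5 j
      have a2 := h5 i
      rw [hp]
      push_cast
      linear_combination a1 - a2
    have h7 : |2 * π * (u j - u i)| < η := by
      rw [abs_mul, abs_of_pos Real.two_pi_pos]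
      rw [lt_div_iff₀ Real.two_pi_pos] at h3
      linarith
    obtain ⟨h8, h9⟩ := abs_lt.1 h7
    have h10 := hge (j - i) (g1^[i] 0)
    rw [← e1] at h10
    have hp0 : 0 ≤ p := by
      by_contra hneg
      have h11 : p ≤ -1 := by omega
      have h12 : (p : ℝ) ≤ -1 := by exact_mod_cast h11
      have h13 : 2 * π * (p : ℝ) ≤ 2 * π * (-1) :=
        mul_le_mul_of_nonneg_left h12 (by positivity)
      linarith [Real.pi_pos]
    obtain ⟨P, hP⟩ := Int.eq_ofNat_of_zero_le hp0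
    have hP' : (p : ℝ) = P := by rw [hP]; rfl
    refine ⟨g1^[i] 0, j - i, P, by omega, ?_, ?_⟩
    · rw [← e1, ← hP']
      linarith
    · rw [← e1, ← hP']
      linarith
  rcases le_or_gt (g1^[n] z) (z + 2 * π * P) with hA | hB
  · exact WAN_SA hg1 hg2 hle hδ2 hN P n hn z hA (by linarith)
  by_cases hex : ∃ y, g1^[n] y ≤ y + 2 * π * P
  · obtain ⟨y, hy⟩ := hex
    exact hN P n z y hn hy (hB.le.trans (hmle n z))
  have hex' : ∀ y, y + 2 * π * P < g1^[n] y := by
    intro y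
    by_contra hc
    exact hex ⟨y, not_lt.1 hc⟩
  have hcn : Continuous (g1^[n]) := hg1.cont.iterate n
  have hmn : Monotone (g1^[n]) := hg1.mono.monotone.iterate n
  have hpn : ∀ m : ℕ, ∀ x, g1^[m] (x + 2 * π) = g1^[m] x + 2 * π := by
    intro m
    induction m with
    | zero => exact fun x => rfl
    | succ m ih =>
      intro x
      rw [Function.iterate_succ_apply', ih, hg1.per, Function.iterate_succ_apply']
  have hpnz := WAN_perz (hpn n)
  set G : ℝ → ℝ := fun y => g1^[n] y - 2 * π * P with hG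
  have hGm : Monotone G := fun x y hxy => sub_le_sub_right (hmn hxy) _
  have hGp : ∀ x, G (x + 2 * π) = G x + 2 * π := by
    intro x
    simp only [hG, hpn]
    ring
  obtain ⟨c, hc, hcG⟩ := WAN_min (f := fun y => G y - y) ((hcn.sub continuous_const).sub
    continuous_id) (by intro x; simp only [hGp]; ring) (by
      intro x
      have := hex' x
      simp only [hG]
      linarith)
  have hGc : ∀ y, y + c ≤ G y := by
    intro y
    have := hcG y
    linarith
  have hGn : ∀ m : ℕ, z + m * c ≤ G^[m] z := by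
    intro m
    induction m with
    | zero => simp
    | succ m ih =>
      rw [Function.iterate_succ_apply']
      have := hGc (G^[m] z)
      push_cast
      linarith
  have hexm : ∃ m : ℕ, z + 2 * π < G^[m] z := by
    obtain ⟨m, hm⟩ := exists_nat_gt (2 * π / c)
    refine ⟨m, lt_of_lt_of_le ?_ (hGn m)⟩
    rw [div_lt_iff₀ hc] at hm
    linarith
  classical
  have hm0 := Nat.find_spec hexm
  have hmin := fun m => Nat.find_min (H := hexm) (m := m)
  set m0 := Nat.find hexm with hm0def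
  have hGz : G z < z + η := by
    simp only [hG]
    linarith
  have hm1 : m0 ≠ 0 := by
    intro h0
    rw [h0] at hm0
    simp only [Function.iterate_zero, id_eq] at hm0
    linarith [Real.pi_pos]
  have hm2 : m0 ≠ 1 := by
    intro h0
    rw [h0] at hm0
    simp only [Function.iterate_one] at hm0
    linarith [Real.pi_pos]
  obtain ⟨m, hm⟩ : ∃ m, m0 = m + 1 := ⟨m0 - 1, by omega⟩
  have hmle' : G^[m] z ≤ z + 2 * π := not_lt.1 (hmin m (by omega))
  rw [hm] at hm0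
  set w := G z with hw
  have hw1 : G^[m] w = G^[m + 1] z := by rw [hw, Function.iterate_succ_apply]
  have hw2 : G^[m] w ≤ w + 2 * π := by
    rw [hw1, Function.iterate_succ_apply', hw, ← hGp]
    exact hGm hmle'
  have hw3 : w + 2 * π - η < G^[m] w := by
    rw [hw1]
    linarith
  have hit : ∀ m : ℕ, ∀ x, g1^[n * m] x = G^[m] x + 2 * π * (P * m : ℕ) := by
    intro m
    induction m with
    | zero => intro x; simp
    | succ m ih =>
      intro x
      rw [Function.iterate_succ_apply', Nat.mul_succ, Nat.add_comm, Function.iterate_add_apply,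
        ih x]
      have h1 := hpnz ((P * m : ℕ) : ℤ) (G^[m] x)
      rw [Int.cast_natCast] at h1
      rw [h1]
      simp only [hG]
      push_cast
      ring
  refine WAN_SA hg1 hg2 hle hδ2 hN (P * m + 1) (n * m) (Nat.mul_pos hn (by omega)) w ?_ ?_
  · rw [hit m w]
    push_cast
    linarith
  · rw [hit m w]
    push_cast
    linarith

/-- WAN: no gap between circles without a rational number. -/
theorem t_WAN (h1 : S_DER) (h2 : S_TM) (h3 : S_INV) : S_WAN := by
  intro h k ρ hS g1 g2 hg1 hg2 hle hex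
  by_contra hcon
  have hN : ∀ (p q : ℕ) (x y : ℝ), 0 < q → g1^[q] y ≤ y + 2 * π * p →
      x + 2 * π * p ≤ g2^[q] x → False := fun p q x y hq h4 h5 =>
    hcon ⟨p, q, x, hq, ⟨y, h4⟩, h5⟩
  obtain ⟨T2, hT⟩ := h2 h k ρ hS
  obtain ⟨xs, hxs⟩ := hex
  by_cases he : ∃ e, g1 e = g2 e
  · obtain ⟨e, he⟩ := he
    exact WAN_gap h1 h3 hS hT hg1 hg2 hle xs hxs e he (fun p q x hq h4 h5 => hN p q x x hq h4 h5)
  · exact WAN_all hg1 hg2 (fun x => lt_of_le_of_ne (hle x) fun h => he ⟨x, h⟩) hN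

end

end Pool.Agent.H283R2.BK
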