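import Pool.Agent.H283R2.BK.Defs

/-!
Project BK, task Z: the loop `Z`.
-/

open Real Complex Set MeasureTheory

namespace Pool.Agent.H283R2.BK

noncomputable section

theorem Z_en_re (x : ℝ) : (en x).re = Real.cos x := by
  unfold en
  rw [Complex.exp_ofReal_mul_I_re]

theorem Z_en_im (x : ℝ) : (en x).im = Real.sin x := by
  unfold en
  rw [Complex.exp_ofReal_mul_I_im]

theorem Z_en_per (x : ℝ) : en (x + 2 * π) = en x := by
  apply Complex.ext
  · rw [Z_en_re, Z_en_re, Real.cos_add_two_pi]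
  · rw [Z_en_im, Z_en_im, Real.sin_add_two_pi]

theorem Z_uniq (z w : ℂ) (a b : ℝ) (hs : Real.sin (a - b) ≠ 0)
    (h1 : ip z (en a) = ip w (en a)) (h2 : ip z (en b) = ip w (en b)) : z = w := by
  unfold ip at h1 h2
  rw [Z_en_re, Z_en_im] at h1 h2
  rw [Real.sin_sub] at hs
  apply Complex.ext
  · have h : (z.re - w.re) * (Real.sin a * Real.cos b - Real.cos a * Real.sin b) = 0 := by
      linear_combination (-Real.sin b) * h1 + Real.sin a * h2
    rcases mul_eq_zero.mp h with h | h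
    · linarith
    · exact absurd h hs
  · have h : (z.im - w.im) * (Real.sin a * Real.cos b - Real.cos a * Real.sin b) = 0 := by
      linear_combination Real.cos b * h1 - Real.cos a * h2
    rcases mul_eq_zero.mp h with h | h
    · linarith
    · exact absurd h hs

theorem Z_contDiff {f f' : ℝ → ℝ} (h : ∀ x, HasDerivAt f (f' x) x) (hc : Continuous f') :
    ContDiff ℝ 1 f := by
  rw [contDiff_one_iff_deriv]
  refine ⟨fun x => (h x).differentiableAt, ?_⟩
  have : deriv f = f' := funext fun x => (h x).deriv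
  rw [this]
  exact hc

theorem t_Z : S_Z := by
  intro D v v' hD hv hv' hper hcl
  have F1 := Z_contDiff hD.d1 hD.c1
  have F2 := Z_contDiff hD.d2 hD.c2
  have F3 := Z_contDiff hD.d3 hD.c3
  have V := Z_contDiff hv hv'
  have hs12 : ∀ t, 0 < Real.sin (D.f2 t - D.f1 t) := fun t =>
    Real.sin_pos_of_pos_of_lt_pi (by linarith [hD.o12 t]) (by linarith [hD.g12 t])
  have hs23 : ∀ t, 0 < Real.sin (D.f3 t - D.f2 t) := fun t =>
    Real.sin_pos_of_pos_of_lt_pi (by linarith [hD.o23 t]) (by linarith [hD.g23 t])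
  set X : ℝ → ℝ := fun t => (v (D.b2 t) * Real.sin (D.u1 t) - v (D.b1 t) * Real.sin (D.u2 t))
    / Real.sin (D.f2 t - D.f1 t) with hX
  set Y : ℝ → ℝ := fun t => (v (D.b1 t) * Real.cos (D.u2 t) - v (D.b2 t) * Real.cos (D.u1 t))
    / Real.sin (D.f2 t - D.f1 t) with hY
  have B1 : ContDiff ℝ 1 D.b1 := by
    unfold TD.b1
    exact (F2.add F3).div_const 2
  have B2 : ContDiff ℝ 1 D.b2 := by
    unfold TD.b2
    exact ((F3.add F1).add contDiff_const).div_const 2
  have U1 : ContDiff ℝ 1 D.u1 := by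
    unfold TD.u1
    exact contDiff_id.sub F1
  have U2 : ContDiff ℝ 1 D.u2 := by
    unfold TD.u2
    exact contDiff_id.sub F2
  have hXc : ContDiff ℝ 1 X := by
    refine ContDiff.div ?_ ?_ (fun t => (hs12 t).ne')
    · exact ((V.comp B2).mul (Real.contDiff_sin.comp U1)).sub
        ((V.comp B1).mul (Real.contDiff_sin.comp U2))
    · exact Real.contDiff_sin.comp (F2.sub F1)
  have hYc : ContDiff ℝ 1 Y := by
    refine ContDiff.div ?_ ?_ (fun t => (hs12 t).ne')
    · exact ((V.comp B1).mul (Real.contDiff_cos.comp U2)).sub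
        ((V.comp B2).mul (Real.contDiff_cos.comp U1))
    · exact Real.contDiff_sin.comp (F2.sub F1)
  set Z : ℝ → ℂ := fun t => (X t : ℂ) + (Y t : ℂ) * I with hZ
  have hZc : ContDiff ℝ 1 Z :=
    (Complex.ofRealCLM.contDiff.comp hXc).add
      ((Complex.ofRealCLM.contDiff.comp hYc).mul contDiff_const)
  have hZre : ∀ t, (Z t).re = X t := by
    intro t
    simp [hZ]
  have hZim : ∀ t, (Z t).im = Y t := by
    intro t
    simp [hZ]
  have e12 : ∀ t, Real.sin (D.f2 t - D.f1 t)
      = Real.sin (D.u1 t) * Real.cos (D.u2 t) - Real.cos (D.u1 t) * Real.sin (D.u2 t) := by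
    intro t
    rw [← Real.sin_sub]
    congr 1
    unfold TD.u1 TD.u2
    ring
  have k1 : ∀ t, ip (Z t) (en (D.u1 t)) = v (D.b1 t) := by
    intro t
    unfold ip
    rw [Z_en_re, Z_en_im, hZre, hZim, hX, hY]
    have h0 := (hs12 t).ne'
    dsimp only
    rw [div_mul_eq_mul_div, div_mul_eq_mul_div, ← add_div, div_eq_iff h0, e12]
    ring
  have k2 : ∀ t, ip (Z t) (en (D.u2 t)) = v (D.b2 t) := by
    intro t
    unfold ip
    rw [Z_en_re, Z_en_im, hZre, hZim, hX, hY]
    have h0 := (hs12 t).ne'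
    dsimp only
    rw [div_mul_eq_mul_div, div_mul_eq_mul_div, ← add_div, div_eq_iff h0, e12]
    ring
  have k3 : ∀ t, ip (Z t) (en (D.u3 t)) = v (D.b3 t) := by
    intro t
    have h := hcl t
    have a1 : Real.sin (D.A1 t) = Real.sin (D.f3 t - D.f2 t) := by
      unfold TD.A1
      rw [Real.sin_pi_sub]
    have a2 : Real.sin (D.A2 t) = - Real.sin (D.f3 t - D.f1 t) := by
      unfold TD.A2
      rw [Real.sin_sub_pi]
    have a3 : Real.sin (D.A3 t) = Real.sin (D.f2 t - D.f1 t) := by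
      unfold TD.A3
      rw [Real.sin_pi_sub]
    rw [a1, a2, a3, ← k1 t, ← k2 t] at h
    have h0 := (hs12 t).ne'
    have h2 : Real.sin (D.f2 t - D.f1 t) * (ip (Z t) (en (D.u3 t)) - v (D.b3 t)) = 0 := by
      unfold ip at h ⊢
      rw [Z_en_re, Z_en_im] at h ⊢
      rw [Z_en_re, Z_en_im] at h
      unfold TD.u1 TD.u2 at h
      unfold TD.u3
      simp only [Real.sin_sub, Real.cos_sub] at h ⊢
      linear_combination -h
    rcases mul_eq_zero.mp h2 with h3 | h3
    · exact absurd h3 h0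
    · linarith
  refine ⟨Z, deriv Z, ⟨?_, ?_, ?_⟩, fun t => ⟨k1 t, k2 t, k3 t⟩⟩
  · intro t
    exact ((hZc.differentiable one_ne_zero) t).hasDerivAt
  · exact hZc.continuous_deriv le_rfl
  · intro t
    have m1 : D.u1 (t + 2 * π) = D.u2 t + 2 * π := by
      unfold TD.u1 TD.u2
      rw [hD.s1]
      ring
    have m2 : D.u2 (t + 2 * π) = D.u3 t + 2 * π := by
      unfold TD.u2 TD.u3
      rw [hD.s2]
      ring
    have n1 : D.b1 (t + 2 * π) = D.b2 t := by
      unfold TD.b1 TD.b2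
      rw [hD.s2, hD.s3]
      ring
    have n2 : D.b2 (t + 2 * π) = D.b3 t + 2 * π := by
      unfold TD.b2 TD.b3
      rw [hD.s1, hD.s3]
      ring
    have p1 := k1 (t + 2 * π)
    have p2 := k2 (t + 2 * π)
    rw [m1, Z_en_per, n1, ← k2 t] at p1
    rw [m2, Z_en_per, n2, hper, ← k3 t] at p2
    refine Z_uniq _ _ _ _ ?_ p1 p2
    have : D.u2 t - D.u3 t = D.f3 t - D.f2 t := by
      unfold TD.u2 TD.u3
      ring
    rw [this]
    exact (hs23 t).ne'

end

end Pool.Agent.H283R2.BK
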