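import Pool.Agent.H283R2.BK.DER
import Pool.Agent.H283R2.BK.CAL
import Pool.Agent.H283R2.BK.SV
import Pool.Agent.H283R2.BK.TM
import Pool.Agent.H283R2.BK.INV
import Pool.Agent.H283R2.BK.HOPF
import Pool.Agent.H283R2.BK.REG
import Pool.Agent.H283R2.BK.GAP
import Pool.Agent.H283R2.BK.PAR
import Pool.Agent.H283R2.BK.Z
import Pool.Agent.H283R2.BK.CL
import Pool.Agent.H283R2.BK.CV
import Pool.Agent.H283R2.BK.H1
import Pool.Agent.H283R2.BK.H2
import Pool.Agent.H283R2.BK.MT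
import Pool.Agent.H283R2.BK.AP
import Pool.Agent.H283R2.BK.SEL
import Pool.Agent.H283R2.BK.NULT
import Pool.Agent.H283R2.BK.IX
import Pool.Agent.H283R2.BK.C3
import Pool.Agent.H283R2.BK.EL
import Pool.Agent.H283R2.BK.V3
import Pool.Agent.H283R2.BK.PW1
import Pool.Agent.H283R2.BK.PW2
import Pool.Agent.H283R2.BK.PW
import Pool.Agent.H283R2.BK.CG
import Pool.Agent.H283R2.BK.LIX
import Pool.Agent.H283R2.BK.SH
import Pool.Agent.H283R2.BK.E1
import Pool.Agent.H283R2.BK.CORE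
import Pool.Agent.H283R2.BK.OV
import Pool.Agent.H283R2.BK.E2
import Pool.Agent.H283R2.BK.LIM
import Pool.Agent.H283R2.BK.RGAP
import Pool.Agent.H283R2.BK.WAN
import Pool.Agent.H283R2.BK.RAT
import Pool.Agent.H283R2.BK.TW
import Pool.Agent.H283R2.BK.BR1
import Pool.Agent.H283R2.BK.BR2
import Pool.Agent.H283R2.BK.BR4
import Pool.Agent.H283R2.BK.BR5
import Pool.Agent.H283R2.BK.Glue

/-!
# Assembly of project BK
-/

namespace Pool.Agent.H283R2.BK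

theorem f_SV : S_SV := t_SV (t_CAL t_DER)
theorem f_TM : S_TM := t_TM t_DER
theorem f_INV : S_INV := t_INV t_DER
theorem f_HOPF : S_HOPF := t_HOPF f_SV f_TM f_INV
theorem f_REG : S_REG := t_REG f_SV
theorem f_GAP : S_GAP := t_GAP f_SV
theorem f_H1 : S_H1 := t_H1 t_CV
theorem f_AP : S_AP := t_AP t_MT
theorem f_NUL : S_NUL := t_NUL t_MT
theorem f_IX : S_IX := t_IX t_MT f_AP t_SEL f_NUL
theorem f_V3 : S_V3 := t_V3 t_C3 t_EL
theorem f_PW : S_PW := t_PW t_EL f_V3 (t_PW1 t_EL) (t_PW2 t_EL)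
theorem f_CG : S_CG := t_CG t_EL f_PW
theorem f_LIX : S_LIX := t_LIX f_IX f_CG
theorem f_CORE : S_CORE :=
  t_CORE f_HOPF f_REG f_GAP t_PAR t_Z t_CL f_H1 t_H2 f_LIX t_SH t_E1
theorem f_WAN : S_WAN := t_WAN t_DER f_TM f_INV
theorem f_RGAP : S_RGAP := t_RGAP (t_CAL t_DER)
theorem f_LIM : S_LIM := t_LIM t_DER
theorem f_RAT : S_RAT := t_RAT f_LIM f_RGAP f_WAN t_DER f_TM f_INV

end Pool.Agent.H283R2.BK
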