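import Pool.Agent.H283R2.BK.Defs

/-!
# Derivatives of `S`, `A`, `B`
-/

open Real Complex Set MeasureTheory

namespace Pool.Agent.H283R2.BK

theorem DER_x1 (f : ℝ → ℝ) (f' x y : ℝ) (hf : HasDerivAt f f' ((x + y) / 2)) :
    HasDerivAt (fun t => f ((t + y) / 2)) (f' / 2) x := by
  have h1 : HasDerivAt (fun t : ℝ => (t + y) / 2) (1 / 2) x :=
    ((hasDerivAt_id x).add_const y).div_const 2
  have h2 := HasDerivAt.comp x hf h1
  rw [mul_one_div] at h2
  exact h2

theorem DER_y1 (f : ℝ → ℝ) (f' x y : ℝ) (hf : HasDerivAt f f' ((x + y) / 2)) :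
    HasDerivAt (fun t => f ((x + t) / 2)) (f' / 2) y := by
  have h1 : HasDerivAt (fun t : ℝ => (x + t) / 2) (1 / 2) y :=
    ((hasDerivAt_id y).const_add x).div_const 2
  have h2 := HasDerivAt.comp y hf h1
  rw [mul_one_div] at h2
  exact h2

theorem DER_sx (x y : ℝ) :
    HasDerivAt (fun t => Real.sin ((y - t) / 2)) (-(Real.cos ((y - x) / 2)) / 2) x := by
  have h1 : HasDerivAt (fun t : ℝ => (y - t) / 2) ((-1) / 2) x :=
    ((hasDerivAt_id x).const_sub y).div_const 2
  convert h1.sin using 1; ring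

theorem DER_cx (x y : ℝ) :
    HasDerivAt (fun t => Real.cos ((y - t) / 2)) (Real.sin ((y - x) / 2) / 2) x := by
  have h1 : HasDerivAt (fun t : ℝ => (y - t) / 2) ((-1) / 2) x :=
    ((hasDerivAt_id x).const_sub y).div_const 2
  convert h1.cos using 1; ring

theorem DER_sy (x y : ℝ) :
    HasDerivAt (fun t => Real.sin ((t - x) / 2)) (Real.cos ((y - x) / 2) / 2) y := by
  have h1 : HasDerivAt (fun t : ℝ => (t - x) / 2) (1 / 2) y :=
    ((hasDerivAt_id y).sub_const x).div_const 2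
  convert h1.sin using 1; ring

theorem DER_cy (x y : ℝ) :
    HasDerivAt (fun t => Real.cos ((t - x) / 2)) (-(Real.sin ((y - x) / 2)) / 2) y := by
  have h1 : HasDerivAt (fun t : ℝ => (t - x) / 2) (1 / 2) y :=
    ((hasDerivAt_id y).sub_const x).div_const 2
  convert h1.cos using 1; ring

theorem t_DER : S_DER := by
  intro h k ρ hS x y
  have hx := DER_x1 h _ x y (hS.dh _)
  have hy := DER_y1 h _ x y (hS.dh _)
  have kx := DER_x1 k _ x y (hS.dk _)
  have ky := DER_y1 k _ x y (hS.dk _)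
  refine ⟨?_, ?_, ?_, ?_, ?_, ?_⟩
  · refine ((hx.const_mul 2).mul (DER_sx x y)).congr_deriv ?_
    unfold Am; ring
  · refine ((hy.const_mul 2).mul (DER_sy x y)).congr_deriv ?_
    unfold Bm; ring
  · refine ((hx.mul (DER_cx x y)).sub (kx.mul (DER_sx x y))).congr_deriv ?_
    unfold S11; ring
  · refine ((hy.mul (DER_cy x y)).sub (ky.mul (DER_sy x y))).congr_deriv ?_
    unfold S12; ring
  · refine ((hx.mul (DER_cx x y)).add (kx.mul (DER_sx x y))).congr_deriv ?_
    unfold S12; ring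
  · refine ((hy.mul (DER_cy x y)).add (ky.mul (DER_sy x y))).congr_deriv ?_
    unfold S22; ring

end Pool.Agent.H283R2.BK
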