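import Pool.Agent.H283R2.BK.Defs2

/-!
# Foliated version for general strictly convex tables
-/

open Real Complex Set MeasureTheory

namespace Pool.Agent.H283R2.BK

noncomputable section

/-- an invariant circle in graph form: `f s` is the end point of the chord of the circle starting
at the boundary point `s` -/
structure InvGraph (γ : ℝ → ℂ) (L : ℝ) (f : ℝ → ℝ) : Prop where
  cont : Continuous f
  mono : StrictMono f
  per : ∀ s, f (s + L) = f s + L
  lo : ∀ s, s < f s
  hi : ∀ s, f s < s + L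
  refl : ∀ s, Cin γ s (f s) = Cout γ (f s) (f (f s))

/-- transfer of a covering by invariant circles to line coordinates -/
def S_BR5 : Prop := ∀ (γ : ℝ → ℂ) (L : ℝ) (F φ : ℝ → ℝ) (δ : ℝ → ℂ) (ρ : ℝ → ℝ),
  Table γ L → InvGraph γ L F → (∀ s, F (F (F s)) = s + L) →
  (∀ s s', s < s' → s' < F s → ∃ f, InvGraph γ L f ∧ f s = s') →
  IsOval δ ρ → Continuous φ → StrictMono φ →
  (∀ s, φ (s + L) = φ s + 2 * Real.pi) → (∀ s, γ s = δ (φ s)) →
  (∀ s, deriv γ s = I * cexp (φ s * I)) →
  ∃ G, InvCircle δ G ∧ (∀ x, G (G (G x)) = x + 2 * Real.pi) ∧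
    ∀ x y, x < y → y < G x → ∃ g, InvCircle δ g ∧ g x = y

end

end Pool.Agent.H283R2.BK
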