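import Pool.Agent.H283R2.BK.Core
import Pool.Agent.H283R2.BK.BR3

/-!
# Final forms of the theorems of project BK
-/

open Real Complex Set MeasureTheory

namespace Pool.Agent.H283R2.BK

theorem final_rat (γ : ℝ → ℂ) (L : ℝ) (hT : Table γ L)
    (hr : ∀ p q : ℕ, 0 < p → 3 * p ≤ q → Nat.Coprime p q → ∃ x y, RotCircle γ L p q x y) :
    IsEll γ :=
  table_rat f_CORE t_OV t_E2 f_RAT (t_BR1 t_TW) (t_BR2 t_TW) t_BR3 (t_BR4 t_TW) γ L hT hr

theorem final_fol (γ : ℝ → ℂ) (L : ℝ) (hT : Table γ L) (F : ℝ → ℝ) (hF : InvGraph γ L F)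
    (h3 : ∀ s, F (F (F s)) = s + L)
    (hc : ∀ s s', s < s' → s' < F s → ∃ f, InvGraph γ L f ∧ f s = s') :
    IsEll γ := by
  have hG : Graph γ L 1 3 F := by
    refine ⟨hF.cont, hF.mono, hF.per, hF.lo, hF.hi, hF.refl, ?_⟩
    intro s
    simpa [Function.iterate_succ, Function.comp] using h3 s
  obtain ⟨φ, δ, ρ, hO, hφ, hm, hper, hγδ, hder, hran⟩ := t_BR3 γ L hT
    (t_BR2 t_TW γ L 1 3 F hT (by norm_num) hG)
  obtain ⟨G, hGc, hG3, hcov⟩ := t_BR5 t_TW γ L F φ δ ρ hT hF h3 hc hO hφ hm hper hγδ hder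
  obtain ⟨c, a, b, d, h1, h2, h4⟩ := oval_cov f_CORE t_OV t_E2 δ ρ G hO hGc hG3
    (Filter.Eventually.of_forall fun z a b => hcov z.1 z.2 a b)
  exact ⟨c, a, b, d, h1, h2, hran.trans h4⟩

end Pool.Agent.H283R2.BK
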