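import Pool.Agent.H283R2.BK.Defs

/-! Task MT: the solution operator of the comparison system -/

open Real Complex Set MeasureTheory

namespace Pool.Agent.H283R2.BK

noncomputable section

theorem MT_en_zero : en 0 = 1 := by simp [en]

theorem MT_en_add (x y : ℝ) : en (x + y) = en x * en y := by
  unfold en
  rw [← Complex.exp_add]
  congr 1
  push_cast
  ring

theorem MT_en_conj (x : ℝ) : (starRingEnd ℂ) (en x) = en (-x) := by
  unfold en
  rw [← Complex.exp_conj]
  congr 1
  rw [map_mul, Complex.conj_ofReal, Complex.conj_I]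
  push_cast
  ring

theorem MT_en_neg (x : ℝ) : en x * en (-x) = 1 := by
  rw [← MT_en_add, add_neg_cancel, MT_en_zero]

theorem MT_en_4pi : en (2 * (2 * π)) = 1 := by
  unfold en
  rw [Complex.exp_eq_one_iff]
  exact ⟨2, by push_cast; ring⟩

theorem MT_en_neg4pi : en (-(2 * (2 * π))) = 1 := by
  have h := MT_en_neg (2 * (2 * π))
  rwa [MT_en_4pi, one_mul] at h

theorem MT_en_deriv (s r : ℝ) :
    HasDerivAt (fun t : ℝ => en (2 * (t - s))) (2 * I * en (2 * (r - s))) r := by
  have h1 : HasDerivAt (fun t : ℝ => (((2 * (t - s) : ℝ) : ℂ) * I)) (2 * I) r := by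
    have h2 : HasDerivAt (fun t : ℝ => (2 * (t - s) : ℝ)) 2 r := by
      simpa using ((hasDerivAt_id r).sub_const s).const_mul 2
    have h3 := h2.ofReal_comp.mul_const I
    simpa using h3
  have h4 := h1.cexp
  unfold en
  convert h4 using 1
  ring

theorem MT_en_deriv' (s r : ℝ) :
    HasDerivAt (fun t : ℝ => en (-(2 * (t - s)))) (-(2 * I) * en (-(2 * (r - s)))) r := by
  have h1 : HasDerivAt (fun t : ℝ => (((-(2 * (t - s)) : ℝ) : ℂ) * I)) (-(2 * I)) r := by
    have h2 : HasDerivAt (fun t : ℝ => (-(2 * (t - s)) : ℝ)) (-2) r := by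
      have h5 := ((hasDerivAt_id r).sub_const s).const_mul (-2)
      have h6 : (fun t : ℝ => (-(2 * (t - s)) : ℝ)) = fun t : ℝ => -2 * (t - s) := by
        funext t
        ring
      rw [h6]
      simpa using h5
    have h3 := h2.ofReal_comp.mul_const I
    simpa using h3
  have h4 := h1.cexp
  unfold en
  convert h4 using 1
  ring

theorem MT_rh_pos {z : ℂ} (h : normSq z < 1) : 0 < rh z :=
  Real.sqrt_pos.2 (by linarith)

theorem MT_rh_sq {z : ℂ} (h : normSq z < 1) :
    ((rh z : ℝ) : ℂ) * ((rh z : ℝ) : ℂ) = 1 - z * (starRingEnd ℂ) z := by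
  rw [← Complex.ofReal_mul]
  unfold rh
  rw [Real.mul_self_sqrt (by linarith), Complex.mul_conj]
  push_cast
  ring

theorem MT_rh_ne {z : ℂ} (h : normSq z < 1) : ((rh z : ℝ) : ℂ) ≠ 0 := by
  exact_mod_cast (MT_rh_pos h).ne'

/-- coefficients -/
def MT_al (c : ℝ → ℂ) (s r : ℝ) : ℂ :=
  (en (2 * (r - s)) - c r * (starRingEnd ℂ) (c s) * en (-(2 * (r - s))))
    / ((rh (c r) * rh (c s) : ℝ) : ℂ)

def MT_be (c : ℝ → ℂ) (s r : ℝ) : ℂ :=
  (c r * en (-(2 * (r - s))) - c s * en (2 * (r - s))) / ((rh (c r) * rh (c s) : ℝ) : ℂ)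

theorem MT_eq (c : ℝ → ℂ) (s r : ℝ) (V : ℂ) :
    Mt c s r V = MT_al c s r * V + MT_be c s r * (starRingEnd ℂ) V := by
  unfold Mt MT_al MT_be
  ring

theorem MT_al_conj (c : ℝ → ℂ) (s r : ℝ) : (starRingEnd ℂ) (MT_al c s r) =
    (en (-(2 * (r - s))) - (starRingEnd ℂ) (c r) * c s * en (2 * (r - s)))
    / ((rh (c r) * rh (c s) : ℝ) : ℂ) := by
  unfold MT_al
  simp only [map_div₀, map_sub, map_mul, Complex.conj_conj, MT_en_conj, Complex.conj_ofReal,
    neg_neg]

theorem MT_be_conj (c : ℝ → ℂ) (s r : ℝ) : (starRingEnd ℂ) (MT_be c s r) =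
    ((starRingEnd ℂ) (c r) * en (2 * (r - s)) - (starRingEnd ℂ) (c s) * en (-(2 * (r - s))))
    / ((rh (c r) * rh (c s) : ℝ) : ℂ) := by
  unfold MT_be
  simp only [map_div₀, map_sub, map_mul, MT_en_conj, Complex.conj_ofReal, neg_neg]

theorem MT_det {c : ℝ → ℂ} (h : ∀ t, normSq (c t) < 1) (s r : ℝ) :
    MT_al c s r * (starRingEnd ℂ) (MT_al c s r) -
      MT_be c s r * (starRingEnd ℂ) (MT_be c s r) = 1 := by
  rw [MT_al_conj, MT_be_conj]
  unfold MT_al MT_be
  have h1 := MT_rh_ne (h r)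
  have h2 := MT_rh_ne (h s)
  have h3 := MT_rh_sq (h r)
  have h4 := MT_rh_sq (h s)
  have h5 := MT_en_neg (2 * (r - s))
  rw [Complex.ofReal_mul]
  generalize ((rh (c r) : ℝ) : ℂ) = p at *
  generalize ((rh (c s) : ℝ) : ℂ) = q at *
  generalize en (2 * (r - s)) = E at *
  generalize en (-(2 * (r - s))) = E' at *
  generalize (starRingEnd ℂ) (c r) = a' at *
  generalize (starRingEnd ℂ) (c s) = b' at *
  generalize c r = a at *
  generalize c s = b at *
  have h6 : (E - a * b' * E') / (p * q) * ((E' - a' * b * E) / (p * q)) -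
      (a * E' - b * E) / (p * q) * ((a' * E - b' * E') / (p * q)) =
      ((1 - a * a') * (1 - b * b') * (E * E')) / ((p * p) * (q * q)) := by
    rw [div_mul_div_comm, div_mul_div_comm, ← sub_div]
    congr 1 <;> ring
  rw [h6, h5, h3, h4, mul_one, div_self]
  rw [← h3, ← h4]
  positivity

theorem MT_cr (z w : ℂ) : ((cr z w : ℝ) : ℂ) =
    ((starRingEnd ℂ) z * w - z * (starRingEnd ℂ) w) / (2 * I) := by
  unfold cr
  rw [eq_div_iff (by simp)]
  apply Complex.ext
  · simp
  · simp
    ring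

theorem MT_group {c : ℝ → ℂ} (h : ∀ t, normSq (c t) < 1) (s r u : ℝ) (V : ℂ) :
    Mt c r u (Mt c s r V) = Mt c s u V := by
  have hconj : (starRingEnd ℂ) (Mt c s r V) =
      (en (-(2 * (r - s))) * ((starRingEnd ℂ) V - (starRingEnd ℂ) (c s) * V)
        + (starRingEnd ℂ) (c r) * en (2 * (r - s)) * (V - c s * (starRingEnd ℂ) V))
        / ((rh (c r) * rh (c s) : ℝ) : ℂ) := by
    unfold Mt
    simp only [map_div₀, map_sub, map_mul, map_add, MT_en_conj, Complex.conj_ofReal, neg_neg,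
      Complex.conj_conj]
  have e1 : en (2 * (u - s)) = en (2 * (u - r)) * en (2 * (r - s)) := by
    rw [← MT_en_add]
    congr 1
    ring
  have e2 : en (-(2 * (u - s))) = en (-(2 * (u - r))) * en (-(2 * (r - s))) := by
    rw [← MT_en_add]
    congr 1
    ring
  have h1 := MT_rh_ne (h r)
  have h2 := MT_rh_ne (h s)
  have h7 := MT_rh_ne (h u)
  have h3 := MT_rh_sq (h r)
  have k1 : Mt c r u (Mt c s r V) =
      (en (2 * (u - r)) * (Mt c s r V - c r * (starRingEnd ℂ) (Mt c s r V))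
    + c u * en (-(2 * (u - r))) * ((starRingEnd ℂ) (Mt c s r V) -
      (starRingEnd ℂ) (c r) * Mt c s r V)) / ((rh (c u) * rh (c r) : ℝ) : ℂ) := rfl
  rw [k1, hconj]
  unfold Mt
  rw [e1, e2]
  simp only [Complex.ofReal_mul]
  generalize ((rh (c r) : ℝ) : ℂ) = p at *
  generalize ((rh (c s) : ℝ) : ℂ) = q at *
  generalize ((rh (c u) : ℝ) : ℂ) = o at *
  generalize en (2 * (r - s)) = E at *
  generalize en (-(2 * (r - s))) = E' at *
  generalize en (2 * (u - r)) = F at *
  generalize en (-(2 * (u - r))) = F' at *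
  generalize (starRingEnd ℂ) (c r) = a' at *
  generalize (starRingEnd ℂ) (c s) = b' at *
  generalize (starRingEnd ℂ) V = V' at *
  generalize c r = a at *
  generalize c s = b at *
  generalize c u = d at *
  have h6 : (F * ((E * (V - b * V') + a * E' * (V' - b' * V)) / (p * q) -
        a * ((E' * (V' - b' * V) + a' * E * (V - b * V')) / (p * q))) +
      d * F' * ((E' * (V' - b' * V) + a' * E * (V - b * V')) / (p * q) -
        a' * ((E * (V - b * V') + a * E' * (V' - b' * V)) / (p * q)))) / (o * p) =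
      ((F * E * (V - b * V') + d * (F' * E') * (V' - b' * V)) / (o * q)) *
        ((1 - a * a') / (p * p)) := by
    field_simp
    ring
  rw [h6, ← h3, div_self (mul_ne_zero h1 h1), mul_one]

theorem MT_self {c : ℝ → ℂ} (h : ∀ t, normSq (c t) < 1) (s : ℝ) (V : ℂ) : Mt c s s V = V := by
  unfold Mt
  rw [sub_self, mul_zero, neg_zero, MT_en_zero, Complex.ofReal_mul]
  have h1 := MT_rh_ne (h s)
  have h3 := MT_rh_sq (h s)
  have h6 : 1 * (V - c s * (starRingEnd ℂ) V) +
      c s * 1 * ((starRingEnd ℂ) V - (starRingEnd ℂ) (c s) * V) =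
      (1 - c s * (starRingEnd ℂ) (c s)) * V := by ring
  rw [h6, ← h3, mul_div_assoc, mul_comm, div_mul_cancel₀ _ (mul_ne_zero h1 h1)]

theorem MT_period {c c' : ℝ → ℂ} (h : Good c c') (s : ℝ) (V : ℂ) :
    Mt c s (s + 2 * π) V = V := by
  have h1 := MT_self h.lt s V
  unfold Mt at h1 ⊢
  rw [h.per s]
  rw [sub_self, mul_zero, neg_zero, MT_en_zero] at h1
  rw [show s + 2 * π - s = 2 * π by ring, MT_en_4pi, MT_en_neg4pi]
  exact h1

theorem MT_rh_deriv {c c' : ℝ → ℂ} (h : Good c c') (r : ℝ) :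
    HasDerivAt (fun t => rh (c t)) (-((starRingEnd ℂ) (c r) * c' r).re / rh (c r)) r := by
  have h1 : HasDerivAt (fun t => (c t).re) (c' r).re r := by
    exact Complex.reCLM.hasFDerivAt.comp_hasDerivAt r (h.d r)
  have h2 : HasDerivAt (fun t => (c t).im) (c' r).im r := by
    exact Complex.imCLM.hasFDerivAt.comp_hasDerivAt r (h.d r)
  have h3 : HasDerivAt (fun t => 1 - normSq (c t))
      (-(2 * ((starRingEnd ℂ) (c r) * c' r).re)) r := by
    have h4 := ((h1.mul h1).add (h2.mul h2)).const_sub 1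
    have h5 : (fun t => 1 - normSq (c t)) =
        fun t => 1 - ((c t).re * (c t).re + (c t).im * (c t).im) := by
      funext t
      rw [Complex.normSq_apply]
    rw [h5]
    refine HasDerivAt.congr_deriv h4 ?_
    simp only [Complex.mul_re, Complex.conj_re, Complex.conj_im]
    ring
  have hpos : 1 - normSq (c r) ≠ 0 := by
    have := h.lt r
    linarith
  have h6 := h3.sqrt hpos
  unfold rh
  convert h6 using 1
  have h7 : Real.sqrt (1 - normSq (c r)) ≠ 0 := (MT_rh_pos (h.lt r)).ne'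
  field_simp

theorem MT_deriv {c c' : ℝ → ℂ} (h : Good c c') (s r : ℝ) (V : ℂ) :
    HasDerivAt (fun t => Mt c s t V) (I * PP (c r) (c' r) (Mt c s r V)) r := by
  have h1 := MT_rh_ne (h.lt r)
  have h2 := MT_rh_ne (h.lt s)
  have h3 := MT_rh_sq (h.lt r)
  have hd := (MT_rh_deriv h r).ofReal_comp
  have d1 := (MT_en_deriv s r).mul_const (V - c s * (starRingEnd ℂ) V)
  have d2 := ((h.d r).mul (MT_en_deriv' s r)).mul_const
    ((starRingEnd ℂ) V - (starRingEnd ℂ) (c s) * V)
  have d3 := hd.mul_const ((rh (c s) : ℝ) : ℂ)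
  have d12 : HasDerivAt (fun t : ℝ => en (2 * (t - s)) * (V - c s * (starRingEnd ℂ) V)
    + c t * en (-(2 * (t - s))) * ((starRingEnd ℂ) V - (starRingEnd ℂ) (c s) * V))
    (2 * I * en (2 * (r - s)) * (V - c s * (starRingEnd ℂ) V) +
      (c' r * en (-(2 * (r - s))) + c r * (-(2 * I) * en (-(2 * (r - s))))) *
        ((starRingEnd ℂ) V - (starRingEnd ℂ) (c s) * V)) r := d1.add d2
  have d4 := d12.div d3 (mul_ne_zero h1 h2)
  have hfun : (fun t => Mt c s t V) = (fun t : ℝ => (en (2 * (t - s)) * (V - c s * (starRingEnd ℂ) V)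
    + c t * en (-(2 * (t - s))) * ((starRingEnd ℂ) V - (starRingEnd ℂ) (c s) * V))
    / (((rh (c t) : ℝ) : ℂ) * ((rh (c s) : ℝ) : ℂ))) := by
    funext t
    unfold Mt
    rw [Complex.ofReal_mul]
  rw [hfun]
  refine HasDerivAt.congr_deriv d4 ?_
  have hconj : (starRingEnd ℂ) (Mt c s r V) =
      (en (-(2 * (r - s))) * ((starRingEnd ℂ) V - (starRingEnd ℂ) (c s) * V)
        + (starRingEnd ℂ) (c r) * en (2 * (r - s)) * (V - c s * (starRingEnd ℂ) V))
        / ((rh (c r) * rh (c s) : ℝ) : ℂ) := by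
    unfold Mt
    simp only [map_div₀, map_sub, map_mul, map_add, MT_en_conj, Complex.conj_ofReal, neg_neg,
      Complex.conj_conj]
  unfold PP
  rw [hconj]
  unfold Mt ca cb
  have hn : ((1 - normSq (c r) : ℝ) : ℂ) = ((rh (c r) : ℝ) : ℂ) * ((rh (c r) : ℝ) : ℂ) := by
    rw [h3, Complex.mul_conj]
    push_cast
    ring
  have hns : ((normSq (c r) : ℝ) : ℂ) = c r * (starRingEnd ℂ) (c r) := (Complex.mul_conj _).symm
  have him : (((c r * (starRingEnd ℂ) (c' r)).im : ℝ) : ℂ) =
      (c r * (starRingEnd ℂ) (c' r) - (starRingEnd ℂ) (c r) * c' r) * (-I / 2) := by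
    rw [Complex.im_eq_sub_conj, map_mul, Complex.conj_conj]
    field_simp
    rw [Complex.I_sq]
    ring
  have hre : ((((starRingEnd ℂ) (c r) * c' r).re : ℝ) : ℂ) =
      ((starRingEnd ℂ) (c r) * c' r + c r * (starRingEnd ℂ) (c' r)) / 2 := by
    rw [Complex.re_eq_add_conj, map_mul, Complex.conj_conj]
  rw [hn]
  push_cast
  rw [hns, him, hre]
  generalize ((rh (c r) : ℝ) : ℂ) = p at *
  generalize ((rh (c s) : ℝ) : ℂ) = q at *
  generalize en (2 * (r - s)) = E at *
  generalize en (-(2 * (r - s))) = E' at *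
  generalize (starRingEnd ℂ) (c r) = a' at *
  generalize (starRingEnd ℂ) (c' r) = d' at *
  generalize (starRingEnd ℂ) (c s) = b' at *
  generalize (starRingEnd ℂ) V = V' at *
  generalize c r = a at *
  generalize c s = b at *
  generalize c' r = d at *
  generalize V - b * V' = W at *
  generalize V' - b' * V = W' at *
  field_simp
  have hI : I ^ 2 = -1 := Complex.I_sq
  have hp : p ^ 2 = 1 - a * a' := by rw [sq]; exact h3
  linear_combination (2 * (2 * I * E * W + E' * (d + -(2 * I * a)) * W')) * hp +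
    ((a * d' - d * a') * (E * W + E' * a * W') + 2 * d * (E' * W' + E * W * a')) * hI

theorem t_MT : S_MT := by
  intro c c' h
  refine ⟨MT_deriv h, MT_self h.lt, MT_period h, MT_group h.lt, ?_, ?_⟩
  · intro s r V W
    have hdet := MT_det h.lt s r
    have key : ((cr (Mt c s r V) (Mt c s r W) : ℝ) : ℂ) = ((cr V W : ℝ) : ℂ) := by
      rw [MT_cr, MT_cr, MT_eq, MT_eq]
      simp only [map_add, map_mul, Complex.conj_conj]
      congr 1
      linear_combination ((starRingEnd ℂ) V * W - V * (starRingEnd ℂ) W) * hdet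
    exact_mod_cast key
  · intro s r hD V hV
    have hdet := MT_det h.lt s r
    rw [MT_eq] at hV
    have hV' := congrArg (starRingEnd ℂ) hV
    simp only [map_add, map_mul, Complex.conj_conj] at hV'
    have hDt : ((Dt c s r : ℝ) : ℂ) = 2 - (MT_al c s r + (starRingEnd ℂ) (MT_al c s r)) := by
      unfold Dt
      push_cast
      rw [Complex.re_eq_add_conj, MT_al_conj]
      unfold MT_al
      simp only [map_sub, map_mul, Complex.conj_conj, MT_en_conj, neg_neg, Complex.ofReal_mul]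
      ring
    have h1 : ((Dt c s r : ℝ) : ℂ) * V = 0 := by
      rw [hDt]
      generalize MT_al c s r = al at *
      generalize MT_be c s r = be at *
      linear_combination ((starRingEnd ℂ) al - 1) * hV - be * hV' - V * hdet
    rcases mul_eq_zero.1 h1 with h2 | h2
    · exact absurd (by exact_mod_cast h2) hD
    · exact h2

end

end Pool.Agent.H283R2.BK
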